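import Pool.Agent.Burnside.Line

/-!
Part (III): the axes of the short loxodromic elements and their rotation groups.
-/

namespace Pool.Agent.Burnside

open Set Pointwise

variable {G X : Type*} [Group G] [MulAction G X] {d : X → X → ℕ} {δ C A T n : ℕ}

/-- the centraliser of an element -/
def Cz (u : G) : Subgroup G := Subgroup.centralizer {u}

lemma mem_Cz {u g : G} : g ∈ Cz u ↔ u * g = g * u := by
  rw [Cz, Subgroup.mem_centralizer_iff]
  simp

lemma conj_smul_Cz (g u : G) : MulAut.conj g • Cz u = Cz (g * u * g⁻¹) := by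
  ext x
  rw [Subgroup.mem_pointwise_smul_iff_inv_smul_mem, mem_Cz, mem_Cz, ← map_inv]
  have h1 : MulAut.conj g⁻¹ • x = g⁻¹ * x * g := by
    rw [MulAut.smul_def, MulAut.conj_apply, inv_inv]
  rw [h1]
  constructor
  · intro h
    have h2 : g * (u * (g⁻¹ * x * g)) * g⁻¹ = g * (g⁻¹ * x * g * u) * g⁻¹ := by rw [h]
    calc g * u * g⁻¹ * x = g * (u * (g⁻¹ * x * g)) * g⁻¹ := by group
      _ = g * (g⁻¹ * x * g * u) * g⁻¹ := h2
      _ = x * (g * u * g⁻¹) := by group
  · intro h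
    have h2 : g⁻¹ * (g * u * g⁻¹ * x) * g = g⁻¹ * (x * (g * u * g⁻¹)) * g := by rw [h]
    calc u * (g⁻¹ * x * g) = g⁻¹ * (g * u * g⁻¹ * x) * g := by group
      _ = g⁻¹ * (x * (g * u * g⁻¹)) * g := h2
      _ = g⁻¹ * x * g * u := by group

/-- the index type: centralisers of the elements `u` with `u ^ n ≠ 1` which move some point by at
most `D` -/
def AxI {G X : Type*} [Group G] [MulAction G X] {d : X → X → ℕ} (_hG : Isom G d) (n D : ℕ) :
    Type _ :=
  {K : Subgroup G // ∃ u : G, u ^ n ≠ 1 ∧ (∃ x : X, d x (u • x) ≤ D) ∧ K = Cz u}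

instance (hG : Isom G d) (n D : ℕ) : MulAction G (AxI hG n D) where
  smul g K := ⟨MulAut.conj g • K.1, by
    obtain ⟨u, h1, ⟨x, hx⟩, h2⟩ := K.2
    refine ⟨g * u * g⁻¹, ?_, ⟨g • x, ?_⟩, ?_⟩
    · intro h
      apply h1
      rw [conj_pow] at h
      have h3 : u ^ n = g⁻¹ * (g * u ^ n * g⁻¹) * g := by group
      rw [h3, h]
      group
    · rw [mul_smul, mul_smul, inv_smul_smul, hG]
      exact hx
    · rw [h2, conj_smul_Cz]⟩
  one_smul K := by
    apply Subtype.ext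
    show MulAut.conj 1 • K.1 = K.1
    rw [map_one, one_smul]
  mul_smul g h K := by
    apply Subtype.ext
    show MulAut.conj (g * h) • K.1 = MulAut.conj g • MulAut.conj h • K.1
    rw [map_mul, mul_smul]

lemma AxI.smul_val {hG : Isom G d} {n D : ℕ} (g : G) (K : AxI hG n D) :
    (g • K).1 = MulAut.conj g • K.1 := rfl

/-- the axis -/
def AxY {hG : Isom G d} {n D : ℕ} (c : ℕ) (K : AxI hG n D) : Set X :=
  {x | ∀ h ∈ K.1, (d x (h • x) : ℝ) ≤ sl d h + c}

/-- the rotation group -/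
def AxR {hG : Isom G d} {n D : ℕ} (K : AxI hG n D) : Subgroup G :=
  Subgroup.closure {s | ∃ g ∈ K.1, s = g ^ n}

/-- the constants -/
def cH (δ : ℕ) : ℕ := 4 * δ + 2
def cD1 (δ : ℕ) : ℕ := 4 * cH δ + 2
def cD2 (δ : ℕ) : ℕ := 16 * cH δ + 2
def cκ (δ : ℕ) : ℕ := 58 * cH δ
def cη (δ : ℕ) : ℕ := 4 * δ + cκ δ + 1
def cΘ (δ A : ℕ) : ℕ := A + 8 * (cD2 δ + 2 * (cη δ + cκ δ)) + 4 * δ + 4
def cE (δ T : ℕ) : ℕ := 2 * (Nat.clog 2 (T * (2 * cη δ + 1)) * δ) + 2 * cη δ
def cc0 (δ : ℕ) : ℕ := 8 * (18 * cH δ + 2 * cη δ + cD2 δ) + 4 * δ + 12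

/-- a point of an interval is close to one of the pieces of a path with the same ends -/
lemma log_path (hd : IsGeod d) (hs : Slim d δ) : ∀ (k m : ℕ) (p : ℕ → X), m ≤ 2 ^ k → 1 ≤ m →
    ∀ z ∈ Intv d (p 0) (p m), ∃ i < m, ∃ v ∈ Intv d (p i) (p (i + 1)), d z v ≤ k * δ := by
  intro k
  induction k with
  | zero =>
    intro m p hm hm1 z hz
    have h1 : m = 1 := by
      rw [pow_zero] at hm
      omega
    subst h1
    exact ⟨0, by omega, z, hz, by rw [hd.self]; omega⟩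
  | succ k ih =>
    intro m p hm hm1 z hz
    have hk : (k + 1) * δ = k * δ + δ := by ring
    rcases le_or_gt m (2 ^ k) with h | h
    · obtain ⟨i, hi, v, hv, hvd⟩ := ih m p h hm1 z hz
      exact ⟨i, hi, v, hv, by omega⟩
    · have hpos : 0 < 2 ^ k := by positivity
      obtain ⟨w, hw, hwd⟩ := hs (p 0) (p m) (p (2 ^ k)) z hz
      rcases hw with hw | hw
      · obtain ⟨i, hi, v, hv, hvd⟩ := ih (2 ^ k) p le_rfl hpos w hw
        have := hd.tri z w v
        exact ⟨i, by omega, v, hv, by omega⟩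
      · rw [pow_succ] at hm
        have hw' : w ∈ Intv d ((fun j => p (2 ^ k + j)) 0) ((fun j => p (2 ^ k + j))
            (m - 2 ^ k)) := by
          show w ∈ Intv d (p (2 ^ k + 0)) (p (2 ^ k + (m - 2 ^ k)))
          rw [Nat.add_zero, Nat.add_sub_cancel' h.le]
          exact hw
        obtain ⟨i, hi, v, hv, hvd⟩ := ih (m - 2 ^ k) (fun j => p (2 ^ k + j)) (by omega)
          (by omega) w hw'
        have := hd.tri z w v
        exact ⟨2 ^ k + i, by omega, v, hv, by omega⟩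

namespace Act

variable (S : Act G d δ C A T n)
include S

omit S in
/-- a power of `u` which moves every point by at least `L` -/
lemma exists_long {u : G} (hu : Lox d T u) (L : ℕ) : ∃ m, ∀ x, L ≤ d x (u ^ m • x) := by
  refine ⟨T * L, fun x => ?_⟩
  have h1 := hu x (T * L)
  rcases Nat.eq_zero_or_pos T with h | h
  · have := hu x 1
    rw [h] at this
    omega
  · exact Nat.le_of_mul_le_mul_left h1 h

/-- points of minimal displacement of a long element of `K` are on the axis -/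
lemma min_mem_axis {D : ℕ} (K : AxI S.inv n D) {u w : G} (hK : K.1 = Cz u) (hw : u * w = w * u)
    (hu : Lox d T u) {x : X} (hx : IsMin d w x) (hl : 4 * cH δ + 1 ≤ d x (w • x)) :
    x ∈ AxY (12 * cH δ) K := by
  intro h hh
  rw [hK, mem_Cz] at hh
  unfold cH at hl ⊢
  have h2 := hx.two S.geod S.slim S.inv (by omega)
  have h3 := disp_le_sl S.geod S.slim S.inv h2 (by omega) (S.ab hu hw hh)
  push_cast at h3 ⊢
  linarith

/-- points of the axis have almost minimal displacement -/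
lemma axis_two {D : ℕ} (K : AxI S.inv n D) {w : G} (hw : w ∈ K.1) {y : X}
    (hy : y ∈ AxY (12 * cH δ) K) : 2 * d y (w • y) ≤ d y (w ^ 2 • y) + 24 * cH δ := by
  have h1 := hy w hw
  have h2 := mul_sl_le (d := d) w y 2
  have h3 : (2 : ℝ) * d y (w • y) ≤ d y (w ^ 2 • y) + 24 * cH δ := by
    push_cast at h1 h2
    linarith
  exact_mod_cast h3

lemma axis_smul {D : ℕ} (K : AxI S.inv n D) (c : ℕ) (g : G) {x : X} (hx : x ∈ AxY c K) :
    g • x ∈ AxY c (g • K) := by
  intro h hh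
  rw [AxI.smul_val, Subgroup.mem_pointwise_smul_iff_inv_smul_mem, ← map_inv, MulAut.smul_def,
    MulAut.conj_apply, inv_inv] at hh
  have h1 := hx _ hh
  have h2 : g⁻¹ * h * g = g⁻¹ * h * g⁻¹⁻¹ := by rw [inv_inv]
  have h3 : d x ((g⁻¹ * h * g) • x) = d (g • x) (h • g • x) := by
    rw [← S.inv g x, smul_smul, smul_smul]
    congr 2
    group
  rw [h3, h2, sl_conj S.inv] at h1
  exact h1

/-- two nontrivial commuting elements lie in the same groups -/
lemma mem_of_commute {D : ℕ} (K : AxI S.inv n D) {u g : G} (hu : u ∈ K.1) (hu1 : u ≠ 1)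
    (hg : g * u = u * g) : g ∈ K.1 := by
  obtain ⟨v, h1, -, h2⟩ := K.2
  rw [h2, mem_Cz] at hu ⊢
  have hv := S.lox_of_ne h1
  have hul : Lox d T u := S.lox_of_ne fun h => hu1 (S.tf hv hu h)
  exact S.ab hul hu.symm hg.symm

lemma smul_eq_iff {D : ℕ} (K : AxI S.inv n D) (g : G) : g • K = K ↔ g ∈ K.1 := by
  obtain ⟨u, h1, -, h2⟩ := K.2
  have hu := S.lox_of_ne h1
  have huK : u ∈ K.1 := by
    rw [h2, mem_Cz]
  constructor
  · intro h
    have h3 : g * u * g⁻¹ ∈ K.1 := by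
      rw [← h, AxI.smul_val, Subgroup.mem_pointwise_smul_iff_inv_smul_mem, ← map_inv,
        MulAut.smul_def, MulAut.conj_apply, inv_inv]
      have : g⁻¹ * (g * u * g⁻¹) * g = u := by group
      rw [this]
      exact huK
    rw [h2, mem_Cz] at h3
    rcases S.eq_or_inv hu h3 (sl_conj S.inv u g) with h4 | h4
    · rw [h2, mem_Cz]
      rw [mul_inv_eq_iff_eq_mul] at h4
      exact h4.symm
    · exact absurd (S.not_flip hu h4) id
  · intro h
    apply Subtype.ext
    rw [AxI.smul_val, h2, conj_smul_Cz]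
    rw [h2, mem_Cz] at h
    have : g * u * g⁻¹ = u := by
      rw [← h]
      group
    rw [this]

lemma mem_comm {D : ℕ} (K : AxI S.inv n D) {g h : G} (hg : g ∈ K.1) (hh : h ∈ K.1) :
    g * h = h * g := by
  obtain ⟨u, h1, -, h2⟩ := K.2
  rw [h2, mem_Cz] at hg hh
  exact S.ab (S.lox_of_ne h1) hg hh

lemma mem_lox {D : ℕ} (K : AxI S.inv n D) {g : G} (hg : g ∈ K.1) (hg1 : g ≠ 1) : Lox d T g := by
  obtain ⟨u, h1, -, h2⟩ := K.2
  rw [h2, mem_Cz] at hg
  exact S.lox_of_ne fun h => hg1 (S.tf (S.lox_of_ne h1) hg h)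

/-- everything about a long element of `K` -/
lemma exists_w {D : ℕ} (K : AxI S.inv n D) : ∃ (w : G) (x : X), w ∈ K.1 ∧ IsMin d w x ∧
    26 * cH δ + 1 ≤ d x (w • x) ∧ ∀ z, IsMin d w z → z ∈ AxY (12 * cH δ) K := by
  obtain ⟨u, h1, -, h2⟩ := K.2
  have hu := S.lox_of_ne h1
  obtain ⟨m, hm⟩ := exists_long hu (26 * cH δ + 1)
  obtain ⟨x0⟩ := S.ne
  obtain ⟨x, -, hx⟩ := Iso.exists_min d (u ^ m) x0
  have hc : u * u ^ m = u ^ m * u := ((Commute.refl u).pow_right m).eq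
  refine ⟨u ^ m, x, by rw [h2, mem_Cz]; exact hc, hx, hm x, fun z hz => ?_⟩
  have := hm z
  exact S.min_mem_axis K h2 hc hu hz (by omega)

lemma axis_nonempty {D : ℕ} (K : AxI S.inv n D) : (AxY (12 * cH δ) K).Nonempty := by
  obtain ⟨w, x, -, hx, -, h⟩ := S.exists_w K
  exact ⟨x, h x hx⟩

lemma axis_qc {D : ℕ} (K : AxI S.inv n D) : QC d (AxY (12 * cH δ) K) (cκ δ) := by
  intro a ha b hb z hz
  obtain ⟨w, x, hw, hx, hl, hax⟩ := S.exists_w K
  have hF : FourPt d (cH δ) := Slim.fp S.geod S.slim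
  have h2 : 2 * d x (w • x) ≤ d x (w ^ 2 • x) + 2 * cH δ :=
    hx.two S.geod S.slim S.inv (by unfold cH at hl; omega)
  have ha2 := S.axis_two K hw ha
  have hb2 := S.axis_two K hw hb
  have hla := hx a
  have hlb := hx b
  set k := 2 * d x a + 2 * d x b + 24 * cH δ + 4 * cH δ + 1 with hk
  have ba := between S.geod hF S.inv x ha2 (by omega) (k := k) (by omega)
  have bb := between S.geod hF S.inv x hb2 (by omega) (k := k) (by omega)
  have hz' : w ^ k • z ∈ Intv d (w ^ k • a) (w ^ k • b) := by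
    show _ + _ = _
    rw [S.inv, S.inv, S.inv]
    exact hz
  have bz := between_Intv S.geod hF ba bb hz'
  obtain ⟨z', hz1, hz2⟩ := near_min S.geod hF S.inv hx h2 (by omega) bz
  refine ⟨z', hax z' hz1, hz2.trans ?_⟩
  unfold cκ
  have : max (8 * cH δ) (2 * (24 * cH δ + 4 * cH δ) + cH δ) ≤ 57 * cH δ := by
    apply max_le <;> omega
  omega

lemma axis_small {D : ℕ} (K : AxI S.inv n D) : ∃ u : G, u ≠ 1 ∧ u ∈ K.1 ∧
    ∀ y ∈ AxY (12 * cH δ) K, d y (u • y) ≤ D + 12 * cH δ := by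
  obtain ⟨u, h1, ⟨x, hx⟩, h2⟩ := K.2
  have huK : u ∈ K.1 := by
    rw [h2, mem_Cz]
  refine ⟨u, ?_, huK, fun y hy => ?_⟩
  · rintro rfl
    exact h1 (one_pow n)
  · have h3 := hy u huK
    have h4 := sl_le_dist (d := d) u x
    have h5 : (d x (u • x) : ℝ) ≤ D := by exact_mod_cast hx
    have h6 : (d y (u • y) : ℝ) ≤ D + 12 * cH δ := by
      push_cast at h3
      linarith
    exact_mod_cast h6

lemma two_fix {D : ℕ} (K K' : AxI S.inv n D) {g : G} (h : g ∈ K.1) (h' : g ∈ K'.1)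
    (hne : K ≠ K') : g = 1 := by
  by_contra hg
  apply hne
  apply Subtype.ext
  obtain ⟨u, h1, -, h2⟩ := K.2
  obtain ⟨u', h1', -, h2'⟩ := K'.2
  have huK : u ∈ K.1 := by
    rw [h2, mem_Cz]
  have hu'K : u' ∈ K'.1 := by
    rw [h2', mem_Cz]
  ext k
  constructor
  · intro hk
    exact S.mem_of_commute K' h' hg (S.mem_comm K hk h)
  · intro hk
    exact S.mem_of_commute K h hg (S.mem_comm K' hk h')

/-- a vertex moved little with the axis nearby: `2 d(x, Y) ≤ displacement + E` -/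
lemma e8 {D : ℕ} (K : AxI S.inv n D) {g : G} (hg : g ∈ K.1) (hg1 : g ≠ 1) {x : X} {ρ : ℕ}
    (hx : d x (g • x) ≤ ρ) : ∃ y ∈ AxY (12 * cH δ) K, 2 * d x y ≤ ρ + cE δ T := by
  obtain ⟨y, hy⟩ := near_nonempty (d := d) (S.axis_nonempty K) x
  have hlox := S.mem_lox K hg hg1
  set m := T * (2 * cη δ + 1) with hm
  have hgm : 2 * cη δ + 1 ≤ d y (g ^ m • y) := by
    have h1 := hlox y m
    rcases Nat.eq_zero_or_pos T with h | h
    · have := hlox y 1
      rw [h] at this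
      omega
    · exact Nat.le_of_mul_le_mul_left h1 h
  have hm1 : 1 ≤ m := by
    rcases Nat.eq_zero_or_pos m with h | h
    · rw [h, pow_zero, one_smul, S.geod.self] at hgm
      omega
    · exact h
  have hstab : ∀ (k : G), k ∈ K.1 → ∀ z, z ∈ AxY (12 * cH δ) K → k • z ∈ AxY (12 * cH δ) K := by
    intro k hk z hz
    have := S.axis_smul K (12 * cH δ) k hz
    rwa [(S.smul_eq_iff K k).2 hk] at this
  have hgmK : g ^ m ∈ K.1 := pow_mem hg m
  have hy' : g ^ m • y ∈ Near d (AxY (12 * cH δ) K) (g ^ m • x) := by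
    refine ⟨hstab _ hgmK y hy.1, fun z hz => ?_⟩
    rw [S.inv]
    have h1 := hy.2 _ (hstab _ (inv_mem hgmK) z hz)
    have h2 : d x ((g ^ m)⁻¹ • z) = d (g ^ m • x) z := by
      rw [← S.inv (g ^ m) x ((g ^ m)⁻¹ • z), smul_inv_smul]
    rwa [h2] at h1
  obtain ⟨z, hz, hzy⟩ := near_far S.geod S.slim (S.axis_qc K) hy hy' (by
    show 2 * cη δ < _
    omega)
  have hzy' : d z y ≤ cη δ := hzy
  obtain ⟨i, -, v, hv, hvd⟩ := log_path S.geod S.slim (Nat.clog 2 m) m (fun j => g ^ j • x)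
    (Nat.le_pow_clog (by norm_num) m) hm1 z (by
      show z ∈ Intv d (g ^ 0 • x) (g ^ m • x)
      rw [pow_zero, one_smul]
      exact hz)
  have hv' : d (g ^ i • x) v + d v (g ^ (i + 1) • x) = d (g ^ i • x) (g ^ (i + 1) • x) := hv
  have h3 : d (g ^ i • x) (g ^ (i + 1) • x) = d x (g • x) := by
    rw [orb S.inv g x i 1, pow_one]
  have hEdef : cE δ T = 2 * (Nat.clog 2 m * δ) + 2 * cη δ := rfl
  have h4 : ∃ l : ℕ, 2 * d (g ^ l • x) v ≤ ρ := by
    rcases le_total (d (g ^ i • x) v) (d v (g ^ (i + 1) • x)) with h | h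
    · exact ⟨i, by omega⟩
    · refine ⟨i + 1, ?_⟩
      rw [S.geod.symm]
      omega
  obtain ⟨l, hl⟩ := h4
  refine ⟨(g ^ l)⁻¹ • y, hstab _ (inv_mem (pow_mem hg l)) y hy.1, ?_⟩
  rw [← S.inv (g ^ l), smul_inv_smul, hEdef]
  have t1 := S.geod.tri (g ^ l • x) v y
  have t2 := S.geod.tri v z y
  have s1 := S.geod.symm v z
  omega

/-- the axis of a long element and the projections to the axes `Y i` -/
lemma f1 (g : G) (x : X) (ρ : ℕ) (hg : g ^ n ≠ 1) (hi : ∀ K : AxI S.inv n (cD1 δ), g • K ≠ K)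
    (hx : d x (g • x) ≤ ρ) : ∃ q : X, (∀ j : ℕ, j ≤ d q (g ^ j • q)) ∧
      ∀ (K : AxI S.inv n (cD1 δ)) (j : ℕ),
        dPr d (AxY (12 * cH δ)) K (Sum.inl q) (Sum.inl (g ^ j • q)) ≤ A + cc0 δ * (ρ + 1) := by
  have hF : FourPt d (cH δ) := Slim.fp S.geod S.slim
  have hlong : ∀ y : X, cD1 δ + 1 ≤ d y (g • y) := by
    intro y
    by_contra hc
    let K : AxI S.inv n (cD1 δ) := ⟨Cz g, g, hg, ⟨y, by omega⟩, rfl⟩
    exact hi K ((S.smul_eq_iff K g).2 (mem_Cz.2 rfl))
  obtain ⟨q, hq1, hq⟩ := Iso.exists_min d g x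
  have hqm : IsMin d g q := hq
  have hl := hlong q
  have h2 : 2 * d q (g • q) ≤ d q (g ^ 2 • q) + 2 * cH δ :=
    hqm.two S.geod S.slim S.inv (by unfold cD1 cH at hl; omega)
  have hl' : 4 * cH δ + 3 ≤ d q (g • q) := by
    unfold cD1 at hl
    omega
  refine ⟨q, fun j => orbit_large hF S.inv h2 (by omega) j, fun K j => ?_⟩
  apply Cone.dPr_le
  intro y hy y' hy'
  by_contra hc
  push Not at hc
  have hy1 : y ∈ Near d (AxY (12 * cH δ) K) q := hy
  have hy1' : y' ∈ Near d (AxY (12 * cH δ) K) (g ^ j • q) := hy'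
  have hcc : 8 * (ρ + 18 * cH δ + 2 * cη δ + cD2 δ) + 4 * δ + 4 ≤ cc0 δ * (ρ + 1) := by
    have e1 : cc0 δ * (ρ + 1) = cc0 δ * ρ + cc0 δ := by ring
    have e2 : 8 * ρ ≤ cc0 δ * ρ := Nat.mul_le_mul_right _ (by unfold cc0; omega)
    have e3 : cc0 δ = 8 * (18 * cH δ + 2 * cη δ + cD2 δ) + 4 * δ + 12 := rfl
    omega
  have hqc := S.axis_qc K
  obtain ⟨z, hz, hzy⟩ := near_far S.geod S.slim hqc hy1 hy1' (by
    show 2 * cη δ < _
    omega)
  obtain ⟨z', hz', hzy'⟩ := near_far S.geod S.slim hqc hy1' hy1 (by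
    show 2 * cη δ < _
    rw [S.geod.symm]
    omega)
  have hzy1 : d z y ≤ cη δ := hzy
  have hzy1' : d z' y' ≤ cη δ := hzy'
  have hmove : ∀ v ∈ Intv d q (g ^ j • q), d v (g • v) ≤ ρ + 18 * cH δ := by
    intro v hv
    have hv' : d q v + d v (g ^ j • q) = d q (g ^ j • q) := hv
    obtain ⟨v', hv1, hv2⟩ := near_line S.geod hF S.inv hqm h2 (by omega) (z := v) (m := j)
      (c := 0) (by omega)
    have h3 : max (8 * cH δ) 0 = 8 * cH δ := by simp
    rw [h3] at hv2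
    have h4 := hv1 q
    have h5 := S.geod.tri v v' (g • v)
    have h6 := S.geod.tri v' (g • v') (g • v)
    have h7 := S.inv g v' v
    have h8 := S.geod.symm v' v
    omega
  have hm1 := hmove z hz
  have hm2 := hmove z' (Intv_symm S.geod hz')
  obtain ⟨u, hu1, huK, hu⟩ := S.axis_small K
  have hD2 : cD1 δ + 12 * cH δ = cD2 δ := by
    unfold cD1 cD2
    omega
  rw [hD2] at hu
  have hgy : ∀ v v' : X, d v v' ≤ cη δ → d v (g • v) ≤ ρ + 18 * cH δ →
      d v' (g • v') ≤ ρ + 18 * cH δ + 2 * cη δ := by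
    intro v v' h3 h4
    have h5 := S.geod.tri v' v (g • v')
    have h6 := S.geod.tri v (g • v) (g • v')
    have h7 := S.inv g v v'
    have h8 := S.geod.symm v' v
    omega
  have g1 := hgy z y hzy1 hm1
  have g2 := hgy z' y' hzy1' hm2
  have u1 := hu y hy1.1
  have u2 := hu y' hy1'.1
  have hcomm := S.two (g := g) (h := u) (x := y) (y := y')
    (R := ρ + 18 * cH δ + 2 * cη δ + cD2 δ) (by omega) (by omega) (by omega) (by omega) (by omega)
  exact hi K ((S.smul_eq_iff K g).2 (S.mem_of_commute K huK hu1 hcomm))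

/-- projections between different axes are bounded -/
lemma pb : Cone.PB d (AxY (12 * cH δ) : AxI S.inv n (cD1 δ) → Set X) (cΘ δ A) := by
  intro K p hp y hy y' hy'
  have hqc := S.axis_qc K
  have hΘ : cΘ δ A = A + 8 * (cD2 δ + 2 * (cη δ + cκ δ)) + 4 * δ + 4 := rfl
  rcases p with a | K'
  · have h1 : d y y' ≤ d a a + 2 * cη δ := near_lip S.geod S.slim hqc hy hy'
    rw [S.geod.self] at h1
    omega
  · by_contra hc
    push Not at hc
    obtain ⟨a, ha, hya⟩ := hy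
    obtain ⟨a', ha', hya'⟩ := hy'
    obtain ⟨z, hz, hzy⟩ := near_far S.geod S.slim hqc hya hya' (by
      show 2 * cη δ < _
      omega)
    obtain ⟨z', hz', hzy'⟩ := near_far S.geod S.slim hqc hya' hya (by
      show 2 * cη δ < _
      rw [S.geod.symm]
      omega)
    have hzy1 : d z y ≤ cη δ := hzy
    have hzy1' : d z' y' ≤ cη δ := hzy'
    obtain ⟨w, hw, hzw⟩ := S.axis_qc K' a ha a' ha' z hz
    obtain ⟨w', hw', hzw'⟩ := S.axis_qc K' a' ha' a ha z' hz'
    have hD2 : cD1 δ + 12 * cH δ = cD2 δ := by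
      unfold cD1 cD2
      omega
    obtain ⟨u, hu1, huK, hu⟩ := S.axis_small K
    obtain ⟨u', hu1', huK', hu'⟩ := S.axis_small K'
    rw [hD2] at hu hu'
    have key : ∀ v b c : X, d v b ≤ cη δ → d v c ≤ cκ δ → c ∈ AxY (12 * cH δ) K' →
        d b (u' • b) ≤ cD2 δ + 2 * (cη δ + cκ δ) := by
      intro v b c h1 h2 h3
      have h4 := hu' c h3
      have t1 := S.geod.tri b v c
      have t2 := S.geod.tri b c (u' • b)
      have t3 := S.geod.tri c (u' • c) (u' • b)
      have t4 := S.inv u' c b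
      have s1 := S.geod.symm b v
      have s2 := S.geod.symm c b
      omega
    have k1 := key z y w hzy1 hzw hw
    have k2 := key z' y' w' hzy1' hzw' hw'
    have u1 := hu y hya.1
    have u2 := hu y' hya'.1
    have hcomm := S.two (g := u') (h := u) (x := y) (y := y')
      (R := cD2 δ + 2 * (cη δ + cκ δ)) (by omega) (by omega) (by omega) (by omega) (by omega)
    have h5 := S.mem_of_commute K huK hu1 hcomm
    have hne : K ≠ K' := by
      intro h
      apply hp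
      rw [h]
    exact hu1' (S.two_fix K K' h5 huK' hne)

/-- output of part (III) -/
theorem pack : Pack d (AxY (12 * cH δ) : AxI S.inv n (cD1 δ) → Set X) AxR (cκ δ) (cΘ δ A) A T n
    (cD1 δ) (cD2 δ) (cE δ T) (cc0 δ) where
  ne K := S.axis_nonempty K
  qc K := S.axis_qc K
  smul g K x hx := S.axis_smul K _ g hx
  pb := S.pb
  pow_mem g K h := Subgroup.subset_closure ⟨g, (S.smul_eq_iff K g).1 h, rfl⟩
  mem_pow K s hs := by
    have key : ∀ s ∈ AxR K, ∃ g ∈ K.1, s = g ^ n := by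
      intro s hs
      induction hs using Subgroup.closure_induction with
      | mem x hx => exact hx
      | one => exact ⟨1, one_mem _, (one_pow n).symm⟩
      | mul x y _ _ hx hy =>
        obtain ⟨g, hg, rfl⟩ := hx
        obtain ⟨h, hh, rfl⟩ := hy
        have hc : Commute g h := S.mem_comm K hg hh
        exact ⟨g * h, mul_mem hg hh, (hc.mul_pow n).symm⟩
      | inv x _ hx =>
        obtain ⟨g, hg, rfl⟩ := hx
        exact ⟨g⁻¹, inv_mem hg, (inv_pow g n).symm⟩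
    obtain ⟨g, hg, h⟩ := key s hs
    exact ⟨g, (S.smul_eq_iff K g).2 hg, h⟩
  comm g h K hg hh := S.mem_comm K ((S.smul_eq_iff K g).1 hg) ((S.smul_eq_iff K h).1 hh)
  lox g K hg hg1 := S.mem_lox K ((S.smul_eq_iff K g).1 hg) hg1
  ex g hg hx := by
    obtain ⟨x, hx⟩ := hx
    let K : AxI S.inv n (cD1 δ) := ⟨Cz g, g, hg, ⟨x, hx⟩, rfl⟩
    exact ⟨K, (S.smul_eq_iff K g).2 (mem_Cz.2 rfl)⟩
  small K := by
    obtain ⟨u, h1, h2, h3⟩ := S.axis_small K
    refine ⟨u, h1, (S.smul_eq_iff K u).2 h2, fun y hy => (h3 y hy).trans ?_⟩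
    unfold cD1 cD2
    omega
  two g K K' h h' hne := S.two_fix K K' ((S.smul_eq_iff K g).1 h) ((S.smul_eq_iff K' g).1 h') hne
  e8 g K x ρ hg hg1 hx := S.e8 K ((S.smul_eq_iff K g).1 hg) hg1 hx
  f1 g x ρ hg hi hx := S.f1 g x ρ hg hi hx
  two_el g h x y r hA hx hy hx' hy' := by
    have hcc : 8 * r + 4 * δ + 4 ≤ cc0 δ * (r + 1) := by
      have e1 : cc0 δ * (r + 1) = cc0 δ * r + cc0 δ := by ring
      have e2 : 8 * r ≤ cc0 δ * r := Nat.mul_le_mul_right _ (by unfold cc0; omega)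
      have e3 : cc0 δ = 8 * (18 * cH δ + 2 * cη δ + cD2 δ) + 4 * δ + 12 := rfl
      omega
    exact S.two hx hy hx' hy' (by omega)
  one_el g x y r hA hx hy hg := by
    have hcc : 8 * r + 4 * δ + 4 ≤ cc0 δ * (r + 1) := by
      have e1 : cc0 δ * (r + 1) = cc0 δ * r + cc0 δ := by ring
      have e2 : 8 * r ≤ cc0 δ * r := Nat.mul_le_mul_right _ (by unfold cc0; omega)
      have e3 : cc0 δ = 8 * (18 * cH δ + 2 * cη δ + cD2 δ) + 4 * δ + 12 := rfl
      omega
    exact S.single hx hy (by omega) hg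

end Act

/-- from the induction hypothesis to the hypotheses of this file -/
theorem Stage.act (S : Stage (G := G) d δ C A T n) (hn : Odd n) (hC : 48 * δ + 2 ≤ C) :
    Act G d δ C A T n where
  geod := S.geod
  slim := S.slim
  inv := S.inv
  ne := ⟨S.ne.choose⟩
  odd := hn
  s2 := S.s2
  s3a := S.s3a
  s3b := S.s3b
  hC := hC

end Pool.Agent.Burnside
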