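import Pool.Agent.Burnside.Stage

/-!
# Base case of the Burnside construction: the free group acting on itself

The word metric of a free group is an integer geodesic metric, it is `0`-slim, left
multiplications are isometries, a nontrivial element moves every point by at least `k` after `k`
steps, and two elements which move both ends of a long segment by at most `C` commute.
-/

set_option autoImplicit false

namespace Pool.Agent.Burnside

/-! ### General facts about `0`-slim metrics -/

section Tree

variable {V : Type*} {d : V → V → ℕ}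

theorem Slim.mono {δ δ' : ℕ} (h : Slim d δ) (hle : δ ≤ δ') : Slim d δ' := by
  intro a b c z hz
  obtain ⟨w, hw, hw'⟩ := h a b c z hz
  exact ⟨w, hw, hw'.trans hle⟩

/-- In a tree a point of an interval is on one of the other two sides. -/
theorem tree_or (hd : IsGeod d) (hs : Slim d 0) {a b z : V} (c : V) (hz : z ∈ Intv d a b) :
    z ∈ Intv d a c ∨ z ∈ Intv d c b := by
  obtain ⟨w, hw, hw'⟩ := hs a b c z hz
  have : z = w := hd.eq z w (by omega)
  rw [this]
  exact hw

/-- A point of an interval is determined by its distance to one end. -/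
theorem tree_unique (hd : IsGeod d) (hs : Slim d 0) {a b z z' : V} (hz : z ∈ Intv d a b)
    (hz' : z' ∈ Intv d a b) (h : d a z = d a z') : z = z' := by
  have h1 : d a z + d z b = d a b := hz
  have h2 : d a z' + d z' b = d a b := hz'
  rcases tree_or hd hs z' hz with h3 | h3
  · have h4 : d a z + d z z' = d a z' := h3
    exact hd.eq _ _ (by omega)
  · have h4 : d z' z + d z b = d z' b := h3
    exact (hd.eq _ _ (by omega)).symm

/-- An isometry which moves the ends of a segment by at most `C` moves the middle part along the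
segment. -/
theorem tree_shift (hd : IsGeod d) (hs : Slim d 0) {x y : V} {C : ℕ} {f : V → V}
    (hf : ∀ a b, d (f a) (f b) = d a b) (hx : d x (f x) ≤ C) (hy : d y (f y) ≤ C) {z : V}
    (hz : z ∈ Intv d x y) (h1 : C < d x z) (h2 : C < d z y) :
    f z ∈ Intv d x y ∧ d x (f z) + d x y = d x z + d x (f y) := by
  have hz' : d x z + d z y = d x y := hz
  have hfz : f z ∈ Intv d (f x) (f y) := by
    show d (f x) (f z) + d (f z) (f y) = d (f x) (f y)
    rw [hf, hf, hf]
    exact hz'
  have e1 := hf x z
  have e2 := hf z y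
  have h3 : f z ∈ Intv d x (f y) := by
    rcases tree_or hd hs x hfz with h | h
    · exfalso
      have h4 : d (f x) (f z) + d (f z) x = d (f x) x := h
      rw [hd.symm (f x) x] at h4
      omega
    · exact h
  have h4 : d x (f z) + d (f z) (f y) = d x (f y) := h3
  have h5 : f z ∈ Intv d x y := by
    rcases tree_or hd hs y h3 with h | h
    · exact h
    · exfalso
      have h6 : d y (f z) + d (f z) (f y) = d y (f y) := h
      omega
  exact ⟨h5, by omega⟩

/-- Two isometries which move the ends of a long segment by at most `C` commute at some point. -/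
theorem tree_commute (hd : IsGeod d) (hs : Slim d 0) {x y : V} {C : ℕ} {f g : V → V}
    (hf : ∀ a b, d (f a) (f b) = d a b) (hg : ∀ a b, d (g a) (g b) = d a b)
    (hfx : d x (f x) ≤ C) (hfy : d y (f y) ≤ C) (hgx : d x (g x) ≤ C) (hgy : d y (g y) ≤ C)
    (hA : 4 * C + 2 ≤ d x y) : ∃ z, f (g z) = g (f z) := by
  obtain ⟨z, hz1, hz2⟩ := hd.geod x y (2 * C + 1) (by omega)
  have hz : z ∈ Intv d x y := by
    show d x z + d z y = d x y
    omega
  obtain ⟨hf1, hf2⟩ := tree_shift hd hs hf hfx hfy hz (by omega) (by omega)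
  obtain ⟨hg1, hg2⟩ := tree_shift hd hs hg hgx hgy hz (by omega) (by omega)
  have tf1 := hd.tri x y (f y)
  have tf2 := hd.tri x (f y) y
  have tg1 := hd.tri x y (g y)
  have tg2 := hd.tri x (g y) y
  rw [hd.symm (f y) y] at tf2
  rw [hd.symm (g y) y] at tg2
  have hf1' : d x (f z) + d (f z) y = d x y := hf1
  have hg1' : d x (g z) + d (g z) y = d x y := hg1
  obtain ⟨hfg1, hfg2⟩ := tree_shift hd hs hf hfx hfy hg1 (by omega) (by omega)
  obtain ⟨hgf1, hgf2⟩ := tree_shift hd hs hg hgx hgy hf1 (by omega) (by omega)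
  exact ⟨z, tree_unique hd hs hfg1 hgf1 (by omega)⟩

end Tree

/-! ### The word metric of a free group -/

section Free

variable {α : Type*} [DecidableEq α]

/-- The word metric. -/
def dF (x y : FreeGroup α) : ℕ := (x⁻¹ * y).norm

theorem dF_inv (g x y : FreeGroup α) : dF (g • x) (g • y) = dF x y := by
  unfold dF
  congr 1
  simp only [smul_eq_mul]
  group

theorem norm_mk_of_isReduced {L : List (α × Bool)} (h : FreeGroup.IsReduced L) :
    (FreeGroup.mk L).norm = L.length := by
  unfold FreeGroup.norm
  rw [FreeGroup.toWord_mk, h.reduce_eq]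

theorem isGeod_dF : IsGeod (dF (α := α)) where
  self a := by simp [dF]
  eq a b h := by
    unfold dF at h
    rw [FreeGroup.norm_eq_zero, inv_mul_eq_one] at h
    exact h
  symm a b := by
    unfold dF
    rw [← FreeGroup.norm_inv_eq]
    congr 1
    group
  tri a b c := by
    unfold dF
    refine le_trans (le_of_eq ?_) (FreeGroup.norm_mul_le _ _)
    congr 1
    group
  geod a b k hk := by
    obtain ⟨w, hw⟩ : ∃ w, w = a⁻¹ * b := ⟨_, rfl⟩
    have hk' : k ≤ w.toWord.length := by
      rw [hw]
      exact hk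
    have hred : FreeGroup.IsReduced w.toWord := FreeGroup.isReduced_toWord
    have h1 : FreeGroup.IsReduced (w.toWord.take k) :=
      List.IsChain.take hred k
    have h2 : FreeGroup.IsReduced (w.toWord.drop k) :=
      List.IsChain.drop hred k
    have h3 : FreeGroup.mk (w.toWord.take k) * FreeGroup.mk (w.toWord.drop k) = w := by
      rw [FreeGroup.mul_mk, List.take_append_drop, FreeGroup.mk_toWord]
    refine ⟨a * FreeGroup.mk (w.toWord.take k), ?_, ?_⟩
    · unfold dF
      rw [inv_mul_cancel_left, norm_mk_of_isReduced h1, List.length_take]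
      omega
    · unfold dF
      have h4 : (a * FreeGroup.mk (w.toWord.take k))⁻¹ * b = FreeGroup.mk (w.toWord.drop k) := by
        rw [mul_inv_rev, mul_assoc, ← hw]
        nth_rewrite 2 [← h3]
        rw [inv_mul_cancel_left]
      rw [h4, norm_mk_of_isReduced h2, List.length_drop, ← hw]
      rfl

/-- Cancellation in a product: `|u⁻¹ v| = |u| + |v|` unless the first letters agree. -/
theorem norm_inv_mul_of_head {u v : FreeGroup α}
    (h : ∀ a ∈ u.toWord.head?, ∀ b ∈ v.toWord.head?, a ≠ b) :
    (u⁻¹ * v).norm = u.norm + v.norm := by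
  have hred : FreeGroup.IsReduced (FreeGroup.invRev u.toWord ++ v.toWord) := by
    have h1 : FreeGroup.IsReduced (FreeGroup.invRev u.toWord) := by
      rw [← FreeGroup.toWord_inv]
      exact FreeGroup.isReduced_toWord
    have h2 : FreeGroup.IsReduced v.toWord := FreeGroup.isReduced_toWord
    unfold FreeGroup.IsReduced at h1 h2 ⊢
    rw [List.isChain_append]
    refine ⟨h1, h2, ?_⟩
    intro a ha b hb hab
    unfold FreeGroup.invRev at ha
    rw [List.getLast?_reverse, List.head?_map, Option.mem_def, Option.map_eq_some_iff] at ha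
    obtain ⟨c, hc, hca⟩ := ha
    have h3 := h c hc b hb
    rw [← hca] at hab ⊢
    simp only at hab ⊢
    by_contra hcon
    apply h3
    refine Prod.ext hab ?_
    have h4 : c.2 = b.2 := by
      rcases Bool.eq_false_or_eq_true c.2 with h5 | h5 <;>
        rcases Bool.eq_false_or_eq_true b.2 with h6 | h6 <;>
        simp [h5, h6] at hcon ⊢
    exact h4
  unfold FreeGroup.norm
  rw [FreeGroup.toWord_mul, FreeGroup.toWord_inv, hred.reduce_eq, List.length_append,
    FreeGroup.invRev_length]

/-- If the first letters agree there is cancellation. -/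
theorem norm_inv_mul_lt_of_head {u v : FreeGroup α} {a : α × Bool}
    (hu : a ∈ u.toWord.head?) (hv : a ∈ v.toWord.head?) :
    (u⁻¹ * v).norm < u.norm + v.norm := by
  obtain ⟨u', hu'⟩ : ∃ u', u.toWord = a :: u' := by
    cases h : u.toWord with
    | nil => simp [h] at hu
    | cons b l =>
      rw [h] at hu
      simp at hu
      exact ⟨l, by rw [hu]⟩
  obtain ⟨v', hv'⟩ : ∃ v', v.toWord = a :: v' := by
    cases h : v.toWord with
    | nil => simp [h] at hv
    | cons b l =>
      rw [h] at hv
      simp at hv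
      exact ⟨l, by rw [hv]⟩
  have h1 : u = FreeGroup.mk [a] * FreeGroup.mk u' := by
    rw [FreeGroup.mul_mk, ← FreeGroup.mk_toWord (x := u), hu']
    rfl
  have h2 : v = FreeGroup.mk [a] * FreeGroup.mk v' := by
    rw [FreeGroup.mul_mk, ← FreeGroup.mk_toWord (x := v), hv']
    rfl
  have h3 : u⁻¹ * v = (FreeGroup.mk u')⁻¹ * FreeGroup.mk v' := by
    rw [h1, h2]
    group
  have h4 : u.norm = u'.length + 1 := by
    unfold FreeGroup.norm
    rw [hu']
    rfl
  have h5 : v.norm = v'.length + 1 := by
    unfold FreeGroup.norm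
    rw [hv']
    rfl
  rw [h3]
  have h6 := FreeGroup.norm_mul_le (FreeGroup.mk u')⁻¹ (FreeGroup.mk v')
  rw [FreeGroup.norm_inv_eq] at h6
  have h7 := FreeGroup.norm_mk_le (L₁ := u')
  have h8 := FreeGroup.norm_mk_le (L₁ := v')
  omega

theorem slim_dF : Slim (dF (α := α)) 0 := by
  intro a b c z hz
  refine ⟨z, ?_, by rw [isGeod_dF.self]⟩
  have hz' : dF a z + dF z b = dF a b := hz
  by_contra hcon
  push Not at hcon
  obtain ⟨h1, h2⟩ := hcon
  obtain ⟨u, hu⟩ : ∃ u, u = z⁻¹ * a := ⟨_, rfl⟩
  obtain ⟨v, hv⟩ : ∃ v, v = z⁻¹ * b := ⟨_, rfl⟩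
  obtain ⟨w, hw⟩ : ∃ w, w = z⁻¹ * c := ⟨_, rfl⟩
  have key : ∀ {p q : FreeGroup α}, dF p q = ((z⁻¹ * p)⁻¹ * (z⁻¹ * q)).norm := by
    intro p q
    unfold dF
    congr 1
    group
  have key2 : ∀ {p : FreeGroup α}, dF p z = (z⁻¹ * p).norm := by
    intro p
    rw [isGeod_dF.symm]
    rfl
  have h1' : ¬ (u⁻¹ * w).norm = u.norm + w.norm := by
    intro h
    apply h1
    show dF a z + dF z c = dF a c
    rw [key (p := a) (q := c), key2, ← hu, ← hw, h, hw]
    rfl
  have h2' : ¬ (w⁻¹ * v).norm = w.norm + v.norm := by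
    intro h
    apply h2
    show dF c z + dF z b = dF c b
    rw [key (p := c) (q := b), key2, ← hw, ← hv, h, hv]
    rfl
  have h3 : ∃ x ∈ u.toWord.head?, x ∈ w.toWord.head? := by
    by_contra hcon
    push Not at hcon
    apply h1'
    exact norm_inv_mul_of_head fun x hx y hy hxy => hcon x hx (hxy ▸ hy)
  have h4 : ∃ x ∈ w.toWord.head?, x ∈ v.toWord.head? := by
    by_contra hcon
    push Not at hcon
    apply h2'
    exact norm_inv_mul_of_head fun x hx y hy hxy => hcon x hx (hxy ▸ hy)
  obtain ⟨x, hx1, hx2⟩ := h3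
  obtain ⟨y, hy1, hy2⟩ := h4
  have hxy : x = y := by
    rw [Option.mem_def] at hx2 hy1
    rw [hx2] at hy1
    exact Option.some_injective _ hy1
  subst hxy
  have h5 := norm_inv_mul_lt_of_head hx1 hy2
  have h6 : dF a b = (u⁻¹ * v).norm := by
    rw [key (p := a) (q := b), hu, hv]
  have h7 : dF a z = u.norm := by
    rw [key2, hu]
  have h8 : dF z b = v.norm := by
    rw [hv]
    rfl
  omega

/-- The length of a power. -/
theorem le_norm_pow {g : FreeGroup α} (hg : g ≠ 1) (k : ℕ) : k ≤ (g ^ k).norm := by
  rcases Nat.eq_zero_or_pos k with hk | hk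
  · omega
  unfold FreeGroup.norm
  rw [FreeGroup.toWord_pow, FreeGroup.reduceCyclically.reduce_flatten_replicate
    FreeGroup.isReduced_toWord, if_neg hk.ne']
  have h1 : FreeGroup.reduceCyclically g.toWord ≠ [] := by
    intro h
    have h2 := FreeGroup.reduceCyclically.conj_conjugator_reduceCyclically g.toWord
    rw [h, List.append_nil] at h2
    have h3 : g = 1 := by
      rw [← FreeGroup.mk_toWord (x := g), ← h2, ← FreeGroup.mul_mk, ← FreeGroup.inv_mk,
        mul_inv_cancel]
    exact hg h3
  have h4 : 1 ≤ (FreeGroup.reduceCyclically g.toWord).length := List.length_pos_iff.2 h1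
  rw [List.length_append, List.length_append, List.length_flatten, List.map_replicate,
    List.sum_replicate, smul_eq_mul]
  nlinarith

/-- Nontrivial elements are loxodromic. -/
theorem le_dF_pow {g : FreeGroup α} (hg : g ≠ 1) (x : FreeGroup α) (k : ℕ) :
    k ≤ dF x (g ^ k • x) := by
  have h1 : x⁻¹ * g * x ≠ 1 := by
    intro h
    apply hg
    have : g = x * (x⁻¹ * g * x) * x⁻¹ := by group
    rw [this, h]
    group
  have h2 := le_norm_pow h1 k
  have h3 : (x⁻¹ * g * x) ^ k = x⁻¹ * (g ^ k * x) := by
    have h4 := conj_pow (i := k) (a := x⁻¹) (b := g)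
    rw [inv_inv] at h4
    rw [h4]
    group
  rw [h3] at h2
  exact h2

/-- Two elements which move the ends of a long segment by at most `C` commute. -/
theorem commute_of_dF_le {g h x y : FreeGroup α} {C : ℕ} (hgx : dF x (g • x) ≤ C)
    (hgy : dF y (g • y) ≤ C) (hhx : dF x (h • x) ≤ C) (hhy : dF y (h • y) ≤ C)
    (hA : 4 * C + 2 ≤ dF x y) : g * h = h * g := by
  obtain ⟨z, hz⟩ := tree_commute isGeod_dF slim_dF (f := fun a => g • a) (g := fun a => h • a)
    (fun a b => dF_inv g a b) (fun a b => dF_inv h a b) hgx hgy hhx hhy hA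
  have hz' : g * (h * z) = h * (g * z) := hz
  rw [← mul_assoc, ← mul_assoc] at hz'
  exact mul_right_cancel hz'

/-- Torsion elements are trivial. -/
theorem eq_one_of_pow {g : FreeGroup α} {n : ℕ} (hn : 0 < n) (h : g ^ n = 1) : g = 1 := by
  by_contra hg
  have h1 := le_norm_pow hg n
  rw [h, FreeGroup.norm_one] at h1
  omega

end Free

/-- The free group of rank two is not commutative. -/
theorem free_not_comm : (FreeGroup.of false : FreeGroup Bool) * FreeGroup.of true ≠
    FreeGroup.of true * FreeGroup.of false := by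
  intro h
  have h1 := congrArg FreeGroup.toWord h
  revert h1
  decide

/-- **Base case.** The free group of rank two acting on itself by left multiplication. -/
theorem stage_free {δ C A T n : ℕ} (hn : 0 < n) (hT : 0 < T) (hA : 4 * C + 2 ≤ A) :
    Stage (G := FreeGroup Bool) (dF (α := Bool)) δ C A T n where
  geod := isGeod_dF
  inv := dF_inv
  slim := slim_dF.mono (Nat.zero_le _)
  ne := ⟨1, trivial⟩
  s2 g := by
    by_cases hg : g = 1
    · left
      rw [hg, one_pow]
    · right
      intro x k
      exact (le_dF_pow hg x k).trans (Nat.le_mul_of_pos_left _ hT)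
  s3a g _ _ _ _ _ hgn := eq_one_of_pow hn hgn
  s3b g h x y hxy h1 h2 h3 h4 := commute_of_dF_le h1 h2 h3 h4 (hA.trans hxy)
  s4 := ⟨FreeGroup.of false, FreeGroup.of true, fun x k =>
    (le_dF_pow (FreeGroup.of_ne_one false) x k).trans (Nat.le_mul_of_pos_left _ hT),
    free_not_comm⟩

end Pool.Agent.Burnside
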