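import Pool.Agent.Burnside.Guess

/-!
The windmill theorem for an abstract family of rotations.

Setting: a geodesic integer metric `D` on `V`, apexes `apex i`, angles `ang i a b` which satisfy the
triangle inequality and the bounded geodesic image property (an angle larger than `B` forces the
apex to lie in the interval), rotation groups `R i` whose nontrivial elements rotate by at least
`Λ > 16 B`.  Then every nontrivial element of the group generated by all rotations which is not a
rotation about the base point has a pivot: an apex with a large angle between the base point and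
its image, and a rotation about the pivot makes the element simpler.
-/

set_option linter.unusedSectionVars false

namespace Pool.Agent.Burnside

/-- a family of rotations -/
structure Rot {V ι G : Type*} [Group G] [MulAction G V] [MulAction G ι] (D : V → V → ℕ)
    (apex : ι → V) (ang : ι → V → V → ℕ) (R : ι → Subgroup G) (B Λ : ℕ) : Prop where
  geod : IsGeod D
  inv : ∀ (g : G) (a b : V), D (g • a) (g • b) = D a b
  apex_inj : Function.Injective apex
  apex_smul : ∀ (g : G) (i : ι), apex (g • i) = g • apex i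
  ang_inv : ∀ (g : G) (i : ι) (a b : V), ang (g • i) (g • a) (g • b) = ang i a b
  ang_symm : ∀ (i : ι) (a b : V), ang i a b = ang i b a
  ang_tri : ∀ (i : ι) (a b c : V), a ≠ apex i → b ≠ apex i → c ≠ apex i →
    ang i a c ≤ ang i a b + ang i b c
  bgi : ∀ (i : ι) (a b : V), a ≠ apex i → b ≠ apex i → B < ang i a b → apex i ∈ Intv D a b
  conj : ∀ (g : G) (i : ι), ∀ s ∈ R i, g * s * g⁻¹ ∈ R (g • i)
  fix : ∀ (i : ι), ∀ s ∈ R i, s • i = i
  rot : ∀ (i : ι), ∀ s ∈ R i, s ≠ 1 → ∀ a, a ≠ apex i → Λ ≤ ang i a (s • a)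
  big : 16 * B < Λ

namespace Rot

variable {V ι G : Type*} [Group G] [MulAction G V] [MulAction G ι] {D : V → V → ℕ}
  {apex : ι → V} {ang : ι → V → V → ℕ} {R : ι → Subgroup G} {B Λ : ℕ}

/-! ### intervals -/

lemma self_le (H : Rot D apex ang R B Λ) (i : ι) {a : V} (ha : a ≠ apex i) : ang i a a ≤ B := by
  by_contra hc
  have h : D a (apex i) + D (apex i) a = D a a := H.bgi i a a ha ha (by omega)
  rw [H.geod.self] at h
  exact ha (H.geod.eq _ _ (by omega))

lemma pos (H : Rot D apex ang R B Λ) {a b : V} (h : a ≠ b) : 0 < D a b := by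
  rcases Nat.eq_zero_or_pos (D a b) with h0 | h0
  · exact absurd (H.geod.eq _ _ h0) h
  · exact h0

/-- a point between `a` and the apex is seen in the same direction as `a` -/
lemma ang_le_of_mem (H : Rot D apex ang R B Λ) {i : ι} {a y : V} (ha : a ≠ apex i)
    (hy : y ≠ apex i) (hm : y ∈ Intv D a (apex i)) : ang i a y ≤ B := by
  by_contra hc
  have h1 : D a (apex i) + D (apex i) y = D a y := H.bgi i a y ha hy (by omega)
  have h2 : D a y + D y (apex i) = D a (apex i) := hm
  have h3 := H.pos hy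
  have h4 := H.geod.symm (apex i) y
  omega

lemma Intv_comm (H : Rot D apex ang R B Λ) {a b z : V} (hz : z ∈ Intv D a b) :
    z ∈ Intv D b a := by
  have h : D a z + D z b = D a b := hz
  show D b z + D z a = D b a
  rw [H.geod.symm b z, H.geod.symm z a, H.geod.symm b a]
  omega

lemma Intv_left (H : Rot D apex ang R B Λ) (a b : V) : a ∈ Intv D a b := by
  show D a a + D a b = D a b
  rw [H.geod.self]
  omega

lemma Intv_right (H : Rot D apex ang R B Λ) (a b : V) : b ∈ Intv D a b := by
  show D a b + D b b = D a b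
  rw [H.geod.self]
  omega

/-- nested intervals -/
lemma Intv_trans (H : Rot D apex ang R B Λ) {a b x z : V} (hz : z ∈ Intv D a b)
    (hx : x ∈ Intv D a z) : x ∈ Intv D a b ∧ z ∈ Intv D x b := by
  have h1 : D a z + D z b = D a b := hz
  have h2 : D a x + D x z = D a z := hx
  have h3 := H.geod.tri x z b
  have h4 := H.geod.tri a x b
  constructor
  · show _ + _ = _
    omega
  · show _ + _ = _
    omega

lemma Intv_inv (H : Rot D apex ang R B Λ) (g : G) {a b z : V} (hz : z ∈ Intv D a b) :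
    g • z ∈ Intv D (g • a) (g • b) := by
  have h : D a z + D z b = D a b := hz
  show D (g • a) (g • z) + D (g • z) (g • b) = D (g • a) (g • b)
  rw [H.inv, H.inv, H.inv]
  exact h

lemma fix_apex (H : Rot D apex ang R B Λ) {i : ι} {s : G} (hs : s ∈ R i) :
    s • apex i = apex i := by
  rw [← H.apex_smul, H.fix i s hs]

lemma dist_rot (H : Rot D apex ang R B Λ) {i : ι} {s : G} (hs : s ∈ R i) (a : V) :
    D (apex i) (s • a) = D (apex i) a := by
  conv_lhs => rw [← H.fix_apex hs]
  exact H.inv s _ _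

/-! ### complete chains -/

/-- complete chains: `CC w x y w'` means that there is a chain of elementary pairs from `w` to
`w'`, with first pair `(w, x)`, last pair `(y, w')`, with large angles at the intermediate points -/
inductive CC (apex : ι → V) (ang : ι → V → V → ℕ) (L1 : ℕ) (El : V → V → Prop) :
    V → V → V → V → Prop
  | base (w w' : V) : El w w' → w ≠ w' → CC apex ang L1 El w w' w w'
  | join (w x y : V) (i : ι) (x' y' w' : V) : CC apex ang L1 El w x y (apex i) →
      CC apex ang L1 El (apex i) x' y' w' → L1 ≤ ang i y x' → CC apex ang L1 El w x y' w'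

lemma CC.mono {L1 : ℕ} {El El' : V → V → Prop} (h : ∀ a b, El a b → El' a b) {w x y w' : V}
    (hc : CC apex ang L1 El w x y w') : CC apex ang L1 El' w x y w' := by
  induction hc with
  | base w w' h1 h2 => exact CC.base w w' (h _ _ h1) h2
  | join w x y i x' y' w' _ _ h3 ih1 ih2 => exact CC.join w x y i x' y' w' ih1 ih2 h3

lemma CC.smul (H : Rot D apex ang R B Λ) {L1 : ℕ} {El El' : V → V → Prop} (g : G)
    (h : ∀ a b, El a b → El' (g • a) (g • b)) {w x y w' : V}
    (hc : CC apex ang L1 El w x y w') :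
    CC apex ang L1 El' (g • w) (g • x) (g • y) (g • w') := by
  induction hc with
  | base w w' h1 h2 =>
    exact CC.base _ _ (h _ _ h1) (fun he => h2 (MulAction.injective g he))
  | join w x y i x' y' w' _ _ h3 ih1 ih2 =>
    rw [← H.apex_smul] at ih1 ih2
    refine CC.join _ _ (g • y) (g • i) (g • x') _ _ ih1 ih2 ?_
    rw [H.ang_inv]
    exact h3

/-- the properties of complete chains -/
lemma CC.spec (H : Rot D apex ang R B Λ) {L1 : ℕ} (hL1 : 4 * B < L1) {El : V → V → Prop}
    {w x y w' : V} (hc : CC apex ang L1 El w x y w') :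
    w ≠ w' ∧ x ∈ Intv D w w' ∧ x ≠ w ∧ y ∈ Intv D w w' ∧ y ≠ w' ∧
      ∀ p ∈ Intv D w w', ∃ u u', El u u' ∧ p ∈ Intv D u u' ∧ u ∈ Intv D w p ∧
        u' ∈ Intv D p w' := by
  induction hc with
  | base w w' h1 h2 =>
    exact ⟨h2, H.Intv_right _ _, h2.symm, H.Intv_left _ _, h2, fun p hp =>
      ⟨w, w', h1, hp, H.Intv_left _ _, H.Intv_right _ _⟩⟩
  | join w x y i x' y' w' _ _ h3 ih1 ih2 =>
    obtain ⟨a1, a2, a3, a4, a5, a6⟩ := ih1
    obtain ⟨b1, b2, b3, b4, b5, b6⟩ := ih2
    have c1 := H.ang_le_of_mem a1 a5 a4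
    have c2 := H.ang_le_of_mem b1.symm b3 (H.Intv_comm b2)
    have c3 := H.ang_tri i y w x' a5 a1 b3
    have c4 := H.ang_tri i w w' x' a1 b1.symm b3
    have c5 := H.ang_symm i w y
    have hbig : 2 * B < ang i w w' := by omega
    have hz : apex i ∈ Intv D w w' := H.bgi i w w' a1 b1.symm (by omega)
    have hz' : apex i ∈ Intv D w' w := H.Intv_comm hz
    have hz1 : D w (apex i) + D (apex i) w' = D w w' := hz
    refine ⟨?_, (H.Intv_trans hz a2).1, a3, ?_, b5, ?_⟩
    · intro he
      rw [he, H.geod.self] at hz1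
      exact b1.symm (H.geod.eq _ _ (by omega))
    · exact H.Intv_comm (H.Intv_trans hz' (H.Intv_comm b4)).1
    · intro p hp
      have hp1 : D w p + D p w' = D w w' := hp
      -- `p` is on one of the two sides
      have hside : p ∈ Intv D w (apex i) ∨ p ∈ Intv D (apex i) w' := by
        by_cases hpi : p = apex i
        · left
          rw [hpi]
          exact H.Intv_right _ _
        · have c6 := H.ang_tri i w p w' a1 hpi b1.symm
          by_cases c7 : B < ang i w p
          · right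
            have c8 : D w (apex i) + D (apex i) p = D w p := H.bgi i w p a1 hpi c7
            show D (apex i) p + D p w' = D (apex i) w'
            omega
          · left
            have c8 : D p (apex i) + D (apex i) w' = D p w' :=
              H.bgi i p w' hpi b1.symm (by omega)
            show D w p + D p (apex i) = D w (apex i)
            omega
      rcases hside with hside | hside
      · obtain ⟨u, u', e1, e2, e3, e4⟩ := a6 p hside
        refine ⟨u, u', e1, e2, e3, ?_⟩
        have f1 := (H.Intv_trans hz hside).2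
        exact (H.Intv_trans f1 e4).1
      · obtain ⟨u, u', e1, e2, e3, e4⟩ := b6 p hside
        refine ⟨u, u', e1, e2, ?_, e4⟩
        have f1 := (H.Intv_trans hz' (H.Intv_comm hside)).2
        exact H.Intv_comm (H.Intv_trans f1 (H.Intv_comm e3)).1

/-! ### the groups `K r` -/

/-- the group generated by the rotations about apexes at distance at most `r` from `p0` -/
def Kr (D : V → V → ℕ) (apex : ι → V) (R : ι → Subgroup G) (p0 : V) (r : ℕ) : Subgroup G :=
  Subgroup.closure {s | ∃ i, D (apex i) p0 ≤ r ∧ s ∈ R i}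

lemma Kr_mono {p0 : V} {r r' : ℕ} (h : r ≤ r') : Kr D apex R p0 r ≤ Kr D apex R p0 r' :=
  Subgroup.closure_mono (fun _ ⟨i, hi, hs⟩ => ⟨i, le_trans hi h, hs⟩)

lemma mem_Kr_of {p0 : V} {r : ℕ} {i : ι} {s : G} (hs : s ∈ R i) (h : D (apex i) p0 ≤ r) :
    s ∈ Kr D apex R p0 r := Subgroup.subset_closure ⟨i, h, hs⟩

/-- rotations about apexes close to an orbit point -/
lemma conj_mem_Kr (H : Rot D apex ang R B Λ) {p0 : V} {r : ℕ} {i : ι} {s h : G} (hs : s ∈ R i)
    (hd : D (apex i) (h • p0) ≤ r) : h⁻¹ * s * h ∈ Kr D apex R p0 r := by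
  have h1 : h⁻¹ * s * h ∈ R (h⁻¹ • i) := by
    have := H.conj h⁻¹ i s hs
    simpa using this
  refine mem_Kr_of h1 ?_
  rw [H.apex_smul]
  have : D (h⁻¹ • apex i) p0 = D (apex i) (h • p0) := by
    rw [← H.inv h, smul_inv_smul]
  omega

lemma fix_of_mem_Kr0 (H : Rot D apex ang R B Λ) {p0 : V} {g : G} (hg : g ∈ Kr D apex R p0 0) :
    g • p0 = p0 := by
  unfold Kr at hg
  induction hg using Subgroup.closure_induction with
  | mem s hs =>
    obtain ⟨i, hi, hs⟩ := hs
    have : apex i = p0 := H.geod.eq _ _ (by omega)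
    rw [← this]
    exact H.fix_apex hs
  | one => exact one_smul _ _
  | mul a b _ _ ha hb => rw [mul_smul, hb, ha]
  | inv a _ ha => rw [inv_smul_eq_iff, ha]

/-- elementary pairs of the block of `g` -/
def El (D : V → V → ℕ) (apex : ι → V) (R : ι → Subgroup G) (p0 : V) (r ρ : ℕ) (g : G)
    (a b : V) : Prop :=
  ∃ k ∈ Kr D apex R p0 r, D a ((g * k) • p0) ≤ ρ ∧ D b ((g * k) • p0) ≤ ρ

/-- the main statement of the induction: complete chains inside `K r . B (p0, ρ)` -/
def EE (D : V → V → ℕ) (apex : ι → V) (ang : ι → V → V → ℕ) (R : ι → Subgroup G) (L1 : ℕ)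
    (p0 : V) (r ρ : ℕ) : Prop :=
  ∀ w w' : V, (∃ k ∈ Kr D apex R p0 r, D w (k • p0) ≤ ρ) →
    (∃ k ∈ Kr D apex R p0 r, D w' (k • p0) ≤ ρ) → w ≠ w' →
    ∃ x y, CC apex ang L1 (El D apex R p0 r ρ 1) w x y w'

lemma EE_zero (H : Rot D apex ang R B Λ) (L1 : ℕ) (p0 : V) (ρ : ℕ) :
    EE D apex ang R L1 p0 0 ρ := by
  rintro w w' ⟨k, hk, hw⟩ ⟨k', hk', hw'⟩ hne
  rw [H.fix_of_mem_Kr0 hk] at hw
  rw [H.fix_of_mem_Kr0 hk'] at hw'
  exact ⟨w', w, CC.base w w' ⟨1, one_mem _, by simpa using hw, by simpa using hw'⟩ hne⟩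

/-- complete chains in a translated block -/
lemma EE.block (H : Rot D apex ang R B Λ) {L1 : ℕ} {p0 : V} {r ρ : ℕ}
    (hE : EE D apex ang R L1 p0 r ρ) (g : G) {w w' : V}
    (hw : ∃ k ∈ Kr D apex R p0 r, D w ((g * k) • p0) ≤ ρ)
    (hw' : ∃ k ∈ Kr D apex R p0 r, D w' ((g * k) • p0) ≤ ρ) (hne : w ≠ w') :
    ∃ x y, CC apex ang L1 (El D apex R p0 r ρ g) w x y w' := by
  have key : ∀ u, (∃ k ∈ Kr D apex R p0 r, D u ((g * k) • p0) ≤ ρ) →
      ∃ k ∈ Kr D apex R p0 r, D (g⁻¹ • u) (k • p0) ≤ ρ := by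
    rintro u ⟨k, hk, hu⟩
    refine ⟨k, hk, ?_⟩
    have : D (g⁻¹ • u) (k • p0) = D u ((g * k) • p0) := by
      rw [← H.inv g, smul_inv_smul, mul_smul]
    omega
  obtain ⟨x, y, hc⟩ := hE (g⁻¹ • w) (g⁻¹ • w') (key w hw) (key w' hw')
    (fun he => hne (MulAction.injective g⁻¹ he))
  have := CC.smul H (El' := El D apex R p0 r ρ g) g (by
    rintro a b ⟨k, hk, h1, h2⟩
    refine ⟨k, hk, ?_, ?_⟩
    · rw [mul_smul, H.inv]
      simpa using h1
    · rw [mul_smul, H.inv]
      simpa using h2) hc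
  rw [smul_inv_smul, smul_inv_smul] at this
  exact ⟨_, _, this⟩

/-- the uniform bound: all angles at apexes outside `K r . B (p0, ρ)` are small -/
lemma star (H : Rot D apex ang R B Λ) {L1 : ℕ} (hL1 : 4 * B < L1) {p0 : V} {r ρ : ℕ}
    (hE : EE D apex ang R L1 p0 r ρ) (g : G) {j : ι}
    (hj : ∀ k ∈ Kr D apex R p0 r, ρ < D (apex j) ((g * k) • p0)) {w w' : V}
    (hw : ∃ k ∈ Kr D apex R p0 r, D w ((g * k) • p0) ≤ ρ)
    (hw' : ∃ k ∈ Kr D apex R p0 r, D w' ((g * k) • p0) ≤ ρ) : ang j w w' ≤ 4 * B := by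
  have hne : ∀ u, (∃ k ∈ Kr D apex R p0 r, D u ((g * k) • p0) ≤ ρ) → u ≠ apex j := by
    rintro u ⟨k, hk, hu⟩ he
    have := hj k hk
    rw [← he] at this
    omega
  have hwj := hne w hw
  have hwj' := hne w' hw'
  by_cases hww : w = w'
  · rw [← hww]
    have := H.self_le j hwj
    omega
  · by_contra hc
    obtain ⟨x, y, hcc⟩ := hE.block H g hw hw' hww
    obtain ⟨-, -, -, -, -, h6⟩ := CC.spec H hL1 hcc
    have hmem : apex j ∈ Intv D w w' := H.bgi j w w' hwj hwj' (by omega)
    obtain ⟨u, u', ⟨k, hk, hu, hu'⟩, e2, e3, e4⟩ := h6 _ hmem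
    have huj : u ≠ apex j := hne u ⟨k, hk, hu⟩
    have huj' : u' ≠ apex j := hne u' ⟨k, hk, hu'⟩
    have hcj : (g * k) • p0 ≠ apex j := hne _ ⟨k, hk, by rw [H.geod.self]; omega⟩
    have f1 := H.ang_le_of_mem hwj huj e3
    have f2 := H.ang_le_of_mem hwj' huj' (H.Intv_comm e4)
    have f3 : ang j u ((g * k) • p0) ≤ B := by
      by_contra hc1
      have : D u (apex j) + D (apex j) ((g * k) • p0) = D u ((g * k) • p0) :=
        H.bgi j _ _ huj hcj (by omega)
      have := hj k hk
      omega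
    have f4 : ang j u' ((g * k) • p0) ≤ B := by
      by_contra hc1
      have : D u' (apex j) + D (apex j) ((g * k) • p0) = D u' ((g * k) • p0) :=
        H.bgi j _ _ huj' hcj (by omega)
      have := hj k hk
      omega
    have g1 := H.ang_tri j w u w' hwj huj hwj'
    have g2 := H.ang_tri j u ((g * k) • p0) w' huj hcj hwj'
    have g3 := H.ang_tri j ((g * k) • p0) u' w' hcj huj' hwj'
    have g4 := H.ang_symm j ((g * k) • p0) u'
    have g5 := H.ang_symm j u' w'
    omega

/-! ### top level paths -/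

/-- `TP m g g'`: one can go from the block of `g` to the block of `g'` with `m` rotations about
apexes at distance at most `r + 1` from the current orbit point -/
inductive TP (D : V → V → ℕ) (apex : ι → V) (R : ι → Subgroup G) (p0 : V) (r : ℕ) :
    ℕ → G → G → Prop
  | zero (g g' : G) : g⁻¹ * g' ∈ Kr D apex R p0 r → TP D apex R p0 r 0 g g'
  | succ (m : ℕ) (g h g' : G) (i : ι) (s : G) : TP D apex R p0 r m g h → s ∈ R i →
      D (apex i) (h • p0) ≤ r + 1 → (s * h)⁻¹ * g' ∈ Kr D apex R p0 r →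
      TP D apex R p0 r (m + 1) g g'

lemma TP.block {p0 : V} {r m : ℕ} {g h h' : G} (ht : TP D apex R p0 r m g h)
    (hh : h⁻¹ * h' ∈ Kr D apex R p0 r) : TP D apex R p0 r m g h' := by
  cases ht with
  | zero _ _ h1 =>
    refine TP.zero _ _ ?_
    have := mul_mem h1 hh
    simpa [mul_assoc] using this
  | succ m _ k _ i s h1 h2 h3 h4 =>
    refine TP.succ m g k h' i s h1 h2 h3 ?_
    have := mul_mem h4 hh
    simpa [mul_assoc] using this

lemma TP.mem (H : Rot D apex ang R B Λ) {p0 : V} {r m : ℕ} {g h : G}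
    (ht : TP D apex R p0 r m g h) : g⁻¹ * h ∈ Kr D apex R p0 (r + 1) := by
  induction ht with
  | zero _ _ h1 => exact Kr_mono (Nat.le_succ r) h1
  | succ m g k g' i s _ h2 h3 h4 ih =>
    have h5 : k⁻¹ * s * k ∈ Kr D apex R p0 (r + 1) := H.conj_mem_Kr h2 h3
    have h6 := Kr_mono (D := D) (apex := apex) (R := R) (p0 := p0) (Nat.le_succ r) h4
    have := mul_mem (mul_mem ih h5) h6
    have e : g⁻¹ * k * (k⁻¹ * s * k) * ((s * k)⁻¹ * g') = g⁻¹ * g' := by group
    rwa [e] at this

lemma TP.exists (H : Rot D apex ang R B Λ) {p0 : V} {r : ℕ} {k : G}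
    (hk : k ∈ Kr D apex R p0 (r + 1)) : ∃ m, TP D apex R p0 r m 1 k := by
  unfold Kr at hk
  have step : ∀ (x y : G), y ∈ {s | ∃ i, D (apex i) p0 ≤ r + 1 ∧ s ∈ R i} →
      (∃ m, TP D apex R p0 r m 1 x) → ∃ m, TP D apex R p0 r m 1 (x * y) := by
    rintro x y ⟨i, hi, hy⟩ ⟨m, hm⟩
    refine ⟨m + 1, TP.succ m 1 x (x * y) (x • i) (x * y * x⁻¹) hm (H.conj x i y hy) ?_ ?_⟩
    · rw [H.apex_smul, H.inv]
      exact hi
    · have e : (x * y * x⁻¹ * x)⁻¹ * (x * y) = 1 := by group
      rw [e]
      exact one_mem _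
  induction hk using Subgroup.closure_induction_right with
  | one => exact ⟨0, TP.zero 1 1 (by simpa using one_mem _)⟩
  | mul_right x _ y hy ih => exact step x y hy ih
  | mul_inv_cancel x _ y hy ih =>
    refine step x y⁻¹ ?_ ih
    obtain ⟨i, hi, hy⟩ := hy
    exact ⟨i, hi, inv_mem hy⟩

section Level

variable {p0 : V} {r ρ : ℕ} {w : V} {S : Set G}

/-- the block of `h` is at distance exactly `a` from the set `S` -/
def Mn (D : V → V → ℕ) (apex : ι → V) (R : ι → Subgroup G) (p0 : V) (r : ℕ) (S : Set G) (a : ℕ)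
    (h : G) : Prop :=
  (∃ g ∈ S, TP D apex R p0 r a g h) ∧ ∀ a' < a, ∀ g ∈ S, ¬ TP D apex R p0 r a' g h

/-- end sets -/
structure Ends (D : V → V → ℕ) (apex : ι → V) (R : ι → Subgroup G) (p0 : V) (r ρ : ℕ) (w : V)
    (S : Set G) (k0 : G) : Prop where
  mem : ∀ g ∈ S, k0⁻¹ * g ∈ Kr D apex R p0 (r + 1)
  near : ∀ g ∈ S, D w (g • p0) ≤ ρ
  rot : ∀ g ∈ S, ∀ i, ∀ s ∈ R i, D (apex i) (g • p0) ≤ ρ → k0⁻¹ * s * k0 ∈ Kr D apex R p0 (r + 1) →
    apex i ∈ Intv D w (g • p0) → s * g ∈ S

/-- a rotation about an apex close to the block does not leave the block -/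
lemma degenerate (H : Rot D apex ang R B Λ) {h s : G} {i : ι} (hs : s ∈ R i)
    (hk : ∃ k ∈ Kr D apex R p0 r, D (apex i) ((h * k) • p0) ≤ r) :
    h⁻¹ * (s * h) ∈ Kr D apex R p0 r := by
  obtain ⟨k, hk, hd⟩ := hk
  have h1 := H.conj_mem_Kr hs hd
  have h2 := mul_mem (mul_mem hk h1) (inv_mem hk)
  have e : k * ((h * k)⁻¹ * s * (h * k)) * k⁻¹ = h⁻¹ * (s * h) := by group
  rwa [e] at h2

lemma nondeg (H : Rot D apex ang R B Λ) {h s : G} {i : ι} {a : ℕ} (hs : s ∈ R i)
    (h1 : Mn D apex R p0 r S a h) (h2 : Mn D apex R p0 r S (a + 1) (s * h)) :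
    ∀ k ∈ Kr D apex R p0 r, r < D (apex i) ((h * k) • p0) := by
  intro k hk
  by_contra hc
  have h3 := H.degenerate hs ⟨k, hk, not_lt.1 hc⟩
  obtain ⟨g, hg, ht⟩ := h1.1
  exact h2.2 a (Nat.lt_succ_self a) g hg (ht.block h3)

/-- the same for the rotated block -/
lemma nondeg' (H : Rot D apex ang R B Λ) {h s : G} {i : ι} (hs : s ∈ R i)
    (h1 : ∀ k ∈ Kr D apex R p0 r, r < D (apex i) ((h * k) • p0)) {h' : G}
    (hh : (s * h)⁻¹ * h' ∈ Kr D apex R p0 r) :
    ∀ k ∈ Kr D apex R p0 r, r < D (apex i) ((h' * k) • p0) := by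
  intro k hk
  have h2 := h1 _ (mul_mem hh hk)
  have e : (h' * k) • p0 = s • ((h * ((s * h)⁻¹ * h' * k)) • p0) := by
    rw [← mul_smul]
    congr 1
    group
  rw [e, H.dist_rot hs]
  exact h2

/-- the left end of a chain -/
lemma left (H : Rot D apex ang R B Λ) {k0 : G} (hρ : r + 1 ≤ ρ)
    (hE : EE D apex ang R (Λ - 12 * B) p0 r ρ) (hE' : EE D apex ang R (Λ - 12 * B) p0 r r)
    (hS : Ends D apex R p0 r ρ w S k0) :
    ∀ (a : ℕ) (h s : G) (i : ι), Mn D apex R p0 r S a h → s ∈ R i →
      D (apex i) (h • p0) ≤ r + 1 → Mn D apex R p0 r S (a + 1) (s * h) →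
      w ≠ apex i ∧ ∃ x y, CC apex ang (Λ - 12 * B) (El D apex R p0 (r + 1) ρ k0) w x y (apex i) ∧
        ang i y (h • p0) ≤ 6 * B := by
  have hbig := H.big
  have hL1 : 4 * B < Λ - 12 * B := by omega
  -- elements of `S` followed by a top level path
  have hmemh : ∀ {a : ℕ} {g h : G}, g ∈ S → TP D apex R p0 r a g h →
      k0⁻¹ * h ∈ Kr D apex R p0 (r + 1) := by
    intro a g h hg ht
    have := mul_mem (hS.mem g hg) (ht.mem H)
    simpa [mul_assoc] using this
  -- monotonicity of elementary pairs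
  have hEl : ∀ {h : G}, k0⁻¹ * h ∈ Kr D apex R p0 (r + 1) → ∀ a b, El D apex R p0 r ρ h a b →
      El D apex R p0 (r + 1) ρ k0 a b := by
    rintro h hh a b ⟨k, hk, h1, h2⟩
    refine ⟨k0⁻¹ * h * k, mul_mem hh (Kr_mono (Nat.le_succ r) hk), ?_, ?_⟩
    · have e : k0 * (k0⁻¹ * h * k) = h * k := by group
      rw [e]; exact h1
    · have e : k0 * (k0⁻¹ * h * k) = h * k := by group
      rw [e]; exact h2
  intro a
  induction a with
  | zero =>
    intro h s i hM hs hd hM'
    obtain ⟨⟨g, hg, ht⟩, -⟩ := hM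
    have hnd := H.nondeg hs ⟨⟨g, hg, ht⟩, by intro a' ha'; omega⟩ hM'
    have hblock : g⁻¹ * h ∈ Kr D apex R p0 r := by
      cases ht with
      | zero _ _ h1 => exact h1
    have hblock' : h⁻¹ * g ∈ Kr D apex R p0 r := by
      have := inv_mem hblock
      simpa using this
    have hgp : ∀ k ∈ Kr D apex R p0 r, (h * k) • p0 ≠ apex i := by
      intro k hk he
      have := hnd k hk
      rw [he, H.geod.self] at this
      omega
    have egh : h * (h⁻¹ * g) = g := by group
    have hgne : g • p0 ≠ apex i := by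
      have := hgp _ hblock'
      rwa [egh] at this
    have hhne : h • p0 ≠ apex i := by
      have := hgp 1 (one_mem _)
      simpa using this
    have hsK : k0⁻¹ * s * k0 ∈ Kr D apex R p0 (r + 1) := by
      have h1 := hmemh hg ht
      have h2 := H.conj_mem_Kr hs hd
      have h3 := mul_mem (mul_mem h1 h2) (inv_mem h1)
      have e : k0⁻¹ * h * (h⁻¹ * s * h) * (k0⁻¹ * h)⁻¹ = k0⁻¹ * s * k0 := by group
      rwa [e] at h3
    have hnot : apex i ∉ Intv D w (g • p0) := by
      intro hmem
      have hdg : D (apex i) (g • p0) ≤ ρ := by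
        have h1 : D w (apex i) + D (apex i) (g • p0) = D w (g • p0) := hmem
        have h2 := hS.near g hg
        omega
      have h1 := hS.rot g hg i s hs hdg hsK hmem
      refine hM'.2 0 (by omega) (s * g) h1 (TP.zero _ _ ?_)
      have e : (s * g)⁻¹ * (s * h) = g⁻¹ * h := by group
      rwa [e]
    have hwz : w ≠ apex i := by
      intro he
      apply hnot
      rw [← he]
      exact H.Intv_left _ _
    have h1 : ang i w (g • p0) ≤ B := by
      by_contra hc
      exact hnot (H.bgi i _ _ hwz hgne (by omega))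
    obtain ⟨x, y, hcc⟩ := hE.block H h (w := w) (w' := apex i)
      ⟨h⁻¹ * g, hblock', by rw [egh]; exact hS.near g hg⟩
      ⟨1, one_mem _, by rw [mul_one]; omega⟩ hwz
    obtain ⟨-, -, -, c4, c5, -⟩ := CC.spec H hL1 hcc
    refine ⟨hwz, x, y, hcc.mono (hEl (hmemh hg ht)), ?_⟩
    have h2 := H.ang_le_of_mem hwz c5 c4
    have h3 : ang i (g • p0) (h • p0) ≤ 4 * B := by
      refine H.star hL1 hE' h hnd ⟨h⁻¹ * g, hblock', ?_⟩ ⟨1, one_mem _, ?_⟩
      · rw [egh, H.geod.self]; omega
      · rw [mul_one, H.geod.self]; omega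
    have h4 := H.ang_tri i y w (h • p0) c5 hwz hhne
    have h5 := H.ang_tri i w (g • p0) (h • p0) hwz hgne hhne
    have h6 := H.ang_symm i w y
    omega
  | succ a ih =>
    intro h s i hM hs hd hM'
    obtain ⟨⟨g, hg, ht⟩, hmin⟩ := hM
    have hnd := H.nondeg hs ⟨⟨g, hg, ht⟩, hmin⟩ hM'
    cases ht with
    | succ _ _ h0 _ i0 s0 t1 t2 t3 t4 =>
      -- the previous block
      have hM0 : Mn D apex R p0 r S a h0 := by
        refine ⟨⟨g, hg, t1⟩, ?_⟩
        intro a' ha' g' hg' ht'
        exact hmin (a' + 1) (by omega) g' hg' (TP.succ a' g' h0 h i0 s0 ht' t2 t3 t4)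
      have ht4 : h⁻¹ * (s0 * h0) ∈ Kr D apex R p0 r := by
        have := inv_mem t4
        simpa [mul_assoc] using this
      have hM1 : Mn D apex R p0 r S (a + 1) (s0 * h0) := by
        refine ⟨⟨g, hg, TP.succ a g h0 _ i0 s0 t1 t2 t3 (by
          have e : (s0 * h0)⁻¹ * (s0 * h0) = 1 := by group
          rw [e]; exact one_mem _)⟩, ?_⟩
        intro a' ha' g' hg' ht'
        exact hmin a' ha' g' hg' (ht'.block t4)
      obtain ⟨hwz0, x, y0, hcc0, hang0⟩ := ih h0 s0 i0 hM0 t2 t3 hM1
      have hnd0 := H.nondeg t2 hM0 hM1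
      have hnd0' := H.nondeg' t2 hnd0 t4
      have htg : TP D apex R p0 r (a + 1) g h := TP.succ a g h0 h i0 s0 t1 t2 t3 t4
      -- the two apexes differ
      have hii : i0 ≠ i := by
        intro he
        subst he
        refine hM'.2 (a + 1) (by omega) g hg (TP.succ a g h0 (s * h) i0 (s * s0) t1
          (mul_mem hs t2) t3 ?_)
        have e : (s * s0 * h0)⁻¹ * (s * h) = (s0 * h0)⁻¹ * h := by group
        rwa [e]
      have hzz : apex i0 ≠ apex i := fun he => hii (H.apex_inj he)
      have hs0 : s0 ≠ 1 := by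
        intro he
        refine hM1.2 a (by omega) g hg ?_
        rw [he, one_mul]
        exact t1
      -- distances
      have d1 : D (apex i0) ((s0 * h0) • p0) ≤ r + 1 := by
        rw [mul_smul, H.dist_rot t2]
        exact t3
      have eb : h * (h⁻¹ * (s0 * h0)) = s0 * h0 := by group
      -- nonequalities
      have n1 : h0 • p0 ≠ apex i0 := by
        intro he
        have := hnd0 1 (one_mem _)
        rw [mul_one, he, H.geod.self] at this
        omega
      have n2 : (s0 * h0) • p0 ≠ apex i0 := by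
        intro he
        have := hnd0' _ ht4
        rw [eb, he, H.geod.self] at this
        omega
      have n3 : h • p0 ≠ apex i0 := by
        intro he
        have := hnd0' 1 (one_mem _)
        rw [mul_one, he, H.geod.self] at this
        omega
      have n4 : h • p0 ≠ apex i := by
        intro he
        have := hnd 1 (one_mem _)
        rw [mul_one, he, H.geod.self] at this
        omega
      have n5 : (s0 * h0) • p0 ≠ apex i := by
        intro he
        have := hnd _ ht4
        rw [eb, he, H.geod.self] at this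
        omega
      -- the chain in the block
      obtain ⟨x', y, hcc⟩ := hE.block H h (w := apex i0) (w' := apex i)
        ⟨h⁻¹ * (s0 * h0), ht4, by rw [eb]; omega⟩
        ⟨1, one_mem _, by rw [mul_one]; omega⟩ hzz
      obtain ⟨-, c2, c3, c4, c5, -⟩ := CC.spec H hL1 hcc
      obtain ⟨-, -, -, b4, b5, -⟩ := CC.spec H hL1 hcc0
      -- angles at the previous apex
      have a1 : ang i0 (apex i) x' ≤ B := H.ang_le_of_mem hzz.symm c3 (H.Intv_comm c2)
      have a2 : ang i0 (apex i) (h • p0) ≤ B := by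
        by_contra hc
        have e1 : D (apex i) (apex i0) + D (apex i0) (h • p0) = D (apex i) (h • p0) :=
          H.bgi i0 _ _ hzz.symm n3 (by omega)
        have e2 := H.pos hzz.symm
        have e3 := hnd0' 1 (one_mem _)
        rw [mul_one] at e3
        omega
      have a3 : ang i0 (h • p0) ((s0 * h0) • p0) ≤ 4 * B := by
        refine H.star hL1 hE' h hnd0' ⟨1, one_mem _, ?_⟩ ⟨h⁻¹ * (s0 * h0), ht4, ?_⟩
        · rw [mul_one, H.geod.self]; omega
        · rw [eb, H.geod.self]; omega
      have a4 : Λ ≤ ang i0 (h0 • p0) ((s0 * h0) • p0) := by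
        rw [mul_smul]
        exact H.rot i0 s0 t2 hs0 _ n1
      have a5 := H.ang_tri i0 (h0 • p0) y0 ((s0 * h0) • p0) n1 b5 n2
      have a6 := H.ang_tri i0 y0 x' ((s0 * h0) • p0) b5 c3 n2
      have a7 := H.ang_tri i0 x' (apex i) ((s0 * h0) • p0) c3 hzz.symm n2
      have a8 := H.ang_tri i0 (apex i) (h • p0) ((s0 * h0) • p0) hzz.symm n3 n2
      have a9 := H.ang_symm i0 x' (apex i)
      have a10 := H.ang_symm i0 (h0 • p0) y0
      have hjoin : Λ - 12 * B ≤ ang i0 y0 x' := by omega
      -- `w` differs from the new apex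
      have hcc1 := CC.join w x y0 i0 x' y (apex i) hcc0 (hcc.mono (hEl (hmemh hg htg))) hjoin
      obtain ⟨f1, -⟩ := CC.spec H hL1 hcc1
      refine ⟨f1, x, y, hcc1, ?_⟩
      -- angles at the new apex
      have g1 : ang i (apex i0) y ≤ B := H.ang_le_of_mem hzz c5 c4
      have g2 : ang i (apex i0) ((s0 * h0) • p0) ≤ B := by
        by_contra hc
        have e1 : D (apex i0) (apex i) + D (apex i) ((s0 * h0) • p0)
            = D (apex i0) ((s0 * h0) • p0) := H.bgi i _ _ hzz n5 (by omega)
        have e2 := H.pos hzz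
        have e3 := hnd _ ht4
        rw [eb] at e3
        omega
      have g3 : ang i ((s0 * h0) • p0) (h • p0) ≤ 4 * B := by
        refine H.star hL1 hE' h hnd ⟨h⁻¹ * (s0 * h0), ht4, ?_⟩ ⟨1, one_mem _, ?_⟩
        · rw [eb, H.geod.self]; omega
        · rw [mul_one, H.geod.self]; omega
      have g4 := H.ang_tri i y (apex i0) (h • p0) c5 hzz n4
      have g5 := H.ang_tri i (apex i0) ((s0 * h0) • p0) (h • p0) hzz n5 n4
      have g6 := H.ang_symm i y (apex i0)
      omega

/-- the two ends together -/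
lemma two_sided (H : Rot D apex ang R B Λ) {k0 : G} (hρ : r + 1 ≤ ρ)
    (hE : EE D apex ang R (Λ - 12 * B) p0 r ρ) (hE' : EE D apex ang R (Λ - 12 * B) p0 r r)
    (hS : Ends D apex R p0 r ρ w S k0) {w' : V} {S' : Set G} {k1 : G}
    (hS' : Ends D apex R p0 r ρ w' S' k1) (hk : k0⁻¹ * k1 ∈ Kr D apex R p0 (r + 1)) {m : ℕ}
    (hm : ∃ g ∈ S, ∃ g' ∈ S', TP D apex R p0 r (m + 1) g g')
    (hmin : ∀ m' ≤ m, ∀ g ∈ S, ∀ g' ∈ S', ¬ TP D apex R p0 r m' g g') :
    ∃ (i : ι) (s h g' : G), s ∈ R i ∧ (∃ g ∈ S, TP D apex R p0 r m g h) ∧ g' ∈ S' ∧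
      (s * h)⁻¹ * g' ∈ Kr D apex R p0 r ∧ w ≠ apex i ∧ w' ≠ apex i ∧
      Λ - 12 * B ≤ ang i w w' ∧
      ∃ x y, CC apex ang (Λ - 12 * B) (El D apex R p0 (r + 1) ρ k0) w x y w' := by
  have hbig := H.big
  have hL1 : 4 * B < Λ - 12 * B := by omega
  obtain ⟨g, hg, g', hg', ht⟩ := hm
  cases ht with
  | succ _ _ h _ i s t1 t2 t3 t4 =>
    have hM : Mn D apex R p0 r S m h := by
      refine ⟨⟨g, hg, t1⟩, ?_⟩
      intro a' ha' g1 hg1 ht1
      exact hmin (a' + 1) (by omega) g1 hg1 g' hg' (TP.succ a' g1 h g' i s ht1 t2 t3 t4)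
    have hM' : Mn D apex R p0 r S (m + 1) (s * h) := by
      refine ⟨⟨g, hg, TP.succ m g h _ i s t1 t2 t3 (by
        have e : (s * h)⁻¹ * (s * h) = 1 := by group
        rw [e]; exact one_mem _)⟩, ?_⟩
      intro a' ha' g1 hg1 ht1
      exact hmin a' (by omega) g1 hg1 g' hg' (ht1.block t4)
    obtain ⟨hwz, x, y, hcc, hang⟩ := H.left hρ hE hE' hS m h s i hM t2 t3 hM'
    have hnd := H.nondeg t2 hM hM'
    have hnd' := H.nondeg' t2 hnd t4
    have hs : s ≠ 1 := by
      intro he
      refine hM'.2 m (by omega) g hg ?_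
      rw [he, one_mul]
      exact t1
    have ht4 : g'⁻¹ * (s * h) ∈ Kr D apex R p0 r := by
      have := inv_mem t4
      simpa [mul_assoc] using this
    have eb : g' * (g'⁻¹ * (s * h)) = s * h := by group
    have hhK : k0⁻¹ * h ∈ Kr D apex R p0 (r + 1) := by
      have := mul_mem (hS.mem g hg) (t1.mem H)
      simpa [mul_assoc] using this
    have hsK : k1⁻¹ * s⁻¹ * k1 ∈ Kr D apex R p0 (r + 1) := by
      have h2 := inv_mem (H.conj_mem_Kr t2 t3)
      have h1 := mul_mem (inv_mem hk) hhK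
      have h3 := mul_mem (mul_mem h1 h2) (inv_mem h1)
      have e : (k0⁻¹ * k1)⁻¹ * (k0⁻¹ * h) * (h⁻¹ * s * h)⁻¹ * ((k0⁻¹ * k1)⁻¹ * (k0⁻¹ * h))⁻¹
          = k1⁻¹ * s⁻¹ * k1 := by group
      rwa [e] at h3
    have n1 : h • p0 ≠ apex i := by
      intro he
      have := hnd 1 (one_mem _)
      rw [mul_one, he, H.geod.self] at this
      omega
    have n2 : (s * h) • p0 ≠ apex i := by
      intro he
      have := hnd' _ ht4
      rw [eb, he, H.geod.self] at this
      omega
    have n3 : g' • p0 ≠ apex i := by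
      intro he
      have := hnd' 1 (one_mem _)
      rw [mul_one, he, H.geod.self] at this
      omega
    have hnot : apex i ∉ Intv D w' (g' • p0) := by
      intro hmem
      have hdg : D (apex i) (g' • p0) ≤ ρ := by
        have h1 : D w' (apex i) + D (apex i) (g' • p0) = D w' (g' • p0) := hmem
        have h2 := hS'.near g' hg'
        omega
      have h1 := hS'.rot g' hg' i s⁻¹ (inv_mem t2) hdg hsK hmem
      refine hmin m le_rfl g hg (s⁻¹ * g') h1 (t1.block ?_)
      have e : h⁻¹ * (s⁻¹ * g') = (s * h)⁻¹ * g' := by group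
      rwa [e]
    have hwz' : w' ≠ apex i := by
      intro he
      apply hnot
      rw [← he]
      exact H.Intv_left _ _
    have d1 : D (apex i) ((s * h) • p0) ≤ r + 1 := by
      rw [mul_smul, H.dist_rot t2]
      exact t3
    obtain ⟨x', y', hcc'⟩ := hE.block H g' (w := apex i) (w' := w')
      ⟨g'⁻¹ * (s * h), ht4, by rw [eb]; omega⟩
      ⟨1, one_mem _, by rw [mul_one]; exact hS'.near g' hg'⟩ hwz'.symm
    obtain ⟨-, c2, c3, -, -, -⟩ := CC.spec H hL1 hcc'
    obtain ⟨-, -, -, b4, b5, -⟩ := CC.spec H hL1 hcc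
    have a1 : ang i w' x' ≤ B := H.ang_le_of_mem hwz' c3 (H.Intv_comm c2)
    have a2 : ang i w' (g' • p0) ≤ B := by
      by_contra hc
      exact hnot (H.bgi i _ _ hwz' n3 (by omega))
    have a3 : ang i (g' • p0) ((s * h) • p0) ≤ 4 * B := by
      refine H.star hL1 hE' g' hnd' ⟨1, one_mem _, ?_⟩ ⟨g'⁻¹ * (s * h), ht4, ?_⟩
      · rw [mul_one, H.geod.self]; omega
      · rw [eb, H.geod.self]; omega
    have a4 : Λ ≤ ang i (h • p0) ((s * h) • p0) := by
      rw [mul_smul]
      exact H.rot i s t2 hs _ n1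
    have a0 := H.ang_le_of_mem hwz b5 b4
    have a5 := H.ang_tri i (h • p0) y ((s * h) • p0) n1 b5 n2
    have a6 := H.ang_tri i y x' ((s * h) • p0) b5 c3 n2
    have a7 := H.ang_tri i x' w' ((s * h) • p0) c3 hwz' n2
    have a8 := H.ang_tri i w' (g' • p0) ((s * h) • p0) hwz' n3 n2
    have a9 := H.ang_symm i x' w'
    have a10 := H.ang_symm i (h • p0) y
    have a11 := H.ang_tri i y w ((s * h) • p0) b5 hwz n2
    have a12 := H.ang_tri i w w' ((s * h) • p0) hwz hwz' n2
    have a13 := H.ang_symm i y w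
    have hjoin : Λ - 12 * B ≤ ang i y x' := by omega
    have hg'K : k0⁻¹ * g' ∈ Kr D apex R p0 (r + 1) := by
      have := mul_mem hk (hS'.mem g' hg')
      simpa [mul_assoc] using this
    refine ⟨i, s, h, g', t2, ⟨g, hg, t1⟩, hg', t4, hwz, hwz', by omega, x, y', ?_⟩
    refine CC.join w x y i x' y' w' hcc (hcc'.mono ?_) hjoin
    rintro a b ⟨k, hk', h1, h2⟩
    refine ⟨k0⁻¹ * g' * k, mul_mem hg'K (Kr_mono (Nat.le_succ r) hk'), ?_, ?_⟩
    · have e : k0 * (k0⁻¹ * g' * k) = g' * k := by group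
      rw [e]; exact h1
    · have e : k0 * (k0⁻¹ * g' * k) = g' * k := by group
      rw [e]; exact h2

end Level

/-- the main induction -/
theorem EE_all (H : Rot D apex ang R B Λ) (p0 : V) :
    ∀ (r ρ : ℕ), r ≤ ρ → EE D apex ang R (Λ - 12 * B) p0 r ρ := by
  classical
  intro r
  induction r with
  | zero => intro ρ _; exact H.EE_zero _ p0 ρ
  | succ r ih =>
    intro ρ hρ w w' hw hw' hne
    obtain ⟨k, hk, hwk⟩ := hw
    obtain ⟨k', hk', hwk'⟩ := hw'
    have hE := ih ρ (by omega)
    have hE' := ih r le_rfl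
    -- the end sets
    have hends : ∀ u, Ends D apex R p0 r ρ u
        {g | g ∈ Kr D apex R p0 (r + 1) ∧ D u (g • p0) ≤ ρ} 1 := by
      intro u
      refine ⟨fun g hg => by simpa using hg.1, fun g hg => hg.2, ?_⟩
      rintro g ⟨hg1, hg2⟩ i s hs _ hsK hmem
      have hsK' : s ∈ Kr D apex R p0 (r + 1) := by simpa using hsK
      refine ⟨mul_mem hsK' hg1, ?_⟩
      have h1 : D u (apex i) + D (apex i) (g • p0) = D u (g • p0) := hmem
      have h2 := H.geod.tri u (apex i) ((s * g) • p0)
      rw [mul_smul] at h2 ⊢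
      rw [H.dist_rot hs] at h2
      omega
    have hex : ∃ m, ∃ g ∈ {g | g ∈ Kr D apex R p0 (r + 1) ∧ D w (g • p0) ≤ ρ},
        ∃ g' ∈ {g | g ∈ Kr D apex R p0 (r + 1) ∧ D w' (g • p0) ≤ ρ},
        TP D apex R p0 r m g g' := by
      obtain ⟨m, hm⟩ := TP.exists H (mul_mem (inv_mem hk) hk')
      have key : ∀ (m : ℕ) (a b : G), TP D apex R p0 r m a b →
          TP D apex R p0 r m (k * a) (k * b) := by
        intro m a b hab
        induction hab with
        | zero a b h =>
          refine TP.zero _ _ ?_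
          have e : (k * a)⁻¹ * (k * b) = a⁻¹ * b := by group
          rwa [e]
        | succ m a c b i s _ h2 h3 h4 ih =>
          refine TP.succ m _ (k * c) _ (k • i) (k * s * k⁻¹) ih (H.conj k i s h2) ?_ ?_
          · rw [H.apex_smul, mul_smul, H.inv]
            exact h3
          · have e : (k * s * k⁻¹ * (k * c))⁻¹ * (k * b) = (s * c)⁻¹ * b := by group
            rwa [e]
      refine ⟨m, k, ⟨hk, hwk⟩, k', ⟨hk', hwk'⟩, ?_⟩
      have := key m _ _ hm
      simpa using this
    have hspec := Nat.find_spec hex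
    rcases Nat.eq_zero_or_pos (Nat.find hex) with h0 | hpos
    · -- the same block
      rw [h0] at hspec
      obtain ⟨g, ⟨hg1, hg2⟩, g', ⟨hg1', hg2'⟩, ht⟩ := hspec
      have hblock : g⁻¹ * g' ∈ Kr D apex R p0 r := by
        cases ht with
        | zero _ _ h1 => exact h1
      obtain ⟨x, y, hcc⟩ := hE.block H g (w := w) (w' := w')
        ⟨1, one_mem _, by rw [mul_one]; exact hg2⟩
        ⟨g⁻¹ * g', hblock, by
          have e : g * (g⁻¹ * g') = g' := by group
          rw [e]; exact hg2'⟩ hne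
      refine ⟨x, y, hcc.mono ?_⟩
      rintro a b ⟨l, hl, h1, h2⟩
      exact ⟨g * l, mul_mem hg1 (Kr_mono (Nat.le_succ r) hl), by rwa [one_mul], by rwa [one_mul]⟩
    · obtain ⟨m, hm⟩ : ∃ m, Nat.find hex = m + 1 := ⟨Nat.find hex - 1, by omega⟩
      rw [hm] at hspec
      obtain ⟨i, s, h, g', -, -, -, -, -, -, -, x, y, hcc⟩ := H.two_sided (by omega) hE hE'
        (hends w) (hends w') (by simpa using one_mem _) hspec (by
          intro m' hm' g hg g' hg' ht
          have := Nat.find_min' hex ⟨g, hg, g', hg', ht⟩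
          omega)
      exact ⟨x, y, hcc⟩

/-- the group generated by all rotations -/
def KK (R : ι → Subgroup G) : Subgroup G := Subgroup.closure {s | ∃ i, s ∈ R i}

lemma mem_KK_iff (p0 : V) {k : G} (hk : k ∈ KK R) : ∃ r, k ∈ Kr D apex R p0 r := by
  unfold KK at hk
  induction hk using Subgroup.closure_induction with
  | mem s hs =>
    obtain ⟨i, hs⟩ := hs
    exact ⟨D (apex i) p0, mem_Kr_of hs le_rfl⟩
  | one => exact ⟨0, one_mem _⟩
  | mul a b _ _ ha hb =>
    obtain ⟨r, hr⟩ := ha
    obtain ⟨r', hr'⟩ := hb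
    exact ⟨max r r', mul_mem (Kr_mono (le_max_left _ _) hr) (Kr_mono (le_max_right _ _) hr')⟩
  | inv a _ ha =>
    obtain ⟨r, hr⟩ := ha
    exact ⟨r, inv_mem hr⟩

/-- the pivot theorem, as an induction principle -/
theorem pivot_induction (H : Rot D apex ang R B Λ) (p0 : V) (P : G → Prop)
    (h0 : ∀ k ∈ Kr D apex R p0 0, P k)
    (h1 : ∀ (k : G) (i : ι) (s : G), k ∈ KK R → s ∈ R i → apex i ≠ p0 → apex i ≠ k • p0 →
      Λ - 12 * B ≤ ang i p0 (k • p0) → P (s⁻¹ * k) → P k) :
    ∀ k ∈ KK R, P k := by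
  classical
  have hKK : ∀ r k, k ∈ Kr D apex R p0 r → k ∈ KK R := by
    intro r k hk
    unfold Kr at hk
    unfold KK
    refine Subgroup.closure_mono ?_ hk
    rintro s ⟨i, _, hs⟩
    exact ⟨i, hs⟩
  have main : ∀ r, ∀ k ∈ Kr D apex R p0 r, P k := by
    intro r
    induction r with
    | zero => exact h0
    | succ r ih =>
      have inner : ∀ (m : ℕ) (k : G), k ∈ Kr D apex R p0 (r + 1) →
          (∃ g ∈ Kr D apex R p0 0, ∃ g' ∈ Kr D apex R p0 0,
            TP D apex R p0 r m g (k * g')) → P k := by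
        intro m
        induction m using Nat.strong_induction_on with
        | _ m ihm =>
          intro k hk hm
          by_cases hkr : k ∈ Kr D apex R p0 r
          · exact ih k hkr
          · -- minimal number of top level rotations
            have hex : ∃ m, ∃ g ∈ (Kr D apex R p0 0 : Set G),
                ∃ g' ∈ {g' | ∃ l ∈ Kr D apex R p0 0, g' = k * l},
                TP D apex R p0 r m g g' := by
              obtain ⟨g, hg, g', hg', ht⟩ := hm
              exact ⟨m, g, hg, k * g', ⟨g', hg', rfl⟩, ht⟩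
            have hspec := Nat.find_spec hex
            have hlem : Nat.find hex ≤ m := by
              obtain ⟨g, hg, g', hg', ht⟩ := hm
              exact Nat.find_min' hex ⟨g, hg, k * g', ⟨g', hg', rfl⟩, ht⟩
            have hpos : 0 < Nat.find hex := by
              rcases Nat.eq_zero_or_pos (Nat.find hex) with h | h
              · exfalso
                rw [h] at hspec
                obtain ⟨g, hg, g', ⟨l, hl, rfl⟩, ht⟩ := hspec
                apply hkr
                cases ht with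
                | zero _ _ h2 =>
                  have hg0 : g ∈ Kr D apex R p0 r := Kr_mono (Nat.zero_le _) hg
                  have hl0 : l ∈ Kr D apex R p0 r := Kr_mono (Nat.zero_le _) hl
                  have := mul_mem (mul_mem hg0 h2) (inv_mem hl0)
                  have e : g * (g⁻¹ * (k * l)) * l⁻¹ = k := by group
                  rwa [e] at this
              · exact h
            obtain ⟨m1, hm1⟩ : ∃ m1, Nat.find hex = m1 + 1 := ⟨Nat.find hex - 1, by omega⟩
            rw [hm1] at hspec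
            -- the end sets
            have hS : Ends D apex R p0 r (r + 1) p0 (Kr D apex R p0 0 : Set G) 1 := by
              refine ⟨fun g hg => by simpa using Kr_mono (Nat.zero_le _) hg, ?_, ?_⟩
              · intro g hg
                rw [H.fix_of_mem_Kr0 hg, H.geod.self]
                omega
              · intro g hg i s hs _ _ hmem
                rw [H.fix_of_mem_Kr0 hg] at hmem
                have h2 : D p0 (apex i) + D (apex i) p0 = D p0 p0 := hmem
                rw [H.geod.self] at h2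
                exact mul_mem (mem_Kr_of hs (by omega)) hg
            have hS' : Ends D apex R p0 r (r + 1) (k • p0)
                {g' | ∃ l ∈ Kr D apex R p0 0, g' = k * l} k := by
              refine ⟨?_, ?_, ?_⟩
              · rintro g ⟨l, hl, rfl⟩
                have e : k⁻¹ * (k * l) = l := by group
                rw [e]
                exact Kr_mono (Nat.zero_le _) hl
              · rintro g ⟨l, hl, rfl⟩
                rw [mul_smul, H.fix_of_mem_Kr0 hl, H.geod.self]
                omega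
              · rintro g ⟨l, hl, rfl⟩ i s hs _ _ hmem
                rw [mul_smul, H.fix_of_mem_Kr0 hl] at hmem
                have h2 : D (k • p0) (apex i) + D (apex i) (k • p0) = D (k • p0) (k • p0) := hmem
                rw [H.geod.self] at h2
                have h3 : k⁻¹ * s * k ∈ Kr D apex R p0 0 :=
                  H.conj_mem_Kr hs (by omega : D (apex i) (k • p0) ≤ 0)
                exact ⟨k⁻¹ * s * k * l, mul_mem h3 hl, by group⟩
            obtain ⟨i, s, h, g', e1, ⟨g, hg, e2⟩, ⟨l, hl, rfl⟩, e4, e5, e6, e7, -⟩ :=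
              H.two_sided le_rfl (H.EE_all p0 r (r + 1) (by omega)) (H.EE_all p0 r r le_rfl)
                hS hS' (by simpa using hk) hspec (by
                  intro m' hm' g hg g' hg' ht
                  have := Nat.find_min' hex ⟨g, hg, g', hg', ht⟩
                  omega)
            refine h1 k i s (hKK _ _ hk) e1 e5.symm e6.symm e7 ?_
            -- the remaining element is simpler
            have hsk : s⁻¹ * k ∈ Kr D apex R p0 (r + 1) := by
              have f1 : g⁻¹ * h ∈ Kr D apex R p0 (r + 1) := e2.mem H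
              have f2 := mul_mem (Kr_mono (Nat.zero_le (r + 1)) hg) f1
              have f3 := mul_mem f2 (Kr_mono (Nat.le_succ r) e4)
              have f4 := mul_mem f3 (inv_mem (Kr_mono (Nat.zero_le (r + 1)) hl))
              have e : g * (g⁻¹ * h) * ((s * h)⁻¹ * (k * l)) * l⁻¹ = s⁻¹ * k := by group
              rwa [e] at f4
            refine ihm m1 (by omega) (s⁻¹ * k) hsk ⟨g, hg, l, hl, e2.block ?_⟩
            have e : h⁻¹ * (s⁻¹ * k * l) = (s * h)⁻¹ * (k * l) := by group
            rwa [e]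
      intro k hk
      obtain ⟨m, hm⟩ := TP.exists H hk
      exact inner m k hk ⟨1, one_mem _, 1, one_mem _, by simpa using hm⟩
  intro k hk
  obtain ⟨r, hr⟩ := mem_KK_iff (D := D) (apex := apex) p0 hk
  exact main r k hr

end Rot

end Pool.Agent.Burnside
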