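import Pool.Agent.Burnside.ConeOff
import Pool.Agent.Burnside.Windmill

/-!
Interfaces of the Burnside project (infinite finitely generated groups of odd exponent `n`).

* `Lox`      : loxodromic elements (integer form of `stable length ≥ 1/T`)
* `Stage`    : the induction hypothesis for a group `G` acting on an integer geodesic space `X`
* `Pack`     : what the space `X` provides (axes, rotation groups): output of part (III)
* `Sys`      : a system of apexes and angles, triangle inequality up to `η`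
* `Quo`      : what the rotation system gives for the quotient `V / K`: output of part (V)
-/

set_option autoImplicit false

namespace Pool.Agent.Burnside

/-- `g` is loxodromic, its stable length is at least `1/T` -/
def Lox {G X : Type*} [Group G] [MulAction G X] (d : X → X → ℕ) (T : ℕ) (g : G) : Prop :=
  ∀ (x : X) (k : ℕ), k ≤ T * d x (g ^ k • x)

/-- the induction hypothesis -/
structure Stage {G X : Type*} [Group G] [MulAction G X] (d : X → X → ℕ)
    (δ C A T n : ℕ) : Prop where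
  geod : IsGeod d
  inv : ∀ (g : G) (x y : X), d (g • x) (g • y) = d x y
  slim : Slim d δ
  ne : ∃ _x : X, True
  s2 : ∀ g : G, g ^ n = 1 ∨ Lox d T g
  s3a : ∀ (g : G) (x y : X), A ≤ d x y → d x (g • x) ≤ C → d y (g • y) ≤ C → g ^ n = 1 → g = 1
  s3b : ∀ (g h : G) (x y : X), A ≤ d x y → d x (g • x) ≤ C → d y (g • y) ≤ C →
    d x (h • x) ≤ C → d y (h • y) ≤ C → g * h = h * g
  s4 : ∃ g h : G, Lox d T g ∧ g * h ≠ h * g

/-- output of part (III): the axes `Y i`, their rotation groups `R i`, the behaviour of elements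
with small displacement.  `i` ranges over the index type `ι` of the (centralisers of) loxodromic
elements which move some point by at most `D1`. -/
structure Pack {G X ι : Type*} [Group G] [MulAction G X] [MulAction G ι] (d : X → X → ℕ)
    (Y : ι → Set X) (R : ι → Subgroup G) (κ Θ A T n D1 D2 E c0 : ℕ) : Prop where
  ne : ∀ i, (Y i).Nonempty
  qc : ∀ i, QC d (Y i) κ
  smul : ∀ (g : G) (i : ι) (x : X), x ∈ Y i → g • x ∈ Y (g • i)
  pb : Cone.PB d Y Θ
  pow_mem : ∀ (g : G) (i : ι), g • i = i → g ^ n ∈ R i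
  mem_pow : ∀ (i : ι), ∀ s ∈ R i, ∃ g : G, g • i = i ∧ s = g ^ n
  comm : ∀ (g h : G) (i : ι), g • i = i → h • i = i → g * h = h * g
  lox : ∀ (g : G) (i : ι), g • i = i → g ≠ 1 → Lox d T g
  ex : ∀ g : G, g ^ n ≠ 1 → (∃ x : X, d x (g • x) ≤ D1) → ∃ i : ι, g • i = i
  small : ∀ i : ι, ∃ u : G, u ≠ 1 ∧ u • i = i ∧ ∀ y ∈ Y i, d y (u • y) ≤ D2
  two : ∀ (g : G) (i j : ι), g • i = i → g • j = j → i ≠ j → g = 1
  e8 : ∀ (g : G) (i : ι) (x : X) (ρ : ℕ), g • i = i → g ≠ 1 → d x (g • x) ≤ ρ →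
    ∃ y ∈ Y i, 2 * d x y ≤ ρ + E
  f1 : ∀ (g : G) (x : X) (ρ : ℕ), g ^ n ≠ 1 → (∀ i : ι, g • i ≠ i) → d x (g • x) ≤ ρ →
    ∃ q : X, (∀ j : ℕ, j ≤ d q (g ^ j • q)) ∧
      ∀ (i : ι) (j : ℕ), dPr d Y i (Sum.inl q) (Sum.inl (g ^ j • q)) ≤ A + c0 * (ρ + 1)
  two_el : ∀ (g h : G) (x y : X) (r : ℕ), A + c0 * (r + 1) ≤ d x y → d x (g • x) ≤ r →
    d y (g • y) ≤ r → d x (h • x) ≤ r → d y (h • y) ≤ r → g * h = h * g
  one_el : ∀ (g : G) (x y : X) (r : ℕ), A + c0 * (r + 1) ≤ d x y → d x (g • x) ≤ r →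
    d y (g • y) ≤ r → g ^ n = 1 → g = 1

/-- a system of apexes with angles, with the triangle inequality up to `η` and bounded geodesic
image with constant `B` (the system of the cone-off has `η = 0`, its quotient has `η = 4 B`) -/
structure Sys (G : Type*) {V ι : Type*} [Group G] [MulAction G V] [MulAction G ι]
    (D : V → V → ℕ) (apex : ι → V) (ang : ι → V → V → ℕ) (B η : ℕ) : Prop where
  geod : IsGeod D
  inv : ∀ (g : G) (a b : V), D (g • a) (g • b) = D a b
  apex_inj : Function.Injective apex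
  apex_smul : ∀ (g : G) (i : ι), apex (g • i) = g • apex i
  ang_inv : ∀ (g : G) (i : ι) (a b : V), ang (g • i) (g • a) (g • b) = ang i a b
  ang_symm : ∀ (i : ι) (a b : V), ang i a b = ang i b a
  ang_tri : ∀ (i : ι) (a b c : V), a ≠ apex i → b ≠ apex i → c ≠ apex i →
    ang i a c ≤ ang i a b + ang i b c + η
  bgi : ∀ (i : ι) (a b : V), a ≠ apex i → b ≠ apex i → B < ang i a b → apex i ∈ Intv D a b

/-- output of part (V): the quotient of a rotation system by the group `K = KK R` generated by all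
rotations.  `π : G → G' = G / K`, `p : V → V' = V / K`, `q : ι → ι' = ι / K`. -/
structure Quo {G V ι G' V' ι' : Type*} [Group G] [MulAction G V] [MulAction G ι] [Group G']
    [MulAction G' V'] [MulAction G' ι'] (D : V → V → ℕ) (apex : ι → V) (ang : ι → V → V → ℕ)
    (R : ι → Subgroup G) (B Λ : ℕ) (D' : V' → V' → ℕ) (apex' : ι' → V')
    (ang' : ι' → V' → V' → ℕ) (π : G →* G') (p : V → V') (q : ι → ι') : Prop where
  pi_surj : Function.Surjective π
  pi_ker : ∀ g : G, π g = 1 ↔ g ∈ Rot.KK R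
  p_surj : Function.Surjective p
  p_smul : ∀ (g : G) (a : V), p (g • a) = π g • p a
  p_eq : ∀ a b : V, p a = p b ↔ ∃ k ∈ Rot.KK R, b = k • a
  q_surj : Function.Surjective q
  q_smul : ∀ (g : G) (i : ι), q (g • i) = π g • q i
  q_eq : ∀ i j : ι, q i = q j ↔ ∃ k ∈ Rot.KK R, j = k • i
  p_apex : ∀ i : ι, p (apex i) = apex' (q i)
  le : ∀ a b : V, D' (p a) (p b) ≤ D a b
  att : ∀ a b : V, ∃ k ∈ Rot.KK R, D a (k • b) = D' (p a) (p b)
  slim : ∀ δ : ℕ, Slim D δ → Slim D' δ
  sys : Sys G' D' apex' ang' B (4 * B)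
  /-- `K` acts freely off the apexes -/
  free : ∀ (k : G) (a : V), k ∈ Rot.KK R → k • a = a → (∀ i, a ≠ apex i) → k = 1
  /-- the stabiliser of an apex in `K` is its rotation group -/
  stab : ∀ (k : G) (i : ι), k ∈ Rot.KK R → k • apex i = apex i → k ∈ R i
  /-- the angle of the quotient is the minimal angle between lifts nearest to the apex -/
  near_le : ∀ (i : ι) (a b : V), a ≠ apex i → b ≠ apex i →
    D (apex i) a = D' (apex' (q i)) (p a) → D (apex i) b = D' (apex' (q i)) (p b) →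
    ang' (q i) (p a) (p b) ≤ ang i a b
  near_att : ∀ (i : ι) (a b : V), a ≠ apex i → b ≠ apex i →
    D (apex i) a = D' (apex' (q i)) (p a) → D (apex i) b = D' (apex' (q i)) (p b) →
    ∃ s ∈ R i, ang i a (s • b) ≤ ang' (q i) (p a) (p b) + 8 * B
  /-- small angles: the distance is the distance in the quotient -/
  f3 : ∀ (a b : V) (Th : ℕ), Th + 13 * B < Λ →
    (∀ i, a ≠ apex i → b ≠ apex i → ang i a b ≤ Th) → D a b = D' (p a) (p b)
  /-- lifts with small angles -/
  sal : ∀ (a b : V) (Th : ℕ),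
    (∀ i', p a ≠ apex' i' → p b ≠ apex' i' → ang' i' (p a) (p b) ≤ Th) →
    ∃ k ∈ Rot.KK R, D a (k • b) = D' (p a) (p b) ∧
      ∀ i, a ≠ apex i → k • b ≠ apex i → ang i a (k • b) ≤ Th + 14 * B

/-- the closing lemma (part (V)): a polygon of the quotient is lifted to a closed polygon -/
def ClosingStmt : Prop :=
  ∀ {G V ι : Type} [Group G] [MulAction G V] [MulAction G ι] (D : V → V → ℕ) (apex : ι → V)
    (ang : ι → V → V → ℕ) (R : ι → Subgroup G) (B Λ : ℕ), Rot D apex ang R B Λ →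
  ∀ (m Th : ℕ) (x : ℕ → V) (k : G), k ∈ Rot.KK R → x m = k • x 0 → B ≤ Th →
    m * Th < Λ - 12 * B →
    (∀ j < m, (∀ k' ∈ Rot.KK R, D (x j) (x (j + 1)) ≤ D (x j) (k' • x (j + 1))) ∨
      (∀ i, x j ≠ apex i → x (j + 1) ≠ apex i → ang i (x j) (x (j + 1)) ≤ Th)) →
    ∃ y : ℕ → V, y 0 = x 0 ∧ y m = x 0 ∧ (∀ j ≤ m, ∃ c ∈ Rot.KK R, y j = c • x j) ∧
      ∀ j < m,
        ((∀ k' ∈ Rot.KK R, D (x j) (x (j + 1)) ≤ D (x j) (k' • x (j + 1))) →
          D (y j) (y (j + 1)) = D (x j) (x (j + 1))) ∧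
        ((∀ i, x j ≠ apex i → x (j + 1) ≠ apex i → ang i (x j) (x (j + 1)) ≤ Th) →
          ∃ c ∈ Rot.KK R, y j = c • x j ∧ y (j + 1) = c • x (j + 1))

end Pool.Agent.Burnside
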