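import Pool.Agent.Burnside.SL
import Pool.Agent.Burnside.Stage

/-!
Centralisers of loxodromic elements are torsion free and abelian; two isometries which move two far
apart points little commute.
-/

namespace Pool.Agent.Burnside

open Set

variable {G X : Type*} [Group G] [MulAction G X] {d : X → X → ℕ} {δ C A T n : ℕ}

/-- hypotheses on the action -/
structure Act (G : Type*) {X : Type*} [Group G] [MulAction G X] (d : X → X → ℕ)
    (δ C A T n : ℕ) : Prop where
  geod : IsGeod d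
  slim : Slim d δ
  inv : Isom G d
  ne : Nonempty X
  odd : Odd n
  s2 : ∀ g : G, g ^ n = 1 ∨ Lox d T g
  s3a : ∀ (g : G) (x y : X), A ≤ d x y → d x (g • x) ≤ C → d y (g • y) ≤ C → g ^ n = 1 → g = 1
  s3b : ∀ (g h : G) (x y : X), A ≤ d x y → d x (g • x) ≤ C → d y (g • y) ≤ C →
    d x (h • x) ≤ C → d y (h • y) ≤ C → g * h = h * g
  hC : 48 * δ + 2 ≤ C

/-- translation of a path by a group element -/
def TrG (d : X → X → ℕ) (P : ℤ → X) (L : ℤ) (g : G) (s m : ℤ) (e : ℕ) : Prop :=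
  Tr d P L (fun x => g • x) s m e

lemma TrG.mul (hd : IsGeod d) (hG : Isom G d) {P : ℤ → X} {L : ℤ} {g h : G} {s s' m m' : ℤ}
    {e e' : ℕ} (H : TrG d P L g s m e) (H' : TrG d P L h s' m' e') {k : ℤ} (hk : m' ≤ k)
    (hk' : m + |s'| ≤ k) : TrG d P L (g * h) (s' + s) k (e' + e) := by
  have h1 := Tr.comp hd (hG g) H H' hk hk'
  intro t ht ht'
  have h2 := h1 t ht ht'
  simpa only [mul_smul] using h2

lemma TrG.inv (hd : IsGeod d) (hG : Isom G d) {P : ℤ → X} {L : ℤ} {g : G} {s m : ℤ}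
    {e : ℕ} (H : TrG d P L g s m e) {k : ℤ} (hk : m + |s| ≤ k) : TrG d P L g⁻¹ (-s) k e :=
  Tr.inv hd (hG g) (fun a => smul_inv_smul g a) H hk

lemma exists_TrG (hd : IsGeod d) (hs : Slim d δ) (hG : Isom G d) {L : ℕ} {P : ℤ → X}
    (hP : IsPathZ d L P) {g : G} {R : ℕ} (h0 : d (P 0) (g • P 0) ≤ R)
    (hL : d (P L) (g • P L) ≤ R) :
    ∃ s : ℤ, |s| ≤ R ∧ TrG d P L g s (R + 2 * δ + 1) (8 * δ) :=
  exists_Tr hd hs hP (hG g) h0 hL

/-- commutators do not translate -/
lemma comm_TrG (hd : IsGeod d) (hG : Isom G d) {P : ℤ → X} {L : ℤ} {g h : G} {s s' m R : ℤ}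
    {e : ℕ} (hs : |s| ≤ R) (hs' : |s'| ≤ R) (Hg : TrG d P L g s m e) (Hh : TrG d P L h s' m e) :
    TrG d P L (g * h * g⁻¹ * h⁻¹) 0 (m + 2 * R) (4 * e) ∧
    TrG d P L (g * (g * h * g⁻¹ * h⁻¹) * g⁻¹) 0 (m + 3 * R) (6 * e) ∧
    TrG d P L (h * (g * h * g⁻¹ * h⁻¹) * h⁻¹) 0 (m + 3 * R) (6 * e) := by
  have hR : 0 ≤ R := le_trans (abs_nonneg s) hs
  have a1 := abs_le.1 hs
  have a2 := abs_le.1 hs'
  have g1 : TrG d P L g⁻¹ (-s) (m + R) e := Hg.inv hd hG (by omega)
  have h1 : TrG d P L h⁻¹ (-s') (m + R) e := Hh.inv hd hG (by omega)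
  have c1 : TrG d P L (g⁻¹ * h⁻¹) (-s' + -s) (m + 2 * R) (e + e) :=
    g1.mul hd hG h1 (by omega) (by rw [abs_neg]; omega)
  have c2 : TrG d P L (h * (g⁻¹ * h⁻¹)) (-s' + -s + s') (m + 2 * R) (e + e + e) :=
    Hh.mul hd hG c1 le_rfl (by
      have : |-s' + -s| ≤ 2 * R := by
        rw [abs_le]
        constructor <;> omega
      omega)
  have c3 : TrG d P L (g * (h * (g⁻¹ * h⁻¹))) (-s' + -s + s' + s) (m + 2 * R) (e + e + e + e) :=
    Hg.mul hd hG c2 le_rfl (by
      have : |-s' + -s + s'| ≤ R := by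
        rw [abs_le]
        constructor <;> omega
      omega)
  have e1 : g * (h * (g⁻¹ * h⁻¹)) = g * h * g⁻¹ * h⁻¹ := by group
  have e2 : -s' + -s + s' + s = 0 := by ring
  have e3 : e + e + e + e = 4 * e := by ring
  rw [e1, e2, e3] at c3
  refine ⟨c3, ?_, ?_⟩
  · have c4 : TrG d P L (g * h * g⁻¹ * h⁻¹ * g⁻¹) (-s + 0) (m + 3 * R) (e + 4 * e) :=
      c3.mul hd hG g1 (by omega) (by rw [abs_neg]; omega)
    have c5 : TrG d P L (g * (g * h * g⁻¹ * h⁻¹ * g⁻¹)) (-s + 0 + s) (m + 3 * R)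
        (e + 4 * e + e) :=
      Hg.mul hd hG c4 le_rfl (by rw [add_zero, abs_neg]; omega)
    have e4 : -s + 0 + s = 0 := by ring
    have e5 : e + 4 * e + e = 6 * e := by ring
    rw [e4, e5, ← mul_assoc g (g * h * g⁻¹ * h⁻¹) g⁻¹] at c5
    exact c5
  · have c4 : TrG d P L (g * h * g⁻¹ * h⁻¹ * h⁻¹) (-s' + 0) (m + 3 * R) (e + 4 * e) :=
      c3.mul hd hG h1 (by omega) (by rw [abs_neg]; omega)
    have c5 : TrG d P L (h * (g * h * g⁻¹ * h⁻¹ * h⁻¹)) (-s' + 0 + s') (m + 3 * R)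
        (e + 4 * e + e) :=
      Hh.mul hd hG c4 le_rfl (by rw [add_zero, abs_neg]; omega)
    have e4 : -s' + 0 + s' = 0 := by ring
    have e5 : e + 4 * e + e = 6 * e := by ring
    rw [e4, e5, ← mul_assoc h (g * h * g⁻¹ * h⁻¹) h⁻¹] at c5
    exact c5

/-- a translation by `s` has stable length at least `|s| - const` -/
lemma abs_le_sl (hd : IsGeod d) (hs : Slim d δ) (hG : Isom G d) {P : ℤ → X} {L : ℕ}
    (hP : IsPathZ d L P) {g : G} {s m t : ℤ} {e : ℕ} (H : TrG d P L g s m e) (hm : 0 ≤ m)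
    (ht : m + 2 * |s| ≤ t) (ht' : t ≤ L - m - 2 * |s|) :
    ((|s| : ℤ) : ℝ) ≤ sl d g + 3 * e + (4 * δ + 2) := by
  have hs1 := abs_le.1 (le_refl |s|)
  have h1 := H t (by omega) (by omega)
  have h2 : TrG d P L (g * g) (s + s) (m + |s|) (e + e) := H.mul hd hG H (by omega) le_rfl
  have h3 := h2 t (by omega) (by omega)
  have k1 : (d (P t) (P (t + s)) : ℤ) = |s| := by
    rcases le_total 0 s with h0 | h0
    · have := hP t (t + s) (by omega) (by omega) (by omega)
      rw [abs_of_nonneg h0]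
      omega
    · have := hP (t + s) t (by omega) (by omega) (by omega)
      have h5 := hd.symm (P t) (P (t + s))
      rw [abs_of_nonpos h0]
      omega
  have k2 : (d (P t) (P (t + (s + s))) : ℤ) = 2 * |s| := by
    rcases le_total 0 s with h0 | h0
    · have := hP t (t + (s + s)) (by omega) (by omega) (by omega)
      rw [abs_of_nonneg h0]
      omega
    · have := hP (t + (s + s)) t (by omega) (by omega) (by omega)
      have h5 := hd.symm (P t) (P (t + (s + s)))
      rw [abs_of_nonpos h0]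
      omega
  have k3 := hd.tri (P t) (P (t + s)) (g • P t)
  have k4 := hd.symm (P (t + s)) (g • P t)
  have k5 := hd.tri (P t) ((g * g) • P t) (P (t + (s + s)))
  have k6 := sl_growth hd hs hG g (P t)
  have h1' : d (g • P t) (P (t + s)) ≤ e := h1
  have h3' : d ((g * g) • P t) (P (t + (s + s))) ≤ e + e := h3
  have k7 : ((d (P t) (g • P t) : ℕ) : ℤ) ≤ |s| + e := by omega
  have k8 : 2 * |s| ≤ ((d (P t) (g ^ 2 • P t) : ℕ) : ℤ) + 2 * e := by
    rw [pow_two]
    omega
  have k7' : (d (P t) (g • P t) : ℝ) ≤ ((|s| : ℤ) : ℝ) + e := by exact_mod_cast k7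
  have k8' : 2 * ((|s| : ℤ) : ℝ) ≤ (d (P t) (g ^ 2 • P t) : ℝ) + 2 * e := by exact_mod_cast k8
  linarith

/-- displacement of points translated by `s` -/
lemma TrG.disp (hd : IsGeod d) {P : ℤ → X} {L : ℕ} (hP : IsPathZ d L P) {g : G} {s m t : ℤ}
    {e : ℕ} (H : TrG d P L g s m e) (hm : 0 ≤ m) (ht : m + |s| ≤ t) (ht' : t ≤ L - m - |s|) :
    ((d (P t) (g • P t) : ℕ) : ℤ) ≤ |s| + e := by
  have hs1 := abs_le.1 (le_refl |s|)
  have h1 := H t (by omega) (by omega)
  have k1 : (d (P t) (P (t + s)) : ℤ) = |s| := by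
    rcases le_total 0 s with h0 | h0
    · have := hP t (t + s) (by omega) (by omega) (by omega)
      rw [abs_of_nonneg h0]
      omega
    · have := hP (t + s) t (by omega) (by omega) (by omega)
      have h5 := hd.symm (P t) (P (t + s))
      rw [abs_of_nonpos h0]
      omega
  have k3 := hd.tri (P t) (P (t + s)) (g • P t)
  have k4 := hd.symm (P (t + s)) (g • P t)
  have h1' : d (g • P t) (P (t + s)) ≤ e := h1
  omega

namespace Act

lemma sl_pos (S : Act G d δ C A T n) {g : G} (h : Lox d T g) : 0 < sl d g := by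
  obtain ⟨x⟩ := S.ne
  have h1 : ∀ k : ℕ, (k : ℝ) ≤ T * d x (g ^ k • x) := by
    intro k
    exact_mod_cast h x k
  have hT : (0 : ℝ) < T := by
    have h2 := h1 1
    by_contra hc
    have h3 : (T : ℝ) = 0 := le_antisymm (not_lt.1 hc) (by positivity)
    rw [h3] at h2
    simp at h2
    linarith
  have h2 := sl_tendsto S.geod S.inv g x
  have h3 : 1 / (T : ℝ) ≤ sl d g := by
    apply ge_of_tendsto h2
    filter_upwards [Filter.eventually_ge_atTop 1] with k hk
    have hk' : (0 : ℝ) < k := by exact_mod_cast hk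
    rw [div_le_div_iff₀ hT hk']
    have := h1 k
    linarith
  have : 0 < 1 / (T : ℝ) := by positivity
  linarith

lemma torsion_of_sl (S : Act G d δ C A T n) {g : G} (h : sl d g ≤ 0) : g ^ n = 1 := by
  rcases S.s2 g with h1 | h1
  · exact h1
  · have := S.sl_pos h1
    linarith

lemma lox_of_ne (S : Act G d δ C A T n) {g : G} (h : g ^ n ≠ 1) : Lox d T g := by
  rcases S.s2 g with h1 | h1
  · exact absurd h1 h
  · exact h1

lemma n_pos (S : Act G d δ C A T n) : 1 ≤ n := by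
  obtain ⟨k, hk⟩ := S.odd
  omega

lemma sl_torsion (S : Act G d δ C A T n) {g : G} (h : g ^ n = 1) : sl d g = 0 := by
  have := S.ne
  exact sl_of_torsion S.geod S.inv S.n_pos h

lemma ne_of_lox (S : Act G d δ C A T n) {g : G} (h : Lox d T g) : g ^ n ≠ 1 := by
  intro h1
  have h2 := S.sl_pos h
  rw [S.sl_torsion h1] at h2
  exact lt_irrefl _ h2

/-- (8') a torsion element which moves both ends of a long segment little is trivial -/
theorem single (S : Act G d δ C A T n) {g : G} {x y : X} {R : ℕ} (hx : d x (g • x) ≤ R)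
    (hy : d y (g • y) ≤ R) (hA : A + 8 * R + 4 * δ + 4 ≤ d x y) (hg : g ^ n = 1) : g = 1 := by
  obtain ⟨P, hP0, hPL, hP⟩ := exists_pathZ S.geod x y
  obtain ⟨s, hs, H⟩ := exists_TrG S.geod S.slim S.inv hP (g := g) (R := R)
    (by rw [hP0]; exact hx) (by rw [hPL]; exact hy)
  have hC := S.hC
  have hsl := abs_le_sl S.geod S.slim S.inv hP H (by omega) (t := (R + 2 * δ + 1) + 2 * R)
    (by omega) (by omega)
  rw [S.sl_torsion hg] at hsl
  have h1 : |s| ≤ 28 * δ + 2 := by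
    have : ((|s| : ℤ) : ℝ) ≤ ((28 * δ + 2 : ℤ) : ℝ) := by
      push_cast at hsl ⊢
      linarith
    exact_mod_cast this
  have h2 := H.disp S.geod hP (by omega) (t := (R + 2 * δ + 1) + R) (by omega) (by omega)
  have h3 := H.disp S.geod hP (by omega) (t := d x y - ((R + 2 * δ + 1) + R)) (by omega) (by omega)
  refine S.s3a g (P ((R + 2 * δ + 1) + R)) (P (d x y - ((R + 2 * δ + 1) + R))) ?_ ?_ ?_ hg
  · have := hP ((R + 2 * δ + 1) + R) (d x y - ((R + 2 * δ + 1) + R)) (by omega) (by omega)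
      (by omega)
    omega
  · omega
  · omega

/-- two isometries which move the ends of a long segment by at most `R`: the commutator and its
conjugates move two far apart points little -/
lemma comm_small (S : Act G d δ C A T n) {g h : G} {x y : X} {R : ℕ} (hx : d x (g • x) ≤ R)
    (hy : d y (g • y) ≤ R) (hx' : d x (h • x) ≤ R) (hy' : d y (h • y) ≤ R)
    (hA : A + 8 * R + 4 * δ + 4 ≤ d x y) : ∃ z z' : X, A ≤ d z z' ∧
      d z ((g * h * g⁻¹ * h⁻¹) • z) ≤ 48 * δ ∧ d z' ((g * h * g⁻¹ * h⁻¹) • z') ≤ 48 * δ ∧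
      d z ((g * (g * h * g⁻¹ * h⁻¹) * g⁻¹) • z) ≤ 48 * δ ∧
      d z' ((g * (g * h * g⁻¹ * h⁻¹) * g⁻¹) • z') ≤ 48 * δ ∧
      d z ((h * (g * h * g⁻¹ * h⁻¹) * h⁻¹) • z) ≤ 48 * δ ∧
      d z' ((h * (g * h * g⁻¹ * h⁻¹) * h⁻¹) • z') ≤ 48 * δ := by
  obtain ⟨P, hP0, hPL, hP⟩ := exists_pathZ S.geod x y
  obtain ⟨s, hs, Hg⟩ := exists_TrG S.geod S.slim S.inv hP (g := g) (R := R)
    (by rw [hP0]; exact hx) (by rw [hPL]; exact hy)
  obtain ⟨s', hs', Hh⟩ := exists_TrG S.geod S.slim S.inv hP (g := h) (R := R)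
    (by rw [hP0]; exact hx') (by rw [hPL]; exact hy')
  obtain ⟨c1, c2, c3⟩ := comm_TrG S.geod S.inv hs hs' Hg Hh
  set a : ℤ := (R + 2 * δ + 1) + 3 * R with ha
  set b : ℤ := d x y - a with hb
  have hsymm := S.geod.symm
  refine ⟨P a, P b, ?_, ?_, ?_, ?_, ?_, ?_, ?_⟩
  · have := hP a b (by omega) (by omega) (by omega)
    omega
  · have h1 := c1 a (by omega) (by omega)
    rw [add_zero] at h1
    rw [hsymm]
    exact h1.trans (by omega)
  · have h1 := c1 b (by omega) (by omega)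
    rw [add_zero] at h1
    rw [hsymm]
    exact h1.trans (by omega)
  · have h1 := c2 a (by omega) (by omega)
    rw [add_zero] at h1
    rw [hsymm]
    exact h1.trans (by omega)
  · have h1 := c2 b (by omega) (by omega)
    rw [add_zero] at h1
    rw [hsymm]
    exact h1.trans (by omega)
  · have h1 := c3 a (by omega) (by omega)
    rw [add_zero] at h1
    rw [hsymm]
    exact h1.trans (by omega)
  · have h1 := c3 b (by omega) (by omega)
    rw [add_zero] at h1
    rw [hsymm]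
    exact h1.trans (by omega)

lemma exists_far {u : G} (hu : Lox d T u) (x : X) (D : ℕ) : ∃ k, D ≤ d x (u ^ k • x) := by
  refine ⟨T * D, ?_⟩
  have h1 := hu x (T * D)
  rcases Nat.eq_zero_or_pos T with h | h
  · have h2 := hu x 1
    rw [h] at h2
    omega
  · exact Nat.le_of_mul_le_mul_left h1 h

lemma disp_commute (hG : Isom G d) {u g : G} (h : u * g = g * u) (x : X) (k : ℕ) :
    d (u ^ k • x) (g • u ^ k • x) = d x (g • x) := by
  have hc : Commute u g := h
  have h1 : g • u ^ k • x = u ^ k • g • x := by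
    rw [smul_smul, smul_smul, (hc.pow_left k).eq]
  rw [h1, hG]

/-- (5) centralisers of loxodromic elements are torsion free -/
theorem tf (S : Act G d δ C A T n) {u t : G} (hu : Lox d T u) (h : u * t = t * u)
    (ht : t ^ n = 1) : t = 1 := by
  obtain ⟨x⟩ := S.ne
  obtain ⟨k, hk⟩ := exists_far hu x (A + 8 * d x (t • x) + 4 * δ + 4)
  exact S.single (x := x) (y := u ^ k • x) (R := d x (t • x)) le_rfl
    (disp_commute S.inv h x k).le hk ht

lemma comm_small_centr (S : Act G d δ C A T n) {u g h : G} (hu : Lox d T u)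
    (hg : u * g = g * u) (hh : u * h = h * u) : ∃ z z' : X, A ≤ d z z' ∧
      d z ((g * h * g⁻¹ * h⁻¹) • z) ≤ 48 * δ ∧ d z' ((g * h * g⁻¹ * h⁻¹) • z') ≤ 48 * δ ∧
      d z ((g * (g * h * g⁻¹ * h⁻¹) * g⁻¹) • z) ≤ 48 * δ ∧
      d z' ((g * (g * h * g⁻¹ * h⁻¹) * g⁻¹) • z') ≤ 48 * δ := by
  obtain ⟨x⟩ := S.ne
  obtain ⟨k, hk⟩ := exists_far hu x (A + 8 * (d x (g • x) + d x (h • x)) + 4 * δ + 4)
  obtain ⟨z, z', h0, h1, h2, h3, h4, -, -⟩ := S.comm_small (g := g) (h := h) (x := x)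
    (y := u ^ k • x) (R := d x (g • x) + d x (h • x)) (by omega)
    (by rw [disp_commute S.inv hg]; omega) (by omega) (by rw [disp_commute S.inv hh]; omega) hk
  exact ⟨z, z', h0, h1, h2, h3, h4⟩

/-- two commuting elements with the same stable length, one of them loxodromic -/
lemma eq_or_inv (S : Act G d δ C A T n) {c c' : G} (hc : Lox d T c) (h : c * c' = c' * c)
    (hsl : sl d c' = sl d c) : c' = c ∨ c' = c⁻¹ := by
  have := S.ne
  have hcomm : Commute c c' := h
  have h1 := rank_one S.geod S.slim S.inv h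
  rw [hsl, sub_self, abs_zero] at h1
  rcases min_le_iff.1 h1 with h2 | h2
  · right
    have h3 := S.tf hc (t := c * c') ((Commute.refl c).mul_right hcomm).eq (S.torsion_of_sl h2)
    exact eq_inv_of_mul_eq_one_right h3
  · left
    have h3 := S.tf hc (t := c * c'⁻¹) ((Commute.refl c).mul_right hcomm.inv_right).eq
      (S.torsion_of_sl h2)
    exact (mul_inv_eq_one.1 h3).symm

lemma lox_sq {g : G} (hg : Lox d T g) : Lox d T (g ^ 2) := by
  intro x k
  have h1 := hg x (2 * k)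
  rw [← pow_mul]
  omega

lemma not_all_small {c : G} (hc : Lox d T c)
    (h : ∀ k : ℕ, ∃ z : X, d z (c ^ k • z) ≤ 48 * δ) : False := by
  obtain ⟨z, hz⟩ := h (T * (48 * δ) + 1)
  have h1 := hc z (T * (48 * δ) + 1)
  have h2 : T * d z (c ^ (T * (48 * δ) + 1) • z) ≤ T * (48 * δ) := Nat.mul_le_mul_left _ hz
  omega

lemma conj_pow_commutator {g h c : G} (hc : c = g * h * g⁻¹ * h⁻¹) (hgc : g * c = c * g) :
    ∀ k : ℕ, g ^ k * h * (g ^ k)⁻¹ * h⁻¹ = c ^ k := by
  have h1 : g * h * g⁻¹ = c * h := by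
    rw [hc]
    group
  have hcomm : Commute g c := hgc
  have h2 : ∀ k : ℕ, g ^ k * h * (g ^ k)⁻¹ = c ^ k * h := by
    intro k
    induction k with
    | zero => simp
    | succ k ih =>
      have h3 : g ^ (k + 1) * h * (g ^ (k + 1))⁻¹ = g * (g ^ k * h * (g ^ k)⁻¹) * g⁻¹ := by
        rw [pow_succ' g k]
        group
      rw [h3, ih, ← mul_assoc g, (hcomm.pow_right k).eq, mul_assoc, mul_assoc, ← mul_assoc g, h1,
        ← mul_assoc, ← pow_succ]
  intro k
  rw [h2]
  group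

lemma comm_flip {g c : G} (h : g * c * g⁻¹ = c⁻¹) (j : ℕ) :
    g * (g * c ^ j) * g⁻¹ * (g * c ^ j)⁻¹ = (c ^ j) ^ 2 := by
  have h1 : g * c ^ j * g⁻¹ = (c ^ j)⁻¹ := by
    rw [← conj_pow, h, inv_pow]
  have h2 : g * c ^ j = (c ^ j)⁻¹ * g := by
    rw [← h1]
    group
  have h3 : g * (c ^ j)⁻¹ = c ^ j * g := by
    have h4 : g * (c ^ j)⁻¹ * g⁻¹ = c ^ j := by
      rw [← inv_inj, mul_inv_rev, mul_inv_rev, inv_inv, inv_inv, ← mul_assoc, h1]
    calc g * (c ^ j)⁻¹ = g * (c ^ j)⁻¹ * g⁻¹ * g := by group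
      _ = c ^ j * g := by rw [h4]
  calc g * (g * c ^ j) * g⁻¹ * (g * c ^ j)⁻¹
      = g * ((c ^ j)⁻¹ * g) * g⁻¹ * (g * c ^ j)⁻¹ := by rw [h2]
    _ = (g * (c ^ j)⁻¹) * (g * c ^ j)⁻¹ := by group
    _ = c ^ j * g * (g * c ^ j)⁻¹ := by rw [h3]
    _ = c ^ j * (g * (c ^ j)⁻¹ * g⁻¹) := by group
    _ = c ^ j * (c ^ j * g * g⁻¹) := by rw [h3]
    _ = (c ^ j) ^ 2 := by
      rw [pow_two]
      group

lemma flip_sq {g c : G} (h : g * c * g⁻¹ = c⁻¹) : g ^ 2 * c = c * g ^ 2 := by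
  have h1 : g * c = c⁻¹ * g := by
    rw [← h]
    group
  have h2 : g * c⁻¹ = c * g := by
    have h4 : g * c⁻¹ * g⁻¹ = c := by
      rw [← inv_inj, mul_inv_rev, mul_inv_rev, inv_inv, inv_inv, ← mul_assoc, h]
    calc g * c⁻¹ = g * c⁻¹ * g⁻¹ * g := by group
      _ = c * g := by rw [h4]
  rw [pow_two, mul_assoc, h1, ← mul_assoc, h2, mul_assoc]

/-- (6) centralisers of loxodromic elements are abelian -/
theorem ab (S : Act G d δ C A T n) {u g h : G} (hu : Lox d T u) (hg : u * g = g * u)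
    (hh : u * h = h * u) : g * h = h * g := by
  by_contra hne
  set c := g * h * g⁻¹ * h⁻¹ with hc
  have hc1 : c ≠ 1 := by
    intro h1
    apply hne
    rw [hc, mul_inv_eq_one, mul_inv_eq_iff_eq_mul] at h1
    exact h1
  have hC := S.hC
  obtain ⟨z, z', hA, h1, h2, h3, h4⟩ := S.comm_small_centr hu hg hh
  rw [← hc] at h1 h2 h3 h4
  have hcn : c ^ n ≠ 1 := fun hcn => hc1 (S.s3a c z z' hA (by omega) (by omega) hcn)
  have hlox := S.lox_of_ne hcn
  have hcomm := S.s3b c (g * c * g⁻¹) z z' hA (by omega) (by omega) (by omega) (by omega)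
  have hgu : Commute u g := hg
  rcases S.eq_or_inv hlox hcomm (sl_conj S.inv c g) with h5 | h5
  · -- `g` commutes with `c`
    have h6 : g * c = c * g := by
      rw [mul_inv_eq_iff_eq_mul] at h5
      exact h5
    refine not_all_small (d := d) (δ := δ) hlox fun k => ?_
    obtain ⟨z, z', -, h1, -⟩ := S.comm_small_centr hu (g := g ^ k) (h := h)
      (hgu.pow_right k).eq hh
    rw [conj_pow_commutator hc h6 k] at h1
    exact ⟨z, h1⟩
  · -- `g` inverts `c`
    have hg1 : g ^ n ≠ 1 := by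
      intro hg1
      have := S.tf hu hg hg1
      apply hne
      rw [this]
      simp
    have hgl := lox_sq (S.lox_of_ne hg1)
    have hsq : Commute (g ^ 2) c := flip_sq h5
    have hgg : Commute (g ^ 2) g := (Commute.refl g).pow_left 2
    refine not_all_small (d := d) (δ := δ) (lox_sq hlox) fun k => ?_
    obtain ⟨z, z', -, h1, -⟩ := S.comm_small_centr hgl (g := g) (h := g * c ^ k)
      hgg.eq (hgg.mul_right (hsq.pow_right k)).eq
    rw [comm_flip h5 k, ← pow_mul, mul_comm, pow_mul] at h1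
    exact ⟨z, h1⟩

/-- (7) no element inverts a loxodromic element -/
theorem not_flip (S : Act G d δ C A T n) {g c : G} (hc : Lox d T c)
    (h : g * c * g⁻¹ = c⁻¹) : False := by
  have hsq : Commute (g ^ 2) c := flip_sq h
  have hcomm : Commute g c := by
    rcases S.s2 g with hg | hg
    · obtain ⟨l, hl⟩ := S.odd
      have h1 : g = (g ^ 2) ^ (l + 1) := by
        rw [← pow_mul]
        have : 2 * (l + 1) = n + 1 := by omega
        rw [this, pow_succ, hg, one_mul]
      rw [h1]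
      exact hsq.pow_left _
    · have hgg : Commute (g ^ 2) g := (Commute.refl g).pow_left 2
      have h1 := S.ab (lox_sq hg) (g := g) (h := g * c) hgg.eq (hgg.mul_right hsq).eq
      have h2 : g * (g * c) = g * (c * g) := by
        rw [h1]
        group
      exact mul_left_cancel h2
  have h1 : c = c⁻¹ := by
    rw [← h, hcomm.eq]
    group
  have h2 : c ^ 2 = 1 := by
    rw [pow_two]
    nth_rewrite 2 [h1]
    exact mul_inv_cancel c
  have h3 := S.ne_of_lox (lox_sq hc)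
  rw [h2, one_pow] at h3
  exact h3 rfl

/-- (8) two elements which move both ends of a long segment little commute -/
theorem two (S : Act G d δ C A T n) {g h : G} {x y : X} {R : ℕ} (hx : d x (g • x) ≤ R)
    (hy : d y (g • y) ≤ R) (hx' : d x (h • x) ≤ R) (hy' : d y (h • y) ≤ R)
    (hA : A + 8 * R + 4 * δ + 4 ≤ d x y) : g * h = h * g := by
  by_contra hne
  set c := g * h * g⁻¹ * h⁻¹ with hc
  have hc1 : c ≠ 1 := by
    intro h1
    apply hne
    rw [hc, mul_inv_eq_one, mul_inv_eq_iff_eq_mul] at h1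
    exact h1
  have hC := S.hC
  obtain ⟨z, z', hA, h1, h2, h3, h4, h5, h6⟩ := S.comm_small hx hy hx' hy' hA
  rw [← hc] at h1 h2 h3 h4 h5 h6
  have hcn : c ^ n ≠ 1 := fun hcn => hc1 (S.s3a c z z' hA (by omega) (by omega) hcn)
  have hlox := S.lox_of_ne hcn
  have key : ∀ k : G, c * (k * c * k⁻¹) = k * c * k⁻¹ * c → c * k = k * c := by
    intro k hk
    rcases S.eq_or_inv hlox hk (sl_conj S.inv c k) with h5 | h5
    · rw [mul_inv_eq_iff_eq_mul] at h5
      exact h5.symm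
    · exact absurd (S.not_flip hlox h5) id
  have k1 := key g (S.s3b c (g * c * g⁻¹) z z' hA (by omega) (by omega) (by omega) (by omega))
  have k2 := key h (S.s3b c (h * c * h⁻¹) z z' hA (by omega) (by omega) (by omega) (by omega))
  exact hne (S.ab hlox k1 k2)

end Act

end Pool.Agent.Burnside
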