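import Pool.Agent.Burnside.Lift

/-!
The closing lemma for polygons with minimal and rigid sides, lifting of geodesics of the quotient
with small angles.
-/

set_option linter.unusedSectionVars false

namespace Pool.Agent.Burnside

namespace Rot

variable {V ι G : Type*} [Group G] [MulAction G V] [MulAction G ι] {D : V → V → ℕ}
  {apex : ι → V} {ang : ι → V → V → ℕ} {R : ι → Subgroup G} {B Λ : ℕ}

/-- a minimal side -/
def MinSide (D : V → V → ℕ) (R : ι → Subgroup G) (a b : V) : Prop :=
  ∀ k ∈ KK R, D a b ≤ D a (k • b)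

/-- a rigid side: all angles are at most `Th` -/
def Rigid (apex : ι → V) (ang : ι → V → V → ℕ) (Th : ℕ) (a b : V) : Prop :=
  ∀ j, a ≠ apex j → b ≠ apex j → ang j a b ≤ Th

lemma minSide_iff {a b : V} : MinSide D R a b ↔ D a b = QD D R a b := by
  constructor
  · intro h
    obtain ⟨k, hk, h1⟩ := exists_QD D R a b
    have h2 := h k hk
    have h3 := QD_le' D R a b
    omega
  · intro h k hk
    rw [h]
    exact QD_le D R a b hk

lemma MinSide.smul (H : Rot D apex ang R B Λ) {a b : V} (h : MinSide D R a b) (g : G) :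
    MinSide D R (g • a) (g • b) := by
  rw [minSide_iff] at h ⊢
  rw [H.inv, H.QD_smul]
  exact h

lemma Rigid.smul (H : Rot D apex ang R B Λ) {Th : ℕ} {a b : V} (h : Rigid apex ang Th a b)
    (g : G) : Rigid apex ang Th (g • a) (g • b) := by
  intro j h1 h2
  have e : apex j = g • apex (g⁻¹ • j) := by rw [H.apex_smul, smul_inv_smul]
  have h3 := h (g⁻¹ • j) (fun he => h1 (by rw [he, e])) (fun he => h2 (by rw [he, e]))
  have h4 := H.ang_inv g (g⁻¹ • j) a b
  rw [smul_inv_smul] at h4
  rw [h4]
  exact h3

/-- the closing lemma -/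
theorem closing (H : Rot D apex ang R B Λ) (m Th : ℕ) (hm : 0 < m) (hB : B ≤ Th)
    (hn : m * Th + 12 * B < Λ) :
    ∀ k ∈ KK R, ∀ x : ℕ → V, x m = k • x 0 →
      (∀ i < m, MinSide D R (x i) (x (i + 1)) ∨ Rigid apex ang Th (x i) (x (i + 1))) →
      ∃ y : ℕ → V, y 0 = x 0 ∧ y m = x 0 ∧ (∀ i ≤ m, ∃ l ∈ KK R, y i = l • x i) ∧
        ∀ i < m, (Rigid apex ang Th (x i) (x (i + 1)) →
            ∃ c ∈ KK R, y i = c • x i ∧ y (i + 1) = c • x (i + 1)) ∧
          (MinSide D R (x i) (x (i + 1)) → D (y i) (y (i + 1)) = D (x i) (x (i + 1))) := by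
  classical
  have main : ∀ p0 : V, ∀ k ∈ KK R, ∀ x : ℕ → V, x 0 = p0 → x m = k • p0 →
      (∀ i < m, MinSide D R (x i) (x (i + 1)) ∨ Rigid apex ang Th (x i) (x (i + 1))) →
      ∃ y : ℕ → V, y 0 = x 0 ∧ y m = x 0 ∧ (∀ i ≤ m, ∃ l ∈ KK R, y i = l • x i) ∧
        ∀ i < m, (Rigid apex ang Th (x i) (x (i + 1)) →
            ∃ c ∈ KK R, y i = c • x i ∧ y (i + 1) = c • x (i + 1)) ∧
          (MinSide D R (x i) (x (i + 1)) → D (y i) (y (i + 1)) = D (x i) (x (i + 1))) := by
    intro p0
    refine H.pivot_induction p0 _ ?_ ?_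
    · intro k hk x hx0 hxm _
      refine ⟨x, rfl, ?_, fun i _ => ⟨1, one_mem _, (one_smul _ _).symm⟩, fun i _ =>
        ⟨fun _ => ⟨1, one_mem _, (one_smul _ _).symm, (one_smul _ _).symm⟩, fun _ => rfl⟩⟩
      rw [hxm, H.fix_of_mem_Kr0 hk, hx0]
    · intro k j s hk hs hj1 hj2 hpiv ih x hx0 hxm hside
      have hsK : s ∈ KK R := mem_KK hs
      -- where to cut: after vertex `c`
      have hcut : ∃ c, c < m ∧ (x c = apex j ∨ (¬ Rigid apex ang Th (x c) (x (c + 1)) ∧
          MinSide D R (x c) (x (c + 1)) ∧ apex j ∈ Intv D (x c) (x (c + 1)))) := by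
        by_cases hv : ∃ i, i ≤ m ∧ x i = apex j
        · obtain ⟨i, hi, hai⟩ := hv
          have hi0 : i ≠ m := by
            intro he
            rw [he, hxm] at hai
            exact hj2 hai.symm
          exact ⟨i, by omega, Or.inl hai⟩
        · push Not at hv
          by_contra hc
          push Not at hc
          have hall : ∀ i < m, ang j (x i) (x (i + 1)) ≤ Th := by
            intro i hi
            by_contra hbig
            have hnR : ¬ Rigid apex ang Th (x i) (x (i + 1)) := by
              intro hR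
              have := hR j (hv i (by omega)) (hv (i + 1) (by omega))
              omega
            have hM : MinSide D R (x i) (x (i + 1)) := by
              rcases hside i hi with h | h
              · exact h
              · exact absurd h hnR
            exact (hc i hi).2 hnR hM (H.bgi j (x i) (x (i + 1)) (hv i (by omega))
              (hv (i + 1) (by omega)) (by omega))
          have h1 := H.ang_sum j Th x m hm hv hall
          rw [hx0, hxm] at h1
          omega
      obtain ⟨c, hc, hcase⟩ := hcut
      -- the rotated polygon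
      let x' : ℕ → V := fun i => if i ≤ c then x i else s⁻¹ • x i
      have hx'1 : ∀ i, i ≤ c → x' i = x i := fun i hi => by simp [x', hi]
      have hx'2 : ∀ i, c < i → x' i = s⁻¹ • x i := fun i hi => by
        simp [x', show ¬ i ≤ c by omega]
      -- sides are translated or rotated
      have htrans : ∀ i, i < m → (i ≠ c ∨ x c = apex j) →
          ∃ g ∈ KK R, x' i = g • x i ∧ x' (i + 1) = g • x (i + 1) := by
        intro i hi hic
        by_cases h1 : i + 1 ≤ c
        · exact ⟨1, one_mem _, by rw [hx'1 i (by omega), one_smul],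
            by rw [hx'1 (i + 1) h1, one_smul]⟩
        · by_cases h2 : i ≤ c
          · have hic' : i = c := by omega
            subst hic'
            rcases hic with h | h
            · exact absurd rfl h
            · refine ⟨s⁻¹, inv_mem hsK, ?_, hx'2 (i + 1) (by omega)⟩
              rw [hx'1 i le_rfl, h, H.fix_apex (inv_mem hs)]
          · exact ⟨s⁻¹, inv_mem hsK, hx'2 i (by omega), hx'2 (i + 1) (by omega)⟩
      have hDc : D (x' c) (x' (c + 1)) = D (x c) (x (c + 1)) ∨
          x c = apex j := by
        rcases hcase with h | ⟨-, h2, h3⟩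
        · exact Or.inr h
        · left
          rw [hx'1 c le_rfl, hx'2 (c + 1) (by omega)]
          have h4 := H.dist_rot_le (inv_mem hs) h3
          have h5 := h2 s⁻¹ (inv_mem hsK)
          omega
      have hDc' : MinSide D R (x c) (x (c + 1)) →
          D (x' c) (x' (c + 1)) = D (x c) (x (c + 1)) := by
        intro _
        rcases hDc with h | h
        · exact h
        · obtain ⟨g, -, e1, e2⟩ := htrans c hc (Or.inr h)
          rw [e1, e2, H.inv]
      have hMin : ∀ i, i < m → MinSide D R (x i) (x (i + 1)) →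
          MinSide D R (x' i) (x' (i + 1)) := by
        intro i hi hM
        by_cases hic : i = c ∧ x c ≠ apex j
        · obtain ⟨rfl, hne⟩ := hic
          have h1 := hDc' hM
          rw [minSide_iff] at hM ⊢
          rw [h1, hM, hx'1 i le_rfl, hx'2 (i + 1) (by omega), QD_smul_right D R _ _ (inv_mem hsK)]
        · have : i ≠ c ∨ x c = apex j := by
            by_contra h
            push Not at h
            exact hic ⟨h.1, h.2⟩
          obtain ⟨g, -, e1, e2⟩ := htrans i hi this
          rw [e1, e2]
          exact hM.smul H g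
      have hRig : ∀ i, i < m → (i ≠ c ∨ x c = apex j) → Rigid apex ang Th (x i) (x (i + 1)) →
          Rigid apex ang Th (x' i) (x' (i + 1)) := by
        intro i hi hic hR
        obtain ⟨g, -, e1, e2⟩ := htrans i hi hic
        rw [e1, e2]
        exact hR.smul H g
      have hnRc : Rigid apex ang Th (x c) (x (c + 1)) → x c = apex j := by
        intro hR
        rcases hcase with h | ⟨h1, -, -⟩
        · exact h
        · exact absurd hR h1
      obtain ⟨y, y1, y2, y3, y4⟩ := ih x' (by rw [hx'1 0 (Nat.zero_le _), hx0]) (by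
          rw [hx'2 m hc, hxm, ← mul_smul]) (by
          intro i hi
          rcases hside i hi with h | h
          · exact Or.inl (hMin i hi h)
          · by_cases hic : i ≠ c ∨ x c = apex j
            · exact Or.inr (hRig i hi hic h)
            · push Not at hic
              obtain ⟨rfl, hne⟩ := hic
              exact absurd (hnRc h) hne)
      refine ⟨y, ?_, ?_, ?_, ?_⟩
      · rw [y1, hx'1 0 (Nat.zero_le _)]
      · rw [y2, hx'1 0 (Nat.zero_le _)]
      · intro i hi
        obtain ⟨l, hl, e⟩ := y3 i hi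
        by_cases h : i ≤ c
        · rw [hx'1 i h] at e
          exact ⟨l, hl, e⟩
        · rw [hx'2 i (by omega), ← mul_smul] at e
          exact ⟨l * s⁻¹, mul_mem hl (inv_mem hsK), e⟩
      · intro i hi
        refine ⟨?_, ?_⟩
        · intro hR
          have hic : i ≠ c ∨ x c = apex j := by
            by_cases h : i = c
            · subst h
              exact Or.inr (hnRc hR)
            · exact Or.inl h
          obtain ⟨g, hg, e1, e2⟩ := htrans i hi hic
          obtain ⟨l, hl, e3, e4⟩ := (y4 i hi).1 (hRig i hi hic hR)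
          refine ⟨l * g, mul_mem hl hg, ?_, ?_⟩
          · rw [e3, e1, mul_smul]
          · rw [e4, e2, mul_smul]
        · intro hM
          rw [(y4 i hi).2 (hMin i hi hM)]
          by_cases hic : i ≠ c ∨ x c = apex j
          · obtain ⟨g, -, e1, e2⟩ := htrans i hi hic
            rw [e1, e2, H.inv]
          · push Not at hic
            obtain ⟨rfl, -⟩ := hic
            exact hDc' hM
  intro k hk x hxm hside
  exact main (x 0) k hk x rfl hxm hside

/-! ### lifting geodesics -/

/-- a geodesic of the quotient -/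
def QPath (D : V → V → ℕ) (R : ι → Subgroup G) (n : ℕ) (p : ℕ → V) : Prop :=
  ∀ i j, i ≤ j → j ≤ n → QD D R (p i) (p j) = j - i

/-- geodesics of the quotient lift, with local angles equal to the intrinsic angles -/
theorem lift_path (H : Rot D apex ang R B Λ) (hna : NoAdj D apex) :
    ∀ (n : ℕ) (p : ℕ → V), QPath D R n p →
      ∃ P : ℕ → V, P 0 = p 0 ∧ (∀ i ≤ n, ∃ k ∈ KK R, P i = k • p i) ∧
        (∀ i < n, D (P i) (P (i + 1)) = 1) ∧
        ∀ i, i + 1 < n → ∀ j, P (i + 1) = apex j →
          ang j (P i) (P (i + 2)) = qang D apex ang R j (p i) (p (i + 2)) := by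
  classical
  intro n
  induction n with
  | zero =>
    intro p _
    refine ⟨p, rfl, fun i _ => ⟨1, one_mem _, (one_smul _ _).symm⟩, ?_, ?_⟩
    · intro i hi; omega
    · intro i hi; omega
  | succ n ih =>
    intro p hp
    obtain ⟨P, P0, P1, P2, P3⟩ := ih p (fun i j hij hj => hp i j hij (by omega))
    -- the last point
    have hlast : ∃ q, (∃ k ∈ KK R, q = k • p (n + 1)) ∧ D (P n) q = 1 ∧
        (0 < n → ∀ j, P n = apex j →
          ang j (P (n - 1)) q = qang D apex ang R j (p (n - 1)) (p (n + 1))) := by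
      obtain ⟨k, hk, ek⟩ := P1 n le_rfl
      have hQ1 : QD D R (P n) (p (n + 1)) = 1 := by
        rw [ek, H.QD_smul_left _ _ hk, hp n (n + 1) (by omega) le_rfl]
        omega
      by_cases hap : 0 < n ∧ ∃ j, P n = apex j
      · obtain ⟨hn, j, hj⟩ := hap
        obtain ⟨k', hk', ek'⟩ := P1 (n - 1) (by omega)
        obtain ⟨a1, b1, ma, mb, h1⟩ := exists_qang D apex ang R j (p (n - 1)) (p (n + 1))
        have hd1 : D (P (n - 1)) (P n) = 1 := by
          have := P2 (n - 1) (by omega)
          rwa [show n - 1 + 1 = n by omega] at this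
        have hQ2 : QD D R (P n) (p (n - 1)) = 1 := by
          rw [ek, H.QD_smul_left _ _ hk, H.QD_symm, hp (n - 1) n (by omega) (by omega)]
          omega
        have hne : ∀ i, P (n - 1) ≠ apex i := by
          intro i he
          rw [he, hj] at hd1
          exact hna i j hd1
        obtain ⟨⟨l, hl, el⟩, da⟩ := ma
        have hl' : l * k'⁻¹ ∈ R j := by
          apply H.link hne (i := j)
          · rw [← hj, H.geod.symm]; omega
          · exact mul_mem hl (inv_mem hk')
          · rw [ek', mul_smul, inv_smul_smul, ← el, da, ← hj]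
            omega
        refine ⟨(l * k'⁻¹)⁻¹ • b1, ?_, ?_, ?_⟩
        · obtain ⟨⟨l2, hl2, e2⟩, -⟩ := mb
          refine ⟨(l * k'⁻¹)⁻¹ * l2, mul_mem (inv_mem (mul_mem hl (inv_mem hk'))) hl2, ?_⟩
          rw [e2, mul_smul]
        · rw [hj, H.dist_rot (inv_mem hl'), mb.2, ← hj]
          exact hQ1
        · intro _ j' hj'
          have : j' = j := H.apex_inj (by rw [← hj', ← hj])
          subst this
          rw [← h1]
          have h2 := H.ang_inv (l * k'⁻¹)⁻¹ j' a1 b1
          rw [H.fix j' _ (inv_mem hl')] at h2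
          rw [← h2]
          congr 1
          rw [el, ek', ← mul_smul]
          congr 1
          group
      · obtain ⟨k', hk', h1⟩ := exists_QD D R (P n) (p (n + 1))
        refine ⟨k' • p (n + 1), ⟨k', hk', rfl⟩, by omega, ?_⟩
        intro hn j hj
        exact absurd ⟨hn, j, hj⟩ hap
    obtain ⟨q, hq1, hq2, hq3⟩ := hlast
    refine ⟨fun i => if i ≤ n then P i else q, ?_, ?_, ?_, ?_⟩
    · simp [P0]
    · intro i hi
      by_cases h : i ≤ n
      · simp only [h, if_true]
        exact P1 i h
      · simp only [h, if_false]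
        have : i = n + 1 := by omega
        rw [this]
        exact hq1
    · intro i hi
      by_cases h : i + 1 ≤ n
      · have h' : i ≤ n := by omega
        simp only [h, h', if_true]
        exact P2 i (by omega)
      · have h' : i = n := by omega
        subst h'
        simp only [le_refl, if_true, h, if_false]
        exact hq2
    · intro i hi j
      by_cases h : i + 2 ≤ n
      · have h' : i ≤ n := by omega
        have h'' : i + 1 ≤ n := by omega
        simp only [h, h', h'', if_true]
        exact P3 i (by omega) j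
      · have h' : i + 1 = n := by omega
        have h'' : i ≤ n := by omega
        have h3 : i + 1 ≤ n := by omega
        simp only [h, h'', h3, if_true, if_false]
        intro hj
        have h4 := hq3 (by omega) j (by rw [← h']; exact hj)
        rw [show n - 1 = i by omega, show n + 1 = i + 2 by omega] at h4
        exact h4

/-- the intrinsic angle is small if the apex is not between the two points -/
lemma qang_le_of (H : Rot D apex ang R B Λ) {i : ι} {a b : V} (ha : QD D R (apex i) a ≠ 0)
    (hb : QD D R (apex i) b ≠ 0)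
    (h : QD D R a (apex i) + QD D R (apex i) b ≠ QD D R a b) :
    qang D apex ang R i a b ≤ B := by
  by_contra hc
  exact h (H.qang_bgi ha hb (by omega))

/-- consecutive steps add up -/
lemma dist_le_steps (H : Rot D apex ang R B Λ) (P : ℕ → V) (n : ℕ)
    (h : ∀ i < n, D (P i) (P (i + 1)) = 1) : ∀ m i, i + m ≤ n → D (P i) (P (i + m)) ≤ m := by
  intro m
  induction m with
  | zero =>
    intro i _
    rw [Nat.add_zero, H.geod.self]
  | succ m ih =>
    intro i hi
    have h1 := ih i (by omega)
    have h2 := h (i + m) (by omega)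
    have h3 := H.geod.tri (P i) (P (i + m)) (P (i + (m + 1)))
    rw [show i + (m + 1) = i + m + 1 by omega] at h3 ⊢
    omega

/-- a lifted geodesic is a geodesic -/
lemma lifted_isPath (H : Rot D apex ang R B Λ) {n : ℕ} {p P : ℕ → V} (hp : QPath D R n p)
    (h1 : ∀ i ≤ n, ∃ k ∈ KK R, P i = k • p i) (h2 : ∀ i < n, D (P i) (P (i + 1)) = 1) :
    IsPath D n P := by
  intro i j hij hj
  obtain ⟨k, hk, ek⟩ := h1 i (by omega)
  obtain ⟨l, hl, el⟩ := h1 j hj
  have t1 := H.dist_le_steps P n h2 (j - i) i (by omega)
  rw [show i + (j - i) = j by omega] at t1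
  have t2 := QD_le' D R (P i) (P j)
  rw [ek, el, H.QD_smul_left _ _ hk, QD_smul_right D R _ _ hl, hp i j hij hj] at t2
  rw [← ek, ← el] at t2
  omega

/-- an apex with a large angle lies on every geodesic -/
lemma on_path (H : Rot D apex ang R B Λ) {n : ℕ} {P : ℕ → V} (hP : IsPath D n P) {j : ι}
    (h0 : P 0 ≠ apex j) (h1 : P n ≠ apex j) (h : 2 * B < ang j (P 0) (P n)) :
    ∃ i, 0 < i ∧ i < n ∧ P i = apex j := by
  have hm : D (P 0) (apex j) + D (apex j) (P n) = D (P 0) (P n) :=
    H.bgi j _ _ h0 h1 (by omega)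
  have hn := hP 0 n (Nat.zero_le _) le_rfl
  have p1 := H.pos h0
  have p2 := H.pos h1.symm
  refine ⟨D (P 0) (apex j), p1, by omega, ?_⟩
  by_contra hne
  have h2 := hP 0 (D (P 0) (apex j)) (Nat.zero_le _) (by omega)
  have h3 := hP (D (P 0) (apex j)) n (by omega) le_rfl
  have t1 := H.ang_tri j (P 0) (P (D (P 0) (apex j))) (P n) h0 hne h1
  by_cases hc : B < ang j (P 0) (P (D (P 0) (apex j)))
  · have h4 : D (P 0) (apex j) + D (apex j) (P (D (P 0) (apex j)))
        = D (P 0) (P (D (P 0) (apex j))) := H.bgi j _ _ h0 hne hc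
    have h5 := H.pos (Ne.symm hne)
    omega
  · have h4 : D (P (D (P 0) (apex j))) (apex j) + D (apex j) (P n)
        = D (P (D (P 0) (apex j))) (P n) := H.bgi j _ _ hne h1 (by omega)
    have h5 := H.pos hne
    omega

/-- a geodesic path of the quotient between two points -/
lemma exists_QPath (H : Rot D apex ang R B Λ) (a b : V) :
    ∃ p : ℕ → V, p 0 = a ∧ (∃ k ∈ KK R, p (QD D R a b) = k • b) ∧
      QPath D R (QD D R a b) p := by
  obtain ⟨k, hk, h⟩ := exists_QD D R a b
  obtain ⟨p, hp0, hpn, hp⟩ := exists_path H.geod _ a (k • b) rfl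
  rw [h] at hpn hp
  refine ⟨p, hp0, ⟨k, hk, hpn⟩, ?_⟩
  intro i j hij hj
  have h0 : D (p 0) (p (QD D R a b)) = QD D R (p 0) (p (QD D R a b)) := by
    rw [hp0, hpn, h, QD_smul_right D R _ _ hk]
  have h1 := H.QD_sub h0 (hp.mem_Intv hj)
  have h2 : p i ∈ Intv D (p 0) (p j) := by
    have e1 := hp 0 i (Nat.zero_le _) (by omega)
    have e2 := hp i j hij hj
    have e3 := hp 0 j (Nat.zero_le _) hj
    show _ + _ = _
    omega
  have h3 := H.QD_sub h1.1 h2
  rw [← h3.2, hp i j hij hj]

/-- small intrinsic angles: there are lifts at minimal distance with small angles -/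
theorem small_lift (H : Rot D apex ang R B Λ) (hna : NoAdj D apex) {Th : ℕ} {a b : V}
    (h : ∀ j, QD D R (apex j) a ≠ 0 → QD D R (apex j) b ≠ 0 → qang D apex ang R j a b ≤ Th) :
    ∃ k ∈ KK R, D a (k • b) = QD D R a b ∧ Rigid apex ang (Th + 12 * B) a (k • b) := by
  obtain ⟨p, hp0, ⟨k0, hk0, hpn⟩, hp⟩ := H.exists_QPath a b
  obtain ⟨P, P0, P1, P2, P3⟩ := H.lift_path hna _ p hp
  have hP := H.lifted_isPath hp P1 P2
  set n := QD D R a b with hn
  obtain ⟨k1, hk1, e1⟩ := P1 n le_rfl
  rw [hpn, ← mul_smul] at e1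
  rw [hp0] at P0
  refine ⟨k1 * k0, mul_mem hk1 hk0, ?_, ?_⟩
  · rw [← e1, ← P0, hP 0 n (Nat.zero_le _) le_rfl]
    omega
  · intro j hj1 hj2
    rw [← e1] at hj2 ⊢
    rw [← P0] at hj1 ⊢
    by_contra hc
    obtain ⟨i, hi0, hin, hi⟩ := H.on_path hP hj1 hj2 (by omega)
    obtain ⟨i', rfl⟩ : ∃ i', i = i' + 1 := ⟨i - 1, by omega⟩
    have hloc := P3 i' hin j hi
    -- positions
    have d1 := hP i' (i' + 1) (by omega) (by omega)
    have d2 := hP (i' + 1) (i' + 2) (by omega) (by omega)
    have n1 : P i' ≠ apex j := by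
      intro he
      rw [he, ← hi, H.geod.self] at d1
      omega
    have n2 : P (i' + 2) ≠ apex j := by
      intro he
      rw [he, ← hi, H.geod.self] at d2
      omega
    have a1 : ang j (P 0) (P i') ≤ B := by
      apply H.ang_le_of_mem hj1 n1
      rw [← hi]
      have e1 := hP 0 i' (Nat.zero_le _) (by omega)
      have e2 := hP 0 (i' + 1) (Nat.zero_le _) (by omega)
      show _ + _ = _
      omega
    have a2 : ang j (P n) (P (i' + 2)) ≤ B := by
      apply H.ang_le_of_mem hj2 n2
      rw [← hi]
      have e1 := hP (i' + 2) n (by omega) le_rfl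
      have e2 := hP (i' + 1) n (by omega) le_rfl
      have e3 := H.geod.symm (P n) (P (i' + 2))
      have e4 := H.geod.symm (P (i' + 2)) (P (i' + 1))
      have e5 := H.geod.symm (P n) (P (i' + 1))
      show _ + _ = _
      omega
    -- intrinsic angles
    have hQ : ∀ l, l ≤ n → l ≠ i' + 1 → QD D R (apex j) (p l) ≠ 0 := by
      intro l hl hne he
      obtain ⟨k, hk, ek⟩ := P1 (i' + 1) (by omega)
      rw [← hi, ek, H.QD_smul_left _ _ hk] at he
      rcases Nat.lt_or_ge l (i' + 1) with h1 | h1
      · rw [H.QD_symm, hp l (i' + 1) (by omega) (by omega)] at he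
        omega
      · rw [hp (i' + 1) l h1 hl] at he
        omega
    have hapx : ∀ u, QD D R (apex j) u = QD D R (p (i' + 1)) u := by
      intro u
      obtain ⟨k, hk, ek⟩ := P1 (i' + 1) (by omega)
      rw [← hi, ek, H.QD_smul_left _ _ hk]
    have q1 : qang D apex ang R j (p i') (p 0) ≤ B := by
      apply H.qang_le_of (hQ _ (by omega) (by omega)) (hQ 0 (by omega) (by omega))
      rw [H.QD_symm (p i') (apex j), hapx, hapx, H.QD_symm (p (i' + 1)) (p i'),
        H.QD_symm (p (i' + 1)) (p 0), H.QD_symm (p i') (p 0),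
        hp i' (i' + 1) (by omega) (by omega), hp 0 (i' + 1) (by omega) (by omega),
        hp 0 i' (by omega) (by omega)]
      omega
    have q2 : qang D apex ang R j (p n) (p (i' + 2)) ≤ B := by
      apply H.qang_le_of (hQ _ le_rfl (by omega)) (hQ _ (by omega) (by omega))
      rw [H.QD_symm (p n) (apex j), hapx, hapx, H.QD_symm (p n) (p (i' + 2)),
        hp (i' + 1) n (by omega) le_rfl, hp (i' + 1) (i' + 2) (by omega) (by omega),
        hp (i' + 2) n (by omega) le_rfl]
      omega
    have q3 : qang D apex ang R j (p 0) (p n) ≤ Th := by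
      rw [hpn, qang_right j _ _ hk0, hp0]
      apply h j
      · have := hQ 0 (by omega) (by omega)
        rwa [hp0] at this
      · have := hQ n le_rfl (by omega)
        rwa [hpn, QD_smul_right D R _ _ hk0] at this
    have q4 := H.qang_tri hna (a := p i') (b := p 0) (c := p (i' + 2)) (hQ _ (by omega) (by omega))
      (hQ 0 (by omega) (by omega)) (hQ _ (by omega) (by omega))
    have q5 := H.qang_tri hna (a := p 0) (b := p n) (c := p (i' + 2)) (hQ 0 (by omega) (by omega))
      (hQ n le_rfl (by omega)) (hQ _ (by omega) (by omega))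
    have t1 := H.ang_tri j (P 0) (P i') (P n) hj1 n1 hj2
    have t2 := H.ang_tri j (P i') (P (i' + 2)) (P n) n1 n2 hj2
    have t3 := H.ang_symm j (P (i' + 2)) (P n)
    omega

end Rot

end Pool.Agent.Burnside
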