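import Pool.Agent.Burnside.Guess

/-!
The cone-off of a slim space along quasi-convex subsets, rescaled by `M`: slimness with a
universal constant, projections to the coned subsets, bounded geodesic image.
-/

namespace Pool.Agent.Burnside

open Set

/-- the path metric of a connected graph -/
lemma isGeod_dist {V : Type*} (G : SimpleGraph V) (hG : G.Connected) : IsGeod G.dist where
  self a := SimpleGraph.dist_self
  eq a b h := hG.dist_eq_zero_iff.1 h
  symm a b := SimpleGraph.dist_comm
  tri a b c := hG.dist_triangle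
  geod a b k hk := by
    obtain ⟨w, hw⟩ := hG.exists_walk_length_eq_dist a b
    refine ⟨w.getVert k, ?_⟩
    have h1 : G.dist a (w.getVert k) ≤ k := by
      have := SimpleGraph.dist_le (w.take k)
      refine le_trans this ?_
      simp [SimpleGraph.Walk.take_length]
    have h2 : G.dist (w.getVert k) b ≤ w.length - k := by
      have := SimpleGraph.dist_le (w.drop k)
      simpa [SimpleGraph.Walk.drop_length] using this
    have h3 : G.dist a b ≤ G.dist a (w.getVert k) + G.dist (w.getVert k) b := hG.dist_triangle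
    omega

section Near

variable {X : Type*} {d : X → X → ℕ} {δ κ : ℕ}

/-- the points of `Y` nearest to `a` -/
def Near (d : X → X → ℕ) (Y : Set X) (a : X) : Set X := {y | y ∈ Y ∧ ∀ y' ∈ Y, d a y ≤ d a y'}

/-- quasi-convex subsets -/
def QC (d : X → X → ℕ) (Y : Set X) (κ : ℕ) : Prop :=
  ∀ a ∈ Y, ∀ b ∈ Y, ∀ z ∈ Intv d a b, ∃ y ∈ Y, d z y ≤ κ

lemma near_nonempty {Y : Set X} (hY : Y.Nonempty) (a : X) : (Near d Y a).Nonempty := by
  classical
  have hex : ∃ n, ∃ y ∈ Y, d a y = n := by
    obtain ⟨y, hy⟩ := hY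
    exact ⟨_, y, hy, rfl⟩
  obtain ⟨y, hy, hyn⟩ := Nat.find_spec hex
  refine ⟨y, hy, fun y' hy' => ?_⟩
  rw [hyn]
  exact Nat.find_min' hex ⟨y', hy', rfl⟩

/-- a point of a geodesic to a nearest point has the same nearest point -/
lemma near_between (hd : IsGeod d) {Y : Set X} {a y w : X} (hy : y ∈ Near d Y a)
    (hw : w ∈ Intv d a y) {y' : X} (hy' : y' ∈ Y) : d w y ≤ d w y' := by
  have h1 : d a w + d w y = d a y := hw
  have h2 := hy.2 y' hy'
  have h3 := hd.tri a w y'
  omega

/-- a geodesic path from `a` to a point of `Y` passes close to the projection of `a` -/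
lemma near_path (hd : IsGeod d) (hs : Slim d δ) {Y : Set X} (hq : QC d Y κ) {a y y' : X}
    (hy : y ∈ Near d Y a) (hy' : y' ∈ Y) {N : ℕ} {p : ℕ → X} (hp : IsPath d N p) (hp0 : p 0 = a)
    (hpN : p N = y') : ∃ r ≤ N, d (p r) y ≤ 3 * δ + κ + 1 := by
  classical
  let P : ℕ → Prop := fun i => ∃ w ∈ Intv d a y, d (p i) w ≤ δ
  have hP0 : P 0 := ⟨a, by show _ + _ = _; rw [hd.self]; omega, by rw [hp0, hd.self]; omega⟩
  by_cases hPN : P N
  · obtain ⟨w, hw, hwd⟩ := hPN
    refine ⟨N, le_rfl, ?_⟩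
    have h1 := near_between hd hy hw hy'
    have h2 := hd.tri (p N) w y
    rw [hpN] at hwd h2 ⊢
    have h3 := hd.symm w y'
    omega
  · have hex : ∃ i, ¬ P i := ⟨N, hPN⟩
    have hspec := Nat.find_spec hex
    have hleN : Nat.find hex ≤ N := Nat.find_min' hex hPN
    have hpos : 0 < Nat.find hex := by
      rcases Nat.eq_zero_or_pos (Nat.find hex) with h | h
      · rw [h] at hspec
        exact absurd hP0 hspec
      · exact h
    obtain ⟨i, hi⟩ : ∃ i, Nat.find hex = i + 1 := ⟨Nat.find hex - 1, by omega⟩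
    have hPi : P i := by
      by_contra hc
      have := Nat.find_min' hex hc
      omega
    rw [hi] at hspec hleN
    obtain ⟨w, hw, hwd⟩ := hPi
    have hmem := hp.mem_Intv hleN
    rw [hp0, hpN] at hmem
    obtain ⟨v, hv, hvd⟩ := hs a y' y (p (i + 1)) hmem
    rcases hv with hv | hv
    · exact absurd ⟨v, hv, hvd⟩ hspec
    · obtain ⟨y'', hy'', hvy⟩ := hq y hy.1 y' hy' v hv
      have h1 := near_between hd hy hw hy''
      have h2 := hd.tri w (p i) y''
      have h3 := hd.tri (p i) (p (i + 1)) y''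
      have h4 := hd.tri (p (i + 1)) v y''
      have h5 := hp i (i + 1) (by omega) hleN
      have h6 := hd.symm w (p i)
      have h7 := hd.tri (p i) w y
      exact ⟨i, by omega, by omega⟩

/-- contraction: if the projections are far apart the interval passes close to them -/
lemma near_far (hd : IsGeod d) (hs : Slim d δ) {Y : Set X} (hq : QC d Y κ) {a b y y' : X}
    (hy : y ∈ Near d Y a) (hy' : y' ∈ Near d Y b) (hfar : 2 * (4 * δ + κ + 1) < d y y') :
    ∃ z ∈ Intv d a b, d z y ≤ 4 * δ + κ + 1 := by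
  obtain ⟨p, hp0, hpN, hp⟩ := exists_path hd _ a y' rfl
  obtain ⟨r, hr, hry⟩ := near_path hd hs hq hy hy'.1 hp hp0 hpN
  have hmem := hp.mem_Intv hr
  rw [hp0, hpN] at hmem
  obtain ⟨u, hu, hud⟩ := hs a y' b (p r) hmem
  have h1 := hd.tri u (p r) y
  have h2 := hd.symm u (p r)
  rcases hu with hu | hu
  · exact ⟨u, hu, by omega⟩
  · exfalso
    have h3 := near_between hd hy' hu hy.1
    have h4 := hd.tri y u y'
    have h5 := hd.symm y u
    omega

lemma Intv_symm (hd : IsGeod d) {a b z : X} (hz : z ∈ Intv d a b) : z ∈ Intv d b a := by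
  have h : d a z + d z b = d a b := hz
  show d b z + d z a = d b a
  rw [hd.symm b z, hd.symm z a, hd.symm b a]
  omega

/-- two points of an interval -/
lemma dist_le_of_mem_Intv (hd : IsGeod d) {a b z z' : X} (hz : z ∈ Intv d a b)
    (hz' : z' ∈ Intv d a b) : d z z' ≤ d a b := by
  have h1 : d a z + d z b = d a b := hz
  have h2 : d a z' + d z' b = d a b := hz'
  have h3 := hd.tri z a z'
  have h4 := hd.tri z b z'
  have h5 := hd.symm z a
  have h6 := hd.symm b z'
  omega

/-- projections are coarsely Lipschitz -/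
lemma near_lip (hd : IsGeod d) (hs : Slim d δ) {Y : Set X} (hq : QC d Y κ) {a b y y' : X}
    (hy : y ∈ Near d Y a) (hy' : y' ∈ Near d Y b) :
    d y y' ≤ d a b + 2 * (4 * δ + κ + 1) := by
  by_cases hfar : 2 * (4 * δ + κ + 1) < d y y'
  · obtain ⟨z, hz, hzy⟩ := near_far hd hs hq hy hy' hfar
    obtain ⟨z', hz', hzy'⟩ := near_far hd hs hq hy' hy (by rw [hd.symm]; exact hfar)
    have h1 := dist_le_of_mem_Intv hd hz (Intv_symm hd hz')
    have h2 := hd.tri y z y'
    have h3 := hd.tri z z' y'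
    have h4 := hd.symm y z
    omega
  · omega

end Near

/-! ### the cone-off -/

section Cone

variable {X ι : Type*}

/-- vertices: points of `X` and one apex for every coned subset; points of `X` at distance at most
`M` are joined, an apex is joined to the points of its subset -/
def coneRel (d : X → X → ℕ) (Y : ι → Set X) (M : ℕ) : X ⊕ ι → X ⊕ ι → Prop
  | Sum.inl x, Sum.inl y => d x y ≤ M
  | Sum.inl x, Sum.inr i => x ∈ Y i
  | Sum.inr i, Sum.inl x => x ∈ Y i
  | Sum.inr _, Sum.inr _ => False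

/-- the cone-off graph -/
def coneGraph (d : X → X → ℕ) (Y : ι → Set X) (M : ℕ) : SimpleGraph (X ⊕ ι) :=
  SimpleGraph.fromRel (coneRel d Y M)

/-- the metric of the cone-off -/
noncomputable def coneDist (d : X → X → ℕ) (Y : ι → Set X) (M : ℕ) : X ⊕ ι → X ⊕ ι → ℕ :=
  (coneGraph d Y M).dist

/-- hypotheses -/
structure Cone (d : X → X → ℕ) (Y : ι → Set X) (δ κ M : ℕ) : Prop where
  geod : IsGeod d
  slim : Slim d δ
  ne : ∀ i, (Y i).Nonempty
  qc : ∀ i, QC d (Y i) κ
  hM : 4 * δ + κ + 1 ≤ M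

/-- the projection of a vertex to the subset number `i` -/
def Pr (d : X → X → ℕ) (Y : ι → Set X) (i : ι) : X ⊕ ι → Set X
  | Sum.inl a => Near d (Y i) a
  | Sum.inr j => {y | ∃ a ∈ Y j, y ∈ Near d (Y i) a}

/-- the distance of the projections (an angle at the apex number `i`) -/
noncomputable def dPr (d : X → X → ℕ) (Y : ι → Set X) (i : ι) (p q : X ⊕ ι) : ℕ :=
  sSup {n | ∃ y ∈ Pr d Y i p, ∃ y' ∈ Pr d Y i q, n = d y y'}

namespace Cone

variable {d : X → X → ℕ} {Y : ι → Set X} {δ κ M : ℕ}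

lemma reach_le (C : Cone d Y δ κ M) : ∀ (n : ℕ) (x y : X), d x y = n →
    (coneGraph d Y M).Reachable (Sum.inl x) (Sum.inl y) := by
  intro n
  induction n with
  | zero =>
    intro x y h
    rw [C.geod.eq x y h]
  | succ n ih =>
    intro x y h
    obtain ⟨z, hz1, hz2⟩ := C.geod.geod x y n (by omega)
    refine (ih x z hz1).trans (SimpleGraph.Adj.reachable ?_)
    have hM := C.hM
    refine (SimpleGraph.fromRel_adj _ _ _).2 ⟨?_, Or.inl ?_⟩
    · intro he
      have : z = y := Sum.inl_injective he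
      rw [this, C.geod.self] at hz2
      omega
    · show d z y ≤ M
      omega

lemma reach_apex (C : Cone d Y δ κ M) (i : ι) (x : X) :
    (coneGraph d Y M).Reachable (Sum.inl x) (Sum.inr i) := by
  obtain ⟨y, hy⟩ := C.ne i
  refine (C.reach_le _ x y rfl).trans (SimpleGraph.Adj.reachable ?_)
  exact (SimpleGraph.fromRel_adj _ _ _).2 ⟨by simp, Or.inl hy⟩

lemma connected (C : Cone d Y δ κ M) (p0 : X ⊕ ι) : (coneGraph d Y M).Connected := by
  haveI : Nonempty (X ⊕ ι) := ⟨p0⟩
  refine SimpleGraph.Connected.mk ?_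
  intro p q
  rcases p with x | i
  · rcases q with y | j
    · exact C.reach_le _ x y rfl
    · exact C.reach_apex j x
  · obtain ⟨x, -⟩ := C.ne i
    rcases q with y | j
    · exact (C.reach_apex i y).symm
    · exact (C.reach_apex i x).symm.trans (C.reach_apex j x)

/-- the cone-off is a geodesic metric space -/
lemma isGeod (C : Cone d Y δ κ M) : IsGeod (coneDist d Y M) where
  self a := SimpleGraph.dist_self
  eq a b h := (isGeod_dist _ (C.connected a)).eq a b h
  symm a b := SimpleGraph.dist_comm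
  tri a b c := (isGeod_dist _ (C.connected a)).tri a b c
  geod a b k h := (isGeod_dist _ (C.connected a)).geod a b k h

lemma dist_le_one {p q : X ⊕ ι} (h : coneRel d Y M p q) : coneDist d Y M p q ≤ 1 := by
  by_cases hpq : p = q
  · rw [hpq]
    unfold coneDist
    rw [SimpleGraph.dist_self]
    omega
  · have hadj : (coneGraph d Y M).Adj p q := (SimpleGraph.fromRel_adj _ _ _).2 ⟨hpq, Or.inl h⟩
    have := SimpleGraph.dist_eq_one_iff_adj.2 hadj
    unfold coneDist
    omega

/-- adjacent vertices -/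
lemma rel_of_dist_le_one (C : Cone d Y δ κ M) {p q : X ⊕ ι} (h : coneDist d Y M p q ≤ 1) :
    p = q ∨ coneRel d Y M p q := by
  by_cases hpq : p = q
  · exact Or.inl hpq
  · right
    have h0 : coneDist d Y M p q ≠ 0 := fun h0 => hpq (C.isGeod.eq p q h0)
    have h1 : (coneGraph d Y M).dist p q = 1 := by
      have : coneDist d Y M p q = (coneGraph d Y M).dist p q := rfl
      omega
    have hadj := SimpleGraph.dist_eq_one_iff_adj.1 h1
    have := ((SimpleGraph.fromRel_adj _ _ _).1 hadj).2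
    rcases this with h | h
    · exact h
    · rcases p with x | i <;> rcases q with y | j
      · show d x y ≤ M
        have h' : d y x ≤ M := h
        rw [C.geod.symm]
        exact h'
      · exact h
      · exact h
      · exact h

/-- the base point of a vertex -/
noncomputable def bp (C : Cone d Y δ κ M) : X ⊕ ι → X
  | Sum.inl x => x
  | Sum.inr i => (C.ne i).some

lemma bp_dist (C : Cone d Y δ κ M) (p : X ⊕ ι) : coneDist d Y M p (Sum.inl (C.bp p)) ≤ 1 := by
  rcases p with x | i
  · apply dist_le_one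
    show d x x ≤ M
    rw [C.geod.self]
    omega
  · apply dist_le_one
    exact (C.ne i).some_mem

/-- the guessed geodesics -/
def L (C : Cone d Y δ κ M) (p q : X ⊕ ι) : Set (X ⊕ ι) :=
  {w | w = p ∨ w = q ∨ ∃ z ∈ Intv d (C.bp p) (C.bp q), w = Sum.inl z}

lemma dist_inl (_C : Cone d Y δ κ M) {x y : X} (h : d x y ≤ M) :
    coneDist d Y M (Sum.inl x) (Sum.inl y) ≤ 1 := dist_le_one h

/-- a point close to the subset is close to the apex -/
lemma dist_apex (C : Cone d Y δ κ M) {z y : X} {i : ι} (hy : y ∈ Y i) (h : d z y ≤ M) :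
    coneDist d Y M (Sum.inl z) (Sum.inr i) ≤ 2 := by
  have h1 := C.dist_inl h
  have h2 : coneDist d Y M (Sum.inl y) (Sum.inr i) ≤ 1 := dist_le_one hy
  have := C.isGeod.tri (Sum.inl z) (Sum.inl y) (Sum.inr i)
  omega

lemma data (C : Cone d Y δ κ M) : Guess.Data (coneDist d Y M) C.L 2 1 where
  left a b := Or.inl rfl
  short := by
    intro p q hpq w hw
    have hM := C.hM
    have hself : ∀ u, coneDist d Y M u u = 0 := C.isGeod.self
    rcases hw with hw | hw | ⟨z, hz, hw⟩
    · left; rw [hw, hself]; omega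
    · right; rw [hw, hself]; omega
    · subst hw
      have hz' : d (C.bp p) z + d z (C.bp q) = d (C.bp p) (C.bp q) := hz
      rcases C.rel_of_dist_le_one hpq with h | h
      · left
        subst h
        have h0 : d (C.bp p) (C.bp p) = 0 := C.geod.self _
        have h1 : d (C.bp p) z ≤ M := by omega
        have h2 := C.dist_inl h1
        have h3 := C.bp_dist p
        have := C.isGeod.tri p (Sum.inl (C.bp p)) (Sum.inl z)
        omega
      · rcases p with x | i <;> rcases q with y | j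
        · left
          have h' : d x y ≤ M := h
          have h1 : d x z ≤ M := by
            have : d x z + d z y = d x y := hz'
            omega
          have := C.dist_inl h1
          omega
        · right
          have h' : x ∈ Y j := h
          obtain ⟨y', hy', hzy⟩ := C.qc j x h' _ (C.ne j).some_mem z hz
          have := C.dist_apex hy' (by omega : d z y' ≤ M)
          rw [C.isGeod.symm]
          exact this
        · left
          have h' : y ∈ Y i := h
          obtain ⟨y', hy', hzy⟩ := C.qc i _ (C.ne i).some_mem y h' z hz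
          have := C.dist_apex hy' (by omega : d z y' ≤ M)
          rw [C.isGeod.symm]
          exact this
        · exact absurd h (by simp [coneRel])
  thin := by
    intro p q r w hw
    have hM := C.hM
    have hself : ∀ u, coneDist d Y M u u = 0 := C.isGeod.self
    rcases hw with hw | hw | ⟨z, hz, hw⟩
    · exact ⟨p, Or.inl (Or.inl rfl), by rw [hw, hself]; omega⟩
    · exact ⟨q, Or.inr (Or.inr (Or.inl rfl)), by rw [hw, hself]; omega⟩
    · subst hw
      obtain ⟨z', hz', hd⟩ := C.slim _ _ (C.bp r) z hz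
      rcases hz' with hz' | hz'
      · exact ⟨Sum.inl z', Or.inl (Or.inr (Or.inr ⟨z', hz', rfl⟩)), C.dist_inl (by omega)⟩
      · exact ⟨Sum.inl z', Or.inr (Or.inr (Or.inr ⟨z', hz', rfl⟩)), C.dist_inl (by omega)⟩

lemma conn (C : Cone d Y δ κ M) (p q : X ⊕ ι) : ∃ (K : ℕ) (f : ℕ → X ⊕ ι), f 0 = p ∧ f K = q ∧
    (∀ i < K, coneDist d Y M (f i) (f (i + 1)) ≤ 1) ∧ ∀ i ≤ K, f i ∈ C.L p q := by
  classical
  have hM := C.hM
  obtain ⟨g, hg0, hgN, hg⟩ := exists_path C.geod _ (C.bp p) (C.bp q) rfl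
  set N := d (C.bp p) (C.bp q) with hN
  refine ⟨N + 2, fun k => if k = 0 then p else if k = N + 2 then q else Sum.inl (g (k - 1)),
    by simp, by simp, ?_, ?_⟩
  · intro k hk
    by_cases h0 : k = 0
    · subst h0
      have e : ¬ (0 + 1 = N + 2) := by omega
      simp only [if_true, e, if_false, Nat.zero_add, one_ne_zero, Nat.sub_self, hg0]
      exact C.bp_dist p
    · by_cases h1 : k + 1 = N + 2
      · have e1 : ¬ (k = N + 2) := by omega
        have e2 : k - 1 = N := by omega
        have e3 : ¬ (k + 1 = 0) := by omega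
        simp only [h0, e1, if_false, h1, if_true, e2, hgN]
        simp only [show ¬ (N + 2 = 0) by omega, if_false]
        rw [C.isGeod.symm]
        exact C.bp_dist q
      · have e1 : ¬ (k = N + 2) := by omega
        have e3 : ¬ (k + 1 = 0) := by omega
        simp only [h0, e1, h1, e3, if_false]
        apply C.dist_inl
        rw [hg (k - 1) (k + 1 - 1) (by omega) (by omega)]
        omega
  · intro k hk
    by_cases h0 : k = 0
    · simp only [h0, if_true]
      exact Or.inl rfl
    · by_cases h1 : k = N + 2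
      · simp only [h1, if_true, show ¬ (N + 2 = 0) by omega, if_false]
        exact Or.inr (Or.inl rfl)
      · simp only [h0, h1, if_false]
        refine Or.inr (Or.inr ⟨_, ?_, rfl⟩)
        have := hg.mem_Intv (i := k - 1) (by omega)
        rwa [hg0, hgN] at this

/-- the cone-off is slim with a universal constant -/
theorem slim31 (C : Cone d Y δ κ M) : Slim (coneDist d Y M) 31 := by
  have := Guess.slim C.isGeod C.data 10 Guess.numeric C.conn
  simpa using this

/-- intervals of `X` are close to geodesics of the cone-off -/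
theorem close10 (C : Cone d Y δ κ M) {N : ℕ} {P : ℕ → X ⊕ ι} (hP : IsPath (coneDist d Y M) N P)
    {z : X} (hz : z ∈ Intv d (C.bp (P 0)) (C.bp (P N))) :
    ∃ k ≤ N, coneDist d Y M (Sum.inl z) (P k) ≤ 10 := by
  obtain ⟨r, -, hr, h⟩ := Guess.close C.isGeod C.data 10 Guess.numeric hP 0 N (Nat.zero_le _)
    le_rfl (Sum.inl z) (Or.inr (Or.inr ⟨z, hz, rfl⟩))
  exact ⟨r, hr, h⟩

/-! ### projections -/

/-- projections of vertices have diameter at most `Θ` -/
def PB (d : X → X → ℕ) (Y : ι → Set X) (Θ : ℕ) : Prop :=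
  ∀ i p, p ≠ Sum.inr i → ∀ y ∈ Pr d Y i p, ∀ y' ∈ Pr d Y i p, d y y' ≤ Θ

variable {Θ : ℕ}

lemma Pr_nonempty (C : Cone d Y δ κ M) (i : ι) (p : X ⊕ ι) : (Pr d Y i p).Nonempty := by
  rcases p with x | j
  · exact near_nonempty (C.ne i) x
  · obtain ⟨a, ha⟩ := C.ne j
    obtain ⟨y, hy⟩ := near_nonempty (d := d) (C.ne i) a
    exact ⟨y, a, ha, hy⟩

lemma near_bp (C : Cone d Y δ κ M) (i : ι) (p : X ⊕ ι) {y : X} (hy : y ∈ Near d (Y i) (C.bp p)) :
    y ∈ Pr d Y i p := by
  rcases p with x | j
  · exact hy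
  · exact ⟨_, (C.ne j).some_mem, hy⟩

lemma dPr_le {i : ι} {p q : X ⊕ ι} {n : ℕ}
    (h : ∀ y ∈ Pr d Y i p, ∀ y' ∈ Pr d Y i q, d y y' ≤ n) : dPr d Y i p q ≤ n := by
  apply csSup_le'
  rintro m ⟨y, hy, y', hy', rfl⟩
  exact h y hy y' hy'

lemma le_dPr (C : Cone d Y δ κ M) (hB : PB d Y Θ) {i : ι} {p q : X ⊕ ι} (hp : p ≠ Sum.inr i)
    (hq : q ≠ Sum.inr i) {y y' : X} (hy : y ∈ Pr d Y i p) (hy' : y' ∈ Pr d Y i q) :
    d y y' ≤ dPr d Y i p q := by
  refine le_csSup ⟨d y y' + 2 * Θ, ?_⟩ ⟨y, hy, y', hy', rfl⟩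
  rintro m ⟨z, hz, z', hz', rfl⟩
  have h1 := hB i p hp z hz y hy
  have h2 := hB i q hq y' hy' z' hz'
  have h3 := C.geod.tri z y z'
  have h4 := C.geod.tri y y' z'
  omega

lemma dPr_symm (C : Cone d Y δ κ M) (i : ι) (p q : X ⊕ ι) : dPr d Y i p q = dPr d Y i q p := by
  unfold dPr
  congr 1
  ext n
  constructor
  · rintro ⟨y, hy, y', hy', rfl⟩
    exact ⟨y', hy', y, hy, C.geod.symm _ _⟩
  · rintro ⟨y, hy, y', hy', rfl⟩
    exact ⟨y', hy', y, hy, C.geod.symm _ _⟩

/-- triangle inequality of the projection distances -/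
lemma dPr_tri (C : Cone d Y δ κ M) (hB : PB d Y Θ) {i : ι} {p q r : X ⊕ ι} (hp : p ≠ Sum.inr i)
    (hq : q ≠ Sum.inr i) (hr : r ≠ Sum.inr i) :
    dPr d Y i p r ≤ dPr d Y i p q + dPr d Y i q r := by
  apply dPr_le
  intro y hy y' hy'
  obtain ⟨z, hz⟩ := C.Pr_nonempty i q
  have h1 := C.le_dPr hB hp hq hy hz
  have h2 := C.le_dPr hB hq hr hz hy'
  have h3 := C.geod.tri y z y'
  omega

lemma dPr_self (hB : PB d Y Θ) {i : ι} {p : X ⊕ ι} (hp : p ≠ Sum.inr i) :
    dPr d Y i p p ≤ Θ := dPr_le (hB i p hp)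

/-- one step -/
lemma dPr_step (C : Cone d Y δ κ M) (hB : PB d Y Θ) {i : ι} {p q : X ⊕ ι} (hp : p ≠ Sum.inr i)
    (hq : q ≠ Sum.inr i) (h : coneDist d Y M p q ≤ 1) :
    dPr d Y i p q ≤ M + 2 * (4 * δ + κ + 1) + Θ := by
  rcases C.rel_of_dist_le_one h with h | h
  · rw [← h]
    have := dPr_self hB hp
    omega
  · apply dPr_le
    intro y hy y' hy'
    rcases p with a | j <;> rcases q with b | k
    · have h1 := near_lip C.geod C.slim (C.qc i) hy hy'
      have h2 : d a b ≤ M := h
      omega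
    · have h2 : y ∈ Pr d Y i (Sum.inr k) := ⟨a, h, hy⟩
      have := hB i _ hq y h2 y' hy'
      omega
    · have h2 : y' ∈ Pr d Y i (Sum.inr j) := ⟨b, h, hy'⟩
      have := hB i _ hp y hy y' h2
      omega
    · exact absurd h (by simp [coneRel])

/-- several steps -/
lemma dPr_steps (C : Cone d Y δ κ M) (hB : PB d Y Θ) {i : ι} {P : ℕ → X ⊕ ι} {N : ℕ}
    (hP : IsPath (coneDist d Y M) N P) (hne : ∀ k ≤ N, P k ≠ Sum.inr i) (k : ℕ) :
    ∀ m, k + m ≤ N → dPr d Y i (P k) (P (k + m)) ≤ Θ + m * (M + 2 * (4 * δ + κ + 1) + Θ) := by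
  intro m
  induction m with
  | zero =>
    intro h
    have := dPr_self hB (hne k (by omega))
    simpa using this
  | succ m ih =>
    intro h
    have h1 := ih (by omega)
    have h2 := C.dPr_tri hB (hne k (by omega)) (hne (k + m) (by omega))
      (hne (k + (m + 1)) (by omega))
    have h3 := C.dPr_step hB (hne (k + m) (by omega)) (hne (k + (m + 1)) (by omega))
      (by rw [hP (k + m) (k + (m + 1)) (by omega) h]; omega)
    have e : (m + 1) * (M + 2 * (4 * δ + κ + 1) + Θ)
        = m * (M + 2 * (4 * δ + κ + 1) + Θ) + (M + 2 * (4 * δ + κ + 1) + Θ) := by ring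
    omega

/-- a geodesic far from the apex has bounded projection -/
lemma dPr_far (C : Cone d Y δ κ M) (hB : PB d Y Θ) {i : ι} {P : ℕ → X ⊕ ι} {N : ℕ}
    (hP : IsPath (coneDist d Y M) N P) (hfar : ∀ k ≤ N, 12 < coneDist d Y M (P k) (Sum.inr i)) :
    dPr d Y i (P 0) (P N) ≤ 2 * (4 * δ + κ + 1) + 2 * Θ := by
  have hM := C.hM
  have hne : ∀ k ≤ N, P k ≠ Sum.inr i := by
    intro k hk he
    have := hfar k hk
    rw [he, C.isGeod.self] at this
    omega
  apply dPr_le
  intro y hy y' hy'
  obtain ⟨y1, hy1⟩ := near_nonempty (d := d) (C.ne i) (C.bp (P 0))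
  obtain ⟨y2, hy2⟩ := near_nonempty (d := d) (C.ne i) (C.bp (P N))
  have h1 := hB i _ (hne 0 (Nat.zero_le _)) y hy y1 (C.near_bp i _ hy1)
  have h2 := hB i _ (hne N le_rfl) y2 (C.near_bp i _ hy2) y' hy'
  have h3 : d y1 y2 ≤ 2 * (4 * δ + κ + 1) := by
    by_contra hc
    obtain ⟨z, hz, hzy⟩ := near_far C.geod C.slim (C.qc i) hy1 hy2 (by omega)
    obtain ⟨k, hk, hzk⟩ := C.close10 hP hz
    have h4 := C.dist_apex hy1.1 (by omega : d z y1 ≤ M)
    have h5 := hfar k hk
    have h6 := C.isGeod.tri (P k) (Sum.inl z) (Sum.inr i)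
    have h7 := C.isGeod.symm (P k) (Sum.inl z)
    omega
  have h4 := C.geod.tri y y1 y'
  have h5 := C.geod.tri y1 y2 y'
  omega

/-- the constant of the bounded geodesic image -/
def BB (δ κ M Θ : ℕ) : ℕ := 26 * M + 56 * (4 * δ + κ + 1) + 31 * Θ

lemma isPath_shift {V : Type*} {D : V → V → ℕ} {N : ℕ} {P : ℕ → V} (hP : IsPath D N P) (k m : ℕ)
    (h : k + m ≤ N) : IsPath D m (fun j => P (k + j)) := by
  intro i j hij hj
  have := hP (k + i) (k + j) (by omega) (by omega)
  simp only [this]
  omega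

/-- bounded geodesic image -/
theorem bgi_path (C : Cone d Y δ κ M) (hB : PB d Y Θ) {i : ι} {P : ℕ → X ⊕ ι} {N : ℕ}
    (hP : IsPath (coneDist d Y M) N P) (hne : ∀ k ≤ N, P k ≠ Sum.inr i) :
    dPr d Y i (P 0) (P N) ≤ BB δ κ M Θ := by
  classical
  have hM := C.hM
  unfold BB
  by_cases hnear : ∃ k, k ≤ N ∧ coneDist d Y M (P k) (Sum.inr i) ≤ 12
  · -- first and last index close to the apex
    have hk0 := Nat.find_spec hnear
    set k0 := Nat.find hnear with hk0def
    have hbefore : ∀ k, k < k0 → 12 < coneDist d Y M (P k) (Sum.inr i) := by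
      intro k hk
      have := Nat.find_min hnear hk
      by_contra hc
      exact this ⟨by omega, by omega⟩
    let k1 := Nat.findGreatest (fun k => coneDist d Y M (P k) (Sum.inr i) ≤ 12) N
    have hk1 : coneDist d Y M (P k1) (Sum.inr i) ≤ 12 :=
      Nat.findGreatest_spec (P := fun k => coneDist d Y M (P k) (Sum.inr i) ≤ 12) hk0.1 hk0.2
    have hk1N : k1 ≤ N := Nat.findGreatest_le N
    have hk01 : k0 ≤ k1 := Nat.le_findGreatest hk0.1 hk0.2
    have hafter : ∀ k, k1 < k → k ≤ N → 12 < coneDist d Y M (P k) (Sum.inr i) := by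
      intro k hk hkN
      have := Nat.findGreatest_is_greatest hk hkN
      omega
    have hlen : k1 - k0 ≤ 24 := by
      have h1 := hP k0 k1 hk01 hk1N
      have h2 := C.isGeod.tri (P k0) (Sum.inr i) (P k1)
      have h3 := C.isGeod.symm (Sum.inr i) (P k1)
      omega
    -- the middle part, extended by one step on both sides
    have hmid : dPr d Y i (P (k0 - 1)) (P (min N (k1 + 1)))
        ≤ Θ + 26 * (M + 2 * (4 * δ + κ + 1) + Θ) := by
      have h1 := C.dPr_steps hB hP hne (k0 - 1) (min N (k1 + 1) - (k0 - 1)) (by omega)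
      have e : k0 - 1 + (min N (k1 + 1) - (k0 - 1)) = min N (k1 + 1) := by omega
      rw [e] at h1
      have h2 : (min N (k1 + 1) - (k0 - 1)) * (M + 2 * (4 * δ + κ + 1) + Θ)
          ≤ 26 * (M + 2 * (4 * δ + κ + 1) + Θ) := Nat.mul_le_mul_right _ (by omega)
      omega
    have hfirst : dPr d Y i (P 0) (P (k0 - 1)) ≤ 2 * (4 * δ + κ + 1) + 2 * Θ := by
      by_cases h0 : k0 = 0
      · rw [h0]
        have := dPr_self hB (hne 0 (Nat.zero_le _))
        simp only [Nat.zero_sub]
        omega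
      · have h1 := C.dPr_far hB (isPath_shift hP 0 (k0 - 1) (by omega)) (i := i) (by
          intro k hk
          have := hbefore (0 + k) (by omega)
          exact this)
        simpa using h1
    have hlast : dPr d Y i (P (min N (k1 + 1))) (P N) ≤ 2 * (4 * δ + κ + 1) + 2 * Θ := by
      by_cases h0 : N ≤ k1 + 1
      · rw [min_eq_left h0]
        have := dPr_self hB (hne N le_rfl)
        omega
      · rw [min_eq_right (by omega)]
        have h1 := C.dPr_far hB (isPath_shift hP (k1 + 1) (N - (k1 + 1)) (by omega)) (i := i) (by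
          intro k hk
          exact hafter (k1 + 1 + k) (by omega) (by omega))
        have e : k1 + 1 + (N - (k1 + 1)) = N := by omega
        simpa [e] using h1
    have t1 := C.dPr_tri hB (hne 0 (Nat.zero_le _)) (hne (k0 - 1) (by omega)) (hne N le_rfl)
    have t2 := C.dPr_tri hB (hne (k0 - 1) (by omega)) (hne (min N (k1 + 1)) (by omega))
      (hne N le_rfl)
    omega
  · push Not at hnear
    have := C.dPr_far hB hP hnear
    omega

/-- bounded geodesic image: a large angle forces the apex to lie on every geodesic -/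
theorem bgi (C : Cone d Y δ κ M) (hB : PB d Y Θ) {i : ι} {p q : X ⊕ ι}
    (h : BB δ κ M Θ < dPr d Y i p q) {N : ℕ} {P : ℕ → X ⊕ ι}
    (hP : IsPath (coneDist d Y M) N P) (hP0 : P 0 = p) (hPN : P N = q) :
    ∃ k ≤ N, P k = Sum.inr i := by
  by_contra hc
  push Not at hc
  have := C.bgi_path hB hP hc
  rw [hP0, hPN] at this
  omega

theorem bgi_Intv (C : Cone d Y δ κ M) (hB : PB d Y Θ) {i : ι} {p q : X ⊕ ι}
    (h : BB δ κ M Θ < dPr d Y i p q) : Sum.inr i ∈ Intv (coneDist d Y M) p q := by
  obtain ⟨P, hP0, hPN, hP⟩ := exists_path C.isGeod _ p q rfl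
  obtain ⟨k, hk, he⟩ := C.bgi hB h hP hP0 hPN
  have := hP.mem_Intv hk
  rwa [hP0, hPN, he] at this

end Cone

end Cone

end Pool.Agent.Burnside
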