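import Pool.Agent.Burnside.Axis
import Pool.Agent.Burnside.ConeOff

/-!
Explicit constants of the construction: `δ = 31`, `H = 126`, `C = 1490`, `A = M = 10 ^ 14`,
`T = 10 ^ 26`, `Λ = 10 ^ 28`, `n ≥ 10 ^ 54` odd.
-/

set_option autoImplicit false

namespace Pool.Agent.Burnside

namespace Const

/-- the constant `C` of (S3) -/
abbrev vC : ℕ := 1490
/-- the constant `A` of (S3) -/
abbrev vA : ℕ := 10 ^ 14
/-- the rescaling factor -/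
abbrev vM : ℕ := 10 ^ 14
/-- the constant `T` of (S2) -/
abbrev vT : ℕ := 10 ^ 26
/-- the rotation angle -/
abbrev vΛ : ℕ := 10 ^ 28
/-- the value of the constant `BB` -/
abbrev vB : ℕ := 5700000008232216

lemma cH_eq : cH 31 = 126 := rfl
lemma cD1_eq : cD1 31 = 506 := rfl
lemma cD2_eq : cD2 31 = 2018 := rfl
lemma cκ_eq : cκ 31 = 7308 := rfl
lemma cη_eq : cη 31 = 7433 := rfl
lemma cΘ_eq : cΘ 31 vA = 100000000252128 := by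
  norm_num [cΘ, cD2_eq, cη_eq, cκ_eq]
lemma cc0_eq : cc0 31 = 153352 := rfl
lemma B_eq : Cone.BB 31 (cκ 31) vM (cΘ 31 vA) = vB := by
  rw [cΘ_eq, cκ_eq]
  norm_num [Cone.BB]

lemma cE_le : cE 31 vT ≤ 10 ^ 5 := by
  have h : Nat.clog 2 (vT * (2 * cη 31 + 1)) ≤ 101 := by
    apply Nat.clog_le_of_le_pow
    rw [cη_eq]
    norm_num
  have h2 : cE 31 vT = 2 * (Nat.clog 2 (vT * (2 * cη 31 + 1)) * 31) + 2 * cη 31 := rfl
  have h3 : cη 31 = 7433 := cη_eq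
  rw [h2]
  generalize Nat.clog 2 (vT * (2 * cη 31 + 1)) = z at *
  rw [h3]
  linarith

/-- hypothesis of `Stage.act` -/
lemma hC : 48 * 31 + 2 ≤ vC := by norm_num

/-- hypothesis `hM` of `Cone` -/
lemma hM : 4 * 31 + cκ 31 + 1 ≤ vM := by rw [cκ_eq]; norm_num

/-- hypotheses of `exists_burnside` -/
lemma hAC : 4 * vC + 2 ≤ vA := by norm_num
lemma hM2 : 2 ≤ vM := by norm_num
lemma hM0 : 0 < vM := by norm_num
lemma hT0 : 0 < vT := by norm_num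
lemma hT1 : 1 ≤ vT := by norm_num
lemma hn0 {n : ℕ} (hn : vT * vΛ ≤ n) : 0 < n := by
  have : (0 : ℕ) < vT * vΛ := by norm_num
  omega

/-- hypothesis `big` of `rot_of_pack` -/
lemma big : 16 * Cone.BB 31 (cκ 31) vM (cΘ 31 vA) < vΛ := by rw [B_eq]; norm_num

/-- hypothesis of `fix2` -/
lemma big52 : 52 * Cone.BB 31 (cκ 31) vM (cΘ 31 vA) < vΛ := by rw [B_eq]; norm_num

/-- hypotheses of `s2q` -/
lemma s2T {ρ : ℕ} (hρ : ρ = (4 * 126 + 1) * (vM + 24 * Cone.BB 31 (cκ 31) vM (cΘ 31 vA))) :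
    vM + (vA + cc0 31 * (ρ + 1)) + 2 * Cone.BB 31 (cκ 31) vM (cΘ 31 vA) ≤ vT := by
  rw [hρ, B_eq, cc0_eq]
  norm_num

lemma s2Λ {ρ : ℕ} (hρ : ρ = (4 * 126 + 1) * (vM + 24 * Cone.BB 31 (cκ 31) vM (cΘ 31 vA))) :
    vA + cc0 31 * (ρ + 1) + 13 * Cone.BB 31 (cκ 31) vM (cΘ 31 vA) < vΛ := by
  rw [hρ, B_eq, cc0_eq]
  norm_num

/-- hypotheses of `s4_quot`, with `N3 = 15 * B + 1` -/
lemma s4M : vM + 2 * Cone.BB 31 (cκ 31) vM (cΘ 31 vA) ≤ vT := by rw [B_eq]; norm_num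

lemma s4D1 : 4 * (4 * 31 + 2) + 1 ≤ cD1 31 := by rw [cD1_eq]; norm_num

lemma s4n {n : ℕ} (hn : vT * vΛ ≤ n) :
    vT * (2 * (15 * Cone.BB 31 (cκ 31) vM (cΘ 31 vA) + 1) + cD2 31) ≤ n := by
  refine le_trans (Nat.mul_le_mul_left _ ?_) hn
  rw [B_eq, cD2_eq]
  norm_num

/-- the displacement `ρ` of the pivot-poor case -/
lemma poor_ρ {ρ C1 Th : ℕ} (hC1 : C1 ≤ 3000)
    (hTh : Th ≤ 60 * Cone.BB 31 (cκ 31) vM (cΘ 31 vA))
    (hρ : ρ = (C1 + 3 * 126) * (vM + (2 * (Th + 14 * Cone.BB 31 (cκ 31) vM (cΘ 31 vA)) +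
      3 * Cone.BB 31 (cκ 31) vM (cΘ 31 vA)) + 2 * Cone.BB 31 (cκ 31) vM (cΘ 31 vA))) :
    ρ ≤ 3 * 10 ^ 21 := by
  rw [B_eq] at hTh hρ
  have h1 : (C1 + 3 * 126) * (vM + (2 * (Th + 14 * vB) + 3 * vB) + 2 * vB) ≤
      (3000 + 3 * 126) * (vM + (2 * (60 * vB + 14 * vB) + 3 * vB) + 2 * vB) :=
    Nat.mul_le_mul (by omega) (by omega)
  rw [hρ]
  refine h1.trans ?_
  norm_num

/-- hypotheses of `poor_two`, `poor_one` -/
lemma poorΛ {Th : ℕ} (hTh : Th ≤ 60 * Cone.BB 31 (cκ 31) vM (cΘ 31 vA)) :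
    4 * (Th + 14 * Cone.BB 31 (cκ 31) vM (cΘ 31 vA)) +
      12 * Cone.BB 31 (cκ 31) vM (cΘ 31 vA) < vΛ := by
  rw [B_eq] at *
  have e1 : vΛ = 10000000000000000000000000000 := by norm_num
  have e2 : vB = 5700000008232216 := rfl
  rw [e1, e2]
  rw [e2] at hTh
  linarith

lemma poorL0 {C1 L0 : ℕ} (hC1 : C1 ≤ 3000) (hL0 : 10 ^ 13 ≤ L0) : 4 * C1 + 6 * 126 + 6 ≤ L0 := by
  omega

lemma poorM {ρ C1 Th L0 : ℕ} (hC1 : C1 ≤ 3000)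
    (hTh : Th ≤ 60 * Cone.BB 31 (cκ 31) vM (cΘ 31 vA)) (hL0 : 10 ^ 13 ≤ L0)
    (hρ : ρ = (C1 + 3 * 126) * (vM + (2 * (Th + 14 * Cone.BB 31 (cκ 31) vM (cΘ 31 vA)) +
      3 * Cone.BB 31 (cκ 31) vM (cΘ 31 vA)) + 2 * Cone.BB 31 (cκ 31) vM (cΘ 31 vA))) :
    vA + cc0 31 * (ρ + 1) + vM * (4 * C1 + 6 * 126 + 5) ≤ vM * L0 := by
  have h1 := poor_ρ hC1 hTh hρ
  have e0 : cc0 31 = 153352 := cc0_eq
  have e1 : vM = 100000000000000 := by norm_num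
  have e2 : vA = 100000000000000 := by norm_num
  clear hρ hTh
  rw [e0, e1, e2]
  linarith

lemma poorM2 {ρ C1 Th L0 : ℕ} (hC1 : C1 ≤ 3000)
    (hTh : Th ≤ 60 * Cone.BB 31 (cκ 31) vM (cΘ 31 vA)) (hL0 : 10 ^ 13 ≤ L0)
    (hρ : ρ = (C1 + 3 * 126) * (vM + (2 * (Th + 14 * Cone.BB 31 (cκ 31) vM (cΘ 31 vA)) +
      3 * Cone.BB 31 (cκ 31) vM (cΘ 31 vA)) + 2 * Cone.BB 31 (cκ 31) vM (cΘ 31 vA))) :
    ρ + cE 31 vT + vM * (4 * C1 + 6 * 126 + 9) ≤ vM * L0 := by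
  have h1 := poor_ρ hC1 hTh hρ
  have h2 := cE_le
  have e1 : vM = 100000000000000 := by norm_num
  generalize cE 31 vT = z at *
  clear hρ hTh
  rw [e1]
  linarith

lemma poorΛ2 {ρ C1 Th : ℕ} (hC1 : C1 ≤ 3000)
    (hTh : Th ≤ 60 * Cone.BB 31 (cκ 31) vM (cΘ 31 vA))
    (hρ : ρ = (C1 + 3 * 126) * (vM + (2 * (Th + 14 * Cone.BB 31 (cκ 31) vM (cΘ 31 vA)) +
      3 * Cone.BB 31 (cκ 31) vM (cΘ 31 vA)) + 2 * Cone.BB 31 (cκ 31) vM (cΘ 31 vA))) :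
    vA + cc0 31 * (ρ + 1) + 13 * Cone.BB 31 (cκ 31) vM (cΘ 31 vA) < vΛ := by
  have h1 := poor_ρ hC1 hTh hρ
  have e0 : cc0 31 = 153352 := cc0_eq
  have e1 : vΛ = 10000000000000000000000000000 := by norm_num
  have e2 : vA = 100000000000000 := by norm_num
  have e3 : vB = 5700000008232216 := rfl
  clear hρ hTh
  rw [B_eq, e0, e1, e2, e3]
  linarith

/-- many subsegments of length `10 ^ 13` in a segment of length `A` -/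
lemma roomA : 4 * 10 ^ 13 ≤ vA := by norm_num

end Const

end Pool.Agent.Burnside
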