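import Pool.Agent.Burnside.SysLem

/-!
An element of the quotient fixing two distinct apexes is trivial.
-/

set_option autoImplicit false

namespace Pool.Agent.Burnside

lemma mem_KK_of_mem {G ι : Type*} [Group G] {R : ι → Subgroup G} {i : ι} {s : G} (h : s ∈ R i) :
    s ∈ Rot.KK R := Subgroup.subset_closure ⟨i, h⟩

theorem fix2 (hclose : ClosingStmt) {G V ι G' V' ι' : Type} [Group G] [MulAction G V]
    [MulAction G ι] [Group G'] [MulAction G' V'] [MulAction G' ι'] {D : V → V → ℕ}
    {apex : ι → V} {ang : ι → V → V → ℕ} {R : ι → Subgroup G} {B Λ : ℕ} {D' : V' → V' → ℕ}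
    {apex' : ι' → V'} {ang' : ι' → V' → V' → ℕ} {π : G →* G'} {p : V → V'} {q : ι → ι'}
    (hR : Rot D apex ang R B Λ) (hQ : Quo D apex ang R B Λ D' apex' ang' π p q)
    (htwo : ∀ (g : G) (i j : ι), g • i = i → g • j = j → i ≠ j → g = 1) (hΛ : 52 * B < Λ)
    (g' : G') : ∀ (m : ℕ) (i' j' : ι'), D' (apex' i') (apex' j') = m → i' ≠ j' →
      g' • i' = i' → g' • j' = j' → g' = 1 := by
  have S := hQ.sys
  intro m
  induction m using Nat.strong_induction_on with
  | _ m ih =>
    intro i' j' hm hij hi' hj'
    have hij' := S.apex_ne hij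
    by_cases hbig : ∃ u', u' ≠ i' ∧ u' ≠ j' ∧ 6 * B < ang' u' (apex' i') (apex' j')
    · -- a closer pair
      obtain ⟨u', hui, huj, hu⟩ := hbig
      have nu1 : apex' i' ≠ apex' u' := Ne.symm (S.apex_ne hui)
      have nu2 : apex' j' ≠ apex' u' := Ne.symm (S.apex_ne huj)
      have hI : D' (apex' i') (apex' u') + D' (apex' u') (apex' j') = D' (apex' i') (apex' j') :=
        S.bgi _ _ _ nu1 nu2 (by omega)
      have hfixi : g' • apex' i' = apex' i' := by rw [← S.apex_smul, hi']
      have hfixj : g' • apex' j' = apex' j' := by rw [← S.apex_smul, hj']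
      have hgu : g' • u' = u' := by
        by_contra hne
        have h1 : ang' (g' • u') (apex' i') (apex' j') = ang' u' (apex' i') (apex' j') := by
          have := S.ang_inv g' u' (apex' i') (apex' j')
          rwa [hfixi, hfixj] at this
        have n1 : apex' i' ≠ apex' (g' • u') := by
          intro he
          apply hui
          have h2 := S.apex_inj he
          have h3 : g' • u' = g' • i' := by rw [hi', ← h2]
          exact smul_left_cancel g' h3
        have n2 : apex' j' ≠ apex' (g' • u') := by
          intro he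
          apply huj
          have h2 := S.apex_inj he
          have h3 : g' • u' = g' • j' := by rw [hj', ← h2]
          exact smul_left_cancel g' h3
        have h2 : apex' (g' • u') ∈ Intv D' (apex' i') (apex' j') :=
          S.bgi _ _ _ n1 n2 (by omega)
        have h3 := S.order (i := u') (j := g' • u') (Ne.symm hne) nu1 nu2 (by omega) h2
        have h4 : D' (apex' i') (apex' (g' • u')) = D' (apex' i') (apex' u') := by
          have := S.inv g' (apex' i') (apex' u')
          rwa [hfixi, ← S.apex_smul] at this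
        have h5 := S.pos (S.apex_ne (Ne.symm hne))
        omega
      have h6 := S.pos (Ne.symm nu2)
      exact ih _ (by omega) i' u' rfl (Ne.symm hui) hi' hgu
    · push Not at hbig
      obtain ⟨i0, rfl⟩ := hQ.q_surj i'
      obtain ⟨j0, rfl⟩ := hQ.q_surj j'
      -- lifts with small angles
      obtain ⟨k, hk, hkD, hkang⟩ := hQ.sal (apex i0) (apex j0) (6 * B) (by
        intro u' h1 h2
        rw [hQ.p_apex] at h1 h2 ⊢
        rw [hQ.p_apex]
        exact hbig u' (fun h => h1 (by rw [h])) (fun h => h2 (by rw [h])))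
      obtain ⟨g, rfl⟩ := hQ.pi_surj g'
      -- choose the lift of the element fixing `i0`
      obtain ⟨k1, hk1, hk1e⟩ := (hQ.q_eq i0 (g • i0)).1 (by rw [hQ.q_smul, hi'])
      set g1 : G := k1⁻¹ * g with hg1
      have hg1i : g1 • i0 = i0 := by
        rw [hg1, mul_smul, hk1e, inv_smul_smul]
      have hπ1 : π g1 = π g := by
        have h1 : π k1 = 1 := (hQ.pi_ker k1).2 hk1
        rw [hg1, map_mul, map_inv, h1, inv_one, one_mul]
      set a : V := apex i0 with ha
      set b : V := k • apex j0 with hb
      have hbapex : b = apex (k • j0) := by rw [hb, hR.apex_smul]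
      have hqj : q (k • j0) = q j0 := ((hQ.q_eq j0 (k • j0)).2 ⟨k, hk, rfl⟩).symm
      have hpb : p b = apex' (q j0) := by rw [hbapex, hQ.p_apex, hqj]
      have hpa : p a = apex' (q i0) := hQ.p_apex i0
      have hg1a : g1 • a = a := by rw [ha, ← hR.apex_smul, hg1i]
      have hpgb : p (g1 • b) = apex' (q j0) := by
        rw [hQ.p_smul, hπ1, hpb, ← S.apex_smul, hj']
      have hDab : D a b = D' (apex' (q i0)) (apex' (q j0)) := by
        rw [hkD, hQ.p_apex, hQ.p_apex]
      have hDagb : D a (g1 • b) = D a b := by
        have := hR.inv g1 a b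
        rwa [hg1a] at this
      have hba : b ≠ a := by
        intro he
        rw [he, hR.geod.self] at hDab
        exact hij' (S.geod.eq _ _ hDab.symm)
      have hgba : g1 • b ≠ a := by
        intro he
        rw [he, hR.geod.self] at hDagb
        rw [← hDagb] at hDab
        exact hij' (S.geod.eq _ _ hDab.symm)
      obtain ⟨s, hs, hsang⟩ := hQ.near_att i0 b (g1 • b) hba hgba (by rw [hpb, ← hDab])
        (by rw [hpgb, ← hDab, ← hDagb])
      have hself : ang' (q i0) (p b) (p (g1 • b)) ≤ B := by
        rw [hpb, hpgb]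
        exact S.self_le _ (Ne.symm hij')
      set g2 : G := s * g1 with hg2
      have hsK : s ∈ Rot.KK R := mem_KK_of_mem hs
      have hπ2 : π g2 = π g := by
        rw [hg2, map_mul, hπ1, (hQ.pi_ker s).2 hsK, one_mul]
      have hg2i : g2 • i0 = i0 := by rw [hg2, mul_smul, hg1i, hR.fix i0 s hs]
      have hg2a : g2 • a = a := by rw [ha, ← hR.apex_smul, hg2i]
      have hang2 : ang i0 b (g2 • b) ≤ 9 * B := by
        rw [hg2, mul_smul]
        omega
      have hpg2b : p b = p (g2 • b) := by
        have h1 : p (g2 • b) = π g2 • p b := hQ.p_smul g2 b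
        rw [h1, hπ2, hpb, ← S.apex_smul, hj']
      obtain ⟨k2, hk2, hk2e⟩ := (hQ.p_eq b (g2 • b)).1 hpg2b
      -- the closing lemma
      have hrig0 : ∀ i, b ≠ apex i → a ≠ apex i → ang i b a ≤ 20 * B := by
        intro i h1 h2
        rw [hR.ang_symm]
        have := hkang i h2 h1
        omega
      have hrig1 : ∀ i, a ≠ apex i → g2 • b ≠ apex i → ang i a (g2 • b) ≤ 20 * B := by
        intro i h1 h2
        have e : i = g2 • (g2⁻¹ • i) := by rw [smul_inv_smul]
        have h3 : ang i a (g2 • b) = ang (g2⁻¹ • i) a b := by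
          have := hR.ang_inv g2 (g2⁻¹ • i) a b
          rwa [hg2a, smul_inv_smul] at this
        rw [h3]
        have h4 := hkang (g2⁻¹ • i) (by
          intro he
          apply h1
          rw [e, hR.apex_smul, ← he, hg2a]) (by
          intro he
          apply h2
          conv_rhs => rw [e, hR.apex_smul]
          rw [← he])
        omega
      let x : ℕ → V := fun n => if n = 0 then b else if n = 1 then a else g2 • b
      have hx0 : x 0 = b := rfl
      have hx1 : x 1 = a := rfl
      have hx2 : x 2 = g2 • b := rfl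
      obtain ⟨y, hy0, hy2, -, hside⟩ := hclose D apex ang R B Λ hR 2 (20 * B) x k2 hk2
        (by rw [hx2, hx0]; exact hk2e) (by omega) (by omega) (by
          intro j hj
          right
          have : j = 0 ∨ j = 1 := by omega
          rcases this with rfl | rfl
          · exact hrig0
          · exact hrig1)
      obtain ⟨c0, hc0, hc0y, hc0y'⟩ := (hside 0 (by omega)).2 hrig0
      obtain ⟨c1, hc1, hc1y, hc1y'⟩ := (hside 1 (by omega)).2 hrig1
      rw [hx0] at hc0y hy0 hy2
      have hc0y1 : y 1 = c0 • a := hc0y'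
      have hc1y1 : y 1 = c1 • a := hc1y
      have hc1y2 : y 2 = c1 • (g2 • b) := hc1y'
      have hstab : (c1⁻¹ * c0) • a = a := by
        rw [mul_smul, ← hc0y1, hc1y1, inv_smul_smul]
      have hmemK : c1⁻¹ * c0 ∈ Rot.KK R := mul_mem (inv_mem hc1) hc0
      have hmem : c1⁻¹ * c0 ∈ R i0 := hQ.stab _ i0 hmemK hstab
      have hb2 : g2 • b = (c1⁻¹ * c0) • b := by
        have h1 : c0 • b = b := by rw [← hc0y, hy0]
        have h2 : c1 • (g2 • b) = b := by rw [← hc1y2, hy2]
        have h3 : (c1⁻¹ * c0) • b = c1⁻¹ • b := by rw [mul_smul, h1]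
        have h4 : c1⁻¹ • (c1 • (g2 • b)) = g2 • b := inv_smul_smul _ _
        rw [h3, ← h4, h2]
      have hone : c1⁻¹ * c0 = 1 := by
        by_contra hne
        have h1 := hR.rot i0 _ hmem hne b hba
        rw [← hb2] at h1
        omega
      rw [hone, one_smul] at hb2
      have hg2j : g2 • (k • j0) = k • j0 := by
        apply hR.apex_inj
        rw [hR.apex_smul, ← hbapex, hb2]
      have hne : i0 ≠ k • j0 := by
        intro he
        apply hij
        rw [he, hqj]
      have := htwo g2 i0 (k • j0) hg2i hg2j hne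
      rw [← hπ2, this, map_one]

end Pool.Agent.Burnside
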