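import Pool.Agent.Burnside.Stage

/-!
General lemmas on isometries of slim integer geodesic spaces: four point inequality, growth
criterion, elements whose displacement is at least `4H+2` everywhere, displacement of the middle
points of a geodesic.
-/

set_option autoImplicit false

namespace Pool.Agent.Burnside

/-- the four point inequality -/
def FPt {X : Type*} (d : X → X → ℕ) (H : ℕ) : Prop :=
  ∀ x y z w, d x z + d y w ≤ d x y + d z w + H ∨ d x z + d y w ≤ d y z + d x w + H

section Basic

variable {X : Type*} {d : X → X → ℕ} {δ : ℕ}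

/-- a point of a side close to the third vertex -/
lemma near_pt (hd : IsGeod d) (hs : Slim d δ) (x z w : X) : ∃ p ∈ Intv d x z,
    d x p + d p w ≤ d x w + 2 * δ + 2 ∧ d z p + d p w ≤ d z w + 2 * δ + 2 := by
  classical
  obtain ⟨P, hP0, hPn, hP⟩ := exists_path hd _ x z rfl
  set L := d x z with hL
  have hmem : ∀ i ≤ L, P i ∈ Intv d x z := by
    intro i hi
    have := hP.mem_Intv hi
    rwa [hP0, hPn] at this
  -- the last index whose point is close to `[x, w]`
  let Q : ℕ → Prop := fun i => ∃ q ∈ Intv d x w, d (P i) q ≤ δ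
  have hQ0 : Q 0 := by
    refine ⟨x, ?_, ?_⟩
    · show d x x + d x w = d x w
      rw [hd.self, zero_add]
    · rw [hP0, hd.self]
      omega
  let i := Nat.findGreatest Q L
  have hi : Q i := Nat.findGreatest_spec (P := Q) (Nat.zero_le _) hQ0
  have hiL : i ≤ L := Nat.findGreatest_le L
  obtain ⟨q, hq, hqd⟩ := hi
  have hq' : d x q + d q w = d x w := hq
  have hpm : d x (P i) + d (P i) z = d x z := hmem i hiL
  have t1 := hd.tri x q (P i)
  have t2 := hd.tri (P i) q w
  have s1 := hd.symm q (P i)
  refine ⟨P i, hmem i hiL, by omega, ?_⟩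
  by_cases hiL' : i = L
  · have : P i = z := by rw [hiL', hPn]
    rw [this, hd.self]
    omega
  · -- the next point is close to `[w, z]`
    have hnext : ¬ Q (i + 1) := Nat.findGreatest_is_greatest (P := Q) (Nat.lt_succ_self i)
      (by omega)
    obtain ⟨v, hv, hvd⟩ := hs x z w (P (i + 1)) (hmem (i + 1) (by omega))
    rcases hv with hv | hv
    · exact absurd ⟨v, hv, hvd⟩ hnext
    · have hv' : d w v + d v z = d w z := hv
      have h1 := hP i (i + 1) (by omega) (by omega)
      have t3 := hd.tri z v (P (i + 1))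
      have t4 := hd.tri z (P (i + 1)) (P i)
      have t5 := hd.tri (P i) (P (i + 1)) w
      have t6 := hd.tri (P (i + 1)) v w
      have s2 := hd.symm v (P (i + 1))
      have s3 := hd.symm v w
      have s4 := hd.symm v z
      have s5 := hd.symm (P (i + 1)) (P i)
      have s6 := hd.symm w z
      omega

/-- slim triangles imply the four point inequality -/
lemma fp_of_slim (hd : IsGeod d) (hs : Slim d δ) : FPt d (4 * δ + 2) := by
  intro x y z w
  obtain ⟨p, hp, hp1, hp2⟩ := near_pt hd hs x z w
  have hp' : d x p + d p z = d x z := hp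
  obtain ⟨q, hq, hqd⟩ := hs x z y p hp
  have s1 := hd.symm q p
  have s2 := hd.symm z w
  have s3 := hd.symm p z
  rcases hq with hq | hq
  · left
    have hq' : d x q + d q y = d x y := hq
    have t1 := hd.tri y q w
    have t2 := hd.tri q p w
    have t3 := hd.tri x q p
    have s4 := hd.symm y q
    omega
  · right
    have hq' : d y q + d q z = d y z := hq
    have t1 := hd.tri y q w
    have t2 := hd.tri q p w
    have t3 := hd.tri p q z
    omega

end Basic

section Isometry

variable {G X : Type*} [Group G] [MulAction G X] {d : X → X → ℕ} {H : ℕ}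

/-- growth criterion -/
lemma lox_e2 (hd : IsGeod d) (hinv : ∀ (g : G) (x y : X), d (g • x) (g • y) = d x y) (hF : FPt d H)
    (g : G) (x : X) (h : d x (g ^ 1 • x) + 2 * H + 1 ≤ d x (g ^ 2 • x)) (k : ℕ) :
    d x (g ^ k • x) + d x (g ^ 2 • x) ≤ d x (g ^ (k + 1) • x) + d x (g ^ 1 • x) + H := by
  have shift : ∀ (a b : ℕ), d (g ^ a • x) (g ^ (a + b) • x) = d x (g ^ b • x) := by
    intro a b
    rw [pow_add, mul_smul, hinv]
  induction k with
  | zero =>
    have h1 := shift 1 1
    have h2 := hd.tri x (g ^ 1 • x) (g ^ 2 • x)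
    simp only [pow_zero, one_smul, hd.self, zero_add]
    have h3 : d (g ^ 1 • x) (g ^ 2 • x) = d x (g ^ 1 • x) := h1
    omega
  | succ k ih =>
    -- four points x, g x, g^2 x, g^(k+2) x
    have h1 : d (g ^ 1 • x) (g ^ 2 • x) = d x (g ^ 1 • x) := shift 1 1
    have h2 : d (g ^ 1 • x) (g ^ (k + 2) • x) = d x (g ^ (k + 1) • x) := by
      have := shift 1 (k + 1)
      have e : 1 + (k + 1) = k + 2 := by omega
      rwa [e] at this
    have h3 : d (g ^ 2 • x) (g ^ (k + 2) • x) = d x (g ^ k • x) := by
      have := shift 2 k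
      have e : 2 + k = k + 2 := by omega
      rwa [e] at this
    have e : k + 1 + 1 = k + 2 := by omega
    rw [e]
    rcases hF x (g ^ 1 • x) (g ^ 2 • x) (g ^ (k + 2) • x) with h4 | h4
    · omega
    · omega

/-- arithmetic criterion for loxodromic elements -/
lemma lox_arc (hd : IsGeod d) (hinv : ∀ (g : G) (x y : X), d (g • x) (g • y) = d x y)
    {T N c : ℕ} (hN : 1 ≤ N) (g : G) (x : X)
    (h : ∀ j, N * j ≤ T * d x (g ^ (N * j) • x) + c) : Lox d T g := by
  intro y k
  -- displacement of powers
  have hpow : ∀ j, d y ((g ^ k) ^ j • y) ≤ j * d y (g ^ k • y) := by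
    intro j
    induction j with
    | zero => simp [hd.self]
    | succ j ih =>
      have h1 := hd.tri y ((g ^ k) ^ j • y) ((g ^ k) ^ (j + 1) • y)
      have h2 : d ((g ^ k) ^ j • y) ((g ^ k) ^ (j + 1) • y) = d y (g ^ k • y) := by
        rw [pow_succ, mul_smul, hinv]
      have h3 : (j + 1) * d y (g ^ k • y) = j * d y (g ^ k • y) + d y (g ^ k • y) := by ring
      omega
  have hxy : ∀ j, d x (g ^ j • x) ≤ d y (g ^ j • y) + 2 * d x y := by
    intro j
    have h1 := hd.tri x y (g ^ j • x)
    have h2 := hd.tri y (g ^ j • y) (g ^ j • x)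
    have h3 : d (g ^ j • y) (g ^ j • x) = d y x := hinv _ _ _
    have h4 := hd.symm y x
    omega
  by_contra hc
  push Not at hc
  -- take a large multiple
  set D := d y (g ^ k • y) with hD
  have h1 := h (k * (T * (2 * d x y) + c + 1))
  set J := T * (2 * d x y) + c + 1 with hJ
  have e : g ^ (N * (k * J)) = (g ^ k) ^ (N * J) := by
    rw [← pow_mul]
    congr 1
    ring
  have h2 := hxy (N * (k * J))
  rw [e] at h1 h2
  have h3 := hpow (N * J)
  have h4 : T * d x ((g ^ k) ^ (N * J) • x) ≤ T * (N * J * D + 2 * d x y) :=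
    Nat.mul_le_mul_left _ (by omega)
  have h5 : N * (k * J) ≤ T * (N * J * D + 2 * d x y) + c := by omega
  have h6 : (N * J) * (T * D + 1) ≤ (N * J) * k := Nat.mul_le_mul_left _ hc
  have h7 : (N * J) * (T * D + 1) = T * (N * J * D) + N * J := by ring
  have h8 : N * (k * J) = (N * J) * k := by ring
  have h9 : T * (N * J * D + 2 * d x y) = T * (N * J * D) + T * (2 * d x y) := by ring
  have h10 : 1 * J ≤ N * J := Nat.mul_le_mul_right _ hN
  omega

/-- an element which displaces every point by at least `4H+2` is loxodromic -/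
lemma lox_e3 (hd : IsGeod d) (hinv : ∀ (g : G) (x y : X), d (g • x) (g • y) = d x y) (hF : FPt d H)
    (g : G) (x0 : X) (h : ∀ y : X, 4 * H + 2 ≤ d y (g • y)) : Lox d 1 g := by
  classical
  -- a point with minimal displacement
  have hex : ∃ l, ∃ y : X, d y (g • y) = l := ⟨_, x0, rfl⟩
  obtain ⟨y, hy⟩ := Nat.find_spec hex
  set l := Nat.find hex with hl
  have hmin : ∀ z : X, l ≤ d z (g • z) := fun z => Nat.find_min' hex ⟨z, rfl⟩
  have hl4 : 4 * H + 2 ≤ l := by
    rw [← hy]
    exact h y
  have hshift : d (g • y) (g ^ 2 • y) = l := by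
    have e : g ^ 2 • y = g • (g • y) := by rw [pow_two, mul_smul]
    rw [e, hinv, hy]
  by_cases hgrow : d y (g ^ 1 • y) + 2 * H + 1 ≤ d y (g ^ 2 • y)
  · -- growth
    have h1 : ∀ k, k ≤ d y (g ^ k • y) := by
      intro k
      induction k with
      | zero => omega
      | succ k ih =>
        have   := lox_e2 hd hinv hF g y hgrow k
        omega
    refine lox_arc hd hinv (T := 1) (N := 1) (c := 0) le_rfl g y ?_
    intro j
    have := h1 (1 * j)
    omega
  · exfalso
    rw [pow_one, hy] at hgrow
    obtain ⟨m, hm1, hm2⟩ := hd.geod y (g • y) (H + 1) (by omega)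
    rw [hy] at hm2
    have hgm1 : d (g • y) (g • m) = H + 1 := by rw [hinv, hm1]
    have hgm2 : d (g • m) (g ^ 2 • y) = l - (H + 1) := by
      have e : g ^ 2 • y = g • (g • y) := by rw [pow_two, mul_smul]
      rw [e, hinv, hm2]
    -- first application
    have a1 : d y (g • m) ≤ l - (H + 1) + H := by
      rcases hF y (g • y) (g • m) (g ^ 2 • y) with h1 | h1
      · omega
      · omega
    have a2 := hmin m
    have s1 := hd.symm m y
    have s2 := hd.symm (g • y) (g • m)
    have s3 := hd.symm m (g • y)
    rcases hF m y (g • m) (g • y) with h1 | h1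
    · omega
    · omega

/-- points in the middle of a geodesic are displaced at most a little more than its end points -/
lemma mid_mv (hd : IsGeod d) (hinv : ∀ (g : G) (x y : X), d (g • x) (g • y) = d x y)
    (hF : FPt d H) (g : G) {x y z : X} {r : ℕ} (hz : z ∈ Intv d x y) (hx : d x (g • x) ≤ r)
    (hy : d y (g • y) ≤ r) (h1 : r + H < d x z) (h2 : r + H < d z y) :
    d z (g • z) ≤ r + 3 * H := by
  have hz' : d x z + d z y = d x y := hz
  have i1 : d (g • x) (g • z) = d x z := hinv _ _ _
  have i2 : d (g • z) (g • y) = d z y := hinv _ _ _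
  have i3 : d (g • x) (g • y) = d x y := hinv _ _ _
  have t1 := hd.tri x (g • x) (g • z)
  have t2 := hd.tri (g • z) (g • y) y
  have t3 := hd.tri (g • x) x (g • z)
  have t4 := hd.tri (g • z) y (g • y)
  have s1 := hd.symm (g • x) x
  have s2 := hd.symm (g • y) y
  -- `g z` is almost between `g x` and `y`, then between `x` and `y`
  have a1 : d (g • x) (g • z) + d (g • z) y ≤ d (g • x) y + H := by
    rcases hF (g • x) (g • z) (g • y) y with h | h
    · omega
    · omega
  have a2 : d x (g • z) + d (g • z) y ≤ d x y + 2 * H := by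
    rcases hF (g • x) (g • z) y x with h | h
    · have s3 := hd.symm y x
      have s4 := hd.symm (g • z) x
      omega
    · have s3 := hd.symm y x
      have s4 := hd.symm (g • z) x
      omega
  -- compare positions
  have s5 := hd.symm x (g • z)
  have s6 := hd.symm z x
  have s7 := hd.symm x y
  rcases hF z x (g • z) y with h | h
  · omega
  · omega

end Isometry

end Pool.Agent.Burnside
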