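import Mathlib

/-!
Guessing geodesics in graphs (Bowditch, Masur-Schleimer, Hamenstaedt), for integer valued
geodesic metrics, with explicit constants.
-/

namespace Pool.Agent.Burnside

/-- integer valued geodesic metric: the path metric of a connected graph -/
structure IsGeod {V : Type*} (d : V → V → ℕ) : Prop where
  self : ∀ a, d a a = 0
  eq : ∀ a b, d a b = 0 → a = b
  symm : ∀ a b, d a b = d b a
  tri : ∀ a b c, d a c ≤ d a b + d b c
  geod : ∀ a b k, k ≤ d a b → ∃ z, d a z = k ∧ d z b = d a b - k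

/-- the interval between two points -/
def Intv {V : Type*} (d : V → V → ℕ) (a b : V) : Set V := {z | d a z + d z b = d a b}

/-- every point of an interval is `δ`-close to the other two sides of a triangle -/
def Slim {V : Type*} (d : V → V → ℕ) (δ : ℕ) : Prop :=
  ∀ a b c, ∀ z ∈ Intv d a b, ∃ w, (w ∈ Intv d a c ∨ w ∈ Intv d c b) ∧ d z w ≤ δ

/-- a geodesic path of length `n`, parametrised by `0, ..., n` -/
def IsPath {V : Type*} (d : V → V → ℕ) (n : ℕ) (p : ℕ → V) : Prop :=
  ∀ i j, i ≤ j → j ≤ n → d (p i) (p j) = j - i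

variable {V : Type*} {d : V → V → ℕ}

/-- there is a geodesic path between two points -/
lemma exists_path (hd : IsGeod d) : ∀ (n : ℕ) (a b : V), d a b = n →
    ∃ p : ℕ → V, p 0 = a ∧ p n = b ∧ IsPath d n p := by
  intro n
  induction n with
  | zero =>
    intro a b hab
    refine ⟨fun _ => a, rfl, hd.eq a b hab, ?_⟩
    intro i j hij hj
    have : j = 0 := by omega
    subst this
    simp [hd.self]
  | succ n ih =>
    intro a b hab
    obtain ⟨z, hz1, hz2⟩ := hd.geod a b n (by omega)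
    obtain ⟨p, hp0, hpn, hp⟩ := ih a z hz1
    refine ⟨fun i => if i ≤ n then p i else b, by simp [hp0], by simp, ?_⟩
    intro i j hij hj
    by_cases hjn : j ≤ n
    · have hin : i ≤ n := le_trans hij hjn
      simp only [hjn, hin, if_true]
      exact hp i j hij hjn
    · have hj' : j = n + 1 := by omega
      subst hj'
      simp only [hjn, if_false]
      by_cases hin : i ≤ n
      · simp only [hin, if_true]
        have h1 := hp i n hin le_rfl
        have h2 := hp 0 i (Nat.zero_le _) hin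
        have h3 := hd.tri (p i) z b
        have h4 := hd.tri a (p i) b
        rw [hpn] at h1
        rw [hp0] at h2
        omega
      · simp only [hin, if_false]
        rw [hd.self]
        omega

/-- concatenation of two geodesic paths meeting in a point of the interval -/
lemma exists_path_through (hd : IsGeod d) (a b z : V) (hz : z ∈ Intv d a b) :
    ∃ p : ℕ → V, p 0 = a ∧ p (d a z) = z ∧ p (d a b) = b ∧ IsPath d (d a b) p := by
  have hz' : d a z + d z b = d a b := hz
  obtain ⟨p, hp0, hpn, hp⟩ := exists_path hd _ a z rfl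
  obtain ⟨q, hq0, hqn, hq⟩ := exists_path hd _ z b rfl
  refine ⟨fun i => if i ≤ d a z then p i else q (i - d a z), by simp [hp0], by simp [hpn], ?_, ?_⟩
  · by_cases h : d a b ≤ d a z
    · have h0 : d z b = 0 := by omega
      have : d a b = d a z := by omega
      have hzb := hd.eq z b h0
      rw [this]
      simp only [le_refl, if_true]
      rw [hpn, hzb]
    · simp only [h, if_false]
      have : d a b - d a z = d z b := by omega
      rw [this, hqn]
  · intro i j hij hj
    by_cases hj1 : j ≤ d a z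
    · have hi1 : i ≤ d a z := le_trans hij hj1
      simp only [hj1, hi1, if_true]
      exact hp i j hij hj1
    · simp only [hj1, if_false]
      have hq1 := hq (j - d a z) (d z b) (by omega) le_rfl
      have hq2 := hq 0 (j - d a z) (Nat.zero_le _) (by omega)
      rw [hqn] at hq1
      rw [hq0] at hq2
      by_cases hi1 : i ≤ d a z
      · simp only [hi1, if_true]
        have hp1 := hp 0 i (Nat.zero_le _) hi1
        have hp2 := hp i (d a z) hi1 le_rfl
        rw [hp0] at hp1
        rw [hpn] at hp2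
        have t1 := hd.tri a (p i) b
        have t2 := hd.tri (p i) (q (j - d a z)) b
        have t3 := hd.tri (p i) z (q (j - d a z))
        omega
      · simp only [hi1, if_false]
        have := hq (i - d a z) (j - d a z) (by omega) (by omega)
        rw [this]
        omega

lemma IsPath.mem_Intv {n : ℕ} {p : ℕ → V} (hp : IsPath d n p) {i : ℕ} (hi : i ≤ n) :
    p i ∈ Intv d (p 0) (p n) := by
  have h1 := hp 0 i (Nat.zero_le _) hi
  have h2 := hp i n hi le_rfl
  have h3 := hp 0 n (Nat.zero_le _) le_rfl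
  show _ + _ = _
  omega

namespace Guess

/-- hypotheses of the guessing geodesics lemma -/
structure Data (d : V → V → ℕ) (L : V → V → Set V) (h1 h2 : ℕ) : Prop where
  left : ∀ a b, a ∈ L a b
  short : ∀ a b, d a b ≤ 1 → ∀ w ∈ L a b, d a w ≤ h1 ∨ d b w ≤ h1
  thin : ∀ a b c, ∀ w ∈ L a b, ∃ w', (w' ∈ L a c ∨ w' ∈ L c b) ∧ d w w' ≤ h2

variable {L : V → V → Set V} {h1 h2 : ℕ}

/-- exponential divergence -/
lemma log_bound (hd : IsGeod d) (D : Data d L h1 h2) : ∀ (n N : ℕ) (p : ℕ → V), N ≤ 2 ^ n →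
    (∀ i < N, d (p i) (p (i + 1)) ≤ 1) → ∀ w ∈ L (p 0) (p N),
    ∃ i ≤ N, d w (p i) ≤ h1 + n * h2 := by
  intro n
  induction n with
  | zero =>
    intro N p hN hp w hw
    have hN' : N = 0 ∨ N = 1 := by
      have : N ≤ 1 := by simpa using hN
      omega
    have hle : d (p 0) (p N) ≤ 1 := by
      rcases hN' with h | h
      · subst h; rw [hd.self]; omega
      · subst h; exact hp 0 (by omega)
    rcases D.short _ _ hle w hw with this | this
    · refine ⟨0, Nat.zero_le _, ?_⟩
      rw [hd.symm]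
      omega
    · refine ⟨N, le_rfl, ?_⟩
      rw [hd.symm]
      omega
  | succ n ih =>
    intro N p hN hp w hw
    have hpow : 2 ^ (n + 1) = 2 ^ n + 2 ^ n := by ring
    by_cases hN1 : N ≤ 2 ^ n
    · obtain ⟨i, hi, h⟩ := ih N p hN1 hp w hw
      exact ⟨i, hi, by nlinarith⟩
    · have hN2 : 2 ^ n ≤ N := by omega
      obtain ⟨w', hw', hww'⟩ := D.thin _ _ (p (2 ^ n)) w hw
      rcases hw' with hw' | hw'
      · obtain ⟨i, hi, h⟩ := ih (2 ^ n) p le_rfl (fun i hi => hp i (by omega)) w' hw'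
        refine ⟨i, by omega, ?_⟩
        have := hd.tri w w' (p i)
        have e : (n + 1) * h2 = n * h2 + h2 := by ring
        omega
      · obtain ⟨i, hi, h⟩ := ih (N - 2 ^ n) (fun i => p (2 ^ n + i)) (by omega)
          (fun i hi => by
            have := hp (2 ^ n + i) (by omega)
            simpa [add_assoc] using this) w' (by
              have e : 2 ^ n + (N - 2 ^ n) = N := by omega
              simpa [e] using hw')
        refine ⟨2 ^ n + i, by omega, ?_⟩
        have := hd.tri w w' (p (2 ^ n + i))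
        have e : (n + 1) * h2 = n * h2 + h2 := by ring

        omega

/-- the sets `L` are close to geodesics -/
theorem close (hd : IsGeod d) (D : Data d L h1 h2) (t : ℕ)
    (ht : ∀ T, t < T → ∃ n, 4 * T + 4 * h2 + 2 ≤ 2 ^ n ∧ h1 + n * h2 + 2 * h2 < T)
    {N : ℕ} {p : ℕ → V} (hp : IsPath d N p) :
    ∀ i j, i ≤ j → j ≤ N → ∀ w ∈ L (p i) (p j), ∃ r, i ≤ r ∧ r ≤ j ∧ d w (p r) ≤ t := by
  classical
  -- the possible distances
  let Q : ℕ → Prop := fun T => ∃ i j w, i ≤ j ∧ j ≤ N ∧ w ∈ L (p i) (p j) ∧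
    ∀ r, i ≤ r → r ≤ j → T ≤ d w (p r)
  have hstep : ∀ i, i < N → d (p i) (p (i + 1)) ≤ 1 := by
    intro i hi
    rw [hp i (i + 1) (by omega) (by omega)]
    omega
  have hlog : ∀ n i j w, i ≤ j → j ≤ N → j - i ≤ 2 ^ n → w ∈ L (p i) (p j) →
      ∃ r, i ≤ r ∧ r ≤ j ∧ d w (p r) ≤ h1 + n * h2 := by
    intro n i j w hij hj hn hw
    obtain ⟨r, hr, h⟩ := log_bound hd D n (j - i) (fun k => p (i + k)) hn
      (fun k hk => by
        have := hstep (i + k) (by omega)
        simpa [add_assoc] using this) w (by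
          have e : i + (j - i) = j := by omega
          simpa [e] using hw)
    exact ⟨i + r, by omega, by omega, h⟩
  have hbound : ∀ T, Q T → T ≤ h1 + N * h2 := by
    rintro T ⟨i, j, w, hij, hj, hw, hT⟩
    have hlt : N < 2 ^ N := Nat.lt_two_pow_self
    obtain ⟨r, h1', h2', h3⟩ := hlog N i j w hij hj (by omega) hw
    exact le_trans (hT r h1' h2') h3
  by_contra hcon
  push Not at hcon
  obtain ⟨i0, j0, hij0, hj0, w0, hw0, hfar⟩ := hcon
  have hQ0 : Q (t + 1) := ⟨i0, j0, w0, hij0, hj0, hw0, fun r hr1 hr2 => hfar r hr1 hr2⟩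
  -- the largest one
  let T := Nat.findGreatest Q (h1 + N * h2)
  have hQT : Q T := Nat.findGreatest_spec (hbound _ hQ0) hQ0
  have hmax : ∀ T', Q T' → T' ≤ T := fun T' h => Nat.le_findGreatest (hbound _ h) h
  have htT : t < T := lt_of_lt_of_le (Nat.lt_succ_self t) (hmax _ hQ0)
  obtain ⟨n, hn1, hn2⟩ := ht T htT
  have hnear : ∀ i j w, i ≤ j → j ≤ N → w ∈ L (p i) (p j) → ∃ r, i ≤ r ∧ r ≤ j ∧ d w (p r) ≤ T := by
    intro i j w hij hj hw
    by_contra hc
    push Not at hc
    have : Q (T + 1) := ⟨i, j, w, hij, hj, hw, fun r h1 h2 => hc r h1 h2⟩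
    have := hmax _ this
    omega
  obtain ⟨i, j, w, hij, hj, hw, hT⟩ := hQT
  obtain ⟨r0, hr1, hr2, hr0⟩ := hnear i j w hij hj hw
  have hpd : ∀ k l, k ≤ l → l ≤ N → d (p k) (p l) = l - k := hp
  -- first cut
  obtain ⟨w1, hw1, hww1⟩ := D.thin _ _ (p (max i (r0 - (2 * T + 2 * h2 + 1)))) w hw
  rcases hw1 with hw1 | hw1
  · by_cases hc : r0 - (2 * T + 2 * h2 + 1) ≤ i
    · rw [max_eq_left hc] at hw1
      have h3 : d (p i) w1 ≤ h1 := by
        rcases D.short _ _ (by rw [hd.self]; omega) w1 hw1 with h | h <;> exact h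
      have h4 := hd.tri w w1 (p i)
      have h5 := hT i le_rfl hij
      have h6 := hd.symm w1 (p i)
      omega
    · rw [max_eq_right (by omega)] at hw1
      obtain ⟨r, hra, hrb, hr⟩ := hnear _ _ w1 (by omega) (by omega) hw1
      have h4 := hd.tri (p r) w1 (p r0)
      have h5 := hd.tri w1 w (p r0)
      have h6 := hd.symm w1 (p r)
      have h7 := hd.symm w w1
      have h8 := hpd r r0 (by omega) (by omega)
      omega
  · obtain ⟨w2, hw2, hww2⟩ := D.thin _ _ (p (min j (r0 + (2 * T + 2 * h2 + 1)))) w1 hw1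
    rcases hw2 with hw2 | hw2
    · obtain ⟨r, hra, hrb, hr⟩ := hlog n _ _ w2 (by omega) (by omega) (by omega) hw2
      have h4 := hd.tri w w1 (p r)
      have h5 := hd.tri w1 w2 (p r)
      have h6 := hT r (by omega) (by omega)
      omega
    · by_cases hc : j ≤ r0 + (2 * T + 2 * h2 + 1)
      · rw [min_eq_left hc] at hw2
        have h3 : d (p j) w2 ≤ h1 := by
          rcases D.short _ _ (by rw [hd.self]; omega) w2 hw2 with h | h <;> exact h
        have h4 := hd.tri w w1 (p j)
        have h4' := hd.tri w1 w2 (p j)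
        have h5 := hT j hij le_rfl
        have h6 := hd.symm w2 (p j)
        have : h1 + 2 * h2 < T := by nlinarith
        omega
      · rw [min_eq_right (by omega)] at hw2
        obtain ⟨r, hra, hrb, hr⟩ := hnear _ _ w2 (by omega) hj hw2
        have h4 := hd.tri (p r) w2 (p r0)
        have h5 := hd.tri w2 w1 (p r0)
        have h5' := hd.tri w1 w (p r0)
        have h6 := hd.symm w2 (p r)
        have h7 := hd.symm w w1
        have h7' := hd.symm w1 w2
        have h8 := hpd r0 r (by omega) (by omega)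
        have h9 := hd.symm (p r) (p r0)
        omega

/-- geodesics are close to the sets `L` -/
theorem close' (hd : IsGeod d) (D : Data d L h1 h2) (t : ℕ)
    (ht : ∀ T, t < T → ∃ n, 4 * T + 4 * h2 + 2 ≤ 2 ^ n ∧ h1 + n * h2 + 2 * h2 < T)
    {N : ℕ} {p : ℕ → V} (hp : IsPath d N p)
    (hconn : ∃ (K : ℕ) (q : ℕ → V), q 0 = p 0 ∧ q K = p N ∧ (∀ i < K, d (q i) (q (i + 1)) ≤ 1) ∧
      ∀ i ≤ K, q i ∈ L (p 0) (p N)) :
    ∀ m ≤ N, ∃ w ∈ L (p 0) (p N), d (p m) w ≤ 2 * t := by
  classical
  obtain ⟨K, q, hq0, hqK, hq, hqL⟩ := hconn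
  intro m hm
  have hf : ∀ k, ∃ r, r ≤ N ∧ (k ≤ K → d (q k) (p r) ≤ t) := by
    intro k
    by_cases hk : k ≤ K
    · obtain ⟨r, -, hr, h⟩ := close hd D t ht hp 0 N (Nat.zero_le _) le_rfl _ (hqL k hk)
      exact ⟨r, hr, fun _ => h⟩
    · exact ⟨0, Nat.zero_le _, fun h => absurd h hk⟩
  choose f0 hf1 hf2 using hf
  -- adjust the end points
  let f : ℕ → ℕ := fun k => if k = K then N else f0 k
  have hfN : ∀ k, f k ≤ N := by
    intro k
    simp only [f]
    split_ifs
    · exact le_rfl
    · exact hf1 k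
  have hft : ∀ k, k ≤ K → d (q k) (p (f k)) ≤ t := by
    intro k hk
    simp only [f]
    split_ifs with h
    · subst h
      rw [hqK, hd.self]
      exact Nat.zero_le _
    · exact hf2 k hk
  have hex : ∃ k, m ≤ f k := ⟨K, by simp [f, hm]⟩
  have hspec := Nat.find_spec hex
  have hleK : Nat.find hex ≤ K := Nat.find_min' hex (by simp [f, hm])
  rcases Nat.eq_zero_or_pos (Nat.find hex) with h0 | hpos
  · -- the first index
    rw [h0] at hspec
    by_cases hm0 : m ≤ t
    · refine ⟨q 0, hqL 0 (Nat.zero_le _), ?_⟩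
      rw [hq0, hd.symm, hp 0 m (Nat.zero_le _) hm]
      omega
    · have h3 := hft 0 (Nat.zero_le _)
      rw [hq0, hp 0 (f 0) (Nat.zero_le _) (hfN 0)] at h3
      omega
  · obtain ⟨k, hk⟩ : ∃ k, Nat.find hex = k + 1 := ⟨Nat.find hex - 1, by omega⟩
    have hlt : f k < m := by
      have := Nat.find_min hex (m := k) (by omega)
      omega
    rw [hk] at hspec hleK
    have h1' := hft k (by omega)
    have h2' := hft (k + 1) hleK
    have h3 := hq k (by omega)
    have h4 := hp (f k) (f (k + 1)) (by omega) (hfN _)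
    have h5 := hd.tri (p (f k)) (q k) (p (f (k + 1)))
    have h6 := hd.tri (q k) (q (k + 1)) (p (f (k + 1)))
    have h7 := hd.symm (q k) (p (f k))
    by_cases hc : m - f k ≤ t
    · refine ⟨q k, hqL k (by omega), ?_⟩
      have h8 := hp (f k) m (by omega) hm
      have h9 := hd.tri (p m) (p (f k)) (q k)
      have h10 := hd.symm (p m) (p (f k))
      omega
    · refine ⟨q (k + 1), hqL (k + 1) hleK, ?_⟩
      have h8 := hp m (f (k + 1)) (by omega) (hfN _)
      have h9 := hd.tri (p m) (p (f (k + 1))) (q (k + 1))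
      have h10 := hd.symm (q (k + 1)) (p (f (k + 1)))
      omega

/-- triangles are slim -/
theorem slim (hd : IsGeod d) (D : Data d L h1 h2) (t : ℕ)
    (ht : ∀ T, t < T → ∃ n, 4 * T + 4 * h2 + 2 ≤ 2 ^ n ∧ h1 + n * h2 + 2 * h2 < T)
    (hconn : ∀ a b, ∃ (K : ℕ) (q : ℕ → V), q 0 = a ∧ q K = b ∧
      (∀ i < K, d (q i) (q (i + 1)) ≤ 1) ∧ ∀ i ≤ K, q i ∈ L a b) :
    Slim d (3 * t + h2) := by
  have key : ∀ a b w, w ∈ L a b → ∃ z ∈ Intv d a b, d w z ≤ t := by
    intro a b w hw
    obtain ⟨p, hp0, hpn, hp⟩ := exists_path hd _ a b rfl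
    obtain ⟨r, -, hr, h⟩ := close hd D t ht hp 0 _ (Nat.zero_le _) le_rfl w (by
      rw [hp0, hpn]; exact hw)
    have := hp.mem_Intv hr
    rw [hp0, hpn] at this
    exact ⟨p r, this, h⟩
  intro a b c z hz
  obtain ⟨p, hp0, hpz, hpn, hp⟩ := exists_path_through hd a b z hz
  have hz' : d a z + d z b = d a b := hz
  obtain ⟨w, hw, hzw⟩ := close' hd D t ht hp (by rw [hp0, hpn]; exact hconn a b) (d a z) (by omega)
  rw [hp0, hpn] at hw
  rw [hpz] at hzw
  obtain ⟨w', hw', hww'⟩ := D.thin a b c w hw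
  rcases hw' with hw' | hw'
  · obtain ⟨z', hz', h⟩ := key _ _ _ hw'
    refine ⟨z', Or.inl hz', ?_⟩
    have t1 := hd.tri z w z'
    have t2 := hd.tri w w' z'
    omega
  · obtain ⟨z', hz', h⟩ := key _ _ _ hw'
    refine ⟨z', Or.inr hz', ?_⟩
    have t1 := hd.tri z w z'
    have t2 := hd.tri w w' z'
    omega

/-- the numerical condition for `h1 = 2`, `h2 = 1` holds with `t = 10` -/
lemma numeric : ∀ T, 10 < T → ∃ n, 4 * T + 4 * 1 + 2 ≤ 2 ^ n ∧ 2 + n * 1 + 2 * 1 < T := by
  intro T hT
  obtain ⟨k, rfl⟩ : ∃ k, T = k + 11 := ⟨T - 11, by omega⟩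
  refine ⟨k + 6, ?_, by omega⟩
  clear hT
  induction k with
  | zero => norm_num
  | succ k ih =>
    have : 2 ^ (k + 1 + 6) = 2 * 2 ^ (k + 6) := by ring
    omega

end Guess

end Pool.Agent.Burnside
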