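import Pool.Agent.Burnside.ConeOff

/-!
Four point inequality, translation of the middle of a long geodesic, stable length and the rank one
inequality for commuting isometries of a slim integer valued geodesic metric.
-/

namespace Pool.Agent.Burnside

open Set

section Metric

variable {X : Type*} {d : X → X → ℕ} {δ : ℕ}

/-- the four point inequality -/
lemma four_point (hd : IsGeod d) (hs : Slim d δ) (x y z t : X) :
    d x z + d y t ≤ d x y + d z t + (4 * δ + 2) ∨ d x z + d y t ≤ d x t + d y z + (4 * δ + 2) := by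
  classical
  obtain ⟨p, hp0, hpN, hp⟩ := exists_path hd _ x z rfl
  set N := d x z with hN
  let P : ℕ → Prop := fun i => ∃ w ∈ Intv d x y, d (p i) w ≤ δ
  have hP0 : P 0 := ⟨x, by show _ + _ = _; rw [hd.self]; omega, by rw [hp0, hd.self]; omega⟩
  by_cases hPN : P N
  · obtain ⟨w, hw, hwd⟩ := hPN
    have hw' : d x w + d w y = d x y := hw
    have h1 := hd.tri y z t
    have h2 := hd.tri x w z
    have h3 := hd.tri z w y
    have h4 := hd.symm z y
    have h5 := hd.symm w z
    rw [hpN] at hwd
    left
    omega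
  · have hex : ∃ i, ¬ P i := ⟨N, hPN⟩
    have hspec := Nat.find_spec hex
    have hleN : Nat.find hex ≤ N := Nat.find_min' hex hPN
    have hpos : 0 < Nat.find hex := by
      rcases Nat.eq_zero_or_pos (Nat.find hex) with h | h
      · rw [h] at hspec
        exact absurd hP0 hspec
      · exact h
    obtain ⟨i, hi⟩ : ∃ i, Nat.find hex = i + 1 := ⟨Nat.find hex - 1, by omega⟩
    have hPi : P i := by
      by_contra hc
      have := Nat.find_min' hex hc
      omega
    rw [hi] at hspec hleN
    obtain ⟨w, hw, hwd⟩ := hPi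
    have hw' : d x w + d w y = d x y := hw
    have hmem := hp.mem_Intv hleN
    rw [hp0, hpN] at hmem
    obtain ⟨v, hv, hvd⟩ := hs x z y (p (i + 1)) hmem
    rcases hv with hv | hv
    · exact absurd ⟨v, hv, hvd⟩ hspec
    · have hv' : d y v + d v z = d y z := hv
      have hmemi := hp.mem_Intv (show i ≤ N by omega)
      rw [hp0, hpN] at hmemi
      have hmemi' : d x (p i) + d (p i) z = d x z := hmemi
      have hmem' : d x (p (i + 1)) + d (p (i + 1)) z = d x z := hmem
      have h5 := hp i (i + 1) (by omega) hleN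
      obtain ⟨u, hu, hud⟩ := hs x z t (p i) hmemi
      have k1 := hd.tri x w (p i)
      have k2 := hd.tri (p i) w y
      have k3 := hd.symm w (p i)
      have k4 := hd.symm (p i) y
      have k5 := hd.tri y (p i) t
      have k6 := hd.tri (p (i + 1)) v z
      have k7 := hd.tri y v (p (i + 1))
      have k8 := hd.symm v (p (i + 1))
      have k9 := hd.tri y (p (i + 1)) (p i)
      have k10 := hd.symm (p (i + 1)) (p i)
      have k11 := hd.tri (p i) u t
      have k12 := hd.symm u (p i)
      have k13 := hd.symm t u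
      have k14 := hd.tri (p i) (p (i + 1)) z
      rcases hu with hu | hu
      · have hu' : d x u + d u t = d x t := hu
        have l1 := hd.tri x u (p i)
        right
        omega
      · have hu' : d t u + d u z = d t z := hu
        have l1 := hd.tri (p i) u z
        have l2 := hd.symm t z
        left
        omega

/-- points of an interval are close to every geodesic with the same ends -/
lemma bigon (hd : IsGeod d) (hs : Slim d δ) {N : ℕ} {p : ℕ → X} (hp : IsPath d N p) {z : X}
    (hz : z ∈ Intv d (p 0) (p N)) : d z (p (d (p 0) z)) ≤ 2 * δ := by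
  have hz' : d (p 0) z + d z (p N) = d (p 0) (p N) := hz
  have hN := hp 0 N (Nat.zero_le _) le_rfl
  have ht : d (p 0) z ≤ N := by omega
  have h1 := hp 0 (d (p 0) z) (Nat.zero_le _) ht
  have h2 := hp (d (p 0) z) N ht le_rfl
  obtain ⟨w, hw, hwd⟩ := hs (p 0) (p N) (p (d (p 0) z)) z hz
  have h3 := hd.tri z w (p (d (p 0) z))
  rcases hw with hw | hw
  · have hw' : d (p 0) w + d w (p (d (p 0) z)) = d (p 0) (p (d (p 0) z)) := hw
    have h4 := hd.tri (p 0) w z
    have h5 := hd.symm w z
    omega
  · have hw' : d (p (d (p 0) z)) w + d w (p N) = d (p (d (p 0) z)) (p N) := hw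
    have h4 := hd.tri z w (p N)
    have h5 := hd.symm w (p (d (p 0) z))
    omega

/-- a geodesic path parametrised by the integers `0, ..., L` -/
def IsPathZ (d : X → X → ℕ) (L : ℤ) (P : ℤ → X) : Prop :=
  ∀ i j : ℤ, 0 ≤ i → i ≤ j → j ≤ L → (d (P i) (P j) : ℤ) = j - i

lemma exists_pathZ (hd : IsGeod d) (x y : X) : ∃ P : ℤ → X, P 0 = x ∧ P (d x y) = y ∧
    IsPathZ d (d x y) P := by
  obtain ⟨p, hp0, hpN, hp⟩ := exists_path hd _ x y rfl
  refine ⟨fun i => p i.toNat, by simpa using hp0, by simpa using hpN, ?_⟩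
  intro i j hi hij hj
  have := hp i.toNat j.toNat (by omega) (by omega)
  simp only [this]
  omega

/-- `g` translates the path `P` of length `L` by `s` with error `e`, at distance at least `m` from
the ends -/
def Tr (d : X → X → ℕ) (P : ℤ → X) (L : ℤ) (g : X → X) (s m : ℤ) (e : ℕ) : Prop :=
  ∀ t : ℤ, m ≤ t → t ≤ L - m → d (g (P t)) (P (t + s)) ≤ e

/-- an isometry which moves both ends of a geodesic little translates its middle -/
lemma exists_Tr (hd : IsGeod d) (hs : Slim d δ) {L : ℕ} {P : ℤ → X} (hP : IsPathZ d L P)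
    {g : X → X} (hg : ∀ a b, d (g a) (g b) = d a b) {R : ℕ} (h0 : d (P 0) (g (P 0)) ≤ R)
    (hL : d (P L) (g (P L)) ≤ R) :
    ∃ s : ℤ, |s| ≤ R ∧ Tr d P L g s (R + 2 * δ + 1) (8 * δ) := by
  have hL' := hP 0 L (by omega) (by omega) le_rfl
  refine ⟨(d (P 0) (g (P L)) : ℤ) - L, ?_, ?_⟩
  · have h1 := hd.tri (P 0) (P L) (g (P L))
    have h2 := hd.tri (P 0) (g (P L)) (P L)
    have h3 := hd.symm (g (P L)) (P L)
    rw [abs_le]
    constructor <;> omega
  · intro t ht ht'
    have hp : IsPath d L (fun i : ℕ => P i) := by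
      intro i j hij hj
      have := hP i j (by omega) (by omega) (by omega)
      show d (P i) (P j) = j - i
      omega
    set q := g (P t) with hq
    have hq0 : (d (g (P 0)) q : ℤ) = t := by
      rw [hq, hg]
      have := hP 0 t (by omega) (by omega) (by omega)
      omega
    have hqL : (d q (g (P L)) : ℤ) = L - t := by
      rw [hq, hg]
      exact hP t L (by omega) (by omega) le_rfl
    have hmem : q ∈ Intv d (g (P 0)) (g (P L)) := by
      show _ + _ = _
      have h1 : (d (g (P 0)) (g (P L)) : ℤ) = L := by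
        rw [hg]
        omega
      omega
    obtain ⟨w, hw, hwd⟩ := hs _ _ (P 0) q hmem
    rcases hw with hw | hw
    · exfalso
      have hw' : d (g (P 0)) w + d w (P 0) = d (g (P 0)) (P 0) := hw
      have h1 := hd.tri (g (P 0)) w q
      have h2 := hd.symm w q
      have h3 := hd.symm (g (P 0)) (P 0)
      omega
    · obtain ⟨w', hw', hwd'⟩ := hs _ _ (P L) w hw
      have hwe : d (P 0) w + d w (g (P L)) = d (P 0) (g (P L)) := hw
      rcases hw' with hw' | hw'
      · have e1 : d (P 0) w' + d w' (P L) = d (P 0) (P L) := hw'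
        have hb := bigon hd hs hp (z := w') (by simpa using hw')
        simp only [Nat.cast_zero] at hb
        have h1 := hP (d (P 0) w') (t + ((d (P 0) (g (P L)) : ℤ) - L))
        have h1' := hP (t + ((d (P 0) (g (P L)) : ℤ) - L)) (d (P 0) w')
        have h2 := hd.tri q w' (P (t + ((d (P 0) (g (P L)) : ℤ) - L)))
        have h3 := hd.tri q w w'
        have h4 := hd.tri w' (P (d (P 0) w')) (P (t + ((d (P 0) (g (P L)) : ℤ) - L)))
        have h5 := hd.tri (P 0) q (g (P L))
        have h6 := hd.tri (P 0) w q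
        have h7 := hd.symm w q
        have h8 := hd.tri q w (g (P L))
        have h9 := hd.tri (P 0) w w'
        have h10 := hd.tri (P 0) w' w
        have h11 := hd.symm w' w
        have h12 := hd.tri (P 0) w' q
        have h13 := hd.symm w' q
        have h14 := hd.tri (P 0) q w'
        have h15 := hd.symm (P (d (P 0) w')) (P (t + ((d (P 0) (g (P L)) : ℤ) - L)))
        have h16 := hd.tri (P 0) (P L) (g (P L))
        have h17 := hd.tri (P 0) (g (P L)) (P L)
        have h18 := hd.symm (P L) (g (P L))
        rcases le_total ((d (P 0) w' : ℕ) : ℤ) (t + ((d (P 0) (g (P L)) : ℤ) - L)) with hle | hle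
        · have h19 := h1 (by omega) hle (by omega)
          omega
        · have h19 := h1' (by omega) hle (by omega)
          omega
      · exfalso
        have e1 : d (P L) w' + d w' (g (P L)) = d (P L) (g (P L)) := hw'
        have h1 := hd.tri q w (g (P L))
        have h2 := hd.tri w w' (g (P L))
        omega

lemma Tr.comp {P : ℤ → X} {L : ℤ} {g h : X → X} {s s' m m' : ℤ} {e e' : ℕ} (hd : IsGeod d)
    (hg : ∀ a b, d (g a) (g b) = d a b) (H : Tr d P L g s m e) (H' : Tr d P L h s' m' e')
    {k : ℤ} (hk : m' ≤ k) (hk' : m + |s'| ≤ k) : Tr d P L (fun x => g (h x)) (s' + s) k (e' + e) := by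
  intro t ht ht'
  have h1 := H' t (by omega) (by omega)
  have h2 := abs_le.1 (le_refl |s'|)
  have h3 := H (t + s') (by omega) (by omega)
  have h4 := hd.tri (g (h (P t))) (g (P (t + s'))) (P (t + (s' + s)))
  rw [hg, ← add_assoc] at h4
  show d (g (h (P t))) (P (t + (s' + s))) ≤ e' + e
  rw [← add_assoc]
  omega

lemma Tr.inv {P : ℤ → X} {L : ℤ} {g h : X → X} {s m : ℤ} {e : ℕ} (hd : IsGeod d)
    (hg : ∀ a b, d (g a) (g b) = d a b) (hgh : ∀ a, g (h a) = a) (H : Tr d P L g s m e)
    {k : ℤ} (hk : m + |s| ≤ k) : Tr d P L h (-s) k e := by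
  intro t ht ht'
  have h2 := abs_le.1 (le_refl |s|)
  have h3 := H (t + -s) (by omega) (by omega)
  rw [← hg, hgh, hd.symm]
  rwa [show t + -s + s = t by ring] at h3

end Metric

end Pool.Agent.Burnside
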