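import Pool.Agent.Burnside.Stage

/-!
The cone-off of a stage along its axes is a rotation system.
-/

set_option autoImplicit false
set_option linter.unusedSectionVars false

namespace Pool.Agent.Burnside

open Cone

section Equivariance

variable {G X ι : Type*} [Group G] [MulAction G X] [MulAction G ι] {d : X → X → ℕ}
  {Y : ι → Set X} {M : ℕ}

lemma coneRel_smul (hinv : ∀ (g : G) (x y : X), d (g • x) (g • y) = d x y)
    (hY : ∀ (g : G) (i : ι) (x : X), x ∈ Y i → g • x ∈ Y (g • i)) (g : G) {p q : X ⊕ ι}
    (h : coneRel d Y M p q) : coneRel d Y M (g • p) (g • q) := by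
  rcases p with x | i <;> rcases q with y | j
  · show d (g • x) (g • y) ≤ M
    rw [hinv]
    exact h
  · exact hY g j x h
  · exact hY g i y h
  · exact h

/-- the action on the cone-off graph -/
def coneHom (hinv : ∀ (g : G) (x y : X), d (g • x) (g • y) = d x y)
    (hY : ∀ (g : G) (i : ι) (x : X), x ∈ Y i → g • x ∈ Y (g • i)) (g : G) :
    coneGraph d Y M →g coneGraph d Y M where
  toFun p := g • p
  map_rel' := by
    intro p q h
    have h' := (SimpleGraph.fromRel_adj _ _ _).1 h
    refine (SimpleGraph.fromRel_adj _ _ _).2 ⟨?_, ?_⟩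
    · intro he
      exact h'.1 (smul_left_cancel g he)
    · rcases h'.2 with h2 | h2
      · exact Or.inl (coneRel_smul hinv hY g h2)
      · exact Or.inr (coneRel_smul hinv hY g h2)

lemma coneDist_smul_le {δ κ : ℕ} (C : Cone d Y δ κ M)
    (hinv : ∀ (g : G) (x y : X), d (g • x) (g • y) = d x y)
    (hY : ∀ (g : G) (i : ι) (x : X), x ∈ Y i → g • x ∈ Y (g • i)) (g : G) (p q : X ⊕ ι) :
    coneDist d Y M (g • p) (g • q) ≤ coneDist d Y M p q := by
  obtain ⟨w, hw⟩ := (C.connected p).exists_walk_length_eq_dist p q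
  have h := SimpleGraph.dist_le (w.map (coneHom hinv hY g))
  rw [SimpleGraph.Walk.length_map, hw] at h
  exact h

lemma coneDist_smul {δ κ : ℕ} (C : Cone d Y δ κ M)
    (hinv : ∀ (g : G) (x y : X), d (g • x) (g • y) = d x y)
    (hY : ∀ (g : G) (i : ι) (x : X), x ∈ Y i → g • x ∈ Y (g • i)) (g : G) (p q : X ⊕ ι) :
    coneDist d Y M (g • p) (g • q) = coneDist d Y M p q := by
  apply le_antisymm (coneDist_smul_le C hinv hY g p q)
  have h := coneDist_smul_le C hinv hY g⁻¹ (g • p) (g • q)
  simpa using h

lemma near_smul (hinv : ∀ (g : G) (x y : X), d (g • x) (g • y) = d x y)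
    (hY : ∀ (g : G) (i : ι) (x : X), x ∈ Y i → g • x ∈ Y (g • i)) (g : G) (i : ι) {a y : X}
    (h : y ∈ Near d (Y i) a) : g • y ∈ Near d (Y (g • i)) (g • a) := by
  refine ⟨hY g i y h.1, ?_⟩
  intro z hz
  have h1 := hY g⁻¹ (g • i) z hz
  rw [inv_smul_smul] at h1
  have h2 := h.2 _ h1
  rw [hinv]
  have h3 := hinv g a (g⁻¹ • z)
  rw [smul_inv_smul] at h3
  omega

lemma Pr_smul (hinv : ∀ (g : G) (x y : X), d (g • x) (g • y) = d x y)
    (hY : ∀ (g : G) (i : ι) (x : X), x ∈ Y i → g • x ∈ Y (g • i)) (g : G) (i : ι)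
    {p : X ⊕ ι} {y : X} (h : y ∈ Pr d Y i p) : g • y ∈ Pr d Y (g • i) (g • p) := by
  rcases p with x | j
  · exact near_smul hinv hY g i h
  · obtain ⟨a, ha, hy⟩ := h
    exact ⟨g • a, hY g j a ha, near_smul hinv hY g i hy⟩

lemma dPr_smul (hinv : ∀ (g : G) (x y : X), d (g • x) (g • y) = d x y)
    (hY : ∀ (g : G) (i : ι) (x : X), x ∈ Y i → g • x ∈ Y (g • i)) (g : G) (i : ι)
    (p q : X ⊕ ι) : dPr d Y (g • i) (g • p) (g • q) = dPr d Y i p q := by
  unfold dPr
  congr 1
  ext n
  constructor
  · rintro ⟨y, hy, y', hy', rfl⟩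
    have h1 := Pr_smul hinv hY g⁻¹ (g • i) hy
    have h2 := Pr_smul hinv hY g⁻¹ (g • i) hy'
    rw [inv_smul_smul, inv_smul_smul] at h1 h2
    exact ⟨_, h1, _, h2, (hinv g⁻¹ y y').symm⟩
  · rintro ⟨y, hy, y', hy', rfl⟩
    exact ⟨_, Pr_smul hinv hY g i hy, _, Pr_smul hinv hY g i hy', (hinv g y y').symm⟩

end Equivariance

section Instance

variable {G X ι : Type*} [Group G] [MulAction G X] [MulAction G ι] {d : X → X → ℕ}
  {Y : ι → Set X} {R : ι → Subgroup G} {M δ κ Θ A T n D1 D2 E c0 Λ : ℕ}

/-- the cone-off is a rotation system -/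
theorem rot_of_pack (C : Cone d Y δ κ M)
    (hinv : ∀ (g : G) (x y : X), d (g • x) (g • y) = d x y)
    (P : Pack d Y R κ Θ A T n D1 D2 E c0)
    (hn : T * Λ ≤ n) (hT : 0 < T) (hΛ : 16 * BB δ κ M Θ < Λ) :
    Rot (coneDist d Y M) (Sum.inr : ι → X ⊕ ι) (dPr d Y) R (BB δ κ M Θ) Λ where
  geod := C.isGeod
  inv g a b := coneDist_smul C hinv P.smul g a b
  apex_inj := Sum.inr_injective
  apex_smul g i := rfl
  ang_inv g i a b := dPr_smul hinv P.smul g i a b
  ang_symm i a b := C.dPr_symm i a b
  ang_tri i a b c ha hb hc := C.dPr_tri P.pb ha hb hc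
  bgi i a b _ _ h := C.bgi_Intv P.pb h
  conj g i s hs := by
    obtain ⟨h, hh, rfl⟩ := P.mem_pow i s hs
    rw [← conj_pow]
    apply P.pow_mem
    rw [mul_smul, mul_smul, inv_smul_smul, hh]
  fix i s hs := by
    obtain ⟨g, hg, rfl⟩ := P.mem_pow i s hs
    have : g ∈ MulAction.stabilizer G i := hg
    exact pow_mem this n
  rot i s hs hs1 a ha := by
    obtain ⟨g, hg, rfl⟩ := P.mem_pow i s hs
    have hg1 : g ≠ 1 := by
      rintro rfl
      exact hs1 (one_pow n)
    have hfix : g ^ n • i = i := by
      have : g ∈ MulAction.stabilizer G i := hg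
      exact pow_mem this n
    obtain ⟨y, hy⟩ := C.Pr_nonempty i a
    have h1 := Pr_smul hinv P.smul (g ^ n) i hy
    rw [hfix] at h1
    have hne : g ^ n • a ≠ Sum.inr i := by
      intro he
      apply ha
      have h2 : g ^ n • (Sum.inr i : X ⊕ ι) = Sum.inr i := by
        show Sum.inr (g ^ n • i) = Sum.inr i
        rw [hfix]
      rw [← h2] at he
      exact smul_left_cancel _ he
    have h3 := C.le_dPr P.pb ha hne hy h1
    have h4 := P.lox g i hg hg1 y n
    have h5 : T * Λ ≤ T * d y (g ^ n • y) := le_trans hn h4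
    have h6 : Λ ≤ d y (g ^ n • y) := Nat.le_of_mul_le_mul_left h5 hT
    exact le_trans h6 h3
  big := hΛ

/-! ### metric relations between `X` and its cone-off -/

/-- two apexes are not adjacent -/
lemma one_lt_apex (C : Cone d Y δ κ M) {i j : ι} (h : i ≠ j) :
    1 < coneDist d Y M (Sum.inr i) (Sum.inr j) := by
  by_contra hc
  rcases C.rel_of_dist_le_one (p := Sum.inr i) (q := Sum.inr j) (by omega) with h1 | h1
  · exact h (Sum.inr_injective h1)
  · exact h1

/-- the inclusion of `X` in the cone-off is `1/M`-Lipschitz -/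
lemma dist_inl_le (C : Cone d Y δ κ M) : ∀ (n : ℕ) (x y : X), d x y = n →
    M * coneDist d Y M (Sum.inl x) (Sum.inl y) ≤ n + M := by
  intro n
  induction n using Nat.strong_induction_on with
  | _ n ih =>
    intro x y hxy
    have hM := C.hM
    by_cases h : n ≤ M
    · have h1 := C.dist_inl (x := x) (y := y) (by omega)
      have h2 : M * coneDist d Y M (Sum.inl x) (Sum.inl y) ≤ M * 1 := Nat.mul_le_mul_left _ h1
      omega
    · obtain ⟨z, hz1, hz2⟩ := C.geod.geod x y M (by omega)
      have h1 := C.dist_inl (x := x) (y := z) (by omega)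
      have h2 := ih (n - M) (by omega) z y (by omega)
      have h3 := C.isGeod.tri (Sum.inl x) (Sum.inl z) (Sum.inl y)
      have h4 : M * coneDist d Y M (Sum.inl x) (Sum.inl y)
          ≤ M * (1 + coneDist d Y M (Sum.inl z) (Sum.inl y)) :=
        Nat.mul_le_mul_left _ (by omega)
      rw [Nat.mul_add] at h4
      omega

/-- an interior apex of a geodesic path: its neighbours are points of the axis -/
lemma near_self {i : ι} {y : X} (hd : IsGeod d) (h : y ∈ Y i) : y ∈ Near d (Y i) y := by
  refine ⟨h, fun z _ => ?_⟩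
  rw [hd.self]
  exact Nat.zero_le _

/-- small angles: the distance in `X` is bounded by the distance in the cone-off -/
theorem dist_le_of_ang (C : Cone d Y δ κ M) (hB : PB d Y Θ) {x y : X} {Th : ℕ}
    (h : ∀ i, dPr d Y i (Sum.inl x) (Sum.inl y) ≤ Th) :
    d x y ≤ coneDist d Y M (Sum.inl x) (Sum.inl y) * (M + Th + 2 * BB δ κ M Θ) := by
  obtain ⟨P, hP0, hPN, hP⟩ := exists_path C.isGeod _ (Sum.inl x : X ⊕ ι) (Sum.inl y) rfl
  set N := coneDist d Y M (Sum.inl x) (Sum.inl y) with hN
  set W := M + Th + 2 * BB δ κ M Θ with hW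
  -- an apex on the path: the two neighbours are close in `X`
  have key : ∀ k, k + 2 ≤ N → ∀ i, P (k + 1) = Sum.inr i → ∀ z z', P k = Sum.inl z →
      P (k + 2) = Sum.inl z' → d z z' ≤ W := by
    intro k hk i hi z z' hz hz'
    have e1 : coneDist d Y M (P k) (P (k + 1)) = 1 := by
      rw [hP k (k + 1) (by omega) (by omega)]
      omega
    have e2 : coneDist d Y M (P (k + 1)) (P (k + 2)) = 1 := by
      rw [hP (k + 1) (k + 2) (by omega) (by omega)]
      omega
    have hzY : z ∈ Y i := by
      rw [hz, hi] at e1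
      rcases C.rel_of_dist_le_one (p := Sum.inl z) (q := Sum.inr i) (by omega) with h1 | h1
      · exact absurd h1 (by simp)
      · exact h1
    have hzY' : z' ∈ Y i := by
      rw [hz', hi] at e2
      rcases C.rel_of_dist_le_one (p := Sum.inr i) (q := Sum.inl z') (by omega) with h1 | h1
      · exact absurd h1 (by simp)
      · exact h1
    have n0 : (Sum.inl x : X ⊕ ι) ≠ Sum.inr i := by simp
    have n1 : (Sum.inl z : X ⊕ ι) ≠ Sum.inr i := by simp
    have n2 : (Sum.inl z' : X ⊕ ι) ≠ Sum.inr i := by simp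
    have n3 : (Sum.inl y : X ⊕ ι) ≠ Sum.inr i := by simp
    have h1 := C.le_dPr hB n1 n2 (near_self C.geod hzY : z ∈ Pr d Y i (Sum.inl z))
      (near_self C.geod hzY' : z' ∈ Pr d Y i (Sum.inl z'))
    have t1 := C.dPr_tri hB n1 n0 n2
    have t2 := C.dPr_tri hB n0 n3 n2
    have h2 := h i
    -- the angle between `x` and `z` at the apex is small
    have h3 : dPr d Y i (Sum.inl z) (Sum.inl x) ≤ BB δ κ M Θ := by
      by_contra hc
      have h4 : coneDist d Y M (Sum.inl z) (Sum.inr i) + coneDist d Y M (Sum.inr i) (Sum.inl x)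
          = coneDist d Y M (Sum.inl z) (Sum.inl x) := C.bgi_Intv hB (by omega)
      have h5 := hP 0 k (by omega) (by omega)
      have h6 := hP 0 (k + 1) (by omega) (by omega)
      rw [hP0, hz] at h5
      rw [hP0, hi] at h6
      rw [C.isGeod.symm (Sum.inr i) (Sum.inl x), C.isGeod.symm (Sum.inl z) (Sum.inl x)] at h4
      omega
    have h3' : dPr d Y i (Sum.inl y) (Sum.inl z') ≤ BB δ κ M Θ := by
      by_contra hc
      have h4 : coneDist d Y M (Sum.inl y) (Sum.inr i) + coneDist d Y M (Sum.inr i) (Sum.inl z')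
          = coneDist d Y M (Sum.inl y) (Sum.inl z') := C.bgi_Intv hB (by omega)
      have h5 := hP (k + 2) N (by omega) le_rfl
      have h6 := hP (k + 1) N (by omega) le_rfl
      rw [hPN, hz'] at h5
      rw [hPN, hi] at h6
      rw [C.isGeod.symm (Sum.inl y) (Sum.inr i), C.isGeod.symm (Sum.inl y) (Sum.inl z')] at h4
      omega
    omega
  -- induction along the path
  have main : ∀ k, k ≤ N → ∀ z, P k = Sum.inl z → d x z ≤ k * W := by
    intro k
    induction k using Nat.strong_induction_on with
    | _ k ih =>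
      intro hk z hz
      rcases Nat.eq_zero_or_pos k with h0 | h0
      · subst h0
        rw [hP0] at hz
        have : x = z := Sum.inl_injective hz
        rw [← this, C.geod.self]
        omega
      · obtain ⟨m, rfl⟩ : ∃ m, k = m + 1 := ⟨k - 1, by omega⟩
        rcases hm : P m with w | i
        · have h1 := ih m (by omega) (by omega) w hm
          have h2 : coneDist d Y M (P m) (P (m + 1)) = 1 := by
            rw [hP m (m + 1) (by omega) hk]
            omega
          rw [hm, hz] at h2
          have h3 : d w z ≤ M := by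
            rcases C.rel_of_dist_le_one (p := Sum.inl w) (q := Sum.inl z) (by omega) with h4 | h4
            · have : w = z := Sum.inl_injective h4
              rw [this, C.geod.self]
              omega
            · exact h4
          have h4 := C.geod.tri x w z
          have h5 : (m + 1) * W = m * W + W := by ring
          omega
        · -- the previous vertex is an apex
          have hm0 : m ≠ 0 := by
            rintro rfl
            rw [hP0] at hm
            exact absurd hm (by simp)
          obtain ⟨l, rfl⟩ : ∃ l, m = l + 1 := ⟨m - 1, by omega⟩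
          rcases hl : P l with w | j
          · have h1 := ih l (by omega) (by omega) w hl
            have h2 := key l (by omega) i hm w z hl hz
            have h4 := C.geod.tri x w z
            have h5 : (l + 1 + 1) * W = l * W + 2 * W := by ring
            omega
          · exfalso
            have h2 : coneDist d Y M (P l) (P (l + 1)) = 1 := by
              rw [hP l (l + 1) (by omega) (by omega)]
              omega
            rw [hl, hm] at h2
            by_cases hij : j = i
            · rw [hij, C.isGeod.self] at h2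
              omega
            · have := one_lt_apex C hij
              omega
  have := main N le_rfl y hPN
  exact this

end Instance

end Pool.Agent.Burnside
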