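import Pool.Agent.Burnside.Centr

/-!
General lemmas on isometries of a slim integer valued geodesic metric. `H = 4 δ + 2` is the constant
of the four point inequality.
-/

namespace Pool.Agent.Burnside.Iso

open Set

variable {G X : Type*} [Group G] [MulAction G X] {d : X → X → ℕ} {δ : ℕ}

/-- the four point inequality -/
lemma fp (hd : IsGeod d) (hs : Slim d δ) (x y z t : X) :
    d x z + d y t ≤ d x y + d z t + (4 * δ + 2) ∨ d x z + d y t ≤ d x t + d y z + (4 * δ + 2) :=
  four_point hd hs x y z t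

/-- growth criterion -/
lemma e2 (hd : IsGeod d) (hs : Slim d δ) (hG : Isom G d) (g : G) (x : X)
    (h : d x (g • x) + (4 * δ + 2) + 1 ≤ d x (g ^ 2 • x)) (k : ℕ) : k ≤ d x (g ^ k • x) := by
  simpa using growth_le hd hs hG g x (le_refl 1) h k

/-- every point is moved by at least `k` -/
lemma e2' (hd : IsGeod d) (hs : Slim d δ) (hG : Isom G d) (g : G) (x : X)
    (h : d x (g • x) + (4 * δ + 2) + 1 ≤ d x (g ^ 2 • x)) : Lox d 1 g := by
  intro y k
  have h1 : (1 : ℝ) ≤ sl d g := by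
    have h2 := sl_growth hd hs hG g x
    have h3 : (d x (g • x) : ℝ) + (4 * δ + 2) + 1 ≤ d x (g ^ 2 • x) := by exact_mod_cast h
    linarith
  have h2 := mul_sl_le (d := d) g y k
  have h3 : (k : ℝ) * 1 ≤ k * sl d g := mul_le_mul_of_nonneg_left h1 (by positivity)
  have h4 : (k : ℝ) ≤ d y (g ^ k • y) := by linarith
  rw [one_mul]
  exact_mod_cast h4

/-- a point with minimal displacement -/
lemma exists_min (d : X → X → ℕ) (g : G) (x : X) :
    ∃ y : X, d y (g • y) ≤ d x (g • x) ∧ ∀ z : X, d y (g • y) ≤ d z (g • z) := by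
  classical
  have hex : ∃ n, ∃ y : X, d y (g • y) = n := ⟨_, x, rfl⟩
  obtain ⟨y, hy⟩ := Nat.find_spec hex
  refine ⟨y, ?_, fun z => ?_⟩
  · rw [hy]
    exact Nat.find_min' hex ⟨x, rfl⟩
  · rw [hy]
    exact Nat.find_min' hex ⟨z, rfl⟩

/-- at a point of large minimal displacement the square moves almost twice as far -/
lemma arc (hd : IsGeod d) (hs : Slim d δ) (hG : Isom G d) {g : G} {x : X}
    (hmin : ∀ z : X, d x (g • x) ≤ d z (g • z)) (hl : 2 * (4 * δ + 2) + 2 ≤ d x (g • x)) :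
    2 * d x (g • x) ≤ d x (g ^ 2 • x) + 2 * (4 * δ + 2) := by
  obtain ⟨m, hm1, hm2⟩ := hd.geod x (g • x) (d x (g • x) / 2) (Nat.div_le_self _ _)
  have e0 : g ^ 2 • x = g • g • x := by rw [pow_two, mul_smul]
  have h1 := hmin m
  have h2 := fp hd hs m (g • m) (g • x) x
  have h3 := fp hd hs (g • m) (g • x) x (g ^ 2 • x)
  have k1 : d (g • m) (g ^ 2 • x) = d m (g • x) := by rw [e0, hG]
  have k2 : d (g • x) (g ^ 2 • x) = d x (g • x) := by rw [e0, hG]
  have k3 : d (g • x) (g • m) = d x m := by rw [hG]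
  have k4 := hd.symm (g • m) x
  have k5 := hd.symm (g • x) x
  have k6 := hd.symm m x
  have k7 := hd.symm (g • m) (g • x)
  have k8 := hd.symm x (g ^ 2 • x)
  have h4 := fp hd hs m (g • x) (g • m) x
  have k9 := hd.symm (g • x) x
  omega

/-- large minimal displacement: loxodromic -/
lemma e3 (hd : IsGeod d) (hs : Slim d δ) (hG : Isom G d) (g : G)
    (h : ∀ x : X, 3 * (4 * δ + 2) + 1 ≤ d x (g • x)) [Nonempty X] : Lox d 1 g := by
  obtain ⟨x0⟩ := ‹Nonempty X›
  obtain ⟨x, -, hx⟩ := exists_min d g x0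
  have h1 := h x
  have h2 := arc hd hs hG hx (by omega)
  exact e2' hd hs hG g x (by omega)

/-- points of a geodesic are moved at most `R + H` if the ends are moved at most `R` -/
lemma mid_move (hd : IsGeod d) (hs : Slim d δ) {g : X → X} (hg : ∀ a b, d (g a) (g b) = d a b)
    {x y z : X} {R : ℕ} (hx : d x (g x) ≤ R) (hy : d y (g y) ≤ R) (hz : z ∈ Intv d x y) :
    d z (g z) ≤ R + (4 * δ + 2) := by
  have hz' : d x z + d z y = d x y := hz
  have h1 := fp hd hs z x (g z) y
  have h2 := hd.tri (g z) (g y) y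
  have h3 := hd.tri x (g x) (g z)
  have h4 := hg z y
  have h5 := hg x z
  have h6 := hd.symm (g y) y
  have h7 := hd.symm z x
  omega

end Pool.Agent.Burnside.Iso
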