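import Pool.Agent.Burnside.Windmill

/-!
The quotient of a space by the group generated by a family of rotations: quotient distance,
lifting of closed polygons, intrinsic angles.
-/

set_option linter.unusedSectionVars false

namespace Pool.Agent.Burnside

namespace Rot

variable {V ι G : Type*} [Group G] [MulAction G V] [MulAction G ι] {D : V → V → ℕ}
  {apex : ι → V} {ang : ι → V → V → ℕ} {R : ι → Subgroup G} {B Λ : ℕ}

/-! ### the normal subgroup `K` -/

lemma mem_KK {i : ι} {s : G} (hs : s ∈ R i) : s ∈ KK R := Subgroup.subset_closure ⟨i, hs⟩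

lemma KK_conj (H : Rot D apex ang R B Λ) (g : G) {k : G} (hk : k ∈ KK R) :
    g * k * g⁻¹ ∈ KK R := by
  unfold KK at hk
  induction hk using Subgroup.closure_induction with
  | mem s hs =>
    obtain ⟨i, hs⟩ := hs
    exact mem_KK (H.conj g i s hs)
  | one => simp
  | mul a b _ _ ha hb =>
    have := mul_mem ha hb
    have e : g * a * g⁻¹ * (g * b * g⁻¹) = g * (a * b) * g⁻¹ := by group
    rwa [e] at this
  | inv a _ ha =>
    have := inv_mem ha
    have e : (g * a * g⁻¹)⁻¹ = g * a⁻¹ * g⁻¹ := by group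
    rwa [e] at this

/-! ### the quotient distance -/

/-- the distance of the orbits -/
noncomputable def QD (D : V → V → ℕ) (R : ι → Subgroup G) (a b : V) : ℕ :=
  sInf {n | ∃ k ∈ KK R, n = D a (k • b)}

lemma QD_le (D : V → V → ℕ) (R : ι → Subgroup G) (a b : V) {k : G} (hk : k ∈ KK R) :
    QD D R a b ≤ D a (k • b) := Nat.sInf_le ⟨k, hk, rfl⟩

lemma QD_le' (D : V → V → ℕ) (R : ι → Subgroup G) (a b : V) : QD D R a b ≤ D a b := by
  have := QD_le D R a b (one_mem (KK R))
  rwa [one_smul] at this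

lemma exists_QD (D : V → V → ℕ) (R : ι → Subgroup G) (a b : V) :
    ∃ k ∈ KK R, D a (k • b) = QD D R a b := by
  have hne : {n | ∃ k ∈ KK R, n = D a (k • b)}.Nonempty := ⟨_, 1, one_mem _, rfl⟩
  obtain ⟨k, hk, h⟩ := Nat.sInf_mem hne
  exact ⟨k, hk, h.symm⟩

lemma QD_smul_right (D : V → V → ℕ) (R : ι → Subgroup G) (a b : V) {k : G} (hk : k ∈ KK R) :
    QD D R a (k • b) = QD D R a b := by
  apply le_antisymm
  · obtain ⟨l, hl, h⟩ := exists_QD D R a b
    rw [← h]
    have := QD_le D R a (k • b) (mul_mem hl (inv_mem hk))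
    rwa [mul_smul, inv_smul_smul] at this
  · obtain ⟨l, hl, h⟩ := exists_QD D R a (k • b)
    rw [← h, ← mul_smul]
    exact QD_le D R a b (mul_mem hl hk)

lemma QD_symm (H : Rot D apex ang R B Λ) (a b : V) : QD D R a b = QD D R b a := by
  have key : ∀ a b, QD D R a b ≤ QD D R b a := by
    intro a b
    obtain ⟨l, hl, h⟩ := exists_QD D R b a
    rw [← h]
    have h1 := QD_le D R a b (inv_mem hl)
    have h2 : D a (l⁻¹ • b) = D b (l • a) := by
      rw [← H.inv l, smul_inv_smul, H.geod.symm]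
    omega
  exact le_antisymm (key a b) (key b a)

lemma QD_smul_left (H : Rot D apex ang R B Λ) (a b : V) {k : G} (hk : k ∈ KK R) :
    QD D R (k • a) b = QD D R a b := by
  rw [H.QD_symm, QD_smul_right D R b a hk, H.QD_symm]

lemma QD_smul (H : Rot D apex ang R B Λ) (g : G) (a b : V) :
    QD D R (g • a) (g • b) = QD D R a b := by
  have key : ∀ (g : G) (a b : V), QD D R (g • a) (g • b) ≤ QD D R a b := by
    intro g a b
    obtain ⟨l, hl, h⟩ := exists_QD D R a b
    rw [← h]
    have h1 := QD_le D R (g • a) (g • b) (H.KK_conj g hl)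
    have h2 : (g * l * g⁻¹) • g • b = g • l • b := by
      rw [← mul_smul, ← mul_smul]
      congr 1
      group
    rw [h2, H.inv] at h1
    exact h1
  apply le_antisymm (key g a b)
  have := key g⁻¹ (g • a) (g • b)
  rwa [inv_smul_smul, inv_smul_smul] at this

lemma QD_self (H : Rot D apex ang R B Λ) (a : V) : QD D R a a = 0 := by
  have := QD_le' D R a a
  rw [H.geod.self] at this
  omega

lemma QD_tri (H : Rot D apex ang R B Λ) (a b c : V) :
    QD D R a c ≤ QD D R a b + QD D R b c := by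
  obtain ⟨k, hk, h1⟩ := exists_QD D R a b
  obtain ⟨l, hl, h2⟩ := exists_QD D R b c
  have h3 := QD_le D R a c (mul_mem hk hl)
  have h4 := H.geod.tri a (k • b) ((k * l) • c)
  rw [mul_smul, H.inv, ← mul_smul] at h4
  omega

/-- subsegments of minimal segments are minimal -/
lemma QD_sub (H : Rot D apex ang R B Λ) {a b z : V} (hab : D a b = QD D R a b)
    (hz : z ∈ Intv D a b) : D a z = QD D R a z ∧ D z b = QD D R z b := by
  have h1 : D a z + D z b = D a b := hz
  have h2 := QD_le' D R a z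
  have h3 := QD_le' D R z b
  have h4 := H.QD_tri a z b
  omega

lemma QD_geod (H : Rot D apex ang R B Λ) (a b : V) (m : ℕ) (hm : m ≤ QD D R a b) :
    ∃ z, QD D R a z = m ∧ QD D R z b = QD D R a b - m := by
  obtain ⟨k, hk, h⟩ := exists_QD D R a b
  obtain ⟨z, h1, h2⟩ := H.geod.geod a (k • b) m (by omega)
  have hz : z ∈ Intv D a (k • b) := by
    show _ + _ = _
    omega
  have h3 := H.QD_sub (by rw [QD_smul_right D R a b hk]; exact h) hz
  rw [QD_smul_right D R z b hk] at h3
  exact ⟨z, by omega, by omega⟩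

lemma QD_eq_zero (H : Rot D apex ang R B Λ) {a b : V} (h : QD D R a b = 0) :
    ∃ k ∈ KK R, a = k • b := by
  obtain ⟨k, hk, h1⟩ := exists_QD D R a b
  exact ⟨k, hk, H.geod.eq _ _ (by omega)⟩

/-! ### lifting of closed polygons -/

/-- a chain of angles -/
lemma ang_sum (H : Rot D apex ang R B Λ) (j : ι) (c : ℕ) (a : ℕ → V) :
    ∀ n, 0 < n → (∀ i ≤ n, a i ≠ apex j) → (∀ i < n, ang j (a i) (a (i + 1)) ≤ c) →
      ang j (a 0) (a n) ≤ n * c := by
  intro n
  induction n with
  | zero => intro h; omega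
  | succ n ih =>
    intro _ hne hle
    rcases Nat.eq_zero_or_pos n with h0 | hpos
    · subst h0
      have := hle 0 (by omega)
      simpa using this
    · have h1 := ih hpos (fun i hi => hne i (by omega)) (fun i hi => hle i (by omega))
      have h2 := hle n (by omega)
      have h3 := H.ang_tri j (a 0) (a n) (a (n + 1)) (hne 0 (by omega)) (hne n (by omega))
        (hne (n + 1) le_rfl)
      have e : (n + 1) * c = n * c + c := by ring
      omega

/-- rotating about a point of an interval does not increase the distance -/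
lemma dist_rot_le (H : Rot D apex ang R B Λ) {i : ι} {s : G} (hs : s ∈ R i) {a b : V}
    (hm : apex i ∈ Intv D a b) : D a (s • b) ≤ D a b := by
  have h1 : D a (apex i) + D (apex i) b = D a b := hm
  have h2 := H.geod.tri a (apex i) (s • b)
  rw [H.dist_rot hs] at h2
  omega

/-- the lifting lemma for closed polygons; rigid sides are translated as a whole -/
theorem lift (H : Rot D apex ang R B Λ) (n θ : ℕ) (hn0 : 0 < n)
    (hn : n * (θ + B) + 12 * B < Λ) (I : ℕ → Prop) :
    ∀ k ∈ KK R, ∀ a : ℕ → V, a n = k • a 0 →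
      (∀ i < n, D (a i) (a (i + 1)) = QD D R (a i) (a (i + 1))) →
      (∀ i < n, I i → (∀ j, a i ≠ apex j) ∧ (∀ j, a (i + 1) ≠ apex j) ∧
        ∀ j, ang j (a i) (a (i + 1)) ≤ θ) →
      ∃ f : ℕ → G, (∀ i, f i ∈ KK R) ∧ f 0 = 1 ∧ f n • a n = a 0 ∧
        (∀ i < n, D (f i • a i) (f (i + 1) • a (i + 1)) = QD D R (a i) (a (i + 1))) ∧
        ∀ i < n, I i → f i = f (i + 1) := by
  classical
  -- fix the base point
  have main : ∀ p0 : V, ∀ k ∈ KK R, ∀ a : ℕ → V, a 0 = p0 → a n = k • p0 →
      (∀ i < n, D (a i) (a (i + 1)) = QD D R (a i) (a (i + 1))) →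
      (∀ i < n, I i → (∀ j, a i ≠ apex j) ∧ (∀ j, a (i + 1) ≠ apex j) ∧
        ∀ j, ang j (a i) (a (i + 1)) ≤ θ) →
      ∃ f : ℕ → G, (∀ i, f i ∈ KK R) ∧ f 0 = 1 ∧ f n • a n = a 0 ∧
        (∀ i < n, D (f i • a i) (f (i + 1) • a (i + 1)) = QD D R (a i) (a (i + 1))) ∧
        ∀ i < n, I i → f i = f (i + 1) := by
    intro p0
    refine H.pivot_induction p0 _ ?_ ?_
    · intro k hk a ha0 han hmin _
      refine ⟨fun _ => 1, fun _ => one_mem _, rfl, ?_, ?_, fun _ _ _ => rfl⟩
      · rw [one_smul, han, H.fix_of_mem_Kr0 hk, ha0]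
      · intro i hi
        rw [one_smul, one_smul]
        exact hmin i hi
    · intro k j s hk hs hj1 hj2 hpiv ih a ha0 han hmin hrig
      have hsK : s ∈ KK R := mem_KK hs
      -- where to cut: after vertex `c`
      have hcut : ∃ c, c < n ∧ ¬ I c ∧
          D (a c) (s⁻¹ • a (c + 1)) = QD D R (a c) (a (c + 1)) := by
        by_cases hv : ∃ i, i ≤ n ∧ a i = apex j
        · obtain ⟨i, hi, hai⟩ := hv
          have hi0 : i ≠ n := by
            intro he
            rw [he, han] at hai
            exact hj2 hai.symm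
          refine ⟨i, by omega, ?_, ?_⟩
          · intro hI
            exact (hrig i (by omega) hI).1 j hai
          · rw [← hmin i (by omega)]
            conv_rhs => rw [← H.inv s⁻¹]
            rw [hai, H.fix_apex (inv_mem hs)]
        · push Not at hv
          -- a side with a large angle
          by_contra hc
          push Not at hc
          have hall : ∀ i < n, ang j (a i) (a (i + 1)) ≤ θ + B := by
            intro i hi
            by_contra hbig
            have hnI : ¬ I i := by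
              intro hI
              have := (hrig i hi hI).2.2 j
              omega
            have hmem := H.bgi j (a i) (a (i + 1)) (hv i (by omega)) (hv (i + 1) (by omega))
              (by omega)
            have h1 := H.dist_rot_le (inv_mem hs) hmem
            have h2 := QD_le D R (a i) (a (i + 1)) (inv_mem hsK)
            have h3 := hmin i hi
            exact hc i hi hnI (by omega)
          have h1 := H.ang_sum j (θ + B) a n hn0 hv hall
          rw [ha0, han] at h1
          omega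
      obtain ⟨c, hc, hIc, hDc⟩ := hcut
      -- the rotated polygon
      let a' : ℕ → V := fun i => if i ≤ c then a i else s⁻¹ • a i
      have ha'1 : ∀ i, i ≤ c → a' i = a i := fun i hi => by simp [a', hi]
      have ha'2 : ∀ i, c < i → a' i = s⁻¹ • a i := fun i hi => by
        simp [a', show ¬ i ≤ c by omega]
      have hQ : ∀ i, i < n → QD D R (a' i) (a' (i + 1)) = QD D R (a i) (a (i + 1)) := by
        intro i hi
        by_cases h1 : i + 1 ≤ c
        · rw [ha'1 i (by omega), ha'1 (i + 1) h1]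
        · by_cases h2 : i ≤ c
          · rw [ha'1 i h2, ha'2 (i + 1) (by omega), QD_smul_right D R _ _ (inv_mem hsK)]
          · rw [ha'2 i (by omega), ha'2 (i + 1) (by omega), H.QD_smul]
      have hD : ∀ i, i < n → i ≠ c → D (a' i) (a' (i + 1)) = D (a i) (a (i + 1)) := by
        intro i hi hic
        by_cases h1 : i + 1 ≤ c
        · rw [ha'1 i (by omega), ha'1 (i + 1) h1]
        · rw [ha'2 i (by omega), ha'2 (i + 1) (by omega), H.inv]
      have hDc' : D (a' c) (a' (c + 1)) = QD D R (a c) (a (c + 1)) := by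
        rw [ha'1 c le_rfl, ha'2 (c + 1) (by omega)]
        exact hDc
      obtain ⟨f, f1, f2, f3, f4, f5⟩ := ih a' (by rw [ha'1 0 (Nat.zero_le _), ha0]) (by
          rw [ha'2 n hc, han, ← mul_smul]) (by
          intro i hi
          rw [hQ i hi]
          by_cases hic : i = c
          · subst hic
            exact hDc'
          · rw [hD i hi hic]
            exact hmin i hi) (by
          intro i hi hI
          obtain ⟨r1, r2, r3⟩ := hrig i hi hI
          have hic : i ≠ c := by
            intro he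
            subst he
            exact hIc hI
          by_cases h1 : i + 1 ≤ c
          · rw [ha'1 i (by omega), ha'1 (i + 1) h1]
            exact ⟨r1, r2, r3⟩
          · rw [ha'2 i (by omega), ha'2 (i + 1) (by omega)]
            have key : ∀ (u : V), (∀ j, u ≠ apex j) → ∀ j, s⁻¹ • u ≠ apex j := by
              intro u hu j he
              apply hu (s • j)
              rw [H.apex_smul, ← he, smul_inv_smul]
            refine ⟨key _ r1, key _ r2, ?_⟩
            intro j
            have := r3 (s • j)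
            rw [← H.ang_inv s⁻¹, inv_smul_smul] at this
            exact this)
      -- back to the original polygon
      let f' : ℕ → G := fun i => if i ≤ c then f i else f i * s⁻¹
      have hf'1 : ∀ i, i ≤ c → f' i = f i := fun i hi => by simp [f', hi]
      have hf'2 : ∀ i, c < i → f' i = f i * s⁻¹ := fun i hi => by
        simp [f', show ¬ i ≤ c by omega]
      have hfa : ∀ i, f' i • a i = f i • a' i := by
        intro i
        by_cases h : i ≤ c
        · rw [hf'1 i h, ha'1 i h]
        · rw [hf'2 i (by omega), ha'2 i (by omega), mul_smul]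
      refine ⟨f', ?_, ?_, ?_, ?_, ?_⟩
      · intro i
        by_cases h : i ≤ c
        · rw [hf'1 i h]
          exact f1 i
        · rw [hf'2 i (by omega)]
          exact mul_mem (f1 i) (inv_mem hsK)
      · rw [hf'1 0 (Nat.zero_le _), f2]
      · rw [hfa n, f3, ha'1 0 (Nat.zero_le _)]
      · intro i hi
        rw [hfa i, hfa (i + 1), f4 i hi, hQ i hi]
      · intro i hi hI
        have hic : i ≠ c := by
          intro he
          subst he
          exact hIc hI
        have h0 := f5 i hi hI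
        by_cases h1 : i + 1 ≤ c
        · rw [hf'1 i (by omega), hf'1 (i + 1) h1, h0]
        · rw [hf'2 i (by omega), hf'2 (i + 1) (by omega), h0]
  intro k hk a han hmin hrig
  exact main (a 0) k hk a rfl han hmin hrig

/-- small angles: the distance is the quotient distance -/
theorem QD_eq_of_poor (H : Rot D apex ang R B Λ) {θ : ℕ} (hθ : θ + 13 * B < Λ) {x y : V}
    (h : ∀ j, x ≠ apex j → y ≠ apex j → ang j x y ≤ θ) : D x y = QD D R x y := by
  have main : ∀ k ∈ KK R, D x y ≤ D x (k • y) := by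
    refine H.pivot_induction y _ ?_ ?_
    · intro k hk
      rw [H.fix_of_mem_Kr0 hk]
    · intro k j s _ hs hj1 hj2 hpiv ih
      refine le_trans ih ?_
      rw [mul_smul]
      by_cases hx : x = apex j
      · rw [hx, H.dist_rot (inv_mem hs)]
      · apply H.dist_rot_le (inv_mem hs)
        apply H.bgi j _ _ hx hj2.symm
        have h1 := h j hx hj1.symm
        have h2 := H.ang_tri j y x (k • y) hj1.symm hx hj2.symm
        have h3 := H.ang_symm j y x
        omega
  obtain ⟨k, hk, h1⟩ := exists_QD D R x y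
  have h2 := main k hk
  have h3 := QD_le' D R x y
  omega

/-! ### stabilisers and links -/

/-- elements without a pivot -/
lemma pivot_or (H : Rot D apex ang R B Λ) (p0 : V) {k : G} (hk : k ∈ KK R) :
    k ∈ Kr D apex R p0 0 ∨ ∃ j, apex j ≠ p0 ∧ apex j ≠ k • p0 ∧
      Λ - 12 * B ≤ ang j p0 (k • p0) := by
  refine H.pivot_induction p0 (fun k => k ∈ Kr D apex R p0 0 ∨ ∃ j, apex j ≠ p0 ∧
    apex j ≠ k • p0 ∧ Λ - 12 * B ≤ ang j p0 (k • p0)) ?_ ?_ k hk
  · intro k hk
    exact Or.inl hk
  · intro k j s _ _ h1 h2 h3 _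
    exact Or.inr ⟨j, h1, h2, h3⟩

lemma Kr0_apex (H : Rot D apex ang R B Λ) (i : ι) {k : G}
    (hk : k ∈ Kr D apex R (apex i) 0) : k ∈ R i := by
  unfold Kr at hk
  have hle : Subgroup.closure {s | ∃ j, D (apex j) (apex i) ≤ 0 ∧ s ∈ R j} ≤ R i := by
    rw [Subgroup.closure_le]
    rintro s ⟨j, hj, hs⟩
    have : apex j = apex i := H.geod.eq _ _ (by omega)
    rwa [H.apex_inj this] at hs
  exact hle hk

lemma Kr0_point (H : Rot D apex ang R B Λ) {p : V} (hp : ∀ i, p ≠ apex i) {k : G}
    (hk : k ∈ Kr D apex R p 0) : k = 1 := by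
  unfold Kr at hk
  have hle : Subgroup.closure {s | ∃ j, D (apex j) p ≤ 0 ∧ s ∈ R j} ≤ ⊥ := by
    rw [Subgroup.closure_le]
    rintro s ⟨j, hj, hs⟩
    exact absurd (H.geod.eq _ _ (by omega)).symm (hp j)
  exact Subgroup.mem_bot.1 (hle hk)

/-- no pivot: small angles -/
lemma no_pivot (H : Rot D apex ang R B Λ) (p0 : V) {k : G} (hk : k ∈ KK R)
    (h : ∀ j, apex j ≠ p0 → apex j ≠ k • p0 → ang j p0 (k • p0) + 12 * B < Λ) :
    k ∈ Kr D apex R p0 0 := by
  rcases H.pivot_or p0 hk with h1 | ⟨j, h1, h2, h3⟩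
  · exact h1
  · have := h j h1 h2
    omega

/-- the stabiliser of an apex -/
lemma stab_apex (H : Rot D apex ang R B Λ) (i : ι) {k : G} (hk : k ∈ KK R)
    (hf : k • apex i = apex i) : k ∈ R i := by
  apply H.Kr0_apex
  apply H.no_pivot (apex i) hk
  intro j h1 _
  rw [hf]
  have := H.self_le j h1.symm
  have := H.big
  omega

/-- `K` acts freely on the other points -/
lemma free (H : Rot D apex ang R B Λ) {p : V} (hp : ∀ i, p ≠ apex i) {k : G} (hk : k ∈ KK R)
    (hf : k • p = p) : k = 1 := by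
  apply H.Kr0_point hp
  apply H.no_pivot p hk
  intro j h1 _
  rw [hf]
  have := H.self_le j h1.symm
  have := H.big
  omega

/-- neighbours of an apex in the same orbit differ by a rotation -/
lemma link (H : Rot D apex ang R B Λ) {i : ι} {y : V} (hy : ∀ j, y ≠ apex j)
    (h1 : D (apex i) y ≤ 1) {k : G} (hk : k ∈ KK R) (h2 : D (apex i) (k • y) ≤ 1) : k ∈ R i := by
  apply H.Kr0_apex
  apply H.no_pivot (apex i) hk
  intro j hj1 hj2
  have hbig := H.big
  have hky : ∀ j, k • y ≠ apex j := by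
    intro j he
    apply hy (k⁻¹ • j)
    rw [H.apex_smul, ← he, inv_smul_smul]
  -- adjacent vertices have small angles
  have adj : ∀ (u w : V), u ≠ apex j → w ≠ apex j → D u w ≤ 1 → ang j u w ≤ B := by
    intro u w hu hw hd
    by_contra hc
    have h3 : D u (apex j) + D (apex j) w = D u w := H.bgi j u w hu hw (by omega)
    have h4 := H.pos hu
    have h5 := H.pos hw.symm
    omega
  have a1 := adj _ _ hj1.symm (hky j) h2
  have a2 : ang j (k • y) (k • apex i) ≤ B := by
    apply adj _ _ (hky j) hj2.symm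
    rw [H.inv, H.geod.symm]
    exact h1
  have a3 := H.ang_tri j (apex i) (k • y) (k • apex i) hj1.symm (hky j) hj2.symm
  omega

/-! ### intrinsic angles -/

/-- minimal lifts, seen from an apex -/
def ML (D : V → V → ℕ) (apex : ι → V) (R : ι → Subgroup G) (i : ι) (a a1 : V) : Prop :=
  (∃ k ∈ KK R, a1 = k • a) ∧ D (apex i) a1 = QD D R (apex i) a

/-- the intrinsic angle -/
noncomputable def qang (D : V → V → ℕ) (apex : ι → V) (ang : ι → V → V → ℕ)
    (R : ι → Subgroup G) (i : ι) (a b : V) : ℕ :=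
  sInf {n | ∃ a1 b1, ML D apex R i a a1 ∧ ML D apex R i b b1 ∧ n = ang i a1 b1}

lemma exists_ML (D : V → V → ℕ) (apex : ι → V) (R : ι → Subgroup G) (i : ι) (a : V) :
    ∃ a1, ML D apex R i a a1 := by
  obtain ⟨k, hk, h⟩ := exists_QD D R (apex i) a
  exact ⟨k • a, ⟨k, hk, rfl⟩, h⟩

lemma qang_le {i : ι} {a b a1 b1 : V} (ha : ML D apex R i a a1) (hb : ML D apex R i b b1) :
    qang D apex ang R i a b ≤ ang i a1 b1 := Nat.sInf_le ⟨a1, b1, ha, hb, rfl⟩

lemma exists_qang (D : V → V → ℕ) (apex : ι → V) (ang : ι → V → V → ℕ) (R : ι → Subgroup G)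
    (i : ι) (a b : V) : ∃ a1 b1, ML D apex R i a a1 ∧ ML D apex R i b b1 ∧
      ang i a1 b1 = qang D apex ang R i a b := by
  obtain ⟨a1, ha⟩ := exists_ML D apex R i a
  obtain ⟨b1, hb⟩ := exists_ML D apex R i b
  have hne : {n | ∃ a1 b1, ML D apex R i a a1 ∧ ML D apex R i b b1 ∧
      n = ang i a1 b1}.Nonempty := ⟨_, a1, b1, ha, hb, rfl⟩
  obtain ⟨a2, b2, h1, h2, h3⟩ := Nat.sInf_mem hne
  exact ⟨a2, b2, h1, h2, h3.symm⟩

lemma ML.rot (H : Rot D apex ang R B Λ) {i : ι} {a a1 : V} (h : ML D apex R i a a1) {s : G}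
    (hs : s ∈ R i) : ML D apex R i a (s • a1) := by
  obtain ⟨⟨k, hk, rfl⟩, h2⟩ := h
  refine ⟨⟨s * k, mul_mem (mem_KK hs) hk, by rw [mul_smul]⟩, ?_⟩
  rw [H.dist_rot hs]
  exact h2

lemma ML.ne (H : Rot D apex ang R B Λ) {i : ι} {a a1 : V} (h : ML D apex R i a a1)
    (ha : QD D R (apex i) a ≠ 0) : a1 ≠ apex i := by
  intro he
  have := h.2
  rw [he, H.geod.self] at this
  exact ha this.symm

lemma qang_symm (H : Rot D apex ang R B Λ) (i : ι) (a b : V) :
    qang D apex ang R i a b = qang D apex ang R i b a := by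
  have key : ∀ a b, qang D apex ang R i a b ≤ qang D apex ang R i b a := by
    intro a b
    obtain ⟨b1, a1, hb, ha, h⟩ := exists_qang D apex ang R i b a
    rw [← h, H.ang_symm]
    exact qang_le ha hb
  exact le_antisymm (key a b) (key b a)

/-- no two apexes are adjacent -/
def NoAdj (D : V → V → ℕ) (apex : ι → V) : Prop := ∀ i j, D (apex i) (apex j) ≠ 1

/-- directions of minimal lifts are unique up to rotations -/
lemma dir_unique (H : Rot D apex ang R B Λ) (hna : NoAdj D apex) {i : ι} {p p1 p2 : V}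
    (hp : QD D R (apex i) p ≠ 0) (h1 : ML D apex R i p p1) (h2 : ML D apex R i p p2) :
    ∃ s ∈ R i, ang i p1 (s • p2) ≤ 4 * B := by
  have hbig := H.big
  have hn1 := h1.ne H hp
  have hn2 := h2.ne H hp
  obtain ⟨⟨k1, hk1, e1⟩, d1⟩ := h1
  obtain ⟨⟨k2, hk2, e2⟩, d2⟩ := h2
  -- neighbours of the apex
  obtain ⟨y1, a1, a2⟩ := H.geod.geod (apex i) p1 1 (by have := H.pos hn1.symm; omega)
  obtain ⟨y2, b1, b2⟩ := H.geod.geod (apex i) p2 1 (by have := H.pos hn2.symm; omega)
  have hy1 : ∀ j, y1 ≠ apex j := fun j he => hna i j (he ▸ a1)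
  have hy2 : ∀ j, y2 ≠ apex j := fun j he => hna i j (he ▸ b1)
  have hQ1 : QD D R (apex i) p1 = QD D R (apex i) p := by
    rw [e1, QD_smul_right D R _ _ hk1]
  have hQ2 : QD D R (apex i) p2 = QD D R (apex i) p := by
    rw [e2, QD_smul_right D R _ _ hk2]
  have m1 : y1 ∈ Intv D (apex i) p1 := by
    show _ + _ = _
    have := H.pos hn1.symm
    omega
  have m2 : y2 ∈ Intv D (apex i) p2 := by
    show _ + _ = _
    have := H.pos hn2.symm
    omega
  have s1 := H.QD_sub (by omega : D (apex i) p1 = QD D R (apex i) p1) m1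
  have s2 := H.QD_sub (by omega : D (apex i) p2 = QD D R (apex i) p2) m2
  -- the closed quadrilateral
  let k := k1 * k2⁻¹
  have hk : k ∈ KK R := mul_mem hk1 (inv_mem hk2)
  have hkp : k • p2 = p1 := by
    rw [e1, e2, ← mul_smul]
    congr 1
    simp [k]
  let a : ℕ → V := fun n => if n = 0 then apex i else if n = 1 then y1 else if n = 2 then p1
    else if n = 3 then k • y2 else k • apex i
  have A0 : a 0 = apex i := rfl
  have A1 : a 1 = y1 := rfl
  have A2 : a 2 = p1 := rfl
  have A3 : a 3 = k • y2 := rfl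
  have A4 : a 4 = k • apex i := rfl
  obtain ⟨f, f1, f2, f3, f4, -⟩ := H.lift 4 0 (by omega) (by omega) (fun _ => False) k hk a
    (by rw [A4, A0]) (by
      intro n hn
      interval_cases n
      · rw [A0, A1]; exact s1.1
      · rw [A1, A2]; exact s1.2
      · rw [A2, A3]
        have h3 : D p1 (k • y2) = D y2 p2 := by
          rw [← hkp, H.inv, H.geod.symm]
        have h4 : QD D R p1 (k • y2) = QD D R y2 p2 := by
          rw [← hkp, H.QD_smul, H.QD_symm]
        rw [h3, h4]
        exact s2.2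
      · rw [A3, A4, H.inv, H.QD_smul, H.geod.symm, H.QD_symm]
        exact s2.1) (by intro n _ h; exact absurd h id)
  have F0 := f4 0 (by omega)
  have F1 := f4 1 (by omega)
  have F2 := f4 2 (by omega)
  have F3 := f4 3 (by omega)
  simp only [Nat.reduceAdd] at F0 F1 F2 F3
  rw [A0, A1, f2, one_smul] at F0
  rw [A1, A2] at F1
  rw [A2, A3] at F2
  have hf4 : f 4 • k • apex i = apex i := f3
  rw [A3, A4, hf4] at F3
  -- rotations
  have r1 : f 1 ∈ R i := H.link hy1 (by omega) (f1 1) (by omega)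
  have r3 : f 3 * k ∈ R i := by
    apply H.link hy2 (by omega) (mul_mem (f1 3) hk)
    rw [mul_smul, H.geod.symm, F3, H.QD_symm, QD_smul_right D R _ _ hk,
      H.QD_symm, QD_smul_right D R _ _ hk, H.QD_symm]
    omega
  -- the lifted vertex
  have q0 : D (apex i) (f 2 • p1) = QD D R (apex i) p1 := by
    have t1 := H.geod.tri (apex i) (f 1 • y1) (f 2 • p1)
    have t2 := QD_le D R (apex i) p1 (f1 2)
    have t3 : D (apex i) y1 + D y1 p1 = D (apex i) p1 := m1
    omega
  have hne : f 2 • p1 ≠ apex i := by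
    intro he
    rw [he, H.geod.self] at q0
    omega
  have hney1 : f 1 • y1 ≠ apex i := by
    intro he
    rw [he, H.geod.self] at F0
    omega
  have hFy2 : D (apex i) (f 3 • k • y2) = 1 := by
    rw [H.geod.symm, F3, H.QD_symm, QD_smul_right D R _ _ hk,
      H.QD_symm, QD_smul_right D R _ _ hk, H.QD_symm]
    omega
  have hney2 : f 3 • k • y2 ≠ apex i := by
    intro he
    rw [he, H.geod.self] at hFy2
    omega
  have g1 : ang i (f 2 • p1) (f 1 • y1) ≤ B := by
    apply H.ang_le_of_mem hne hney1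
    show D (f 2 • p1) (f 1 • y1) + D (f 1 • y1) (apex i) = D (f 2 • p1) (apex i)
    rw [H.geod.symm (f 2 • p1) (f 1 • y1), H.geod.symm (f 1 • y1) (apex i),
      H.geod.symm (f 2 • p1) (apex i)]
    have t3 : D (apex i) y1 + D y1 p1 = D (apex i) p1 := m1
    omega
  have g2 : ang i (f 2 • p1) (f 3 • k • y2) ≤ B := by
    apply H.ang_le_of_mem hne hney2
    show D (f 2 • p1) (f 3 • k • y2) + D (f 3 • k • y2) (apex i) = D (f 2 • p1) (apex i)
    rw [H.geod.symm (f 3 • k • y2) (apex i), H.geod.symm (f 2 • p1) (apex i), hFy2, F2]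
    have t3 : D (apex i) y2 + D y2 p2 = D (apex i) p2 := m2
    have t4 : QD D R p1 (k • y2) = D y2 p2 := by
      rw [s2.2, ← hkp, H.QD_smul, H.QD_symm]
    omega
  have g3 : ang i (f 1 • p1) (f 1 • y1) ≤ B := by
    have h3 : ang i p1 y1 ≤ B := by
      apply H.ang_le_of_mem hn1 (hy1 i)
      exact H.Intv_comm m1
    have h4 := H.ang_inv (f 1) i p1 y1
    rw [H.fix i _ r1] at h4
    omega
  have g4 : ang i (f 3 • p1) (f 3 • k • y2) ≤ B := by
    have h3 : ang i p2 y2 ≤ B := by
      apply H.ang_le_of_mem hn2 (hy2 i)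
      exact H.Intv_comm m2
    have h4 := H.ang_inv (f 3 * k) i p2 y2
    have e5 : (f 3 * k) • p2 = f 3 • p1 := by rw [mul_smul, hkp]
    have e6 : (f 3 * k) • y2 = f 3 • k • y2 := mul_smul _ _ _
    rw [H.fix i _ r3, e5, e6] at h4
    omega
  -- collect
  have hnf1 : f 1 • p1 ≠ apex i := by
    intro he
    apply hn1
    rw [← H.fix_apex (inv_mem r1), ← he, inv_smul_smul]
  have hnf3 : f 3 • p1 ≠ apex i := by
    intro he
    apply hn2
    rw [← H.fix_apex (inv_mem r3), ← he, ← hkp, mul_inv_rev, mul_smul, inv_smul_smul,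
      inv_smul_smul]
  have t1 := H.ang_tri i (f 1 • p1) (f 1 • y1) (f 3 • p1) hnf1 hney1 hnf3
  have t2 := H.ang_tri i (f 1 • y1) (f 2 • p1) (f 3 • p1) hney1 hne hnf3
  have t3 := H.ang_tri i (f 2 • p1) (f 3 • k • y2) (f 3 • p1) hne hney2 hnf3
  have t4 := H.ang_symm i (f 1 • y1) (f 2 • p1)
  have t5 := H.ang_symm i (f 3 • k • y2) (f 3 • p1)
  refine ⟨(f 1)⁻¹ * (f 3 * k), mul_mem (inv_mem r1) r3, ?_⟩
  have h5 := H.ang_inv (f 1)⁻¹ i (f 1 • p1) (f 3 • p1)
  rw [H.fix i _ (inv_mem r1), inv_smul_smul] at h5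
  have h6 : ((f 1)⁻¹ * (f 3 * k)) • p2 = (f 1)⁻¹ • f 3 • p1 := by
    rw [mul_smul, mul_smul, hkp]
  rw [h6, h5]
  omega

/-- coarse triangle inequality for intrinsic angles -/
lemma qang_tri (H : Rot D apex ang R B Λ) (hna : NoAdj D apex) {i : ι} {a b c : V}
    (ha : QD D R (apex i) a ≠ 0) (hb : QD D R (apex i) b ≠ 0) (hc : QD D R (apex i) c ≠ 0) :
    qang D apex ang R i a c ≤ qang D apex ang R i a b + qang D apex ang R i b c + 4 * B := by
  obtain ⟨a1, b1, ma, mb, h1⟩ := exists_qang D apex ang R i a b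
  obtain ⟨b2, c2, mb', mc, h2⟩ := exists_qang D apex ang R i b c
  obtain ⟨s, hs, h3⟩ := H.dir_unique hna hb mb mb'
  have h4 := qang_le (ang := ang) ma (mc.rot H hs)
  have n1 := ma.ne H ha
  have n2 := mb.ne H hb
  have n3 := (mb'.rot H hs).ne H hb
  have n4 := (mc.rot H hs).ne H hc
  have t1 := H.ang_tri i a1 b1 (s • c2) n1 n2 n4
  have t2 := H.ang_tri i b1 (s • b2) (s • c2) n2 n3 n4
  have t3 := H.ang_inv s i b2 c2
  rw [H.fix i s hs] at t3
  omega

/-- bounded geodesic image in the quotient -/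
lemma qang_bgi (H : Rot D apex ang R B Λ) {i : ι} {a b : V} (ha : QD D R (apex i) a ≠ 0)
    (hb : QD D R (apex i) b ≠ 0) (h : B < qang D apex ang R i a b) :
    QD D R a (apex i) + QD D R (apex i) b = QD D R a b := by
  have hbig := H.big
  obtain ⟨k1, hk1, e1⟩ := exists_QD D R (apex i) a
  obtain ⟨k2, hk2, e2⟩ := exists_QD D R (k1 • a) b
  obtain ⟨k3, hk3, e3⟩ := exists_QD D R (k2 • b) (apex i)
  let f0 : ℕ → V := fun n => if n = 0 then apex i else if n = 1 then k1 • a
    else if n = 2 then k2 • b else k3 • apex i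
  have A0 : f0 0 = apex i := rfl
  have A1 : f0 1 = k1 • a := rfl
  have A2 : f0 2 = k2 • b := rfl
  have A3 : f0 3 = k3 • apex i := rfl
  obtain ⟨f, f1, f2, f3, f4, -⟩ := H.lift 3 0 (by omega) (by omega) (fun _ => False) k3 hk3 f0
    (by rw [A3, A0]) (by
      intro n hn
      interval_cases n
      · rw [A0, A1, QD_smul_right D R _ _ hk1]; exact e1
      · rw [A1, A2, QD_smul_right D R _ _ hk2]; exact e2
      · rw [A2, A3, QD_smul_right D R _ _ hk3]; exact e3)
    (by intro n _ h; exact absurd h id)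
  have F0 := f4 0 (by omega)
  have F1 := f4 1 (by omega)
  have F2 := f4 2 (by omega)
  simp only [Nat.reduceAdd] at F0 F1 F2
  rw [A0, A1, f2, one_smul, QD_smul_right D R _ _ hk1] at F0
  rw [A1, A2, QD_smul_right D R _ _ hk2, H.QD_smul_left _ _ hk1] at F1
  have hf3 : f 3 • k3 • apex i = apex i := f3
  rw [A2, A3, hf3, QD_smul_right D R _ _ hk3, H.QD_smul_left _ _ hk2] at F2
  have ma : ML D apex R i a (f 1 • k1 • a) :=
    ⟨⟨f 1 * k1, mul_mem (f1 1) hk1, by rw [mul_smul]⟩, F0⟩
  have mb : ML D apex R i b (f 2 • k2 • b) :=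
    ⟨⟨f 2 * k2, mul_mem (f1 2) hk2, by rw [mul_smul]⟩, by
      rw [H.geod.symm, H.QD_symm]; exact F2⟩
  have h1 := qang_le (ang := ang) ma mb
  have h2 : D (f 1 • k1 • a) (apex i) + D (apex i) (f 2 • k2 • b)
      = D (f 1 • k1 • a) (f 2 • k2 • b) :=
    H.bgi i _ _ (ma.ne H ha) (mb.ne H hb) (by omega)
  rw [F1, H.geod.symm (f 1 • k1 • a) (apex i), F0, mb.2] at h2
  rw [H.QD_symm a (apex i)]
  exact h2

/-- equivariance of the intrinsic angle -/
lemma qang_smul (H : Rot D apex ang R B Λ) (g : G) (i : ι) (a b : V) :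
    qang D apex ang R (g • i) (g • a) (g • b) = qang D apex ang R i a b := by
  have key : ∀ (g : G) (i : ι) (a b : V),
      qang D apex ang R (g • i) (g • a) (g • b) ≤ qang D apex ang R i a b := by
    intro g i a b
    have hML : ∀ u u1, ML D apex R i u u1 → ML D apex R (g • i) (g • u) (g • u1) := by
      rintro u u1 ⟨⟨k, hk, rfl⟩, h2⟩
      refine ⟨⟨g * k * g⁻¹, H.KK_conj g hk, ?_⟩, ?_⟩
      · rw [← mul_smul, ← mul_smul]
        congr 1
        group
      · rw [H.apex_smul, H.inv, H.QD_smul]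
        exact h2
    obtain ⟨a1, b1, ma, mb, h⟩ := exists_qang D apex ang R i a b
    rw [← h, ← H.ang_inv g]
    exact qang_le (hML _ _ ma) (hML _ _ mb)
  apply le_antisymm (key g i a b)
  have := key g⁻¹ (g • i) (g • a) (g • b)
  rwa [inv_smul_smul, inv_smul_smul, inv_smul_smul] at this

/-- the intrinsic angle depends on orbits only -/
lemma qang_right (i : ι) (a b : V) {k : G} (hk : k ∈ KK R) :
    qang D apex ang R i a (k • b) = qang D apex ang R i a b := by
  have hML : ∀ (u u1 : V) {k : G}, k ∈ KK R →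
      (ML D apex R i (k • u) u1 → ML D apex R i u u1) := by
    rintro u u1 k hk ⟨⟨l, hl, rfl⟩, h2⟩
    refine ⟨⟨l * k, mul_mem hl hk, by rw [mul_smul]⟩, ?_⟩
    rw [h2, QD_smul_right D R _ _ hk]
  have hML' : ∀ (u u1 : V) {k : G}, k ∈ KK R →
      (ML D apex R i u u1 → ML D apex R i (k • u) u1) := by
    intro u u1 k hk h
    apply hML (k • u) u1 (inv_mem hk)
    rwa [inv_smul_smul]
  apply le_antisymm
  · obtain ⟨a1, b1, ma, mb, h⟩ := exists_qang D apex ang R i a b
    rw [← h]
    exact qang_le ma (hML' _ _ hk mb)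
  · obtain ⟨a1, b1, ma, mb, h⟩ := exists_qang D apex ang R i a (k • b)
    rw [← h]
    exact qang_le ma (hML _ _ hk mb)

lemma qang_left (H : Rot D apex ang R B Λ) (i : ι) (a b : V) {k : G} (hk : k ∈ KK R) :
    qang D apex ang R i (k • a) b = qang D apex ang R i a b := by
  rw [H.qang_symm, qang_right i b a hk, H.qang_symm]

/-! ### slimness of the quotient -/

/-- triangles in the quotient are as slim as upstairs -/
theorem QD_slim (H : Rot D apex ang R B Λ) {δ : ℕ} (hs : Slim D δ) : Slim (QD D R) δ := by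
  have hbig := H.big
  intro a b c z hz
  have hz' : QD D R a z + QD D R z b = QD D R a b := hz
  obtain ⟨k1, hk1, e1⟩ := exists_QD D R a z
  obtain ⟨k2, hk2, e2⟩ := exists_QD D R (k1 • z) b
  obtain ⟨k3, hk3, e3⟩ := exists_QD D R (k2 • b) c
  obtain ⟨k4, hk4, e4⟩ := exists_QD D R (k3 • c) a
  let f0 : ℕ → V := fun n => if n = 0 then a else if n = 1 then k1 • z
    else if n = 2 then k2 • b else if n = 3 then k3 • c else k4 • a
  have A0 : f0 0 = a := rfl
  have A1 : f0 1 = k1 • z := rfl
  have A2 : f0 2 = k2 • b := rfl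
  have A3 : f0 3 = k3 • c := rfl
  have A4 : f0 4 = k4 • a := rfl
  obtain ⟨f, f1, f2, f3, f4, -⟩ := H.lift 4 0 (by omega) (by omega) (fun _ => False) k4 hk4 f0
    (by rw [A4, A0]) (by
      intro n hn
      interval_cases n
      · rw [A0, A1, QD_smul_right D R _ _ hk1]; exact e1
      · rw [A1, A2, QD_smul_right D R _ _ hk2]; exact e2
      · rw [A2, A3, QD_smul_right D R _ _ hk3]; exact e3
      · rw [A3, A4, QD_smul_right D R _ _ hk4]; exact e4)
    (by intro n _ h; exact absurd h id)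
  have F0 := f4 0 (by omega)
  have F1 := f4 1 (by omega)
  have F2 := f4 2 (by omega)
  have F3 := f4 3 (by omega)
  simp only [Nat.reduceAdd] at F0 F1 F2 F3
  rw [A0, A1, f2, one_smul, QD_smul_right D R _ _ hk1] at F0
  rw [A1, A2, QD_smul_right D R _ _ hk2, H.QD_smul_left _ _ hk1] at F1
  rw [A2, A3, QD_smul_right D R _ _ hk3, H.QD_smul_left _ _ hk2] at F2
  have hf4 : f 4 • k4 • a = a := f3
  rw [A3, A4, hf4, QD_smul_right D R _ _ hk4, H.QD_smul_left _ _ hk3] at F3
  -- orbits of the lifted points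
  have o1 : ∀ u, QD D R u (f 1 • k1 • z) = QD D R u z := by
    intro u
    rw [QD_smul_right D R _ _ (f1 1), QD_smul_right D R _ _ hk1]
  have o2 : ∀ u, QD D R u (f 2 • k2 • b) = QD D R u b := by
    intro u
    rw [QD_smul_right D R _ _ (f1 2), QD_smul_right D R _ _ hk2]
  have o3 : ∀ u, QD D R u (f 3 • k3 • c) = QD D R u c := by
    intro u
    rw [QD_smul_right D R _ _ (f1 3), QD_smul_right D R _ _ hk3]
  have hmem : f 1 • k1 • z ∈ Intv D a (f 2 • k2 • b) := by
    show D a (f 1 • k1 • z) + D (f 1 • k1 • z) (f 2 • k2 • b) = D a (f 2 • k2 • b)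
    have t1 := H.geod.tri a (f 1 • k1 • z) (f 2 • k2 • b)
    have t2 := QD_le' D R a (f 2 • k2 • b)
    rw [o2] at t2
    omega
  obtain ⟨w, hw, hd⟩ := hs a (f 2 • k2 • b) (f 3 • k3 • c) _ hmem
  refine ⟨w, ?_, ?_⟩
  · rcases hw with hw | hw
    · left
      have h1 : D a (f 3 • k3 • c) = QD D R a (f 3 • k3 • c) := by
        rw [o3, H.geod.symm, F3, H.QD_symm]
      have h2 := H.QD_sub h1 hw
      have h3 : D a w + D w (f 3 • k3 • c) = D a (f 3 • k3 • c) := hw
      rw [o3] at h2 h1
      show QD D R a w + QD D R w c = QD D R a c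
      omega
    · right
      have h1 : D (f 3 • k3 • c) (f 2 • k2 • b) = QD D R (f 3 • k3 • c) (f 2 • k2 • b) := by
        rw [o2, H.QD_symm, o3, H.geod.symm, F2]
      have h2 := H.QD_sub h1 hw
      have h3 : D (f 3 • k3 • c) w + D w (f 2 • k2 • b) = D (f 3 • k3 • c) (f 2 • k2 • b) := hw
      rw [o2] at h2 h1
      rw [H.QD_symm (f 3 • k3 • c) w, o3] at h2
      rw [H.QD_symm (f 3 • k3 • c) b, o3] at h1
      show QD D R c w + QD D R w b = QD D R c b
      rw [H.QD_symm c w, H.QD_symm c b]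
      omega
  · have t1 := QD_le' D R (f 1 • k1 • z) w
    have t2 : QD D R z w = QD D R (f 1 • k1 • z) w := by
      rw [H.QD_symm (f 1 • k1 • z) w, o1, H.QD_symm]
    omega

end Rot

end Pool.Agent.Burnside
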