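import Pool.Agent.Burnside.Base

/-!
# The limit argument of the Burnside construction

If every stage of the construction (a group acting on a space with an integer metric) can be
followed by a quotient stage in which distances are divided by `M ≥ 2` and every element with
displacement at most `1` gets exponent `n`, and all stages are infinite groups, then the finitely
generated group of the first stage has an infinite quotient of exponent `n`.
-/

set_option autoImplicit false

namespace Pool.Agent.Burnside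

/-- The union of an increasing sequence of normal subgroups of infinite index of a finitely
generated group has infinite index. -/
theorem index_iSup_eq_zero {F : Type*} [Group F] [Group.FG F] {N : ℕ → Subgroup F}
    (hmono : Monotone N) (hinf : ∀ k, (N k).index = 0) : (⨆ k, N k).index = 0 := by
  by_contra hcon
  have hdir : Directed (· ≤ ·) N := hmono.directed_le
  have : (⨆ k, N k).FiniteIndex := ⟨hcon⟩
  have hfg : (⨆ k, N k).FG := (Group.fg_iff_subgroup_fg _).1 (Subgroup.fg_of_index_ne_zero _)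
  obtain ⟨S, hS⟩ := hfg
  have h1 : ∀ s : F, ∃ k, s ∈ S → s ∈ N k := by
    intro s
    by_cases hs : s ∈ S
    · have h2 : s ∈ ⨆ k, N k := by
        rw [← hS]
        exact Subgroup.subset_closure hs
      obtain ⟨k, hk⟩ := (Subgroup.mem_iSup_of_directed hdir).1 h2
      exact ⟨k, fun _ => hk⟩
    · exact ⟨0, fun h => absurd h hs⟩
  choose κ hκ using h1
  have h2 : (⨆ k, N k) ≤ N (S.sup κ) := by
    rw [← hS, Subgroup.closure_le]
    intro s hs
    exact hmono (Finset.le_sup (f := κ) hs) (hκ s hs)
  have h3 : (⨆ k, N k) = N (S.sup κ) := le_antisymm h2 (le_iSup N _)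
  exact hcon (by rw [h3]; exact hinf _)

/-- The union of an increasing sequence of normal subgroups is normal. -/
theorem normal_iSup {F : Type*} [Group F] {N : ℕ → Subgroup F} (hN : ∀ k, (N k).Normal)
    (hmono : Monotone N) : (⨆ k, N k).Normal := by
  have hdir : Directed (· ≤ ·) N := hmono.directed_le
  refine ⟨fun x hx g => ?_⟩
  rw [Subgroup.mem_iSup_of_directed hdir] at hx ⊢
  obtain ⟨k, hk⟩ := hx
  exact ⟨k, (hN k).conj_mem x hk g⟩

/-- Limit theorem: a sequence of normal subgroups and of length functions. -/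
theorem exists_quotient_of_tower {F : Type*} [Group F] [Group.FG F] {N : ℕ → Subgroup F}
    (hN : ∀ k, (N k).Normal) (hmono : ∀ k, N k ≤ N (k + 1)) (hinf : ∀ k, (N k).index = 0)
    {M n : ℕ} (hM : 2 ≤ M) {ℓ : ℕ → F → ℕ}
    (hℓ : ∀ k w j, ℓ k w ≤ j * M → ℓ (k + 1) w ≤ j)
    (hpow : ∀ k w, ℓ k w ≤ 1 → w ^ n ∈ N (k + 1)) :
    ∃ H : Subgroup F, H.Normal ∧ H.index = 0 ∧ (∀ w, w ^ n ∈ H) ∧ (∀ k, N k ≤ H) ∧
      ∀ w ∈ H, ∃ k, w ∈ N k := by
  have hmono' : Monotone N := monotone_nat_of_le_succ hmono
  have hdir : Directed (· ≤ ·) N := hmono'.directed_le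
  refine ⟨⨆ k, N k, normal_iSup hN hmono', index_iSup_eq_zero hmono' hinf, ?_,
    fun k => le_iSup N k, fun w hw => (Subgroup.mem_iSup_of_directed hdir).1 hw⟩
  have h1 : ∀ w, ∀ m k, ℓ k w ≤ m + 1 → ∃ i, ℓ i w ≤ 1 := by
    intro w m
    induction m with
    | zero => exact fun k h => ⟨k, by simpa using h⟩
    | succ m ih =>
      intro k h
      refine ih (k + 1) (hℓ k w (m + 1) ?_)
      nlinarith
  intro w
  obtain ⟨i, hi⟩ := h1 w (ℓ 0 w) 0 (by omega)
  exact (le_iSup N (i + 1)) (hpow i w hi)

/-- A state of the iteration. -/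
structure LState (P : ∀ (G X : Type) [Group G] [MulAction G X], (X → X → ℕ) → Prop)
    (F : Type) [Group F] where
  /-- the group -/
  G : Type
  /-- the space -/
  X : Type
  /-- group structure -/
  grp : Group G
  /-- action -/
  act : MulAction G X
  /-- metric -/
  d : X → X → ℕ
  /-- the stage hypothesis -/
  prop : P G X d
  /-- the projection -/
  proj : F →* G
  /-- it is onto -/
  surj : Function.Surjective proj
  /-- base point -/
  pt : X

/-- The length function of a state. -/
def LState.len {P : ∀ (G X : Type) [Group G] [MulAction G X], (X → X → ℕ) → Prop}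
    {F : Type} [Group F] (s : LState P F) (w : F) : ℕ :=
  letI := s.grp
  letI := s.act
  s.d s.pt (s.proj w • s.pt)

/-- The kernel of a state. -/
def LState.ker {P : ∀ (G X : Type) [Group G] [MulAction G X], (X → X → ℕ) → Prop}
    {F : Type} [Group F] (s : LState P F) : Subgroup F :=
  letI := s.grp
  s.proj.ker

/-- **Iteration of the one step theorem.** -/
theorem exists_quotient_of_step
    (P : ∀ (G X : Type) [Group G] [MulAction G X], (X → X → ℕ) → Prop) {M n : ℕ} (hM : 2 ≤ M)
    (hinf : ∀ (G X : Type) [Group G] [MulAction G X] (d : X → X → ℕ), P G X d → Nonempty X →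
      Infinite G)
    (hstep : ∀ (G X : Type) [Group G] [MulAction G X] (d : X → X → ℕ), P G X d → Nonempty X →
      ∃ (K : Subgroup G) (_ : K.Normal) (X' : Type) (_ : MulAction (G ⧸ K) X')
        (d' : X' → X' → ℕ) (f : X → X'), P (G ⧸ K) X' d' ∧
        (∀ (g : G) x, f (g • x) = (g : G ⧸ K) • f x) ∧
        (∀ x y j, d x y ≤ j * M → d' (f x) (f y) ≤ j) ∧
        (∀ (g : G) x, d x (g • x) ≤ 1 → g ^ n ∈ K))
    (F X : Type) [Group F] [MulAction F X] (d : X → X → ℕ) [Group.FG F] (h0 : P F X d)
    (hX : Nonempty X) :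
    ∃ H : Subgroup F, H.Normal ∧ H.index = 0 ∧ ∀ w, w ^ n ∈ H := by
  classical
  have hnext : ∀ s : LState P F, ∃ s' : LState P F, s.ker ≤ s'.ker ∧
      (∀ w j, s.len w ≤ j * M → s'.len w ≤ j) ∧ (∀ w, s.len w ≤ 1 → w ^ n ∈ s'.ker) := by
    intro s
    obtain ⟨G, X, grp, act, d, prop, proj, surj, pt⟩ := s
    obtain ⟨K, hK, X', act', d', f, hP, hf, hd, hg⟩ := hstep G X d prop ⟨pt⟩
    refine ⟨⟨G ⧸ K, X', inferInstance, act', d', hP, (QuotientGroup.mk' K).comp proj,
      (QuotientGroup.mk'_surjective K).comp surj, f pt⟩, ?_, ?_, ?_⟩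
    · intro w hw
      have hw' : proj w = 1 := hw
      show (QuotientGroup.mk' K).comp proj w = 1
      rw [MonoidHom.comp_apply, hw', map_one]
    · intro w j hw
      have h1 := hd pt (proj w • pt) j hw
      rw [hf] at h1
      exact h1
    · intro w hw
      have h1 := hg (proj w) pt hw
      show (QuotientGroup.mk' K).comp proj (w ^ n) = 1
      rw [MonoidHom.comp_apply, map_pow, QuotientGroup.mk'_apply, QuotientGroup.eq_one_iff]
      exact h1
  choose next hn1 hn2 hn3 using hnext
  obtain ⟨pt⟩ := hX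
  obtain ⟨s0, hs0⟩ : ∃ s0 : LState P F, s0 = ⟨F, X, inferInstance, inferInstance, d, h0,
    MonoidHom.id F, Function.surjective_id, pt⟩ := ⟨_, rfl⟩
  obtain ⟨s, hs⟩ : ∃ s : ℕ → LState P F, ∀ k, s (k + 1) = next (s k) :=
    ⟨fun k => next^[k] s0, fun k => Function.iterate_succ_apply' next k s0⟩
  obtain ⟨H, h1, h2, h3, -⟩ := exists_quotient_of_tower (N := fun k => (s k).ker)
    (fun k => by
      let _ := (s k).grp
      exact (s k).proj.normal_ker)
    (fun k => by
      show (s k).ker ≤ (s (k + 1)).ker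
      rw [hs]
      exact hn1 _)
    (fun k => by
      let _ := (s k).grp
      let _ := (s k).act
      have : Infinite (s k).G := hinf (s k).G (s k).X (s k).d (s k).prop ⟨(s k).pt⟩
      show (s k).proj.ker.index = 0
      rw [Subgroup.index_ker, Nat.card_eq_zero, MonoidHom.range_eq_top.2 (s k).surj]
      right
      exact Infinite.of_surjective (fun x : (⊤ : Subgroup (s k).G) => (x : (s k).G))
        (fun g => ⟨⟨g, trivial⟩, rfl⟩))
    hM (ℓ := fun k => (s k).len)
    (fun k w j h => by
      show (s (k + 1)).len w ≤ j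
      rw [hs]
      exact hn2 _ _ _ h)
    (fun k w h => by
      show w ^ n ∈ (s (k + 1)).ker
      rw [hs]
      exact hn3 _ _ h)
  exact ⟨H, h1, h2, h3⟩

/-- From a normal subgroup of the free group of rank two to a two generated group. -/
theorem exists_two_generated {n : ℕ} {H : Subgroup (FreeGroup Bool)} (h1 : H.Normal)
    (h2 : H.index = 0) (h3 : ∀ w, w ^ n ∈ H) :
    ∃ (G : Type) (_ : Group G) (t x : G), Infinite G ∧ Subgroup.closure {t, x} = ⊤ ∧
      ∀ g : G, g ^ n = 1 := by
  refine ⟨FreeGroup Bool ⧸ H, inferInstance, (FreeGroup.of false : FreeGroup Bool),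
    (FreeGroup.of true : FreeGroup Bool), ?_, ?_, ?_⟩
  · rw [Subgroup.index_eq_card, Nat.card_eq_zero] at h2
    rcases h2 with h2 | h2
    · exact absurd ⟨((1 : FreeGroup Bool) : FreeGroup Bool ⧸ H)⟩ (not_nonempty_iff.2 h2)
    · exact h2
  · have h4 : Subgroup.closure (Set.range (FreeGroup.of (α := Bool))) = ⊤ :=
      FreeGroup.closure_range_of Bool
    have h5 : Subgroup.map (QuotientGroup.mk' H) ⊤ = ⊤ :=
      Subgroup.map_top_of_surjective _ (QuotientGroup.mk'_surjective H)
    rw [← h4, MonoidHom.map_closure] at h5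
    rw [← h5]
    congr 1
    ext y
    constructor
    · rintro (h | h)
      · exact ⟨_, ⟨false, rfl⟩, h.symm⟩
      · exact ⟨_, ⟨true, rfl⟩, (Set.mem_singleton_iff.1 h).symm⟩
    · rintro ⟨_, ⟨b, rfl⟩, h⟩
      cases b
      · exact Or.inl h.symm
      · exact Or.inr h.symm
  · intro g
    obtain ⟨w, rfl⟩ := QuotientGroup.mk_surjective g
    rw [← QuotientGroup.mk_pow, QuotientGroup.eq_one_iff]
    exact h3 w

/-- **Infinite two generated groups of bounded exponent**, given the base case and the step. -/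
theorem exists_burnside_of_step
    (P : ∀ (G X : Type) [Group G] [MulAction G X], (X → X → ℕ) → Prop) {M n : ℕ} (hM : 2 ≤ M)
    (hinf : ∀ (G X : Type) [Group G] [MulAction G X] (d : X → X → ℕ), P G X d → Nonempty X →
      Infinite G)
    (hstep : ∀ (G X : Type) [Group G] [MulAction G X] (d : X → X → ℕ), P G X d → Nonempty X →
      ∃ (K : Subgroup G) (_ : K.Normal) (X' : Type) (_ : MulAction (G ⧸ K) X')
        (d' : X' → X' → ℕ) (f : X → X'), P (G ⧸ K) X' d' ∧
        (∀ (g : G) x, f (g • x) = (g : G ⧸ K) • f x) ∧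
        (∀ x y j, d x y ≤ j * M → d' (f x) (f y) ≤ j) ∧
        (∀ (g : G) x, d x (g • x) ≤ 1 → g ^ n ∈ K))
    (X : Type) [MulAction (FreeGroup Bool) X] (d : X → X → ℕ) (h0 : P (FreeGroup Bool) X d)
    (hX : Nonempty X) :
    ∃ (G : Type) (_ : Group G) (t x : G), Infinite G ∧ Subgroup.closure {t, x} = ⊤ ∧
      ∀ g : G, g ^ n = 1 := by
  obtain ⟨H, h1, h2, h3⟩ := exists_quotient_of_step P hM hinf hstep (FreeGroup Bool) X d h0 hX
  exact exists_two_generated h1 h2 h3

/-- A loxodromic element has infinite order. -/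
theorem infinite_of_lox {G X : Type*} [Group G] [MulAction G X] {d : X → X → ℕ} {T : ℕ} {g : G}
    (x : X) (hself : d x x = 0) (h : ∀ k : ℕ, k ≤ T * d x (g ^ k • x)) : Infinite G := by
  by_contra hcon
  have : Finite G := not_infinite_iff_finite.1 hcon
  have h1 := orderOf_pos g
  have h2 := h (orderOf g)
  rw [pow_orderOf_eq_one, one_smul, hself, mul_zero] at h2
  omega

/-- The group of a stage is infinite. -/
theorem Stage.infinite {G X : Type*} [Group G] [MulAction G X] {d : X → X → ℕ}
    {δ C A T n : ℕ} (h : Stage (G := G) d δ C A T n) : Infinite G := by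
  obtain ⟨x, -⟩ := h.ne
  obtain ⟨g, _, hg, -⟩ := h.s4
  exact infinite_of_lox x (h.geod.self x) (hg x)

/-- **Assembly.** If every stage can be followed by a quotient stage with the same constants, then
there is an infinite group with two generators of exponent `n`. -/
theorem exists_burnside {δ C A T n M : ℕ} (hn : 0 < n) (hT : 0 < T) (hA : 4 * C + 2 ≤ A)
    (hM : 2 ≤ M)
    (hstep : ∀ (G X : Type) [Group G] [MulAction G X] (d : X → X → ℕ),
      Stage (G := G) d δ C A T n →
      ∃ (K : Subgroup G) (_ : K.Normal) (X' : Type) (_ : MulAction (G ⧸ K) X')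
        (d' : X' → X' → ℕ) (f : X → X'), Stage (G := G ⧸ K) d' δ C A T n ∧
        (∀ (g : G) x, f (g • x) = (g : G ⧸ K) • f x) ∧
        (∀ x y j, d x y ≤ j * M → d' (f x) (f y) ≤ j) ∧
        (∀ (g : G) x, d x (g • x) ≤ 1 → g ^ n ∈ K)) :
    ∃ (G : Type) (_ : Group G) (t x : G), Infinite G ∧ Subgroup.closure {t, x} = ⊤ ∧
      ∀ g : G, g ^ n = 1 :=
  exists_burnside_of_step (fun G _ _ _ d => Stage (G := G) d δ C A T n) hM
    (fun _ _ _ _ _ h _ => Stage.infinite h)
    (fun G X _ _ d h _ => hstep G X d h) (FreeGroup Bool) dF (stage_free hn hT hA) ⟨1⟩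

end Pool.Agent.Burnside
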