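import Pool.Agent.Burnside.Iso

/-!
The quasi-line of a loxodromic isometry: orbits of points with (almost) minimal displacement,
displacement of commuting elements, points between two far points of the orbit are close to points
of minimal displacement. `H` is the constant of the four point inequality.
-/

namespace Pool.Agent.Burnside

open Set

variable {G X : Type*} [Group G] [MulAction G X] {d : X → X → ℕ} {H : ℕ}

/-- the four point inequality with constant `H` -/
def FourPt (d : X → X → ℕ) (H : ℕ) : Prop :=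
  ∀ x y z t, d x z + d y t ≤ d x y + d z t + H ∨ d x z + d y t ≤ d x t + d y z + H

lemma Slim.fp {δ : ℕ} (hd : IsGeod d) (hs : Slim d δ) : FourPt d (4 * δ + 2) :=
  fun x y z t => four_point hd hs x y z t

/-- a point of minimal displacement -/
def IsMin (d : X → X → ℕ) (w : G) (x : X) : Prop := ∀ z : X, d x (w • x) ≤ d z (w • z)

lemma orb (hG : Isom G d) (w : G) (z : X) (i j : ℕ) :
    d (w ^ i • z) (w ^ (i + j) • z) = d z (w ^ j • z) := by
  rw [pow_add, mul_smul, hG]

/-- growth of the orbit of a point with almost additive first steps -/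
lemma orbit_step (hF : FourPt d H) (hG : Isom G d) {w : G} {z : X} {e : ℕ}
    (h2 : 2 * d z (w • z) ≤ d z (w ^ 2 • z) + e) (h1 : e + H + 1 ≤ d z (w • z)) :
    ∀ k, 1 ≤ k → d z (w ^ k • z) + d z (w • z) ≤ d z (w ^ (k + 1) • z) + (e + H) := by
  intro k hk
  induction k, hk using Nat.le_induction with
  | base =>
    rw [pow_one]
    show _ ≤ d z (w ^ 2 • z) + _
    omega
  | succ k hk ih =>
    have h4 := hF z (w • z) (w ^ 2 • z) (w ^ (k + 2) • z)
    have e1 : d (w • z) (w ^ (k + 2) • z) = d z (w ^ (k + 1) • z) := by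
      have := orb hG w z 1 (k + 1)
      rw [pow_one] at this
      rw [← this]
      ring_nf
    have e2 : d (w ^ 2 • z) (w ^ (k + 2) • z) = d z (w ^ k • z) := by
      rw [← orb hG w z 2 k]
      ring_nf
    have e3 : d (w • z) (w ^ 2 • z) = d z (w • z) := by
      have := orb hG w z 1 1
      rw [pow_one] at this
      rw [← this]
    rw [e1, e2, e3] at h4
    show _ ≤ d z (w ^ (k + 2) • z) + _
    omega

/-- almost additivity along the orbit -/
lemma orbit_add (hd : IsGeod d) (hF : FourPt d H) (hG : Isom G d) {w : G} {z : X} {e : ℕ}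
    (h2 : 2 * d z (w • z) ≤ d z (w ^ 2 • z) + e) (h1 : e + 2 * H + 1 ≤ d z (w • z)) (j k : ℕ) :
    d z (w ^ j • z) + d z (w ^ k • z) ≤ d z (w ^ (j + k) • z) + (e + 2 * H) := by
  rcases Nat.eq_zero_or_pos j with hj | hj
  · have e0 : w ^ (j + k) = w ^ k := by rw [hj, Nat.zero_add]
    rw [e0, hj, pow_zero, one_smul, hd.self]
    omega
  rcases Nat.eq_zero_or_pos k with hk | hk
  · have e0 : w ^ (j + k) = w ^ j := by rw [hk, Nat.add_zero]
    rw [e0, hk, pow_zero, one_smul, hd.self]
    omega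
  obtain ⟨k', rfl⟩ : ∃ k', k = k' + 1 := ⟨k - 1, by omega⟩
  have h4 := hF z (w ^ j • z) (w ^ (j + 1) • z) (w ^ (j + (k' + 1)) • z)
  have e1 : d (w ^ j • z) (w ^ (j + (k' + 1)) • z) = d z (w ^ (k' + 1) • z) := orb hG w z j _
  have e2 : d (w ^ (j + 1) • z) (w ^ (j + (k' + 1)) • z) = d z (w ^ k' • z) := by
    rw [← orb hG w z (j + 1) k']
    ring_nf
  have e3 : d (w ^ j • z) (w ^ (j + 1) • z) = d z (w • z) := by
    rw [orb hG w z j 1, pow_one]
  rw [e1, e2, e3] at h4
  have h5 := orbit_step hF hG h2 (by omega) j hj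
  have h6 : d z (w ^ k' • z) + d z (w • z) ≤ d z (w ^ (k' + 1) • z) + (e + H) := by
    rcases Nat.eq_zero_or_pos k' with h0 | h0
    · subst h0
      rw [pow_zero, one_smul, hd.self, Nat.zero_add, pow_one]
      omega
    · exact orbit_step hF hG h2 (by omega) k' h0
  omega

lemma orbit_large (hF : FourPt d H) (hG : Isom G d) {w : G} {z : X} {e : ℕ}
    (h2 : 2 * d z (w • z) ≤ d z (w ^ 2 • z) + e) (h1 : e + H + 1 ≤ d z (w • z)) (k : ℕ) :
    k ≤ d z (w ^ k • z) := by
  induction k with
  | zero => omega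
  | succ k ih =>
    rcases Nat.eq_zero_or_pos k with h0 | h0
    · subst h0
      rw [zero_add, pow_one]
      omega
    · have := orbit_step hF hG h2 h1 k h0
      omega

/-- displacement of an element commuting with `w` at a point of the line of `w` -/
lemma disp_le_sl {δ : ℕ} (hd : IsGeod d) (hs : Slim d δ) (hG : Isom G d) {w h : G} {x : X}
    {e : ℕ} (h2 : 2 * d x (w • x) ≤ d x (w ^ 2 • x) + e)
    (h1 : e + 2 * (4 * δ + 2) + 1 ≤ d x (w • x)) (hc : w * h = h * w) :
    (d x (h • x) : ℝ) ≤ sl d h + (2 * e + 8 * (4 * δ + 2)) := by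
  have hF := Slim.fp hd hs
  set a := d x (h • x) with ha
  set N := e + 4 * (4 * δ + 2) + 1 with hN
  have hcomm : Commute w h := hc
  have hb := orbit_large hF hG h2 (by omega) N
  have hadd := orbit_add hd hF hG h2 h1 N N
  set b := d x (w ^ N • x) with hbdef
  -- `q = w ^ N x`, `p = w ^ (-N) x`
  have key : ∀ g : G, Commute w g → d x (g • x) = a →
      b + a ≤ d (w ^ N • x) (g • x) + (e + 3 * (4 * δ + 2)) → (a : ℝ) ≤ sl d g +
        (2 * e + 8 * (4 * δ + 2)) := by
    intro g hg hga hq
    have e1 : d (g • w ^ N • x) (g • g • x) = d (w ^ N • x) (g • x) := hG _ _ _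
    have e2 : d (g • w ^ N • x) (g • x) = b := by
      rw [hG, hd.symm]
    have e3 : d (w ^ N • x) (g • w ^ N • x) = a := by
      have : g • w ^ N • x = w ^ N • g • x := by
        rw [smul_smul, smul_smul, (hg.pow_left N).eq]
      rw [this, hG, hga]
    have e4 : d (g • x) (g • g • x) = a := by rw [hG, hga]
    have h4 := hF (g • w ^ N • x) (w ^ N • x) (g • g • x) (g • x)
    have e5 := hd.symm (w ^ N • x) (g • w ^ N • x)
    have e6 := hd.symm (g • g • x) (g • x)
    have h5 := hd.tri (w ^ N • x) x (g • g • x)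
    have e7 := hd.symm (w ^ N • x) x
    have h6 : 2 * a ≤ d x (g • g • x) + (2 * e + 7 * (4 * δ + 2)) := by
      rcases h4 with h4 | h4
      · omega
      · omega
    have h7 := sl_growth hd hs hG g x
    have e8 : g ^ 2 • x = g • g • x := by rw [pow_two, mul_smul]
    rw [e8, hga] at h7
    have h8 : (2 : ℝ) * a ≤ d x (g • g • x) + (2 * e + 7 * (4 * δ + 2)) := by exact_mod_cast h6
    linarith
  have h3 := hF x (w ^ N • x) (w ^ (N + N) • x) (w ^ N • h • x)
  have e1 : d x (w ^ N • h • x) = d (w ^ N • x) (h⁻¹ • x) := by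
    have : w ^ N • h • x = h • w ^ N • x := by
      rw [smul_smul, smul_smul, (hcomm.pow_left N).eq]
    rw [this, ← hG h (w ^ N • x), smul_inv_smul, hd.symm]
  have e2 : d (w ^ (N + N) • x) (w ^ N • h • x) = d (w ^ N • x) (h • x) := by
    rw [pow_add, mul_smul, hG]
  have e3 : d (w ^ N • x) (w ^ N • h • x) = a := hG _ _ _
  have e4 : d (w ^ N • x) (w ^ (N + N) • x) = b := orb hG w x N N
  rw [e1, e2, e3, e4] at h3
  rcases h3 with h3 | h3
  · exact key h hcomm rfl (by omega)
  · have h4 := key h⁻¹ hcomm.inv_right (by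
      rw [← hG h x, smul_inv_smul, hd.symm]) (by omega)
    rwa [sl_inv hd hG] at h4

/-- a large minimal displacement gives an almost additive orbit -/
lemma IsMin.two {δ : ℕ} (hd : IsGeod d) (hs : Slim d δ) (hG : Isom G d) {w : G} {x : X}
    (hx : IsMin d w x) (hl : 2 * (4 * δ + 2) + 2 ≤ d x (w • x)) :
    2 * d x (w • x) ≤ d x (w ^ 2 • x) + 2 * (4 * δ + 2) :=
  Iso.arc hd hs hG hx hl

lemma IsMin.smul (hG : Isom G d) {w g : G} {x : X} (hx : IsMin d w x) (hc : w * g = g * w) :
    IsMin d w (g • x) := by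
  intro z
  have h1 : w • g • x = g • w • x := by rw [smul_smul, smul_smul, hc]
  rw [h1, hG]
  exact hx z

lemma IsMin.mem_Intv (hd : IsGeod d) (hG : Isom G d) {w : G} {x z : X} (hx : IsMin d w x)
    (hz : z ∈ Intv d x (w • x)) : IsMin d w z := by
  intro y
  have hz' : d x z + d z (w • x) = d x (w • x) := hz
  have h1 := hd.tri z (w • x) (w • z)
  have h2 : d (w • x) (w • z) = d x z := hG _ _ _
  have h3 := hx y
  omega

/-- discrete intermediate values of the distance to a point along a geodesic -/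
lemma exists_dist_eq (hd : IsGeod d) (p a b : X) (r : ℕ) (ha : d p a ≤ r) (hb : r ≤ d p b) :
    ∃ z ∈ Intv d a b, d p z = r := by
  obtain ⟨P, hP0, hPN, hP⟩ := exists_path hd _ a b rfl
  classical
  have hex : ∃ i, i ≤ d a b ∧ r ≤ d p (P i) := ⟨d a b, le_rfl, by rw [hPN]; exact hb⟩
  obtain ⟨h1, h2⟩ := Nat.find_spec hex
  refine ⟨P (Nat.find hex), ?_, ?_⟩
  · have := hP.mem_Intv h1
    rwa [hP0, hPN] at this
  · rcases Nat.eq_zero_or_pos (Nat.find hex) with h | h
    · rw [h, hP0] at h2 ⊢
      omega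
    · obtain ⟨i, hi⟩ : ∃ i, Nat.find hex = i + 1 := ⟨Nat.find hex - 1, by omega⟩
      have h3 : ¬ (i ≤ d a b ∧ r ≤ d p (P i)) := Nat.find_min hex (by omega)
      rw [hi] at h1 h2 ⊢
      have h4 := hP i (i + 1) (by omega) h1
      have h5 := hd.tri p (P i) (P (i + 1))
      have h6 : d p (P i) < r := by
        by_contra hc
        exact h3 ⟨by omega, by omega⟩
      omega

/-- a point almost between two points of the orbit of a minimal point is close to a minimal
point -/
lemma near_line (hd : IsGeod d) (hF : FourPt d H) (hG : Isom G d) {w : G} {x : X}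
    (hx : IsMin d w x) (h2 : 2 * d x (w • x) ≤ d x (w ^ 2 • x) + 2 * H)
    (h1 : 4 * H + 1 ≤ d x (w • x)) {z : X} {m c : ℕ}
    (hz : d x z + d z (w ^ m • x) ≤ d x (w ^ m • x) + c) :
    ∃ z', IsMin d w z' ∧ d z z' ≤ max (8 * H) c + H := by
  have hadd := fun j k => orbit_add hd hF hG h2 (by omega) j k
  have hpm : ∀ j : ℕ, IsMin d w (w ^ j • x) := fun j =>
    hx.smul hG ((Commute.refl w).pow_right j).eq
  rcases le_or_gt (d x (w ^ m • x)) (d x z) with hr | hr
  · exact ⟨w ^ m • x, hpm m, by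
      have := le_max_right (8 * H) c
      omega⟩
  · classical
    have hex : ∃ j, d x z < d x (w ^ j • x) := ⟨m, hr⟩
    have h3 := Nat.find_spec hex
    have hm : Nat.find hex ≤ m := Nat.find_min' hex hr
    have hpos : 0 < Nat.find hex := by
      rcases Nat.eq_zero_or_pos (Nat.find hex) with h | h
      · rw [h, pow_zero, one_smul, hd.self] at h3
        omega
      · exact h
    obtain ⟨j, hj⟩ : ∃ j, Nat.find hex = j + 1 := ⟨Nat.find hex - 1, by omega⟩
    have h4 : d x (w ^ j • x) ≤ d x z := by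
      by_contra hc
      have := Nat.find_min' hex (m := j) (by omega)
      omega
    rw [hj] at h3 hm
    obtain ⟨z', hz', hr'⟩ := exists_dist_eq hd x (w ^ j • x) (w ^ (j + 1) • x) (d x z) h4 h3.le
    have hw1 : w ^ (j + 1) • x = w • w ^ j • x := by rw [pow_succ', mul_smul]
    have hmin : IsMin d w z' := by
      rw [hw1] at hz'
      exact (hpm j).mem_Intv hd hG hz'
    have e1 : d (w ^ j • x) z' + d z' (w ^ (j + 1) • x) = d (w ^ j • x) (w ^ (j + 1) • x) := hz'
    have e2 : d (w ^ j • x) (w ^ (j + 1) • x) = d x (w • x) := by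
      rw [orb hG w x j 1, pow_one]
    obtain ⟨l, hl⟩ : ∃ l, m = (j + 1) + l := ⟨m - (j + 1), by omega⟩
    have e3 : d (w ^ (j + 1) • x) (w ^ m • x) = d x (w ^ l • x) := by
      rw [hl]
      exact orb hG w x _ _
    have a1 := hadd j 1
    rw [pow_one] at a1
    have a2 := hadd (j + 1) l
    rw [← hl] at a2
    have t1 := hd.tri x (w ^ j • x) z'
    have t2 := hd.tri z' (w ^ (j + 1) • x) (w ^ m • x)
    have h5 := hF z x z' (w ^ m • x)
    have s1 := hd.symm z x
    refine ⟨z', hmin, ?_⟩
    have m1 := le_max_left (8 * H) c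
    have m2 := le_max_right (8 * H) c
    have s2 := hd.symm x z'
    rcases h5 with h5 | h5
    · omega
    · omega

/-- a point with almost minimal displacement lies almost between two far points of the orbit of
every point `x` -/
lemma between (hd : IsGeod d) (hF : FourPt d H) (hG : Isom G d) {w : G} {z : X} (x : X) {e : ℕ}
    (h2 : 2 * d z (w • z) ≤ d z (w ^ 2 • z) + e) (h1 : e + 2 * H + 1 ≤ d z (w • z)) {k : ℕ}
    (hk : 2 * d x z + e + 4 * H + 1 ≤ k) :
    d x (w ^ k • z) + d (w ^ k • z) (w ^ (k + k) • x) ≤ d x (w ^ (k + k) • x) + (e + 4 * H) := by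
  have hadd := orbit_add hd hF hG h2 h1 k k
  have hb := orbit_large hF hG h2 (by omega) k
  set b := d z (w ^ k • z) with hbdef
  have e1 : d (w ^ k • z) (w ^ (k + k) • z) = b := orb hG w z k k
  have e2 : d (w ^ (k + k) • z) (w ^ (k + k) • x) = d z x := hG _ _ _
  have s0 := hd.symm z x
  have t1 := hd.tri (w ^ k • z) (w ^ (k + k) • x) (w ^ (k + k) • z)
  have s1 := hd.symm (w ^ (k + k) • x) (w ^ (k + k) • z)
  have f1 := hF z (w ^ k • z) (w ^ (k + k) • z) (w ^ (k + k) • x)
  have s2 := hd.symm (w ^ k • z) (w ^ (k + k) • z)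
  have t2 := hd.tri z x (w ^ k • z)
  have f2 := hF z (w ^ k • z) (w ^ (k + k) • x) x
  have s3 := hd.symm (w ^ (k + k) • x) x
  have s4 := hd.symm (w ^ k • z) x
  rcases f1 with f1 | f1
  · omega
  · rcases f2 with f2 | f2
    · omega
    · omega

/-- a point with almost minimal displacement is close to a minimal point -/
lemma near_min (hd : IsGeod d) (hF : FourPt d H) (hG : Isom G d) {w : G} {x z : X}
    (hx : IsMin d w x) (h2 : 2 * d x (w • x) ≤ d x (w ^ 2 • x) + 2 * H)
    (h1 : 4 * H + 1 ≤ d x (w • x)) {k c : ℕ}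
    (hz : d x (w ^ k • z) + d (w ^ k • z) (w ^ (k + k) • x) ≤ d x (w ^ (k + k) • x) + c) :
    ∃ z', IsMin d w z' ∧ d z z' ≤ max (8 * H) c + H := by
  obtain ⟨z', h3, h4⟩ := near_line hd hF hG hx h2 h1 hz
  refine ⟨(w ^ k)⁻¹ • z', h3.smul hG (((Commute.refl w).pow_right k).inv_right).eq, ?_⟩
  rw [← hG (w ^ k), smul_inv_smul]
  exact h4

/-- intervals between two points which are almost between `P` and `Q` -/
lemma between_Intv (hd : IsGeod d) (hF : FourPt d H) {P Q x y z : X} {c : ℕ}
    (hx : d P x + d x Q ≤ d P Q + c) (hy : d P y + d y Q ≤ d P Q + c) (hz : z ∈ Intv d x y) :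
    d P z + d z Q ≤ d P Q + (2 * c + H) := by
  have hz' : d x z + d z y = d x y := hz
  have f1 := hF x P y Q
  have s1 := hd.symm x P
  have s2 := hd.symm P y
  have s3 := hd.symm y P
  have s4 := hd.symm x z
  have s5 := hd.symm y z
  rcases le_total (d P x) (d P y) with h | h
  · have t1 := hd.tri P x z
    have t2 := hd.tri z y Q
    rcases f1 with f1 | f1
    · omega
    · omega
  · have t1 := hd.tri P y z
    have t2 := hd.tri z x Q
    rcases f1 with f1 | f1
    · omega
    · omega

end Pool.Agent.Burnside
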