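import Pool.Agent.Burnside.Step

/-!
Existence of infinite groups with two generators and bounded (odd) exponent.
-/

set_option autoImplicit false

namespace Pool.Agent.Burnside

lemma ck31 : cκ 31 = 7308 := by norm_num [cκ, cH]
lemma ce31 : cη 31 = 7433 := by norm_num [cη, cκ, cH]
lemma cD31 : cD2 31 = 2018 := by norm_num [cD2, cH]
lemma cc31 : cc0 31 = 153352 := by norm_num [cc0, cη, cκ, cH, cD2]
lemma cT31 (A : ℕ) : cΘ 31 A = A + 252128 := by
  unfold cΘ
  rw [cD31, ce31, ck31]

lemma cE_le (T : ℕ) (h : T ≤ 2 ^ 90) : cE 31 T ≤ 30000 := by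
  have h1 : Nat.clog 2 (T * (2 * 7433 + 1)) ≤ 110 := by
    apply Nat.clog_le_of_le_pow
    have : (2 : ℕ) ^ 110 = 2 ^ 90 * 2 ^ 20 := by norm_num
    rw [this]
    exact Nat.mul_le_mul h (by norm_num)
  unfold cE
  rw [ce31]
  omega

theorem num : Num 1490 8000000023842 5301111829998327060304150 (2 * (5301111829998327060304150 * 1000000000000000000000000000000000000000000000000000000000000) + 1) 100000000000000 1000000000000000000000000000000000000000000000000000000000000 4000000000000 34568260108732374160 671868442115705923940 2848000008971318 where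
  odd := ⟨_, rfl⟩
  hC := le_rfl
  hT := by norm_num
  hB := by
    unfold Cone.BB
    rw [ck31, cT31]
  hM := by
    rw [ck31]
    norm_num
  hΛ1 := by norm_num
  hn1 := by norm_num
  hρ2 := by norm_num
  hρ3 := by norm_num
  hT2 := by
    rw [cc31]
  hΛ2 := by
    rw [cc31]
    norm_num
  hΛ3 := by
    rw [cc31]
    norm_num
  hL0 := by norm_num
  hA := by norm_num
  hM1 := by
    rw [cc31]
    norm_num
  hM2 := by
    have h := cE_le 5301111829998327060304150 (by norm_num)
    refine le_trans (Nat.add_le_add_right (Nat.add_le_add_left h _) _) ?_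
    norm_num
  hn2 := by
    rw [cD31]
    norm_num

/-- **There is an infinite group with two generators and finite (odd) exponent.** -/
theorem exists_infinite_burnside : ∃ (n : ℕ), Odd n ∧
    ∃ (G : Type) (_ : Group G) (t x : G), Infinite G ∧ Subgroup.closure {t, x} = ⊤ ∧
      ∀ g : G, g ^ n = 1 :=
  ⟨_, num.odd, exists_burnside num.odd.pos num.hT (by norm_num) (by norm_num)
    (fun G X _ _ d S => stage_step num G X d S)⟩

end Pool.Agent.Burnside
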