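import Pool.Agent.Burnside.Quad
import Pool.Agent.Burnside.Inst

/-!
The pivot-poor case: two points of the quotient with small angles between them, moved a little by
one or two elements.
-/

set_option autoImplicit false
set_option linter.unusedVariables false

namespace Pool.Agent.Burnside

open Cone

section

variable {G X ι G' V' ι' : Type} [Group G] [MulAction G X] [MulAction G ι] [Group G']
  [MulAction G' V'] [MulAction G' ι'] {d : X → X → ℕ} {Y : ι → Set X} {R : ι → Subgroup G}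
  {M δ κ Θ C A T n D1 D2 E c0 Λ : ℕ} {D' : V' → V' → ℕ} {apex' : ι' → V'}
  {ang' : ι' → V' → V' → ℕ} {π : G →* G'} {p : X ⊕ ι → V'} {q : ι → ι'}

/-- the image of a loxodromic element which fixes no apex and has bounded displacement is
loxodromic -/
theorem lox_of_f1 (hC : Cone d Y δ κ M) (hP : Pack d Y R κ Θ A T n D1 D2 E c0)
    (hR : Rot (coneDist d Y M) (Sum.inr : ι → X ⊕ ι) (dPr d Y) R (BB δ κ M Θ) Λ)
    (hQ : Quo (coneDist d Y M) (Sum.inr : ι → X ⊕ ι) (dPr d Y) R (BB δ κ M Θ) Λ D' apex' ang'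
      π p q) {g : G} {x : X} {ρ : ℕ} (hg : g ^ n ≠ 1) (hfix : ∀ i : ι, g • i ≠ i)
    (hx : d x (g • x) ≤ ρ) (hΛ : A + c0 * (ρ + 1) + 13 * BB δ κ M Θ < Λ) :
    Lox D' (M + (A + c0 * (ρ + 1)) + 2 * BB δ κ M Θ) (π g) := by
  obtain ⟨q0, hq1, hq2⟩ := hP.f1 g x ρ hg hfix hx
  set Th := A + c0 * (ρ + 1) with hTh
  refine lox_arc hQ.sys.geod hQ.sys.inv (N := 1) (c := 0) le_rfl (π g) (p (Sum.inl q0)) ?_
  intro j
  rw [one_mul, Nat.add_zero]
  have h1 := hQ.f3 (Sum.inl q0) (Sum.inl (g ^ j • q0)) Th (by omega) (by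
    intro i _ _
    exact hq2 i j)
  have h2 := dist_le_of_ang hC hP.pb (x := q0) (y := g ^ j • q0) (Th := Th) (fun i => hq2 i j)
  have h3 : p (Sum.inl (g ^ j • q0)) = (π g) ^ j • p (Sum.inl q0) := by
    rw [← map_pow, ← hQ.p_smul]
    rfl
  rw [h1, h3] at h2
  have h4 := hq1 j
  rw [mul_comm]
  exact le_trans h4 h2

/-- displacement in `X` of a point in the middle of a quadrilateral -/
lemma disp_le (hC : Cone d Y δ κ M) (hPB : PB d Y Θ)
    (hR : Rot (coneDist d Y M) (Sum.inr : ι → X ⊕ ι) (dPr d Y) R (BB δ κ M Θ) Λ) {H Th C1 : ℕ}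
    (hF : FPt (coneDist d Y M) H) {a b : X ⊕ ι}
    (hab : ∀ i, a ≠ Sum.inr i → b ≠ Sum.inr i → dPr d Y i a b ≤ Th) (g : G) {x : X}
    (hz : Sum.inl x ∈ Intv (coneDist d Y M) a b) (ha : coneDist d Y M a (g • a) ≤ C1)
    (hb : coneDist d Y M b (g • b) ≤ C1)
    (hza : 2 * C1 + 3 * H < coneDist d Y M a (Sum.inl x))
    (hzb : 2 * C1 + 3 * H < coneDist d Y M (Sum.inl x) b) :
    d x (g • x) ≤ (C1 + 3 * H) * (M + (2 * Th + 3 * BB δ κ M Θ) + 2 * BB δ κ M Θ) := by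
  obtain ⟨h1, h2⟩ := mid_ang hR hF hab g hz ha hb hza hzb
  have h3 := dist_le_of_ang hC hPB (x := x) (y := g • x)
    (Th := 2 * Th + 3 * BB δ κ M Θ) (by
      intro i
      exact h2 i (by simp) (by
        intro he
        have : (Sum.inl (g • x) : X ⊕ ι) = Sum.inr i := he
        simp at this))
  refine le_trans h3 (Nat.mul_le_mul_right _ ?_)
  exact h1

/-- a vertex of `X` close to a given position on a geodesic path of the cone-off -/
lemma exists_inl (hC : Cone d Y δ κ M) {N : ℕ} {P : ℕ → X ⊕ ι}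
    (hP : IsPath (coneDist d Y M) N P) (k : ℕ) (hk : k + 1 ≤ N) :
    ∃ x : X, ∃ l, (l = k ∨ l = k + 1) ∧ P l = Sum.inl x := by
  rcases h0 : P k with x | i
  · exact ⟨x, k, Or.inl rfl, h0⟩
  · rcases h1 : P (k + 1) with y | j
    · exact ⟨y, k + 1, Or.inr rfl, h1⟩
    · exfalso
      have h2 := hP k (k + 1) (by omega) hk
      rw [h0, h1] at h2
      by_cases hij : i = j
      · rw [hij, hC.isGeod.self] at h2
        omega
      · have := one_lt_apex hC hij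
        omega

/-- lifting of a pair of far apart points with small angles -/
theorem poor_lift (hclose : ClosingStmt) (hC : Cone d Y δ κ M)
    (hP : Pack d Y R κ Θ A T n D1 D2 E c0)
    (hR : Rot (coneDist d Y M) (Sum.inr : ι → X ⊕ ι) (dPr d Y) R (BB δ κ M Θ) Λ)
    (hQ : Quo (coneDist d Y M) (Sum.inr : ι → X ⊕ ι) (dPr d Y) R (BB δ κ M Θ) Λ D' apex' ang'
      π p q) {H Th C1 L0 ρ : ℕ} (hF : FPt (coneDist d Y M) H) (hTB : BB δ κ M Θ ≤ Th)
    (hΛ : 4 * (Th + 14 * BB δ κ M Θ) + 12 * BB δ κ M Θ < Λ)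
    (hρ : ρ = (C1 + 3 * H) *
      (M + (2 * (Th + 14 * BB δ κ M Θ) + 3 * BB δ κ M Θ) + 2 * BB δ κ M Θ))
    {x' y' : V'} (hL : L0 ≤ D' x' y') (hL0 : 4 * C1 + 6 * H + 6 ≤ L0)
    (hang : ∀ i', x' ≠ apex' i' → y' ≠ apex' i' → ang' i' x' y' ≤ Th) :
    ∃ x y : X, L0 ≤ coneDist d Y M (Sum.inl x) (Sum.inl y) + (4 * C1 + 6 * H + 4) ∧
      ∀ g' : G', D' x' (g' • x') ≤ C1 → D' y' (g' • y') ≤ C1 →
        ∃ g : G, π g = g' ∧ d x (g • x) ≤ ρ ∧ d y (g • y) ≤ ρ := by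
  obtain ⟨a, rfl⟩ := hQ.p_surj x'
  obtain ⟨b0, rfl⟩ := hQ.p_surj y'
  obtain ⟨k, hk, hkD, hkang⟩ := hQ.sal a b0 Th hang
  set b := k • b0 with hb
  have hpb : p b0 = p b := (hQ.p_eq b0 b).2 ⟨k, hk, rfl⟩
  obtain ⟨P, hP0, hPN, hPP⟩ := exists_path hC.isGeod _ a b rfl
  set N := coneDist d Y M a b with hN
  have hNL : L0 ≤ N := by rw [hkD]; exact hL
  obtain ⟨x, l, hl, hlx⟩ := exists_inl hC hPP (2 * C1 + 3 * H + 1) (by omega)
  obtain ⟨y, m, hm, hmy⟩ := exists_inl hC hPP (N - (2 * C1 + 3 * H + 1) - 1) (by omega)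
  have hx1 : coneDist d Y M a (Sum.inl x) = l := by
    have := hPP 0 l (by omega) (by omega)
    rw [hP0, hlx] at this
    omega
  have hx2 : coneDist d Y M (Sum.inl x) b = N - l := by
    have := hPP l N (by omega) le_rfl
    rwa [hPN, hlx] at this
  have hy1 : coneDist d Y M a (Sum.inl y) = m := by
    have := hPP 0 m (by omega) (by omega)
    rw [hP0, hmy] at this
    omega
  have hy2 : coneDist d Y M (Sum.inl y) b = N - m := by
    have := hPP m N (by omega) le_rfl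
    rwa [hPN, hmy] at this
  have hxI : Sum.inl x ∈ Intv (coneDist d Y M) a b := by
    have := hPP.mem_Intv (i := l) (by omega)
    rwa [hP0, hPN, hlx] at this
  have hyI : Sum.inl y ∈ Intv (coneDist d Y M) a b := by
    have := hPP.mem_Intv (i := m) (by omega)
    rwa [hP0, hPN, hmy] at this
  refine ⟨x, y, ?_, ?_⟩
  · have := hC.isGeod.tri a (Sum.inl x) (Sum.inl y)
    omega
  · intro g' hg1 hg2
    rw [hpb] at hg2
    obtain ⟨g, hg, hga, hgb⟩ := quad hclose hR hQ (a := a) (b := b)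
      (Th := Th + 14 * BB δ κ M Θ) (C1 := C1) (by omega) hΛ hkang g' hg1 hg2
    refine ⟨g, hg, ?_, ?_⟩
    · rw [hρ]
      exact disp_le hC hP.pb hR hF hkang g hxI hga hgb (by omega) (by omega)
    · rw [hρ]
      exact disp_le hC hP.pb hR hF hkang g hyI hga hgb (by omega) (by omega)

/-- the pivot-poor case, two elements -/
theorem poor_two (hclose : ClosingStmt) (hC : Cone d Y δ κ M)
    (hP : Pack d Y R κ Θ A T n D1 D2 E c0)
    (hR : Rot (coneDist d Y M) (Sum.inr : ι → X ⊕ ι) (dPr d Y) R (BB δ κ M Θ) Λ)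
    (hQ : Quo (coneDist d Y M) (Sum.inr : ι → X ⊕ ι) (dPr d Y) R (BB δ κ M Θ) Λ D' apex' ang'
      π p q) {H Th C1 L0 ρ : ℕ} (hF : FPt (coneDist d Y M) H) (hTB : BB δ κ M Θ ≤ Th)
    (hΛ : 4 * (Th + 14 * BB δ κ M Θ) + 12 * BB δ κ M Θ < Λ)
    (hρ : ρ = (C1 + 3 * H) *
      (M + (2 * (Th + 14 * BB δ κ M Θ) + 3 * BB δ κ M Θ) + 2 * BB δ κ M Θ))
    {x' y' : V'} (hL : L0 ≤ D' x' y') (hL0 : 4 * C1 + 6 * H + 6 ≤ L0)
    (hM : A + c0 * (ρ + 1) + M * (4 * C1 + 6 * H + 5) ≤ M * L0)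
    (hang : ∀ i', x' ≠ apex' i' → y' ≠ apex' i' → ang' i' x' y' ≤ Th) (g' h' : G')
    (hg1 : D' x' (g' • x') ≤ C1) (hg2 : D' y' (g' • y') ≤ C1)
    (hh1 : D' x' (h' • x') ≤ C1) (hh2 : D' y' (h' • y') ≤ C1) : g' * h' = h' * g' := by
  obtain ⟨x, y, hxy, hlift⟩ := poor_lift hclose hC hP hR hQ hF hTB hΛ hρ hL hL0 hang
  obtain ⟨g, rfl, hga, hgb⟩ := hlift g' hg1 hg2
  obtain ⟨h, rfl, hha, hhb⟩ := hlift h' hh1 hh2
  have h1 := dist_inl_le hC (d x y) x y rfl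
  have h2 : M * L0 ≤ M * (coneDist d Y M (Sum.inl x) (Sum.inl y) + (4 * C1 + 6 * H + 4)) :=
    Nat.mul_le_mul_left _ hxy
  have h3 : M * (coneDist d Y M (Sum.inl x) (Sum.inl y) + (4 * C1 + 6 * H + 4))
      = M * coneDist d Y M (Sum.inl x) (Sum.inl y) + M * (4 * C1 + 6 * H + 4) := by ring
  have h4 : M * (4 * C1 + 6 * H + 5) = M * (4 * C1 + 6 * H + 4) + M := by ring
  have h5 := hP.two_el g h x y ρ (by omega) hga hgb hha hhb
  rw [← map_mul, h5, map_mul]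

/-- the pivot-poor case, one element of finite order -/
theorem poor_one (hclose : ClosingStmt) (hC : Cone d Y δ κ M)
    (hP : Pack d Y R κ Θ A T n D1 D2 E c0)
    (hR : Rot (coneDist d Y M) (Sum.inr : ι → X ⊕ ι) (dPr d Y) R (BB δ κ M Θ) Λ)
    (hQ : Quo (coneDist d Y M) (Sum.inr : ι → X ⊕ ι) (dPr d Y) R (BB δ κ M Θ) Λ D' apex' ang'
      π p q) {H Th C1 L0 ρ : ℕ} (hF : FPt (coneDist d Y M) H) (hTB : BB δ κ M Θ ≤ Th)
    (hΛ : 4 * (Th + 14 * BB δ κ M Θ) + 12 * BB δ κ M Θ < Λ)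
    (hρ : ρ = (C1 + 3 * H) *
      (M + (2 * (Th + 14 * BB δ κ M Θ) + 3 * BB δ κ M Θ) + 2 * BB δ κ M Θ))
    {x' y' : V'} (hL : L0 ≤ D' x' y') (hL0 : 4 * C1 + 6 * H + 6 ≤ L0)
    (hM : A + c0 * (ρ + 1) + M * (4 * C1 + 6 * H + 5) ≤ M * L0)
    (hM2 : ρ + E + M * (4 * C1 + 6 * H + 9) ≤ M * L0)
    (hΛ2 : A + c0 * (ρ + 1) + 13 * BB δ κ M Θ < Λ) (hn : 0 < n)
    (hang : ∀ i', x' ≠ apex' i' → y' ≠ apex' i' → ang' i' x' y' ≤ Th) (g' : G')
    (hg1 : D' x' (g' • x') ≤ C1) (hg2 : D' y' (g' • y') ≤ C1) (hgn : g' ^ n = 1) : g' = 1 := by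
  obtain ⟨x, y, hxy, hlift⟩ := poor_lift hclose hC hP hR hQ hF hTB hΛ hρ hL hL0 hang
  obtain ⟨g, rfl, hga, hgb⟩ := hlift g' hg1 hg2
  have h1 := dist_inl_le hC (d x y) x y rfl
  have h2 : M * L0 ≤ M * (coneDist d Y M (Sum.inl x) (Sum.inl y) + (4 * C1 + 6 * H + 4)) :=
    Nat.mul_le_mul_left _ hxy
  have h3 : M * (coneDist d Y M (Sum.inl x) (Sum.inl y) + (4 * C1 + 6 * H + 4))
      = M * coneDist d Y M (Sum.inl x) (Sum.inl y) + M * (4 * C1 + 6 * H + 4) := by ring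
  have h4 : M * (4 * C1 + 6 * H + 5) = M * (4 * C1 + 6 * H + 4) + M := by ring
  by_cases hgn1 : g ^ n = 1
  · have := hP.one_el g x y ρ (by omega) hga hgb hgn1
    rw [this, map_one]
  · by_cases hfix : ∀ i : ι, g • i ≠ i
    · -- loxodromic, contradiction
      exfalso
      have h5 := lox_of_f1 hC hP hR hQ hgn1 hfix hga hΛ2
      have h6 := h5 x' n
      rw [hgn, one_smul, hQ.sys.geod.self] at h6
      omega
    · push Not at hfix
      obtain ⟨i, hi⟩ := hfix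
      by_cases hg1' : g = 1
      · rw [hg1', map_one]
      · exfalso
        obtain ⟨z, hz, hzx⟩ := hP.e8 g i x ρ hi hg1' hga
        obtain ⟨w, hw, hwy⟩ := hP.e8 g i y ρ hi hg1' hgb
        have a1 := dist_inl_le hC (d x z) x z rfl
        have a2 := dist_inl_le hC (d y w) y w rfl
        have b1 : coneDist d Y M (Sum.inl z) (Sum.inr i) ≤ 1 := dist_le_one hz
        have b2 : coneDist d Y M (Sum.inl w) (Sum.inr i) ≤ 1 := dist_le_one hw
        have t1 := hC.isGeod.tri (Sum.inl x) (Sum.inl z) (Sum.inr i)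
        have t2 := hC.isGeod.tri (Sum.inl y) (Sum.inl w) (Sum.inr i)
        have t3 := hC.isGeod.tri (Sum.inl x) (Sum.inr i) (Sum.inl y)
        have s1 := hC.isGeod.symm (Sum.inr i) (Sum.inl y)
        have c1 : M * coneDist d Y M (Sum.inl x) (Sum.inl y)
            ≤ M * (coneDist d Y M (Sum.inl x) (Sum.inl z)
              + coneDist d Y M (Sum.inl y) (Sum.inl w) + 2) :=
          Nat.mul_le_mul_left _ (by omega)
        have c2 : M * (coneDist d Y M (Sum.inl x) (Sum.inl z)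
              + coneDist d Y M (Sum.inl y) (Sum.inl w) + 2)
            = M * coneDist d Y M (Sum.inl x) (Sum.inl z)
              + M * coneDist d Y M (Sum.inl y) (Sum.inl w) + 2 * M := by ring
        have c3 : M * (4 * C1 + 6 * H + 9) = M * (4 * C1 + 6 * H + 4) + 5 * M := by ring
        have hMpos := hC.hM
        omega

end

end Pool.Agent.Burnside
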