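import Pool.Agent.Burnside.SysLem

/-!
Lifting quadrilaterals of the quotient, and angles in the middle of a quadrilateral.
-/

set_option autoImplicit false

namespace Pool.Agent.Burnside

theorem quad (hclose : ClosingStmt) {G V ι G' V' ι' : Type} [Group G] [MulAction G V]
    [MulAction G ι] [Group G'] [MulAction G' V'] [MulAction G' ι'] {D : V → V → ℕ}
    {apex : ι → V} {ang : ι → V → V → ℕ} {R : ι → Subgroup G} {B Λ : ℕ} {D' : V' → V' → ℕ}
    {apex' : ι' → V'} {ang' : ι' → V' → V' → ℕ} {π : G →* G'} {p : V → V'} {q : ι → ι'}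
    (hR : Rot D apex ang R B Λ) (hQ : Quo D apex ang R B Λ D' apex' ang' π p q)
    {a b : V} {Th C1 : ℕ} (hB : B ≤ Th) (hΛ : 4 * Th + 12 * B < Λ)
    (hab : ∀ i, a ≠ apex i → b ≠ apex i → ang i a b ≤ Th) (g' : G')
    (ha : D' (p a) (g' • p a) ≤ C1) (hb : D' (p b) (g' • p b) ≤ C1) :
    ∃ g : G, π g = g' ∧ D a (g • a) ≤ C1 ∧ D b (g • b) ≤ C1 := by
  obtain ⟨g, rfl⟩ := hQ.pi_surj g'
  obtain ⟨k0, hk0, hk0D⟩ := hQ.att a (g • a)
  rw [hQ.p_smul] at hk0D
  set g0 : G := k0 * g with hg0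
  have hπ0 : π g0 = π g := by
    rw [hg0, map_mul, (hQ.pi_ker k0).2 hk0, one_mul]
  have hg0a : D a (g0 • a) = D' (p a) (π g • p a) := by
    rw [hg0, mul_smul, hk0D]
  obtain ⟨k1, hk1, hk1D⟩ := hQ.att b (g0 • b)
  rw [hQ.p_smul, hπ0] at hk1D
  let x : ℕ → V := fun n => if n = 0 then k1 • g0 • b else if n = 1 then b else
    if n = 2 then a else if n = 3 then g0 • a else g0 • b
  have hx0 : x 0 = k1 • g0 • b := rfl
  have hx1 : x 1 = b := rfl
  have hx2 : x 2 = a := rfl
  have hx3 : x 3 = g0 • a := rfl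
  have hx4 : x 4 = g0 • b := rfl
  have s0 : ∀ k' ∈ Rot.KK R, D (x 0) (x (0 + 1)) ≤ D (x 0) (k' • x (0 + 1)) := by
    intro k' hk'
    show D (k1 • g0 • b) b ≤ D (k1 • g0 • b) (k' • b)
    have h1 := hQ.le (k1 • g0 • b) (k' • b)
    have h2 : p (k' • b) = p b := by
      have := (hQ.p_eq b (k' • b)).2 ⟨k', hk', rfl⟩
      exact this.symm
    have h3 : p (k1 • g0 • b) = π g • p b := by
      have := (hQ.p_eq (g0 • b) (k1 • g0 • b)).2 ⟨k1, hk1, rfl⟩
      rw [← this, hQ.p_smul, hπ0]
    rw [h2, h3] at h1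
    rw [hR.geod.symm, hk1D, hQ.sys.geod.symm]
    exact h1
  have s1 : ∀ i, x 1 ≠ apex i → x (1 + 1) ≠ apex i → ang i (x 1) (x (1 + 1)) ≤ Th := by
    intro i h1 h2
    show ang i b a ≤ Th
    rw [hR.ang_symm]
    exact hab i h2 h1
  have s2 : ∀ k' ∈ Rot.KK R, D (x 2) (x (2 + 1)) ≤ D (x 2) (k' • x (2 + 1)) := by
    intro k' hk'
    show D a (g0 • a) ≤ D a (k' • g0 • a)
    have h1 := hQ.le a (k' • g0 • a)
    have h2 : p (k' • g0 • a) = π g • p a := by
      have := (hQ.p_eq (g0 • a) (k' • g0 • a)).2 ⟨k', hk', rfl⟩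
      rw [← this, hQ.p_smul, hπ0]
    rw [h2] at h1
    rw [hg0a]
    exact h1
  have s3 : ∀ i, x 3 ≠ apex i → x (3 + 1) ≠ apex i → ang i (x 3) (x (3 + 1)) ≤ Th := by
    intro i h1 h2
    show ang i (g0 • a) (g0 • b) ≤ Th
    have e : i = g0 • (g0⁻¹ • i) := by rw [smul_inv_smul]
    have h3 : ang i (g0 • a) (g0 • b) = ang (g0⁻¹ • i) a b := by
      have := hR.ang_inv g0 (g0⁻¹ • i) a b
      rwa [smul_inv_smul] at this
    rw [h3]
    refine hab _ ?_ ?_
    · intro he
      apply h1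
      show g0 • a = apex i
      rw [he, ← hR.apex_smul, smul_inv_smul]
    · intro he
      apply h2
      show g0 • b = apex i
      rw [he, ← hR.apex_smul, smul_inv_smul]
  obtain ⟨y, hy0, hy4, -, hside⟩ := hclose D apex ang R B Λ hR 4 Th x k1⁻¹ (inv_mem hk1)
    (by rw [hx4, hx0, inv_smul_smul]) hB (by omega) (by
      intro j hj
      have : j = 0 ∨ j = 1 ∨ j = 2 ∨ j = 3 := by omega
      rcases this with rfl | rfl | rfl | rfl
      · exact Or.inl s0
      · exact Or.inr s1
      · exact Or.inl s2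
      · exact Or.inr s3)
  have d0 : D (y 0) (y 1) = D (k1 • g0 • b) b := (hside 0 (by omega)).1 s0
  have d2 : D (y 2) (y 3) = D a (g0 • a) := (hside 2 (by omega)).1 s2
  obtain ⟨c1, hc1, e1, e2⟩ := (hside 1 (by omega)).2 s1
  obtain ⟨c3, hc3, e3, e4⟩ := (hside 3 (by omega)).2 s3
  have f1 : y 1 = c1 • b := e1
  have f2 : y 2 = c1 • a := e2
  have f3 : y 3 = c3 • g0 • a := e3
  have f4 : y 4 = c3 • g0 • b := e4
  refine ⟨c1⁻¹ * c3 * g0, ?_, ?_, ?_⟩
  · rw [map_mul, map_mul, map_inv, (hQ.pi_ker c1).2 hc1, (hQ.pi_ker c3).2 hc3, hπ0]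
    simp
  · have h1 : D a ((c1⁻¹ * c3 * g0) • a) = D (y 2) (y 3) := by
      rw [f2, f3, mul_smul, mul_smul]
      have := hR.inv c1 a (c1⁻¹ • c3 • g0 • a)
      rw [smul_inv_smul] at this
      exact this.symm
    rw [h1, d2, hg0a]
    exact ha
  · have h1 : D b ((c1⁻¹ * c3 * g0) • b) = D (y 1) (y 4) := by
      rw [f1, f4, mul_smul, mul_smul]
      have := hR.inv c1 b (c1⁻¹ • c3 • g0 • b)
      rw [smul_inv_smul] at this
      exact this.symm
    rw [h1, hy4, ← hy0, hR.geod.symm, d0, hR.geod.symm, hk1D]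
    exact hb

/-- angles in the middle of a quadrilateral with small angles along its long sides -/
theorem mid_ang {G V ι : Type} [Group G] [MulAction G V] [MulAction G ι] {D : V → V → ℕ}
    {apex : ι → V} {ang : ι → V → V → ℕ} {R : ι → Subgroup G} {B Λ H : ℕ}
    (hR : Rot D apex ang R B Λ) (hF : FPt D H) {a b z : V} {Th C1 : ℕ}
    (hab : ∀ i, a ≠ apex i → b ≠ apex i → ang i a b ≤ Th) (g : G)
    (hz : z ∈ Intv D a b) (ha : D a (g • a) ≤ C1) (hb : D b (g • b) ≤ C1)
    (hza : 2 * C1 + 3 * H < D a z) (hzb : 2 * C1 + 3 * H < D z b) :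
    D z (g • z) ≤ C1 + 3 * H ∧
      ∀ i, z ≠ apex i → g • z ≠ apex i → ang i z (g • z) ≤ 2 * Th + 3 * B := by
  have hmove : D z (g • z) ≤ C1 + 3 * H :=
    mid_mv hR.geod hR.inv hF g hz ha hb (by omega) (by omega)
  refine ⟨hmove, ?_⟩
  intro i hi hgi
  by_cases hbig : B < ang i z (g • z)
  swap
  · omega
  have hI : D z (apex i) + D (apex i) (g • z) = D z (g • z) := hR.bgi i _ _ hi hgi hbig
  have hzI : D a z + D z b = D a b := hz
  -- the apex is far from the corners
  have t1 := hR.geod.tri a (apex i) z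
  have t2 := hR.geod.tri z (apex i) b
  have t3 := hR.geod.tri a (g • a) (apex i)
  have t4 := hR.geod.tri b (g • b) (apex i)
  have s1 := hR.geod.symm (apex i) z
  have s2 := hR.geod.symm (apex i) b
  have hda : C1 < D a (apex i) := by omega
  have hdb : C1 < D b (apex i) := by omega
  have na : a ≠ apex i := by
    intro he
    rw [← he, hR.geod.self] at hda
    omega
  have nb : b ≠ apex i := by
    intro he
    rw [← he, hR.geod.self] at hdb
    omega
  have nga : g • a ≠ apex i := by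
    intro he
    rw [he] at ha
    omega
  have ngb : g • b ≠ apex i := by
    intro he
    rw [he] at hb
    omega
  -- short sides have small angles
  have haa : ang i a (g • a) ≤ B := by
    by_contra hc
    have h1 : D a (apex i) + D (apex i) (g • a) = D a (g • a) :=
      hR.bgi i _ _ na nga (by omega)
    omega
  -- long sides
  have gen : ∀ (u v w : V) (j : ι), u ≠ apex j → v ≠ apex j → w ≠ apex j →
      D u w + D w v = D u v → ang j u v ≤ Th → ang j u w ≤ Th + B := by
    intro u v w j hu hv hw huv hTh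
    by_cases h1 : B < ang j u w
    · have h2 : D u (apex j) + D (apex j) w = D u w := hR.bgi j _ _ hu hw h1
      have h3 : ang j w v ≤ B := by
        by_contra hc
        have h4 : D w (apex j) + D (apex j) v = D w v := hR.bgi j _ _ hw hv (by omega)
        have h5 := hR.geod.tri u (apex j) v
        have h6 := hR.geod.symm (apex j) w
        have h7 := hR.pos hw
        omega
      have h4 := hR.ang_tri j u v w hu hv hw
      have h5 := hR.ang_symm j v w
      omega
    · omega
  have h1 : ang i a z ≤ Th + B := gen a b z i na nb hi hzI (hab i na nb)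
  have h2 : ang i (g • a) (g • z) ≤ Th + B := by
    have e : ang i (g • a) (g • b) = ang (g⁻¹ • i) a b := by
      have := hR.ang_inv g (g⁻¹ • i) a b
      rwa [smul_inv_smul] at this
    refine gen (g • a) (g • b) (g • z) i nga ngb hgi ?_ ?_
    · rw [hR.inv, hR.inv, hR.inv]
      exact hzI
    · rw [e]
      refine hab _ ?_ ?_
      · intro he
        apply nga
        rw [he, ← hR.apex_smul, smul_inv_smul]
      · intro he
        apply ngb
        rw [he, ← hR.apex_smul, smul_inv_smul]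
  have t5 := hR.ang_tri i z a (g • z) hi na hgi
  have t6 := hR.ang_tri i a (g • a) (g • z) na nga hgi
  have s3 := hR.ang_symm i z a
  omega

end Pool.Agent.Burnside
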