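import Pool.Agent.Burnside.Close
import Pool.Agent.Burnside.Stage

/-!
The quotient of a family of rotations by the group generated by all rotations.
-/

set_option linter.unusedSectionVars false

namespace Pool.Agent.Burnside

/-! ### orbit spaces -/

section Orb

variable {G : Type*} [Group G] (K : Subgroup G) {V : Type*} [MulAction G V]

/-- the orbit relation -/
def orbSetoid (V : Type*) [MulAction G V] : Setoid V where
  r a b := ∃ k ∈ K, b = k • a
  iseqv := by
    refine ⟨fun a => ⟨1, one_mem _, (one_smul _ _).symm⟩, ?_, ?_⟩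
    · rintro a b ⟨k, hk, rfl⟩
      exact ⟨k⁻¹, inv_mem hk, (inv_smul_smul _ _).symm⟩
    · rintro a b c ⟨k, hk, rfl⟩ ⟨l, hl, rfl⟩
      exact ⟨l * k, mul_mem hl hk, (mul_smul _ _ _).symm⟩

/-- the orbit space -/
def Orb (V : Type*) [MulAction G V] : Type _ := Quotient (orbSetoid K V)

/-- the projection onto the orbit space -/
def Orb.mk (a : V) : Orb K V := Quotient.mk (orbSetoid K V) a

lemma Orb.eq {a b : V} : Orb.mk K a = Orb.mk K b ↔ ∃ k ∈ K, b = k • a :=
  ⟨fun h => Quotient.exact (s := orbSetoid K V) h, fun h => Quotient.sound (s := orbSetoid K V) h⟩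

lemma Orb.surj : Function.Surjective (Orb.mk K : V → Orb K V) := Quotient.exists_rep

/-- the action of the quotient group on the orbit space -/
def Orb.act [K.Normal] (g : G ⧸ K) (x : Orb K V) : Orb K V :=
  Quotient.liftOn₂ g x (fun g a => Orb.mk K (g • a)) (by
    intro g a g' a' hg ha
    have hg' : g⁻¹ * g' ∈ K := QuotientGroup.leftRel_apply.1 hg
    obtain ⟨k, hk, rfl⟩ := ha
    rw [Orb.eq]
    refine ⟨g' * k * g'⁻¹ * (g * (g⁻¹ * g') * g⁻¹), mul_mem
      (Subgroup.Normal.conj_mem inferInstance _ hk _)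
      (Subgroup.Normal.conj_mem inferInstance _ hg' _), ?_⟩
    rw [← mul_smul, ← mul_smul]
    congr 1
    group)

instance [K.Normal] : MulAction (G ⧸ K) (Orb K V) where
  smul := Orb.act K
  one_smul := by
    intro x
    obtain ⟨a, rfl⟩ := Orb.surj K x
    show Orb.mk K ((1 : G) • a) = Orb.mk K a
    rw [one_smul]
  mul_smul := by
    intro g h x
    obtain ⟨a, rfl⟩ := Orb.surj K x
    obtain ⟨g, rfl⟩ := QuotientGroup.mk_surjective g
    obtain ⟨h, rfl⟩ := QuotientGroup.mk_surjective h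
    show Orb.mk K ((g * h) • a) = Orb.mk K (g • h • a)
    rw [mul_smul]

lemma Orb.smul_mk [K.Normal] (g : G) (a : V) :
    (QuotientGroup.mk' K g) • Orb.mk K a = Orb.mk K (g • a) := rfl

end Orb

namespace Rot

variable {V ι G : Type*} [Group G] [MulAction G V] [MulAction G ι] {D : V → V → ℕ}
  {apex : ι → V} {ang : ι → V → V → ℕ} {R : ι → Subgroup G} {B Λ : ℕ}

lemma normal (H : Rot D apex ang R B Λ) : (KK R).Normal :=
  ⟨fun _ hn g => H.KK_conj g hn⟩

/-- the metric of the quotient -/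
noncomputable def qD (H : Rot D apex ang R B Λ) (x y : Orb (KK R) V) : ℕ :=
  Quotient.liftOn₂ x y (QD D R) (by
    rintro a b a' b' ⟨k, hk, rfl⟩ ⟨l, hl, rfl⟩
    rw [H.QD_smul_left _ _ hk, QD_smul_right D R _ _ hl])

lemma qD_mk (H : Rot D apex ang R B Λ) (a b : V) :
    H.qD (Orb.mk _ a) (Orb.mk _ b) = QD D R a b := rfl

/-- the apexes of the quotient -/
def qapex (H : Rot D apex ang R B Λ) (i : Orb (KK R) ι) : Orb (KK R) V :=
  Quotient.liftOn i (fun i => Orb.mk _ (apex i)) (by
    rintro i i' ⟨k, hk, rfl⟩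
    exact (Orb.eq _).2 ⟨k, hk, H.apex_smul k i⟩)

lemma qapex_mk (H : Rot D apex ang R B Λ) (i : ι) :
    H.qapex (Orb.mk _ i) = Orb.mk _ (apex i) := rfl

lemma qang_base (H : Rot D apex ang R B Λ) (i : ι) (a b : V) {k : G} (hk : k ∈ KK R) :
    qang D apex ang R (k • i) a b = qang D apex ang R i a b := by
  have h := H.qang_smul k i (k⁻¹ • a) (k⁻¹ • b)
  rw [smul_inv_smul, smul_inv_smul, H.qang_left _ _ _ (inv_mem hk),
    qang_right _ _ _ (inv_mem hk)] at h
  exact h

/-- the angles of the quotient -/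
noncomputable def qAng (H : Rot D apex ang R B Λ) (i : Orb (KK R) ι) (x y : Orb (KK R) V) : ℕ :=
  Quotient.liftOn i (fun i => Quotient.liftOn₂ x y (qang D apex ang R i) (by
    rintro a b a' b' ⟨k, hk, rfl⟩ ⟨l, hl, rfl⟩
    rw [H.qang_left _ _ _ hk, qang_right _ _ _ hl])) (by
    rintro i i' ⟨k, hk, rfl⟩
    obtain ⟨a, rfl⟩ := Orb.surj _ x
    obtain ⟨b, rfl⟩ := Orb.surj _ y
    exact (H.qang_base i a b hk).symm)

lemma qAng_mk (H : Rot D apex ang R B Λ) (i : ι) (a b : V) :
    H.qAng (Orb.mk _ i) (Orb.mk _ a) (Orb.mk _ b) = qang D apex ang R i a b := rfl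

lemma QD_ne_zero (H : Rot D apex ang R B Λ) {i : ι} {a : V}
    (h : Orb.mk (KK R) a ≠ Orb.mk (KK R) (apex i)) : QD D R (apex i) a ≠ 0 := by
  intro h0
  obtain ⟨k, hk, h1⟩ := H.QD_eq_zero h0
  exact h ((Orb.eq _).2 ⟨k, hk, h1⟩)

/-- the data of part (V), for the concrete quotients -/
theorem quo (H : Rot D apex ang R B Λ) (hna : NoAdj D apex) :
    haveI := H.normal
    Quo D apex ang R B Λ H.qD H.qapex H.qAng (QuotientGroup.mk' (KK R)) (Orb.mk (KK R))
      (Orb.mk (KK R)) := by
  haveI := H.normal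
  refine
    { pi_surj := QuotientGroup.mk'_surjective _
      pi_ker := ?_
      p_surj := Orb.surj _
      p_smul := fun g a => (Orb.smul_mk _ g a).symm
      p_eq := fun a b => Orb.eq _
      q_surj := Orb.surj _
      q_smul := fun g a => (Orb.smul_mk _ g a).symm
      q_eq := fun a b => Orb.eq _
      p_apex := fun i => rfl
      le := fun a b => QD_le' D R a b
      att := fun a b => exists_QD D R a b
      slim := ?_
      sys := ?_
      free := ?_
      stab := fun k i hk h => H.stab_apex i hk h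
      near_le := ?_
      near_att := ?_
      f3 := fun a b Th h1 h2 => H.QD_eq_of_poor h1 h2
      sal := ?_ }
  · intro g
    rw [QuotientGroup.mk'_apply, QuotientGroup.eq_one_iff]
  · intro δ hs x y z w hw
    obtain ⟨a, rfl⟩ := Orb.surj _ x
    obtain ⟨b, rfl⟩ := Orb.surj _ y
    obtain ⟨c, rfl⟩ := Orb.surj _ z
    obtain ⟨e, rfl⟩ := Orb.surj _ w
    obtain ⟨f, h1, h2⟩ := H.QD_slim hs a b c e hw
    exact ⟨Orb.mk _ f, h1, h2⟩
  · refine
      { geod := ?_
        inv := ?_
        apex_inj := ?_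
        apex_smul := ?_
        ang_inv := ?_
        ang_symm := ?_
        ang_tri := ?_
        bgi := ?_ }
    · refine
        { self := ?_
          eq := ?_
          symm := ?_
          tri := ?_
          geod := ?_ }
      · intro x
        obtain ⟨a, rfl⟩ := Orb.surj _ x
        exact H.QD_self a
      · intro x y h
        obtain ⟨a, rfl⟩ := Orb.surj _ x
        obtain ⟨b, rfl⟩ := Orb.surj _ y
        obtain ⟨k, hk, h1⟩ := H.QD_eq_zero (a := a) (b := b) h
        exact ((Orb.eq _).2 ⟨k, hk, h1⟩).symm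
      · intro x y
        obtain ⟨a, rfl⟩ := Orb.surj _ x
        obtain ⟨b, rfl⟩ := Orb.surj _ y
        exact H.QD_symm a b
      · intro x y z
        obtain ⟨a, rfl⟩ := Orb.surj _ x
        obtain ⟨b, rfl⟩ := Orb.surj _ y
        obtain ⟨c, rfl⟩ := Orb.surj _ z
        exact H.QD_tri a b c
      · intro x y k hk
        obtain ⟨a, rfl⟩ := Orb.surj _ x
        obtain ⟨b, rfl⟩ := Orb.surj _ y
        obtain ⟨z, h1, h2⟩ := H.QD_geod a b k hk
        exact ⟨Orb.mk _ z, h1, h2⟩
    · intro g x y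
      obtain ⟨g, rfl⟩ := QuotientGroup.mk'_surjective _ g
      obtain ⟨a, rfl⟩ := Orb.surj _ x
      obtain ⟨b, rfl⟩ := Orb.surj _ y
      exact H.QD_smul g a b
    · intro i j h
      obtain ⟨i, rfl⟩ := Orb.surj _ i
      obtain ⟨j, rfl⟩ := Orb.surj _ j
      rw [qapex_mk, qapex_mk, Orb.eq] at h
      obtain ⟨k, hk, h⟩ := h
      rw [← H.apex_smul] at h
      exact (Orb.eq _).2 ⟨k, hk, H.apex_inj h⟩
    · intro g i
      obtain ⟨g, rfl⟩ := QuotientGroup.mk'_surjective _ g
      obtain ⟨i, rfl⟩ := Orb.surj _ i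
      rw [Orb.smul_mk, qapex_mk, qapex_mk, Orb.smul_mk, H.apex_smul]
    · intro g i x y
      obtain ⟨g, rfl⟩ := QuotientGroup.mk'_surjective _ g
      obtain ⟨i, rfl⟩ := Orb.surj _ i
      obtain ⟨a, rfl⟩ := Orb.surj _ x
      obtain ⟨b, rfl⟩ := Orb.surj _ y
      exact H.qang_smul g i a b
    · intro i x y
      obtain ⟨i, rfl⟩ := Orb.surj _ i
      obtain ⟨a, rfl⟩ := Orb.surj _ x
      obtain ⟨b, rfl⟩ := Orb.surj _ y
      exact H.qang_symm i a b
    · intro i x y z hx hy hz
      obtain ⟨i, rfl⟩ := Orb.surj _ i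
      obtain ⟨a, rfl⟩ := Orb.surj _ x
      obtain ⟨b, rfl⟩ := Orb.surj _ y
      obtain ⟨c, rfl⟩ := Orb.surj _ z
      exact H.qang_tri hna (H.QD_ne_zero hx) (H.QD_ne_zero hy) (H.QD_ne_zero hz)
    · intro i x y hx hy h
      obtain ⟨i, rfl⟩ := Orb.surj _ i
      obtain ⟨a, rfl⟩ := Orb.surj _ x
      obtain ⟨b, rfl⟩ := Orb.surj _ y
      exact H.qang_bgi (H.QD_ne_zero hx) (H.QD_ne_zero hy) h
  · intro k a hk hf hne
    exact H.free hne hk hf
  · intro i a b _ _ h1 h2
    exact qang_le ⟨⟨1, one_mem _, (one_smul _ _).symm⟩, h1⟩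
      ⟨⟨1, one_mem _, (one_smul _ _).symm⟩, h2⟩
  · intro i a b ha hb h1 h2
    have ma : ML D apex R i a a := ⟨⟨1, one_mem _, (one_smul _ _).symm⟩, h1⟩
    have mb : ML D apex R i b b := ⟨⟨1, one_mem _, (one_smul _ _).symm⟩, h2⟩
    have na : QD D R (apex i) a ≠ 0 := by
      intro h0
      have h3 : D (apex i) a = QD D R (apex i) a := h1
      exact ha (H.geod.eq _ _ (by omega)).symm
    have nb : QD D R (apex i) b ≠ 0 := by
      intro h0
      have h3 : D (apex i) b = QD D R (apex i) b := h2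
      exact hb (H.geod.eq _ _ (by omega)).symm
    obtain ⟨a1, b1, ma1, mb1, h3⟩ := exists_qang D apex ang R i a b
    obtain ⟨s, hs, h4⟩ := H.dir_unique hna na ma ma1
    obtain ⟨t, ht, h5⟩ := H.dir_unique hna nb mb1 mb
    refine ⟨s * t, mul_mem hs ht, ?_⟩
    have m1 := (ma1.rot H hs).ne H na
    have m2 := (mb1.rot H hs).ne H nb
    have m3 := (mb.rot H (mul_mem hs ht)).ne H nb
    have t1 := H.ang_tri i a (s • a1) ((s * t) • b) ha m1 m3
    have t2 := H.ang_tri i (s • a1) (s • b1) ((s * t) • b) m1 m2 m3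
    have t3 := H.ang_inv s i a1 b1
    have t4 := H.ang_inv s i b1 (t • b)
    rw [H.fix i s hs] at t3 t4
    rw [← mul_smul] at t4
    show _ ≤ qang D apex ang R i a b + 8 * B
    omega
  · intro a b Th h
    obtain ⟨k, hk, h1, h2⟩ := H.small_lift hna (Th := Th) (a := a) (b := b) (by
      intro j ha hb
      refine h (Orb.mk _ j) ?_ ?_
      · intro he
        rw [qapex_mk, Orb.eq] at he
        obtain ⟨k, hk, e⟩ := he
        rw [e, H.QD_smul_left _ _ hk, H.QD_self] at ha
        exact ha rfl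
      · intro he
        rw [qapex_mk, Orb.eq] at he
        obtain ⟨k, hk, e⟩ := he
        rw [e, H.QD_smul_left _ _ hk, H.QD_self] at hb
        exact hb rfl)
    refine ⟨k, hk, h1, ?_⟩
    intro i ha hb
    have := h2 i ha hb
    omega

end Rot

/-- the closing lemma in the form of the interface -/
theorem closingStmt : ClosingStmt := by
  intro G V ι _ _ _ D apex ang R B Λ H m Th x k hk hx hB hm hside
  rcases Nat.eq_zero_or_pos m with h0 | h0
  · subst h0
    refine ⟨x, rfl, rfl, ?_, fun j hj => absurd hj (Nat.not_lt_zero j)⟩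
    intro j _
    exact ⟨1, one_mem _, (one_smul _ _).symm⟩
  · obtain ⟨y, h1, h2, h3, h4⟩ := H.closing m Th h0 hB (by omega) k hk x hx (by
      intro i hi
      rcases hside i hi with h | h
      · exact Or.inl h
      · exact Or.inr h)
    refine ⟨y, h1, h2, h3, ?_⟩
    intro j hj
    exact ⟨(h4 j hj).2, (h4 j hj).1⟩

/-- the quotient, existential form -/
theorem exists_quo {G V ι : Type} [Group G] [MulAction G V] [MulAction G ι] {D : V → V → ℕ}
    {apex : ι → V} {ang : ι → V → V → ℕ} {R : ι → Subgroup G} {B Λ : ℕ}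
    (H : Rot D apex ang R B Λ) (hna : Rot.NoAdj D apex) :
    ∃ (G' V' ι' : Type) (_ : Group G') (_ : MulAction G' V') (_ : MulAction G' ι')
      (D' : V' → V' → ℕ) (apex' : ι' → V') (ang' : ι' → V' → V' → ℕ) (π : G →* G') (p : V → V')
      (q : ι → ι'), Quo D apex ang R B Λ D' apex' ang' π p q := by
  haveI := H.normal
  exact ⟨G ⧸ Rot.KK R, Orb (Rot.KK R) V, Orb (Rot.KK R) ι, inferInstance, inferInstance,
    inferInstance, H.qD, H.qapex, H.qAng, _, _, _, H.quo hna⟩

end Pool.Agent.Burnside
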