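import Pool.Agent.Burnside.SysLem

/-!
Systems of apexes: chains of apexes with large angles grow, elements with small displacement at
two points with two large angles between them.
-/

set_option linter.unusedSectionVars false

namespace Pool.Agent.Burnside

namespace Sys

variable {V ι G : Type*} [Group G] [MulAction G V] [MulAction G ι] {D : V → V → ℕ}
  {apex : ι → V} {ang : ι → V → V → ℕ} {B η : ℕ}

lemma ang_le (H : Sys G D apex ang B η) {i : ι} {a b : V} (ha : a ≠ apex i) (hb : b ≠ apex i)
    (h : D a (apex i) + D (apex i) b ≠ D a b) : ang i a b ≤ B := by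
  by_contra hc
  exact h (H.bgi i a b ha hb (by omega))

lemma mem (H : Sys G D apex ang B η) {i : ι} {a b : V} (ha : a ≠ apex i) (hb : b ≠ apex i)
    (h : B < ang i a b) : D a (apex i) + D (apex i) b = D a b := H.bgi i a b ha hb h

/-- apexes with a large angle between `x` and `y` -/
def Good (apex : ι → V) (ang : ι → V → V → ℕ) (x y : V) (θ : ℕ) (i : ι) : Prop :=
  x ≠ apex i ∧ y ≠ apex i ∧ θ < ang i x y

lemma Good.mono {x y : V} {θ θ' : ℕ} {i : ι} (h : Good apex ang x y θ i) (hθ : θ' ≤ θ) :
    Good apex ang x y θ' i := ⟨h.1, h.2.1, lt_of_le_of_lt hθ h.2.2⟩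

lemma Good.btw (H : Sys G D apex ang B η) {x y : V} {θ : ℕ} {i : ι}
    (h : Good apex ang x y θ i) (hθ : B ≤ θ) : D x (apex i) + D (apex i) y = D x y :=
  H.mem h.1 h.2.1 (lt_of_le_of_lt hθ h.2.2)

/-- positions of two apexes on a geodesic -/
lemma Good.cases (H : Sys G D apex ang B η) {x y : V} {i j : ι}
    (hi : Good apex ang x y (2 * B + η) i) (hj : D x (apex j) + D (apex j) y = D x y)
    (hij : i ≠ j) :
    D x (apex j) = D x (apex i) + D (apex i) (apex j) ∨
      D x (apex i) = D x (apex j) + D (apex i) (apex j) := by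
  have hne : apex j ≠ apex i := fun he => hij (H.apex_inj he).symm
  have h0 := hi.btw H (by omega)
  by_cases hc : B < ang i x (apex j)
  · left
    have := H.mem hi.1 hne hc
    omega
  · right
    have h1 := H.ang_tri i x (apex j) y hi.1 hne hi.2.1
    have h2 := hi.2.2
    have h3 := H.mem hne hi.2.1 (by omega)
    have e := H.geod.symm (apex i) (apex j)
    omega

lemma eq_of_pos (H : Sys G D apex ang B η) {x y : V} {i j : ι}
    (hi : Good apex ang x y (2 * B + η) i) (hj : D x (apex j) + D (apex j) y = D x y)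
    (h : D x (apex i) = D x (apex j)) : i = j := by
  by_contra hij
  have hne : apex i ≠ apex j := fun he => hij (H.apex_inj he)
  have h1 := H.pos hne
  rcases hi.cases H hj hij with h2 | h2 <;> omega

/-- transport of good apexes -/
lemma Good.transport (H : Sys G D apex ang B η) {x y : V} {i : ι} {θ θ' : ℕ} {N : ℕ} {g : G}
    (hi : Good apex ang x y θ i) (hθ : θ' + 2 * B + 2 * η ≤ θ) (gx : D x (g • x) ≤ N)
    (gy : D y (g • y) ≤ N) (fx : 2 * N < D x (apex i)) (fy : 2 * N < D y (apex i)) :
    Good apex ang x y θ' (g • i) ∧ N < D x (apex (g • i)) ∧ N < D y (apex (g • i)) := by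
  have ax : D (g • x) (apex (g • i)) = D x (apex i) := by rw [H.apex_smul, H.inv]
  have ay : D (g • y) (apex (g • i)) = D y (apex i) := by rw [H.apex_smul, H.inv]
  have tx := H.geod.tri (g • x) x (apex (g • i))
  have ty := H.geod.tri (g • y) y (apex (g • i))
  have sx := H.geod.symm x (g • x)
  have sy := H.geod.symm y (g • y)
  have fx' : N < D x (apex (g • i)) := by omega
  have fy' : N < D y (apex (g • i)) := by omega
  have nx : x ≠ apex (g • i) := by
    intro he
    rw [← he, H.geod.self] at fx'
    omega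
  have ny : y ≠ apex (g • i) := by
    intro he
    rw [← he, H.geod.self] at fy'
    omega
  have ngx : g • x ≠ apex (g • i) := by
    intro he
    rw [he, H.geod.self] at ax
    omega
  have ngy : g • y ≠ apex (g • i) := by
    intro he
    rw [he, H.geod.self] at ay
    omega
  refine ⟨⟨nx, ny, ?_⟩, fx', fy'⟩
  have b1 : ang (g • i) (g • x) x ≤ B := by
    apply H.ang_le ngx nx
    have := H.geod.symm x (apex (g • i))
    omega
  have b2 : ang (g • i) y (g • y) ≤ B := by
    apply H.ang_le ny ngy
    have := H.geod.symm (g • y) (apex (g • i))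
    omega
  have t1 := H.ang_tri (g • i) (g • x) x (g • y) ngx nx ngy
  have t2 := H.ang_tri (g • i) x y (g • y) nx ny ngy
  have t3 := H.ang_inv g i x y
  have t4 := hi.2.2
  omega

/-- the order of good apexes is preserved -/
lemma ord_smul (H : Sys G D apex ang B η) {x y : V} {i j : ι} {N : ℕ} {g : G}
    (hi : Good apex ang x y (3 * B + 2 * η) i) (hj : D x (apex j) + D (apex j) y = D x y)
    (hlt : D x (apex i) < D x (apex j)) (gx : D x (g • x) ≤ N) (fx : N < D x (apex (g • i))) :
    D x (apex (g • j)) + D x (apex i) = D x (apex (g • i)) + D x (apex j) := by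
  have hij : i ≠ j := by
    rintro rfl
    omega
  have hne : apex j ≠ apex i := fun he => hij (H.apex_inj he).symm
  have h0 := hi.btw H (by omega)
  have h1 : ang i (apex j) y ≤ B := by
    apply H.ang_le hne hi.2.1
    intro h
    omega
  have h2 := H.ang_tri i x (apex j) y hi.1 hne hi.2.1
  have h3 := hi.2.2
  have h4 := H.ang_inv g i x (apex j)
  rw [← H.apex_smul] at h4
  have hgne : apex (g • j) ≠ apex (g • i) := by
    intro he
    rw [H.apex_smul, H.apex_smul] at he
    exact hne (smul_left_cancel g he)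
  have nx : x ≠ apex (g • i) := by
    intro he
    rw [← he, H.geod.self] at fx
    omega
  have ngx : g • x ≠ apex (g • i) := by
    intro he
    rw [H.apex_smul] at he
    exact hi.1 (smul_left_cancel g he)
  have b1 : ang (g • i) (g • x) x ≤ B := by
    apply H.ang_le ngx nx
    have e1 := H.geod.symm x (apex (g • i))
    have e2 := H.geod.symm x (g • x)
    omega
  have h5 := H.ang_tri (g • i) (g • x) x (apex (g • j)) ngx nx hgne
  have h6 := H.mem nx hgne (by omega)
  have h7 : D (apex (g • i)) (apex (g • j)) = D (apex i) (apex j) := by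
    rw [H.apex_smul, H.apex_smul, H.inv]
  rcases (hi.mono (by omega : 2 * B + η ≤ 3 * B + 2 * η)).cases H hj hij with h8 | h8 <;> omega

/-- all good apexes are shifted by the same amount -/
lemma shift (H : Sys G D apex ang B η) {x y : V} {i j : ι} {N : ℕ} {g : G}
    (hi : Good apex ang x y (3 * B + 2 * η) i) (hj : Good apex ang x y (3 * B + 2 * η) j)
    (gx : D x (g • x) ≤ N) (fi : N < D x (apex (g • i))) (fj : N < D x (apex (g • j))) :
    D x (apex (g • j)) + D x (apex i) = D x (apex (g • i)) + D x (apex j) := by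
  rcases lt_trichotomy (D x (apex i)) (D x (apex j)) with h | h | h
  · exact H.ord_smul hi (hj.btw H (by omega)) h gx fi
  · have := H.eq_of_pos (hi.mono (by omega)) (hj.btw H (by omega)) h
    subst this
    rfl
  · have := H.ord_smul hj (hi.btw H (by omega)) h gx fj
    omega

/-- the common hypotheses -/
structure Strong (D : V → V → ℕ) (apex : ι → V) (ang : ι → V → V → ℕ) (B η : ℕ) (x y : V)
    (C : ℕ) (i : ι) : Prop where
  good : Good apex ang x y (6 * B + 5 * η) i
  fx : 8 * C < D x (apex i)
  fy : 8 * C < D y (apex i)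

/-- small displacement at `x` and `y` -/
def Sd (D : V → V → ℕ) (x y : V) (N : ℕ) (g : G) : Prop := D x (g • x) ≤ N ∧ D y (g • y) ≤ N

lemma Sd.mul (H : Sys G D apex ang B η) {x y : V} {N N' : ℕ} {g h : G} (hg : Sd D x y N g)
    (hh : Sd D x y N' h) : Sd D x y (N + N') (g * h) := by
  refine ⟨?_, ?_⟩
  · have h1 := H.geod.tri x (g • x) ((g * h) • x)
    rw [mul_smul] at h1 ⊢
    rw [H.inv] at h1
    have := hg.1
    have := hh.1
    omega
  · have h1 := H.geod.tri y (g • y) ((g * h) • y)
    rw [mul_smul] at h1 ⊢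
    rw [H.inv] at h1
    have := hg.2
    have := hh.2
    omega

lemma Sd.inv (H : Sys G D apex ang B η) {x y : V} {N : ℕ} {g : G} (hg : Sd D x y N g) :
    Sd D x y N g⁻¹ := by
  refine ⟨?_, ?_⟩
  · have h1 := H.inv g x (g⁻¹ • x)
    rw [smul_inv_smul, H.geod.symm] at h1
    rw [← h1]
    exact hg.1
  · have h1 := H.inv g y (g⁻¹ • y)
    rw [smul_inv_smul, H.geod.symm] at h1
    rw [← h1]
    exact hg.2

lemma Sd.mono {x y : V} {N N' : ℕ} {g : G} (hg : Sd D x y N g) (h : N ≤ N') :
    Sd D x y N' g := ⟨hg.1.trans h, hg.2.trans h⟩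

lemma Strong.img (H : Sys G D apex ang B η) {x y : V} {C : ℕ} {i : ι}
    (hi : Strong D apex ang B η x y C i) {g : G} (hg : Sd D x y (4 * C) g) :
    Good apex ang x y (4 * B + 3 * η) (g • i) ∧ 4 * C < D x (apex (g • i)) := by
  have h := hi.good.transport H (θ' := 4 * B + 3 * η) (by omega) hg.1 hg.2
    (by have := hi.fx; omega) (by have := hi.fy; omega)
  exact ⟨h.1, h.2.1⟩

/-- additivity of the shift -/
lemma Strong.add (H : Sys G D apex ang B η) {x y : V} {C : ℕ} {i : ι}
    (hi : Strong D apex ang B η x y C i) {N N' : ℕ} {g h : G} (hg : Sd D x y N g)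
    (hh : Sd D x y N' h) (hN : N + N' ≤ 4 * C) :
    D x (apex ((g * h) • i)) + D x (apex i) = D x (apex (g • i)) + D x (apex (h • i)) := by
  have h1 := hi.img H (hg.mono (by omega))
  have h2 := hi.img H (hh.mono (by omega))
  have h3 := hi.img H ((hg.mul H hh).mono hN)
  rw [mul_smul] at h3 ⊢
  exact H.shift (hi.good.mono (by omega)) (h2.1.mono (by omega)) hg.1 (by omega) (by omega)

/-- no shift: the apex is fixed -/
lemma Strong.fixed (H : Sys G D apex ang B η) {x y : V} {C : ℕ} {i : ι}
    (hi : Strong D apex ang B η x y C i) {g : G} (hg : Sd D x y (4 * C) g)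
    (h : D x (apex (g • i)) = D x (apex i)) : g • i = i := by
  have h1 := hi.img H hg
  exact H.eq_of_pos (h1.1.mono (by omega)) (hi.good.btw H (by omega)) h

/-- no shift: trivial element -/
lemma Strong.trivial (H : Sys G D apex ang B η)
    (fix2 : ∀ (g : G) (i j : ι), g • i = i → g • j = j → i ≠ j → g = 1) {x y : V} {C : ℕ}
    {i j : ι} (hij : i ≠ j) (hi : Strong D apex ang B η x y C i)
    (hj : Strong D apex ang B η x y C j) {g : G} (hg : Sd D x y (4 * C) g)
    (h : D x (apex (g • i)) = D x (apex i)) : g = 1 := by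
  have h1 := hi.img H hg
  have h2 := hj.img H hg
  have h3 := H.shift (hi.good.mono (by omega)) (hj.good.mono (by omega)) hg.1 (by omega)
    (by omega)
  exact fix2 g i j (hi.fixed H hg h) (hj.fixed H hg (by omega)) hij

/-- two large angles: elements with small displacement commute -/
theorem rich_comm (H : Sys G D apex ang B η)
    (fix2 : ∀ (g : G) (i j : ι), g • i = i → g • j = j → i ≠ j → g = 1) {x y : V} {C : ℕ}
    {i j : ι} (hij : i ≠ j) (hi : Strong D apex ang B η x y C i)
    (hj : Strong D apex ang B η x y C j) {g h : G} (hg : Sd D x y C g) (hh : Sd D x y C h) :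
    g * h = h * g := by
  have a1 := hi.add H hg hh (by omega)
  have a2 := hi.add H (hg.inv H) (hh.inv H) (by omega)
  have a3 := hi.add H (hg.mul H hh) ((hg.inv H).mul H (hh.inv H)) (by omega)
  have a4 := hi.add H hg (hg.inv H) (by omega)
  have a5 := hi.add H hh (hh.inv H) (by omega)
  rw [mul_inv_cancel, one_smul] at a4 a5
  have hs : Sd D x y (4 * C) (g * h * (g⁻¹ * h⁻¹)) :=
    ((hg.mul H hh).mul H ((hg.inv H).mul H (hh.inv H))).mono (by omega)
  have h1 := Strong.trivial H fix2 hij hi hj hs (by omega)
  calc g * h = (g * h * (g⁻¹ * h⁻¹)) * (h * g) := by group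
    _ = h * g := by rw [h1, one_mul]

/-- two large angles: torsion elements with small displacement are trivial -/
theorem rich_tors (H : Sys G D apex ang B η)
    (fix2 : ∀ (g : G) (i j : ι), g • i = i → g • j = j → i ≠ j → g = 1) {x y : V} {C : ℕ}
    {i j : ι} (hij : i ≠ j) (hi : Strong D apex ang B η x y C i)
    (hj : Strong D apex ang B η x y C j) {g : G} (hg : Sd D x y C g) {n : ℕ} (hn : 0 < n)
    (hgn : g ^ n = 1) : g = 1 := by
  by_contra hne
  have hpos : D x (apex (g • i)) ≠ D x (apex i) := by
    intro h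
    exact hne (Strong.trivial H fix2 hij hi hj (hg.mono (by omega)) h)
  have hgi : g • i ≠ i := by
    intro h
    rw [h] at hpos
    exact hpos rfl
  have a1 := hi.add H hg hg (by omega)
  obtain ⟨h1, -⟩ := hi.img H (hg.mono (by omega))
  obtain ⟨h2, -⟩ := hi.img H ((hg.mul H hg).mono (by omega))
  have n1 : apex i ≠ apex (g • i) := fun he => hgi (H.apex_inj he).symm
  have n2 : apex ((g * g) • i) ≠ apex (g • i) := by
    intro he
    have := H.apex_inj he
    rw [mul_smul] at this
    exact hgi (smul_left_cancel g this)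
  have m0 := hi.good.btw H (by omega)
  have m1 := h1.btw H (by omega)
  have m2 := h2.btw H (by omega)
  have hang : 2 * B + η < ang (g • i) (apex i) (apex ((g * g) • i)) := by
    have h3 := h1.2.2
    rcases Nat.lt_or_gt_of_ne hpos with hlt | hlt
    · -- decreasing positions
      have b1 : ang (g • i) x (apex ((g * g) • i)) ≤ B := by
        apply H.ang_le h1.1 n2
        omega
      have b2 : ang (g • i) (apex i) y ≤ B := by
        apply H.ang_le n1 h1.2.1
        omega
      have t1 := H.ang_tri (g • i) x (apex ((g * g) • i)) y h1.1 n2 h1.2.1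
      have t2 := H.ang_tri (g • i) (apex ((g * g) • i)) (apex i) y n2 n1 h1.2.1
      have t3 := H.ang_symm (g • i) (apex ((g * g) • i)) (apex i)
      omega
    · have b1 : ang (g • i) x (apex i) ≤ B := by
        apply H.ang_le h1.1 n1
        omega
      have b2 : ang (g • i) (apex ((g * g) • i)) y ≤ B := by
        apply H.ang_le n2 h1.2.1
        omega
      have t1 := H.ang_tri (g • i) x (apex i) y h1.1 n1 h1.2.1
      have t2 := H.ang_tri (g • i) (apex i) (apex ((g * g) • i)) y n1 n2 h1.2.1
      omega
  have hchain := H.chain_grow (fun k => g ^ k • i) (by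
    intro k he
    apply hgi
    have he' : g ^ k • i = g ^ (k + 1) • i := he
    rw [pow_succ, mul_smul] at he'
    exact (smul_left_cancel _ he').symm) (by
    intro k
    show 2 * B + η < ang (g ^ (k + 1) • i) (apex (g ^ k • i)) (apex (g ^ (k + 2) • i))
    rw [pow_succ, pow_add, mul_smul, mul_smul, pow_two, H.apex_smul, H.apex_smul, H.ang_inv]
    exact hang) n
  have hchain' : n ≤ D (apex (g ^ 0 • i)) (apex (g ^ n • i)) := hchain
  rw [hgn, pow_zero, H.geod.self] at hchain'
  omega

end Sys

end Pool.Agent.Burnside
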