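import Pool.Agent.Burnside.Poor

/-!
Property (S2) of the quotient: every element has order dividing `n` or is loxodromic.
-/

set_option autoImplicit false
set_option linter.unusedVariables false

namespace Pool.Agent.Burnside

open Cone

lemma Lox.mono {G X : Type*} [Group G] [MulAction G X] {d : X → X → ℕ} {T T' : ℕ} {g : G}
    (h : Lox d T g) (hT : T ≤ T') : Lox d T' g := by
  intro x k
  exact le_trans (h x k) (Nat.mul_le_mul_right _ hT)

section

variable {G X ι G' V' ι' : Type} [Group G] [MulAction G X] [MulAction G ι] [Group G']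
  [MulAction G' V'] [MulAction G' ι'] {d : X → X → ℕ} {Y : ι → Set X} {R : ι → Subgroup G}
  {M δ κ Θ C A T n D1 D2 E c0 Λ : ℕ} {D' : V' → V' → ℕ} {apex' : ι' → V'}
  {ang' : ι' → V' → V' → ℕ} {π : G →* G'} {p : X ⊕ ι → V'} {q : ι → ι'}

/-- a fixed point in the quotient gives an element of finite order -/
lemma s2_fixed (hS : Stage (G := G) d δ C A T n) (hP : Pack d Y R κ Θ A T n D1 D2 E c0)
    (hQ : Quo (coneDist d Y M) (Sum.inr : ι → X ⊕ ι) (dPr d Y) R (BB δ κ M Θ) Λ D' apex' ang'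
      π p q) (g' : G') (z : V') (hz : g' • z = z) : g' ^ n = 1 := by
  obtain ⟨g, rfl⟩ := hQ.pi_surj g'
  obtain ⟨a, rfl⟩ := hQ.p_surj z
  rcases a with x | i
  · obtain ⟨k, hk, hke⟩ := (hQ.p_eq (Sum.inl x) (g • Sum.inl x)).1 (by rw [hQ.p_smul, hz])
    have h1 : (k⁻¹ * g) • x = x := by
      have h2 : (k⁻¹ * g) • (Sum.inl x : X ⊕ ι) = Sum.inl x := by
        rw [mul_smul, hke, inv_smul_smul]
      exact Sum.inl_injective h2
    have hπ : π (k⁻¹ * g) = π g := by
      rw [map_mul, map_inv, (hQ.pi_ker k).2 hk, inv_one, one_mul]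
    rcases hS.s2 (k⁻¹ * g) with h2 | h2
    · rw [← hπ, ← map_pow, h2, map_one]
    · exfalso
      have := h2 x 1
      rw [pow_one, h1, hS.geod.self] at this
      omega
  · rw [hQ.p_apex, ← hQ.sys.apex_smul] at hz
    have hz' := hQ.sys.apex_inj hz
    obtain ⟨k, hk, hke⟩ := (hQ.q_eq i (g • i)).1 (by rw [hQ.q_smul, hz'])
    have h1 : (k⁻¹ * g) • i = i := by rw [mul_smul, hke, inv_smul_smul]
    have hπ : π (k⁻¹ * g) = π g := by
      rw [map_mul, map_inv, (hQ.pi_ker k).2 hk, inv_one, one_mul]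
    have h2 := hP.pow_mem _ i h1
    have h3 : π ((k⁻¹ * g) ^ n) = 1 := (hQ.pi_ker _).2 (Subgroup.subset_closure ⟨i, h2⟩)
    rwa [map_pow, hπ] at h3

/-- an element with a large turning angle on a shortest period is loxodromic -/
lemma s2_chain {B : ℕ} (S : Sys G' D' apex' ang' B (4 * B)) (g' : G') {ℓ k : ℕ} {P : ℕ → V'}
    (hPP : IsPath D' ℓ P) (hper : P ℓ = g' • P 0) (hmin : ∀ w : V', ℓ ≤ D' w (g' • w))
    (hk0 : 0 < k) (hk : k < ℓ) {i' : ι'} (hi : P k = apex' i')
    (hang : 16 * B < ang' i' (P (k - 1)) (P (k + 1))) : Lox D' 1 g' := by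
  have hdk := hmin (P k)
  -- the next vertex
  have a1 : D' (P k) (P (k + 1)) = 1 := by
    rw [hPP k (k + 1) (by omega) (by omega)]
    omega
  have a2 : D' (P (k - 1)) (P k) = 1 := by
    rw [hPP (k - 1) k (by omega) (by omega)]
    omega
  have a3 : D' (P (k + 1)) (P ℓ) = ℓ - (k + 1) := hPP (k + 1) ℓ (by omega) le_rfl
  have a4 : D' (g' • P 0) (g' • P k) = k := by
    rw [S.inv, hPP 0 k (by omega) (by omega)]
    omega
  have a5 : D' (P k) (P ℓ) = ℓ - k := hPP k ℓ (by omega) le_rfl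
  have a6 : D' (g' • P 0) (g' • P (k - 1)) = k - 1 := by
    rw [S.inv, hPP 0 (k - 1) (by omega) (by omega)]
    omega
  rw [← hper] at a4 a6
  have t1 := S.geod.tri (P (k + 1)) (P ℓ) (g' • P k)
  have t2 := S.geod.tri (P k) (P (k + 1)) (g' • P k)
  have t3 := S.geod.tri (P k) (P ℓ) (g' • P (k - 1))
  have t4 := S.geod.tri (P k) (g' • P (k - 1)) (g' • P k)
  have a7 : D' (g' • P (k - 1)) (g' • P k) = 1 := by rw [S.inv, a2]
  have hne : g' • apex' i' ≠ apex' i' := by
    intro he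
    have h1 := hmin (apex' i')
    rw [he, S.geod.self] at h1
    omega
  have hne' : g'⁻¹ • apex' i' ≠ apex' i' := by
    intro he
    apply hne
    conv_lhs => rw [← he]
    rw [smul_inv_smul]
  have hn1 : P (k + 1) ≠ apex' i' := by
    intro he
    rw [he, hi, S.geod.self] at a1
    omega
  have hn2 : P (k - 1) ≠ apex' i' := by
    intro he
    rw [he, hi, S.geod.self] at a2
    omega
  have b1 : ang' i' (g' • apex' i') (P (k + 1)) ≤ B := by
    apply S.ang_le_of_mem hne hn1
    rw [← hi]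
    have s1 := S.geod.symm (g' • P k) (P (k + 1))
    have s2 := S.geod.symm (P (k + 1)) (P k)
    have s3 := S.geod.symm (g' • P k) (P k)
    omega
  have b2 : ang' i' (g'⁻¹ • apex' i') (P (k - 1)) ≤ B := by
    apply S.ang_le_of_mem hne' hn2
    rw [← hi]
    have e1 : D' (g'⁻¹ • P k) (P (k - 1)) = D' (P k) (g' • P (k - 1)) := by
      have := S.inv g' (g'⁻¹ • P k) (P (k - 1))
      rw [smul_inv_smul] at this
      exact this.symm
    have e2 : D' (g'⁻¹ • P k) (P k) = D' (P k) (g' • P k) := by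
      have := S.inv g' (g'⁻¹ • P k) (P k)
      rw [smul_inv_smul] at this
      exact this.symm
    omega
  have t5 := S.ang_tri i' (P (k - 1)) (g'⁻¹ • apex' i') (P (k + 1)) hn2 hne' hn1
  have t6 := S.ang_tri i' (g'⁻¹ • apex' i') (g' • apex' i') (P (k + 1)) hne' hne hn1
  have s1 := S.ang_symm i' (P (k - 1)) (g'⁻¹ • apex' i')
  have hbig : 2 * B + 4 * B < ang' i' (g'⁻¹ • apex' i') (g' • apex' i') := by omega
  have hfixne : i' ≠ g' • i' := by
    intro he
    apply hne
    rw [← S.apex_smul, ← he]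
  have hgrow := S.chain_grow (fun j => g' ^ j • i') (by
    intro j he
    apply hfixne
    have he' : g' ^ j • i' = g' ^ (j + 1) • i' := he
    rw [pow_succ, mul_smul] at he'
    exact smul_left_cancel _ he') (by
    intro j
    show 2 * B + 4 * B < ang' (g' ^ (j + 1) • i') (apex' (g' ^ j • i')) (apex' (g' ^ (j + 2) • i'))
    have e1 : apex' (g' ^ j • i') = g' ^ (j + 1) • (g'⁻¹ • apex' i') := by
      rw [← mul_smul, S.apex_smul]
      congr 1
      group
    have e2 : apex' (g' ^ (j + 2) • i') = g' ^ (j + 1) • (g' • apex' i') := by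
      rw [← mul_smul, S.apex_smul, ← pow_succ]
    rw [e1, e2, S.ang_inv]
    exact hbig)
  refine lox_arc S.geod S.inv (N := 1) (c := 0) le_rfl g' (apex' i') ?_
  intro j
  have h1 := hgrow j
  simp only [pow_zero, one_smul] at h1
  rw [S.apex_smul] at h1
  rw [one_mul, one_mul, Nat.add_zero]
  exact h1

/-- lifting a path with small turning angles to `X` -/
lemma s2_lift (hC : Cone d Y δ κ M) (hP : Pack d Y R κ Θ A T n D1 D2 E c0)
    (hR : Rot (coneDist d Y M) (Sum.inr : ι → X ⊕ ι) (dPr d Y) R (BB δ κ M Θ) Λ)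
    (hQ : Quo (coneDist d Y M) (Sum.inr : ι → X ⊕ ι) (dPr d Y) R (BB δ κ M Θ) Λ D' apex' ang'
      π p q) {ℓ : ℕ} {P : ℕ → V'} (hPP : IsPath D' ℓ P) {x0 : X} (hP0 : P 0 = p (Sum.inl x0))
    (hang : ∀ k i', 0 < k → k < ℓ → P k = apex' i' →
      ang' i' (P (k - 1)) (P (k + 1)) ≤ 16 * BB δ κ M Θ) :
    ∀ k, k ≤ ℓ → ∃ a : X ⊕ ι, p a = P k ∧
      (∀ x, a = Sum.inl x → d x0 x ≤ k * (M + 24 * BB δ κ M Θ)) ∧
      (∀ i, a = Sum.inr i → 0 < k ∧ ∃ x, p (Sum.inl x) = P (k - 1) ∧
        coneDist d Y M (Sum.inl x) (Sum.inr i) = 1 ∧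
        d x0 x ≤ (k - 1) * (M + 24 * BB δ κ M Θ)) := by
  intro k
  set B := BB δ κ M Θ with hBdef
  set W := M + 24 * B with hW
  induction k with
  | zero =>
    intro _
    refine ⟨Sum.inl x0, hP0.symm, ?_, ?_⟩
    · intro x hx
      have : x0 = x := Sum.inl_injective hx
      rw [← this, hC.geod.self]
      omega
    · intro i hi
      exact absurd hi (by simp)
  | succ k ih =>
    intro hk
    obtain ⟨a, ha, hax, hai⟩ := ih (by omega)
    have hstep : D' (P k) (P (k + 1)) = 1 := by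
      rw [hPP k (k + 1) (by omega) hk]
      omega
    obtain ⟨b0, hb0⟩ := hQ.p_surj (P (k + 1))
    obtain ⟨k0, hk0, hk0D⟩ := hQ.att a b0
    rw [ha, hb0, hstep] at hk0D
    set b := k0 • b0 with hb
    have hpb : p b = P (k + 1) := by
      rw [← hb0]
      exact ((hQ.p_eq b0 b).2 ⟨k0, hk0, rfl⟩).symm
    rcases a with x | i
    · have hx := hax x rfl
      refine ⟨b, hpb, ?_, ?_⟩
      · intro x' hx'
        rw [hx'] at hk0D
        have h1 : d x x' ≤ M := by
          rcases hC.rel_of_dist_le_one (p := Sum.inl x) (q := Sum.inl x') (by omega) with h | h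
          · have : x = x' := Sum.inl_injective h
            rw [this, hC.geod.self]
            omega
          · exact h
        have h2 := hC.geod.tri x0 x x'
        have h3 : (k + 1) * W = k * W + W := by ring
        omega
      · intro i hi
        rw [hi] at hk0D
        refine ⟨by omega, x, ?_, hk0D, ?_⟩
        · simpa using ha
        · simpa using hx
    · obtain ⟨hkpos, x, hxp, hxd, hxx⟩ := hai i rfl
      have hPk : P k = apex' (q i) := by rw [← ha, hQ.p_apex]
      -- `b` is a point of `X`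
      rcases hbb : b with x' | j
      swap
      · exfalso
        rw [hbb] at hk0D
        by_cases hij : i = j
        · rw [hij, hC.isGeod.self] at hk0D
          omega
        · have := one_lt_apex hC hij
          omega
      rw [hbb] at hk0D hpb
      have hxY : x ∈ Y i := by
        rcases hC.rel_of_dist_le_one (p := Sum.inl x) (q := Sum.inr i) (by omega) with h | h
        · exact absurd h (by simp)
        · exact h
      have hxY' : x' ∈ Y i := by
        rcases hC.rel_of_dist_le_one (p := Sum.inr i) (q := Sum.inl x') (by omega) with h | h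
        · exact absurd h (by simp)
        · exact h
      have hback : D' (P (k - 1)) (P k) = 1 := by
        rw [hPP (k - 1) k (by omega) (by omega)]
        omega
      obtain ⟨s, hs, hsang⟩ := hQ.near_att i (Sum.inl x) (Sum.inl x') (by simp) (by simp)
        (by
          rw [hxp, ← hPk, hC.isGeod.symm, hxd, hQ.sys.geod.symm, hback])
        (by
          rw [hpb, ← hPk, hk0D, hstep])
      rw [hxp, hpb] at hsang
      have h1 := hang k (q i) hkpos (by omega) hPk
      have hsi : s • i = i := hR.fix i s hs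
      have hsY : s • x' ∈ Y i := by
        have := hP.smul s i x' hxY'
        rwa [hsi] at this
      have h2 := hC.le_dPr hP.pb (i := i) (p := Sum.inl x) (q := Sum.inl (s • x')) (by simp)
        (by simp) (near_self hC.geod hxY : x ∈ Pr d Y i (Sum.inl x))
        (near_self hC.geod hsY : s • x' ∈ Pr d Y i (Sum.inl (s • x')))
      have hsang' : dPr d Y i (Sum.inl x) (Sum.inl (s • x'))
          ≤ ang' (q i) (P (k - 1)) (P (k + 1)) + 8 * B := hsang
      have hsK : s ∈ Rot.KK R := Subgroup.subset_closure ⟨i, hs⟩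
      refine ⟨Sum.inl (s • x'), ?_, ?_, ?_⟩
      · rw [← hpb]
        exact ((hQ.p_eq (Sum.inl x') (Sum.inl (s • x'))).2 ⟨s, hsK, rfl⟩).symm
      · intro w hw
        have : s • x' = w := Sum.inl_injective hw
        rw [← this]
        have h3 := hC.geod.tri x0 x (s • x')
        obtain ⟨m, rfl⟩ : ∃ m, k = m + 1 := ⟨k - 1, by omega⟩
        have h4 : (m + 1 + 1) * W = m * W + 2 * W := by ring
        have h5 : m + 1 - 1 = m := by omega
        rw [h5] at hxx
        omega
      · intro j hj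
        exact absurd hj (by simp)

/-- (S2) for the quotient -/
theorem s2q (hS : Stage (G := G) d δ C A T n) (hC : Cone d Y δ κ M)
    (hP : Pack d Y R κ Θ A T n D1 D2 E c0)
    (hR : Rot (coneDist d Y M) (Sum.inr : ι → X ⊕ ι) (dPr d Y) R (BB δ κ M Θ) Λ)
    (hQ : Quo (coneDist d Y M) (Sum.inr : ι → X ⊕ ι) (dPr d Y) R (BB δ κ M Θ) Λ D' apex' ang'
      π p q) {H ρ : ℕ} (hF : FPt D' H) (hρ : ρ = (4 * H + 1) * (M + 24 * BB δ κ M Θ))
    (hT1 : 1 ≤ T) (hT : M + (A + c0 * (ρ + 1)) + 2 * BB δ κ M Θ ≤ T)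
    (hΛ : A + c0 * (ρ + 1) + 13 * BB δ κ M Θ < Λ) (g' : G') :
    g' ^ n = 1 ∨ Lox D' T g' := by
  classical
  have S := hQ.sys
  obtain ⟨y0, -⟩ := hS.ne
  by_cases hbig : ∀ z : V', 4 * H + 2 ≤ D' z (g' • z)
  · right
    exact (lox_e3 S.geod S.inv hF g' (p (Sum.inl y0)) hbig).mono hT1
  push Not at hbig
  obtain ⟨z0, hz0⟩ := hbig
  have hex : ∃ l, ∃ z : V', D' z (g' • z) = l := ⟨_, z0, rfl⟩
  obtain ⟨z, hz⟩ := Nat.find_spec hex
  set ℓ := Nat.find hex with hℓ
  have hmin : ∀ w : V', ℓ ≤ D' w (g' • w) := fun w => Nat.find_min' hex ⟨w, rfl⟩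
  have hℓle : ℓ ≤ 4 * H + 1 := by
    have := hmin z0
    omega
  rcases Nat.eq_zero_or_pos ℓ with h0 | h0
  · left
    rw [h0] at hz
    exact s2_fixed hS hP hQ g' z (S.geod.eq _ _ hz).symm
  -- a base point in `X`
  obtain ⟨x0, hx0⟩ : ∃ x0 : X, D' (p (Sum.inl x0)) (g' • p (Sum.inl x0)) = ℓ := by
    obtain ⟨a, rfl⟩ := hQ.p_surj z
    rcases a with x | i
    · exact ⟨x, hz⟩
    · obtain ⟨w, hw1, hw2⟩ := S.geod.geod (p (Sum.inr i)) (g' • p (Sum.inr i)) 1 (by omega)
      obtain ⟨b, rfl⟩ := hQ.p_surj w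
      rcases b with x | j
      · refine ⟨x, le_antisymm ?_ (hmin _)⟩
        have t1 := S.geod.tri (p (Sum.inl x)) (g' • p (Sum.inr i)) (g' • p (Sum.inl x))
        have t2 : D' (g' • p (Sum.inr i)) (g' • p (Sum.inl x))
            = D' (p (Sum.inr i)) (p (Sum.inl x)) := S.inv _ _ _
        omega
      · exfalso
        obtain ⟨k, hk, hkD⟩ := hQ.att (Sum.inr i) (Sum.inr j)
        rw [hw1] at hkD
        have hkD' : coneDist d Y M (Sum.inr i) (Sum.inr (k • j)) = 1 := hkD
        by_cases hij : i = k • j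
        · rw [← hij, hC.isGeod.self] at hkD'
          omega
        · have := one_lt_apex hC hij
          omega
  obtain ⟨P, hP0, hPℓ, hPP⟩ := exists_path S.geod ℓ (p (Sum.inl x0)) (g' • p (Sum.inl x0)) hx0
  by_cases hα : ∃ k i', 0 < k ∧ k < ℓ ∧ P k = apex' i' ∧
      16 * BB δ κ M Θ < ang' i' (P (k - 1)) (P (k + 1))
  · right
    obtain ⟨k, i', hk0, hk, hi, hang⟩ := hα
    exact (s2_chain S g' hPP (by rw [hPℓ, hP0]) hmin hk0 hk hi hang).mono hT1
  push Not at hα
  obtain ⟨a, hap, hax, -⟩ := s2_lift hC hP hR hQ hPP hP0 (fun k i' h1 h2 h3 => hα k i' h1 h2 h3) ℓ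
    le_rfl
  obtain ⟨g, rfl⟩ := hQ.pi_surj g'
  obtain ⟨k, hk, hke⟩ := (hQ.p_eq (g • Sum.inl x0) a).1 (by rw [hQ.p_smul, hap, hPℓ])
  have hx := hax ((k * g) • x0) (by
    rw [hke]
    show (Sum.inl (k • g • x0) : X ⊕ ι) = _
    rw [mul_smul])
  have hπ : π (k * g) = π g := by rw [map_mul, (hQ.pi_ker k).2 hk, one_mul]
  have hdisp : d x0 ((k * g) • x0) ≤ ρ := by
    rw [hρ]
    exact le_trans hx (Nat.mul_le_mul_right _ hℓle)
  rw [← hπ]
  by_cases hgn : (k * g) ^ n = 1
  · left
    rw [← map_pow, hgn, map_one]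
  by_cases hfix : ∀ i : ι, (k * g) • i ≠ i
  · right
    exact (lox_of_f1 hC hP hR hQ hgn hfix hdisp hΛ).mono hT
  · left
    push Not at hfix
    obtain ⟨i, hi⟩ := hfix
    rw [← map_pow]
    exact (hQ.pi_ker _).2 (Subgroup.subset_closure ⟨i, hP.pow_mem _ i hi⟩)

end

end Pool.Agent.Burnside
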