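import Pool.Agent.Burnside.Poor
import Pool.Agent.Burnside.Rich

/-!
Property (S3) of the quotient.
-/

set_option autoImplicit false
set_option linter.unusedVariables false

namespace Pool.Agent.Burnside

open Cone

/-- either two strong apexes, or a long piece with small angles -/
theorem s3_split {G V ι : Type} [Group G] [MulAction G V] [MulAction G ι] {D : V → V → ℕ}
    {apex : ι → V} {ang : ι → V → V → ℕ} {B H C L0 : ℕ} (S : Sys G D apex ang B (4 * B))
    (hF : FPt D H) (hCH : H ≤ 7 * C) {x y : V} (hL : 2 * L0 + 16 * C + 2 ≤ D x y) :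
    (∃ i j, i ≠ j ∧ Sys.Strong D apex ang B (4 * B) x y C i ∧
      Sys.Strong D apex ang B (4 * B) x y C j) ∨
    (∃ x' y' : V, L0 ≤ D x' y' ∧
      (∀ i, x' ≠ apex i → y' ≠ apex i → ang i x' y' ≤ 36 * B) ∧
      ∀ g : G, D x (g • x) ≤ C → D y (g • y) ≤ C →
        D x' (g • x') ≤ C + 3 * H ∧ D y' (g • y') ≤ C + 3 * H) := by
  by_cases h2 : ∃ i j, i ≠ j ∧ Sys.Strong D apex ang B (4 * B) x y C i ∧
      Sys.Strong D apex ang B (4 * B) x y C j
  · exact Or.inl h2
  right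
  obtain ⟨P, hP0, hPL, hP⟩ := exists_path S.geod _ x y rfl
  set L := D x y with hLdef
  -- angles of a piece
  have sub : ∀ s1 s2 : ℕ, 8 * C < s1 → s1 ≤ s2 → s2 + 8 * C < L → ∀ i, P s1 ≠ apex i →
      P s2 ≠ apex i → 36 * B < ang i (P s1) (P s2) → Sys.Strong D apex ang B (4 * B) x y C i := by
    intro s1 s2 h1 h12 h3 i n1 n2 hang
    have hI : D (P s1) (apex i) + D (apex i) (P s2) = D (P s1) (P s2) :=
      S.bgi i _ _ n1 n2 (by omega)
    have d12 := hP s1 s2 h12 (by omega)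
    have d01 := hP 0 s1 (Nat.zero_le _) (by omega)
    have d2L := hP s2 L (by omega) le_rfl
    rw [hP0] at d01
    rw [hPL] at d2L
    have t1 := S.geod.tri x (P s1) (apex i)
    have t2 := S.geod.tri (apex i) (P s2) y
    have t3 := S.geod.tri x (apex i) y
    have s1' := S.geod.symm y (apex i)
    have s2' := S.geod.symm y (P s2)
    have s3' := S.geod.symm (P s2) (apex i)
    have px : 0 < D x (apex i) := by omega
    have py : 0 < D y (apex i) := by omega
    have nx : x ≠ apex i := by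
      intro he
      rw [← he, S.geod.self] at px
      omega
    have ny : y ≠ apex i := by
      intro he
      rw [← he, S.geod.self] at py
      omega
    have a1 : ang i x (P s1) ≤ B := S.ang_le_of_mem nx n1 (by omega)
    have a2 : ang i y (P s2) ≤ B := S.ang_le_of_mem ny n2 (by omega)
    have t4 := S.ang_tri i (P s1) x (P s2) n1 nx n2
    have t5 := S.ang_tri i x y (P s2) nx ny n2
    have s4' := S.ang_symm i (P s1) x
    exact ⟨⟨nx, ny, by omega⟩, by omega, by omega⟩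
  -- displacement of a point of the path
  have disp : ∀ s : ℕ, 8 * C < s → s + 8 * C < L → ∀ g : G, D x (g • x) ≤ C → D y (g • y) ≤ C →
      D (P s) (g • P s) ≤ C + 3 * H := by
    intro s h1 h3 g hgx hgy
    have d01 := hP 0 s (Nat.zero_le _) (by omega)
    have d2L := hP s L (by omega) le_rfl
    rw [hP0] at d01
    rw [hPL] at d2L
    have hm := hP.mem_Intv (i := s) (by omega)
    rw [hP0, hPL] at hm
    exact mid_mv S.geod S.inv hF g hm hgx hgy (by omega) (by omega)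
  by_cases h1 : ∃ i, Sys.Strong D apex ang B (4 * B) x y C i
  · -- exactly one strong apex
    obtain ⟨i0, hi0⟩ := h1
    have huniq : ∀ i, Sys.Strong D apex ang B (4 * B) x y C i → i = i0 := by
      intro i hi
      by_contra hne
      exact h2 ⟨i, i0, hne, hi, hi0⟩
    have hbtw := hi0.good.btw S (by omega)
    have hfx := hi0.fx
    have hfy := hi0.fy
    have sy := S.geod.symm y (apex i0)
    set s := D x (apex i0) with hs
    have hsL : s ≤ L := by omega
    have hPs : P s = apex i0 := by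
      have hm := hP.mem_Intv (i := s) hsL
      rw [hP0, hPL] at hm
      have hd := hP 0 s (Nat.zero_le _) hsL
      rw [hP0] at hd
      exact S.eq_apex hi0.good.1 hi0.good.2.1 (by have := hi0.good.2.2; omega) hm (by omega)
    by_cases hhalf : L0 + (8 * C + 1) ≤ s
    · refine ⟨P (8 * C + 1), P s, ?_, ?_, ?_⟩
      · rw [hP (8 * C + 1) s (by omega) hsL]
        omega
      · intro i n1 n2
        by_contra hc
        have := huniq i (sub (8 * C + 1) s (by omega) (by omega) (by omega) i n1 n2 (by omega))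
        apply n2
        rw [hPs, this]
      · intro g hgx hgy
        exact ⟨disp _ (by omega) (by omega) g hgx hgy, disp _ (by omega) (by omega) g hgx hgy⟩
    · refine ⟨P s, P (L - 8 * C - 1), ?_, ?_, ?_⟩
      · rw [hP s (L - 8 * C - 1) (by omega) (by omega)]
        omega
      · intro i n1 n2
        by_contra hc
        have := huniq i (sub s (L - 8 * C - 1) (by omega) (by omega) (by omega) i n1 n2
          (by omega))
        apply n1
        rw [hPs, this]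
      · intro g hgx hgy
        exact ⟨disp _ (by omega) (by omega) g hgx hgy, disp _ (by omega) (by omega) g hgx hgy⟩
  · refine ⟨P (8 * C + 1), P (L - 8 * C - 1), ?_, ?_, ?_⟩
    · rw [hP (8 * C + 1) (L - 8 * C - 1) (by omega) (by omega)]
      omega
    · intro i n1 n2
      by_contra hc
      exact h1 ⟨i, sub (8 * C + 1) (L - 8 * C - 1) (by omega) (by omega) (by omega) i n1 n2
        (by omega)⟩
    · intro g hgx hgy
      exact ⟨disp _ (by omega) (by omega) g hgx hgy, disp _ (by omega) (by omega) g hgx hgy⟩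

section

variable {G X ι G' V' ι' : Type} [Group G] [MulAction G X] [MulAction G ι] [Group G']
  [MulAction G' V'] [MulAction G' ι'] {d : X → X → ℕ} {Y : ι → Set X} {R : ι → Subgroup G}
  {M δ κ Θ C A T n D1 D2 E c0 Λ : ℕ} {D' : V' → V' → ℕ} {apex' : ι' → V'}
  {ang' : ι' → V' → V' → ℕ} {π : G →* G'} {p : X ⊕ ι → V'} {q : ι → ι'}

/-- (S3b) for the quotient -/
theorem s3bq (hclose : ClosingStmt) (hC : Cone d Y δ κ M)
    (hP : Pack d Y R κ Θ A T n D1 D2 E c0)
    (hR : Rot (coneDist d Y M) (Sum.inr : ι → X ⊕ ι) (dPr d Y) R (BB δ κ M Θ) Λ)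
    (hQ : Quo (coneDist d Y M) (Sum.inr : ι → X ⊕ ι) (dPr d Y) R (BB δ κ M Θ) Λ D' apex' ang'
      π p q)
    (hfix2 : ∀ (g' : G') (i' j' : ι'), g' • i' = i' → g' • j' = j' → i' ≠ j' → g' = 1)
    {H L0 ρ : ℕ} (hF : FPt (coneDist d Y M) H) (hF' : FPt D' H) (hCH : H ≤ 7 * C)
    (hΛ : 4 * (36 * BB δ κ M Θ + 14 * BB δ κ M Θ) + 12 * BB δ κ M Θ < Λ)
    (hρ : ρ = (C + 3 * H + 3 * H) *
      (M + (2 * (36 * BB δ κ M Θ + 14 * BB δ κ M Θ) + 3 * BB δ κ M Θ) + 2 * BB δ κ M Θ))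
    (hL0 : 4 * (C + 3 * H) + 6 * H + 6 ≤ L0) (hA : 2 * L0 + 16 * C + 2 ≤ A)
    (hM : A + c0 * (ρ + 1) + M * (4 * (C + 3 * H) + 6 * H + 5) ≤ M * L0)
    (g h : G') (x y : V') (hxy : A ≤ D' x y) (hgx : D' x (g • x) ≤ C) (hgy : D' y (g • y) ≤ C)
    (hhx : D' x (h • x) ≤ C) (hhy : D' y (h • y) ≤ C) : g * h = h * g := by
  rcases s3_split hQ.sys hF' hCH (L0 := L0) (x := x) (y := y) (by omega) with
    ⟨i, j, hij, hi, hj⟩ | ⟨x', y', hL, hang, hdisp⟩
  · exact hQ.sys.rich_comm hfix2 hij hi hj ⟨hgx, hgy⟩ ⟨hhx, hhy⟩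
  · obtain ⟨a1, a2⟩ := hdisp g hgx hgy
    obtain ⟨b1, b2⟩ := hdisp h hhx hhy
    exact poor_two hclose hC hP hR hQ hF (by omega) hΛ hρ hL hL0 hM hang g h a1 a2 b1 b2

/-- (S3a) for the quotient -/
theorem s3aq (hclose : ClosingStmt) (hC : Cone d Y δ κ M)
    (hP : Pack d Y R κ Θ A T n D1 D2 E c0)
    (hR : Rot (coneDist d Y M) (Sum.inr : ι → X ⊕ ι) (dPr d Y) R (BB δ κ M Θ) Λ)
    (hQ : Quo (coneDist d Y M) (Sum.inr : ι → X ⊕ ι) (dPr d Y) R (BB δ κ M Θ) Λ D' apex' ang'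
      π p q)
    (hfix2 : ∀ (g' : G') (i' j' : ι'), g' • i' = i' → g' • j' = j' → i' ≠ j' → g' = 1)
    {H L0 ρ : ℕ} (hF : FPt (coneDist d Y M) H) (hF' : FPt D' H) (hCH : H ≤ 7 * C)
    (hΛ : 4 * (36 * BB δ κ M Θ + 14 * BB δ κ M Θ) + 12 * BB δ κ M Θ < Λ)
    (hρ : ρ = (C + 3 * H + 3 * H) *
      (M + (2 * (36 * BB δ κ M Θ + 14 * BB δ κ M Θ) + 3 * BB δ κ M Θ) + 2 * BB δ κ M Θ))
    (hL0 : 4 * (C + 3 * H) + 6 * H + 6 ≤ L0) (hA : 2 * L0 + 16 * C + 2 ≤ A)
    (hM : A + c0 * (ρ + 1) + M * (4 * (C + 3 * H) + 6 * H + 5) ≤ M * L0)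
    (hM2 : ρ + E + M * (4 * (C + 3 * H) + 6 * H + 9) ≤ M * L0)
    (hΛ2 : A + c0 * (ρ + 1) + 13 * BB δ κ M Θ < Λ) (hn : 0 < n)
    (g : G') (x y : V') (hxy : A ≤ D' x y) (hgx : D' x (g • x) ≤ C) (hgy : D' y (g • y) ≤ C)
    (hgn : g ^ n = 1) : g = 1 := by
  rcases s3_split hQ.sys hF' hCH (L0 := L0) (x := x) (y := y) (by omega) with
    ⟨i, j, hij, hi, hj⟩ | ⟨x', y', hL, hang, hdisp⟩
  · exact hQ.sys.rich_tors hfix2 hij hi hj ⟨hgx, hgy⟩ hn hgn
  · obtain ⟨a1, a2⟩ := hdisp g hgx hgy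
    exact poor_one hclose hC hP hR hQ hF (by omega) hΛ hρ hL hL0 hM hM2 hΛ2 hn hang g a1 a2 hgn

end

end Pool.Agent.Burnside
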