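import Pool.Agent.Burnside.Growth

/-!
Basic lemmas on systems of apexes and angles with defect `η`: order of the apexes with large angle
on an interval, chains.
-/

set_option autoImplicit false

namespace Pool.Agent.Burnside

namespace Sys

variable {G V ι : Type*} [Group G] [MulAction G V] [MulAction G ι] {D : V → V → ℕ}
  {apex : ι → V} {ang : ι → V → V → ℕ} {B η : ℕ}

lemma pos (S : Sys G D apex ang B η) {a b : V} (h : a ≠ b) : 0 < D a b := by
  rcases Nat.eq_zero_or_pos (D a b) with h0 | h0
  · exact absurd (S.geod.eq _ _ h0) h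
  · exact h0

lemma self_le (S : Sys G D apex ang B η) (i : ι) {a : V} (ha : a ≠ apex i) : ang i a a ≤ B := by
  by_contra hc
  have h : D a (apex i) + D (apex i) a = D a a := S.bgi i a a ha ha (by omega)
  rw [S.geod.self] at h
  exact ha (S.geod.eq _ _ (by omega))

/-- adjacent points are seen in the same direction -/
lemma adj_le (S : Sys G D apex ang B η) (i : ι) {a b : V} (ha : a ≠ apex i) (hb : b ≠ apex i)
    (h : D a b ≤ 1) : ang i a b ≤ B := by
  by_contra hc
  have h1 : D a (apex i) + D (apex i) b = D a b := S.bgi i a b ha hb (by omega)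
  have h2 := S.pos ha
  have h3 := S.pos hb
  have h4 := S.geod.symm (apex i) b
  omega

/-- a point between `a` and the apex is seen in the same direction as `a` -/
lemma ang_le_of_mem (S : Sys G D apex ang B η) {i : ι} {a y : V} (ha : a ≠ apex i)
    (hy : y ≠ apex i) (hm : D a y + D y (apex i) = D a (apex i)) : ang i a y ≤ B := by
  by_contra hc
  have h1 : D a (apex i) + D (apex i) y = D a y := S.bgi i a y ha hy (by omega)
  have h3 := S.pos hy
  have h4 := S.geod.symm (apex i) y
  omega

/-- Behrstock inequality -/
lemma behrstock (S : Sys G D apex ang B η) {i j : ι} {a : V} (hij : i ≠ j) (hi : a ≠ apex i)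
    (hj : a ≠ apex j) (h : B < ang i a (apex j)) : ang j a (apex i) ≤ B := by
  have hne : apex j ≠ apex i := fun he => hij (S.apex_inj he).symm
  by_contra hc
  have h1 : D a (apex i) + D (apex i) (apex j) = D a (apex j) := S.bgi i a _ hi hne h
  have h2 : D a (apex j) + D (apex j) (apex i) = D a (apex i) :=
    S.bgi j a _ hj (Ne.symm hne) (by omega)
  have h3 := S.pos hne
  omega

lemma apex_ne (S : Sys G D apex ang B η) {i j : ι} (h : i ≠ j) : apex i ≠ apex j :=
  fun he => h (S.apex_inj he)

/-- order of two apexes on an interval -/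
lemma order (S : Sys G D apex ang B η) {i j : ι} {x y : V} (hij : i ≠ j)
    (hxi : x ≠ apex i) (hyi : y ≠ apex i) (hi : 2 * B + η < ang i x y)
    (hj : apex j ∈ Intv D x y) :
    D x (apex j) = D x (apex i) + D (apex i) (apex j) ∨
      D x (apex i) = D x (apex j) + D (apex i) (apex j) := by
  have hne := S.apex_ne hij
  have hI : D x (apex i) + D (apex i) y = D x y := S.bgi i x y hxi hyi (by omega)
  have hJ : D x (apex j) + D (apex j) y = D x y := hj
  have h1 := S.ang_tri i x (apex j) y hxi (Ne.symm hne) hyi
  by_cases h2 : B < ang i x (apex j)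
  · left
    have h3 : D x (apex i) + D (apex i) (apex j) = D x (apex j) :=
      S.bgi i x _ hxi (Ne.symm hne) h2
    omega
  · right
    have h3 : D (apex j) (apex i) + D (apex i) y = D (apex j) y :=
      S.bgi i _ y (Ne.symm hne) hyi (by omega)
    have h4 := S.geod.symm (apex i) (apex j)
    omega

/-- an apex with large angle is on every geodesic: a point of the interval at the same distance is
the apex -/
lemma eq_apex (S : Sys G D apex ang B η) {i : ι} {x y z : V}
    (hxi : x ≠ apex i) (hyi : y ≠ apex i) (hi : 2 * B + η < ang i x y)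
    (hz : z ∈ Intv D x y) (h : D x z = D x (apex i)) : z = apex i := by
  by_contra hne
  have hI : D x (apex i) + D (apex i) y = D x y := S.bgi i x y hxi hyi (by omega)
  have hZ : D x z + D z y = D x y := hz
  have h1 := S.ang_tri i x z y hxi hne hyi
  have h5 := S.pos hne
  by_cases h2 : B < ang i x z
  · have h3 : D x (apex i) + D (apex i) z = D x z := S.bgi i x _ hxi hne h2
    have h4 := S.geod.symm (apex i) z
    omega
  · have h3 : D z (apex i) + D (apex i) y = D z y := S.bgi i _ y hne hyi (by omega)
    omega

/-- chains of apexes with large angles are geodesic -/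
theorem chain_grow (S : Sys G D apex ang B η) (i : ℕ → ι) (hne : ∀ j, i j ≠ i (j + 1))
    (h : ∀ j, 2 * B + η < ang (i (j + 1)) (apex (i j)) (apex (i (j + 2)))) :
    ∀ m, m ≤ D (apex (i 0)) (apex (i m)) := by
  -- `i (m+1)` is seen from `i 0` in the direction of `i m`
  have key : ∀ m, apex (i 0) ≠ apex (i (m + 1)) ∧
      ang (i (m + 1)) (apex (i 0)) (apex (i m)) ≤ B ∧
      D (apex (i 0)) (apex (i m)) + 1 ≤ D (apex (i 0)) (apex (i (m + 1))) := by
    intro m
    induction m with
    | zero =>
      refine ⟨S.apex_ne (hne 0), S.self_le _ (S.apex_ne (hne 0)), ?_⟩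
      rw [S.geod.self]
      exact S.pos (S.apex_ne (hne 0))
    | succ m ih =>
      obtain ⟨h1, h2, h3⟩ := ih
      have n1 : apex (i m) ≠ apex (i (m + 1)) := S.apex_ne (hne m)
      have n2 : apex (i (m + 2)) ≠ apex (i (m + 1)) := Ne.symm (S.apex_ne (hne (m + 1)))
      have t1 := S.ang_tri (i (m + 1)) (apex (i m)) (apex (i 0)) (apex (i (m + 2))) n1 h1 n2
      have t2 := S.ang_symm (i (m + 1)) (apex (i m)) (apex (i 0))
      have t3 := h m
      have h4 : B < ang (i (m + 1)) (apex (i 0)) (apex (i (m + 2))) := by omega
      have h5 : D (apex (i 0)) (apex (i (m + 1))) + D (apex (i (m + 1))) (apex (i (m + 2)))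
          = D (apex (i 0)) (apex (i (m + 2))) := S.bgi _ _ _ h1 n2 h4
      have h6 := S.pos (Ne.symm n2)
      have h7 : apex (i 0) ≠ apex (i (m + 2)) := by
        intro he
        rw [he, S.geod.self] at h5
        omega
      refine ⟨h7, S.behrstock (hne (m + 1)) h1 h7 h4, ?_⟩
      show D (apex (i 0)) (apex (i (m + 1))) + 1 ≤ D (apex (i 0)) (apex (i (m + 2)))
      omega
  intro m
  induction m with
  | zero => omega
  | succ m ih =>
    have := (key m).2.2
    omega

end Sys

end Pool.Agent.Burnside
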