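import Pool.Agent.Burnside.Inst
import Pool.Agent.Burnside.SysLem

/-!
Property (S4) of the quotient: two suitable rotations about two closest apexes generate a
loxodromic element, which does not commute with a rotation.
-/

set_option autoImplicit false

namespace Pool.Agent.Burnside

open Cone

namespace S4q

section

variable {G X ι G' V' ι' : Type*} [Group G] [MulAction G X] [MulAction G ι] [Group G']
  [MulAction G' V'] [MulAction G' ι'] {d : X → X → ℕ} {Y : ι → Set X} {R : ι → Subgroup G}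
  {δ C A T n κ Θ D1 D2 E c0 M B Λ N3 : ℕ} {D' : V' → V' → ℕ} {apex' : ι' → V'}
  {ang' : ι' → V' → V' → ℕ} {π : G →* G'} {p : X ⊕ ι → V'} {q : ι → ι'}

/-- a rotation about the apex `i` which moves the direction of the apex `j` far away from all its
images under `R i` -/
theorem exists_turn (hS : Stage (G := G) d δ C A T n) (hP : Pack d Y R κ Θ A T n D1 D2 E c0)
    (hC : Cone d Y δ κ M)
    (hR : Rot (coneDist d Y M) (Sum.inr : ι → X ⊕ ι) (dPr d Y) R B Λ)
    (hQ : Quo (coneDist d Y M) (Sum.inr : ι → X ⊕ ι) (dPr d Y) R B Λ D' apex' ang' π p q)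
    (hT : 0 < T) (hTn : T * (2 * N3 + D2) ≤ n) {i j : ι} (hij : i ≠ j)
    (hD : coneDist d Y M (Sum.inr i) (Sum.inr j) = D' (apex' (q i)) (apex' (q j)))
    {u : G} (hu1 : u ≠ 1) (hui : u • i = i) (hu : ∀ y ∈ Y i, d y (u • y) ≤ D2) :
    ∃ w : G, w • i = i ∧ N3 ≤ ang' (q i) (apex' (q j)) (apex' (π w • q j)) + 8 * B := by
  classical
  have hji : (Sum.inr j : X ⊕ ι) ≠ Sum.inr i := fun h => hij (Sum.inr_injective h).symm
  obtain ⟨y0, hy0⟩ := hC.Pr_nonempty i (Sum.inr j : X ⊕ ι)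
  have hy0Y : y0 ∈ Y i := by
    obtain ⟨a, _, h⟩ := hy0
    exact h.1
  have hlox := hP.lox u i hui hu1
  have hex : ∃ a, N3 ≤ d y0 (u ^ a • y0) := by
    refine ⟨T * N3, ?_⟩
    have h1 := hlox y0 (T * N3)
    exact Nat.le_of_mul_le_mul_left h1 hT
  obtain ⟨a, ha1, ha2⟩ : ∃ a, N3 ≤ d y0 (u ^ a • y0) ∧ d y0 (u ^ a • y0) ≤ N3 + D2 := by
    refine ⟨Nat.find hex, Nat.find_spec hex, ?_⟩
    rcases Nat.eq_zero_or_pos (Nat.find hex) with h0 | h0
    · rw [h0, pow_zero, one_smul, hS.geod.self]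
      omega
    · obtain ⟨b, hb⟩ : ∃ b, Nat.find hex = b + 1 := ⟨Nat.find hex - 1, by omega⟩
      rw [hb]
      have h1 : ¬ N3 ≤ d y0 (u ^ b • y0) := Nat.find_min hex (by omega)
      have h2 : ∀ c : ℕ, u ^ c • y0 ∈ Y i := by
        intro c
        induction c with
        | zero => simpa using hy0Y
        | succ c ih =>
          rw [pow_succ', mul_smul]
          have := hP.smul u i _ ih
          rwa [hui] at this
      have h3 := hu _ (h2 b)
      have h4 := hS.geod.tri y0 (u ^ b • y0) (u ^ (b + 1) • y0)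
      have h5 : u ^ (b + 1) • y0 = u • u ^ b • y0 := by rw [pow_succ', mul_smul]
      rw [h5] at h4 ⊢
      omega
  have hfix : ∀ c : ℕ, u ^ c • i = i := by
    intro c
    have : u ∈ MulAction.stabilizer G i := hui
    exact pow_mem this c
  refine ⟨u ^ a, hfix a, ?_⟩
  -- the two points are nearest lifts
  have hpi : p (Sum.inr i) = apex' (q i) := hQ.p_apex i
  have hpj : p (Sum.inr j) = apex' (q j) := hQ.p_apex j
  have hwne : ∀ s : G, s • i = i → s • (Sum.inr j : X ⊕ ι) ≠ Sum.inr i := by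
    intro s hs he
    have h1 : s • (Sum.inr i : X ⊕ ι) = Sum.inr i := by
      show Sum.inr (s • i) = Sum.inr i
      rw [hs]
    rw [← h1] at he
    exact hji (smul_left_cancel _ he)
  have hπi : π (u ^ a) • q i = q i := by
    rw [← hQ.q_smul, hfix a]
  have hD2 : coneDist d Y M (Sum.inr i) (u ^ a • (Sum.inr j : X ⊕ ι)) =
      D' (apex' (q i)) (p (u ^ a • (Sum.inr j : X ⊕ ι))) := by
    have h1 : coneDist d Y M (Sum.inr i) (u ^ a • (Sum.inr j : X ⊕ ι)) =
        coneDist d Y M (Sum.inr i) (Sum.inr j) := by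
      rw [← hR.inv (u ^ a) (Sum.inr i) (Sum.inr j)]
      congr 1
      show Sum.inr i = Sum.inr (u ^ a • i)
      rw [hfix a]
    have h2 : D' (apex' (q i)) (p (u ^ a • (Sum.inr j : X ⊕ ι))) =
        D' (apex' (q i)) (apex' (q j)) := by
      rw [hQ.p_smul, hpj, ← hQ.sys.inv (π (u ^ a)) (apex' (q i)) (apex' (q j)),
        ← hQ.sys.apex_smul (π (u ^ a)) (q i), hπi]
    rw [h1, h2, hD]
  obtain ⟨s, hs, hang⟩ := hQ.near_att i (Sum.inr j) (u ^ a • (Sum.inr j : X ⊕ ι)) hji
    (hwne _ (hfix a)) (by rw [hpj]; exact hD) hD2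
  -- the angle upstairs
  have hsi : s • i = i := hR.fix i s hs
  have hN : N3 ≤ d y0 (s • u ^ a • y0) := by
    by_cases hs1 : s = 1
    · rw [hs1, one_smul]
      exact ha1
    · obtain ⟨g, hg, hgs⟩ := hP.mem_pow i s hs
      have hg1 : g ≠ 1 := by
        rintro rfl
        rw [one_pow] at hgs
        exact hs1 hgs
      have h1 := hP.lox g i hg hg1 (u ^ a • y0) n
      rw [← hgs] at h1
      have h2 : 2 * N3 + D2 ≤ d (u ^ a • y0) (s • u ^ a • y0) :=
        Nat.le_of_mul_le_mul_left (hTn.trans h1) hT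
      have h3 := hS.geod.tri (u ^ a • y0) y0 (s • u ^ a • y0)
      have h4 := hS.geod.symm (u ^ a • y0) y0
      omega
  have hmem : s • u ^ a • y0 ∈ Pr d Y i (s • u ^ a • (Sum.inr j : X ⊕ ι)) := by
    have h1 := Pr_smul hS.inv hP.smul (s * u ^ a) i hy0
    rw [mul_smul, mul_smul, mul_smul, hfix a, hsi] at h1
    exact h1
  have hne : s • u ^ a • (Sum.inr j : X ⊕ ι) ≠ Sum.inr i := by
    have h1 := hwne (s * u ^ a) (by rw [mul_smul, hfix a, hsi])
    rwa [mul_smul] at h1
  have h1 := hC.le_dPr hP.pb hji hne hy0 hmem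
  have h2 : p (u ^ a • (Sum.inr j : X ⊕ ι)) = apex' (π (u ^ a) • q j) := by
    rw [hQ.p_smul, hpj, hQ.sys.apex_smul]
  rw [hpj, h2] at hang
  omega

/-- two elements of the quotient which turn about two apexes by large angles -/
theorem lox_of_turns {η : ℕ} (hSys : Sys G' D' apex' ang' B η) {I J : ι'} (hIJ : I ≠ J)
    {e f : G'} (he : e • I = I) (hf : f • J = J)
    (hI : 2 * B + η < ang' I (apex' J) (apex' (e • J)))
    (hJ : 2 * B + η < ang' J (apex' I) (apex' (f • I))) (hT : 0 < T) : Lox D' T (e * f) := by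
  classical
  obtain ⟨c, hc⟩ : ∃ c : ℕ → ι', c = fun m => if m % 2 = 0 then (e * f) ^ (m / 2) • J
    else (e * f) ^ (m / 2) • I := ⟨_, rfl⟩
  have hc0 : ∀ k, c (2 * k) = (e * f) ^ k • J := by
    intro k
    rw [hc]
    show (if (2 * k) % 2 = 0 then (e * f) ^ (2 * k / 2) • J else (e * f) ^ (2 * k / 2) • I) = _
    rw [if_pos (by omega), show 2 * k / 2 = k by omega]
  have hc1 : ∀ k, c (2 * k + 1) = (e * f) ^ k • I := by
    intro k
    rw [hc]
    show (if (2 * k + 1) % 2 = 0 then (e * f) ^ ((2 * k + 1) / 2) • J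
      else (e * f) ^ ((2 * k + 1) / 2) • I) = _
    rw [if_neg (by omega), show (2 * k + 1) / 2 = k by omega]
  have hs0 : ∀ k, (e * f) ^ (k + 1) • J = (e * f) ^ k • e • J := by
    intro k
    rw [pow_succ, mul_smul, mul_smul, hf]
  have hs1 : ∀ k, (e * f) ^ (k + 1) • J = ((e * f) ^ k * e) • J := by
    intro k
    rw [hs0, mul_smul]
  have hs2 : ∀ k, (e * f) ^ k • I = ((e * f) ^ k * e) • I := by
    intro k
    rw [mul_smul, he]
  have hs3 : ∀ k, (e * f) ^ (k + 1) • I = ((e * f) ^ k * e) • f • I := by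
    intro k
    rw [pow_succ, mul_smul, mul_smul, mul_smul]
  have hne : ∀ m, c m ≠ c (m + 1) := by
    intro m
    rcases Nat.even_or_odd' m with ⟨k, hk | hk⟩
    · rw [hk, hc0, hc1]
      intro h
      exact hIJ (smul_left_cancel _ h).symm
    · rw [hk, hc1, show 2 * k + 1 + 1 = 2 * (k + 1) by ring, hc0, hs1, hs2]
      intro h
      exact hIJ (smul_left_cancel _ h)
  have hang : ∀ m, 2 * B + η < ang' (c (m + 1)) (apex' (c m)) (apex' (c (m + 2))) := by
    intro m
    rcases Nat.even_or_odd' m with ⟨k, hk | hk⟩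
    · rw [hk, hc1, hc0, show 2 * k + 2 = 2 * (k + 1) by ring, hc0, hs0,
        hSys.apex_smul, hSys.apex_smul ((e * f) ^ k) (e • J), hSys.ang_inv]
      exact hI
    · rw [hk, show 2 * k + 1 + 1 = 2 * (k + 1) by ring, hc0, hc1,
        show 2 * k + 1 + 2 = 2 * (k + 1) + 1 by ring, hc1, hs1, hs2, hs3,
        hSys.apex_smul, hSys.apex_smul ((e * f) ^ k * e) (f • I), hSys.ang_inv]
      exact hJ
  have hgrow := hSys.chain_grow c hne hang
  refine lox_arc hSys.geod hSys.inv (T := T) (N := 1) (c := 0) le_rfl (e * f) (apex' J) ?_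
  intro j
  have h1 := hgrow (2 * j)
  have h2 : c 0 = J := by
    have := hc0 0
    rw [pow_zero, one_smul] at this
    exact this
  rw [h2, hc0, hSys.apex_smul] at h1
  rw [one_mul, add_zero]
  calc j ≤ 2 * j := by omega
    _ ≤ D' (apex' J) ((e * f) ^ j • apex' J) := h1
    _ ≤ T * D' (apex' J) ((e * f) ^ j • apex' J) := Nat.le_mul_of_pos_left _ hT

end

end S4q

open S4q in
/-- **(S4) for the quotient.** -/
theorem s4_quot {G X ι G' V' ι' : Type*} [Group G] [MulAction G X] [MulAction G ι] [Group G']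
    [MulAction G' V'] [MulAction G' ι'] {d : X → X → ℕ} {Y : ι → Set X} {R : ι → Subgroup G}
    {δ C A T n κ Θ D1 D2 E c0 M B Λ N3 : ℕ} {D' : V' → V' → ℕ} {apex' : ι' → V'}
    {ang' : ι' → V' → V' → ℕ} {π : G →* G'} {p : X ⊕ ι → V'} {q : ι → ι'}
    (hS : Stage (G := G) d δ C A T n) (hP : Pack d Y R κ Θ A T n D1 D2 E c0)
    (hC : Cone d Y δ κ M)
    (hR : Rot (coneDist d Y M) (Sum.inr : ι → X ⊕ ι) (dPr d Y) R B Λ)
    (hQ : Quo (coneDist d Y M) (Sum.inr : ι → X ⊕ ι) (dPr d Y) R B Λ D' apex' ang' π p q)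
    (hfix2 : ∀ (g' : G') (i' j' : ι'), i' ≠ j' → g' • i' = i' → g' • j' = j' → g' = 1)
    (hT : 0 < T) (hn : 0 < n) (hMT : M + 2 * BB δ κ M Θ ≤ T)
    (hD1 : 4 * (4 * δ + 2) + 1 ≤ D1)
    (hN3 : 15 * B + 1 ≤ N3) (hTn : T * (2 * N3 + D2) ≤ n) :
    ∃ g h : G', Lox D' T g ∧ g * h ≠ h * g := by
  classical
  obtain ⟨x0, -⟩ := hS.ne
  obtain ⟨g, h, hg, hgh⟩ := hS.s4
  rcases isEmpty_or_nonempty ι with hι | hι
  · -- no apexes: the quotient map is injective
    have hK : ∀ k ∈ Rot.KK R, k = 1 := by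
      intro k hk
      have h1 : Rot.KK R ≤ ⊥ := by
        unfold Rot.KK
        rw [Subgroup.closure_le]
        rintro s ⟨i, _⟩
        exact hι.elim i
      exact Subgroup.mem_bot.1 (h1 hk)
    have hgn : g ^ n ≠ 1 := by
      intro h1
      have h2 := hg x0 n
      rw [h1, one_smul, hS.geod.self, mul_zero] at h2
      omega
    have hmove : ∀ x : X, 4 * (4 * δ + 2) + 2 ≤ d x (g • x) := by
      intro x
      by_contra hcon
      obtain ⟨i, -⟩ := hP.ex g hgn ⟨x, by omega⟩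
      exact hι.elim i
    have hlox1 : Lox d 1 g := lox_e3 hS.geod hS.inv (fp_of_slim hS.geod hS.slim) g x0 hmove
    refine ⟨π g, π h, ?_, ?_⟩
    · refine lox_arc hQ.sys.geod hQ.sys.inv (T := T) (N := 1) (c := 0) le_rfl (π g)
        (p (Sum.inl x0)) ?_
      intro j
      rw [one_mul, add_zero]
      have h1 := hlox1 x0 j
      rw [one_mul] at h1
      have h2 := dist_le_of_ang hC hP.pb (x := x0) (y := g ^ j • x0) (Th := 0)
        (fun i => hι.elim i)
      obtain ⟨k, hk, h3⟩ := hQ.att (Sum.inl x0) (g ^ j • (Sum.inl x0 : X ⊕ ι))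
      rw [hK k hk, one_smul, hQ.p_smul, map_pow] at h3
      have h4 : coneDist d Y M (Sum.inl x0) (g ^ j • (Sum.inl x0 : X ⊕ ι)) =
          coneDist d Y M (Sum.inl x0) (Sum.inl (g ^ j • x0)) := rfl
      rw [← h3, h4]
      calc j ≤ d x0 (g ^ j • x0) := h1
        _ ≤ coneDist d Y M (Sum.inl x0) (Sum.inl (g ^ j • x0)) *
            (M + 0 + 2 * BB δ κ M Θ) := h2
        _ ≤ coneDist d Y M (Sum.inl x0) (Sum.inl (g ^ j • x0)) * T :=
            Nat.mul_le_mul_left _ (by omega)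
        _ = T * coneDist d Y M (Sum.inl x0) (Sum.inl (g ^ j • x0)) := mul_comm _ _
    · intro h1
      apply hgh
      have h2 : π (g * h * (h * g)⁻¹) = 1 := by
        rw [map_mul, map_inv, map_mul, map_mul, h1, mul_inv_cancel]
      have h3 := hK _ ((hQ.pi_ker _).1 h2)
      exact mul_inv_eq_one.1 h3
  · -- two closest apexes
    have hex2 : ∃ i j : ι, i ≠ j := by
      by_contra hcon
      push Not at hcon
      obtain ⟨i⟩ := hι
      exact hgh (hP.comm g h i (hcon _ _) (hcon _ _))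
    have hexm : ∃ m, ∃ i j : ι, i ≠ j ∧ coneDist d Y M (Sum.inr i) (Sum.inr j) = m := by
      obtain ⟨i, j, hij⟩ := hex2
      exact ⟨_, i, j, hij, rfl⟩
    obtain ⟨i, j, hij, hm⟩ := Nat.find_spec hexm
    have hmin : ∀ i' j' : ι, i' ≠ j' → Nat.find hexm ≤ coneDist d Y M (Sum.inr i')
        (Sum.inr j') := fun i' j' h => Nat.find_min' hexm ⟨i', j', h, rfl⟩
    have hne : (Sum.inr i : X ⊕ ι) ≠ Sum.inr j := fun h => hij (Sum.inr_injective h)
    have hDij : coneDist d Y M (Sum.inr i) (Sum.inr j) = D' (apex' (q i)) (apex' (q j)) := by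
      rw [← hQ.p_apex i, ← hQ.p_apex j]
      refine hQ.f3 _ _ B (by have := hR.big; omega) ?_
      intro u hu1 hu2
      by_contra hcon
      have h1 : coneDist d Y M (Sum.inr i) (Sum.inr u) + coneDist d Y M (Sum.inr u) (Sum.inr j)
          = coneDist d Y M (Sum.inr i) (Sum.inr j) := hR.bgi u _ _ hu1 hu2 (by omega)
      have h2 := hmin i u (fun h => hu1 (by rw [h]))
      have h3 := hR.pos hu2
      have h4 := hR.geod.symm (Sum.inr j) (Sum.inr u)
      omega
    have hDji : coneDist d Y M (Sum.inr j) (Sum.inr i) = D' (apex' (q j)) (apex' (q i)) := by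
      rw [hR.geod.symm, hQ.sys.geod.symm (apex' (q j))]
      exact hDij
    have hqij : q i ≠ q j := by
      intro h1
      rw [h1, hQ.sys.geod.self] at hDij
      have := hR.pos hne
      omega
    obtain ⟨u, hu1, hui, hu⟩ := hP.small i
    obtain ⟨v, hv1, hvj, hv⟩ := hP.small j
    obtain ⟨a, hai, ha⟩ := exists_turn hS hP hC hR hQ hT hTn hij hDij hu1 hui hu
    obtain ⟨b, hbj, hb⟩ := exists_turn hS hP hC hR hQ hT hTn (Ne.symm hij) hDji hv1 hvj hv
    have hlox : Lox D' T (π a * π b) := by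
      refine lox_of_turns hQ.sys hqij ?_ ?_ ?_ ?_ hT
      · rw [← hQ.q_smul, hai]
      · rw [← hQ.q_smul, hbj]
      · omega
      · omega
    refine ⟨π a * π b, π u, hlox, ?_⟩
    intro hcomm
    -- `π u` is not trivial
    have hu' : π u ≠ 1 := by
      intro h1
      have h2 : u • (Sum.inr i : X ⊕ ι) = Sum.inr i := by
        show Sum.inr (u • i) = Sum.inr i
        rw [hui]
      have h3 := hQ.stab u i ((hQ.pi_ker u).1 h1) h2
      obtain ⟨s, hs, hsu⟩ := hP.mem_pow i u h3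
      have hs1 : s ≠ 1 := by
        rintro rfl
        rw [one_pow] at hsu
        exact hu1 hsu
      obtain ⟨y, hy⟩ := hP.ne i
      have h4 := hP.lox s i hs hs1 y n
      rw [← hsu] at h4
      have h5 := hu y hy
      have h6 : T * d y (u • y) ≤ T * D2 := Nat.mul_le_mul_left _ h5
      have h7 : T * (2 * N3 + D2) = T * D2 + T * (2 * N3) := by ring
      have h8 : 0 < T * (2 * N3) := Nat.mul_pos hT (by omega)
      omega
    have hui' : π u • q i = q i := by rw [← hQ.q_smul, hui]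
    apply hu'
    refine hfix2 (π u) (q i) ((π a * π b) • q i) ?_ hui' ?_
    · intro h1
      have h2 := hlox (apex' (q i)) 1
      rw [pow_one, ← hQ.sys.apex_smul, ← h1, hQ.sys.geod.self, mul_zero] at h2
      omega
    · rw [← mul_smul, ← hcomm, mul_smul, hui']

end Pool.Agent.Burnside
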