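import Pool.Agent.Burnside.Hyp

/-!
Stable length for an action by isometries on an integer valued metric; growth criterion and rank
one inequality from the four point inequality.
-/

namespace Pool.Agent.Burnside

open Set Filter Topology

variable {G X : Type*} [Group G] [MulAction G X] {d : X → X → ℕ} {δ : ℕ}

/-- the stable length of `g` -/
noncomputable def sl (d : X → X → ℕ) (g : G) : ℝ :=
  sInf {r : ℝ | ∃ (x : X) (k : ℕ), 1 ≤ k ∧ r = (d x (g ^ k • x) : ℝ) / k}

/-- the action is by isometries -/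
def Isom (G : Type*) {X : Type*} [Group G] [MulAction G X] (d : X → X → ℕ) : Prop :=
  ∀ (g : G) (a b : X), d (g • a) (g • b) = d a b

lemma sl_nonneg (g : G) : 0 ≤ sl d g := by
  apply Real.sInf_nonneg
  rintro r ⟨x, k, -, rfl⟩
  positivity

lemma sl_le (g : G) (x : X) {k : ℕ} (hk : 1 ≤ k) : sl d g ≤ (d x (g ^ k • x) : ℝ) / k := by
  refine csInf_le ⟨0, ?_⟩ ⟨x, k, hk, rfl⟩
  rintro r ⟨x, k, -, rfl⟩
  positivity

lemma mul_sl_le (g : G) (x : X) (k : ℕ) : k * sl d g ≤ d x (g ^ k • x) := by
  rcases Nat.eq_zero_or_pos k with h | h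
  · subst h
    simp
  · have h1 := sl_le (d := d) g x h
    rwa [le_div_iff₀ (by exact_mod_cast h), mul_comm] at h1

lemma sl_le_dist (g : G) (x : X) : sl d g ≤ d x (g • x) := by
  have := mul_sl_le (d := d) g x 1
  simpa using this

lemma le_sl [Nonempty X] {g : G} {r : ℝ}
    (h : ∀ (x : X) (k : ℕ), 1 ≤ k → r ≤ (d x (g ^ k • x) : ℝ) / k) : r ≤ sl d g := by
  obtain ⟨x⟩ := ‹Nonempty X›
  refine le_csInf ⟨_, x, 1, le_rfl, rfl⟩ ?_
  rintro r ⟨x, k, hk, rfl⟩
  exact h x k hk

lemma dist_pow_le (hd : IsGeod d) (hG : Isom G d) (g : G) (x : X) (j k : ℕ) :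
    d x (g ^ (k * j) • x) ≤ j * d x (g ^ k • x) := by
  induction j with
  | zero => simp [hd.self]
  | succ j ih =>
    have h1 := hd.tri x (g ^ (k * j) • x) (g ^ (k * (j + 1)) • x)
    have h2 : g ^ (k * (j + 1)) • x = g ^ (k * j) • (g ^ k • x) := by
      rw [smul_smul, ← pow_add]
      ring_nf
    rw [h2, hG] at h1
    rw [h2]
    have h3 : (j + 1) * d x (g ^ k • x) = j * d x (g ^ k • x) + d x (g ^ k • x) := by ring
    omega

lemma sl_tendsto (hd : IsGeod d) (hG : Isom G d) (g : G) (x : X) :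
    Tendsto (fun k : ℕ => (d x (g ^ k • x) : ℝ) / k) atTop (𝓝 (sl d g)) := by
  have : Nonempty X := ⟨x⟩
  let u : ℕ → ℝ := fun k => d x (g ^ k • x)
  have hu : Subadditive u := by
    intro m n
    have h1 := hd.tri x (g ^ m • x) (g ^ (m + n) • x)
    have h2 : g ^ (m + n) • x = g ^ m • (g ^ n • x) := by rw [smul_smul, pow_add]
    rw [h2, hG] at h1
    show (d x (g ^ (m + n) • x) : ℝ) ≤ d x (g ^ m • x) + d x (g ^ n • x)
    rw [h2]
    exact_mod_cast h1
  have hb : BddBelow (range fun n => u n / n) := ⟨0, by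
    rintro r ⟨n, rfl⟩
    show 0 ≤ (d x (g ^ n • x) : ℝ) / n
    positivity⟩
  have ht := hu.tendsto_lim hb
  have he : hu.lim = sl d g := by
    apply le_antisymm
    · apply le_sl
      intro y k hk
      rw [le_div_iff₀ (by exact_mod_cast hk)]
      -- `lim * k ≤ d y (g ^ k y)`
      have hkey : ∀ j : ℕ, 1 ≤ j → hu.lim * k * j ≤ 2 * (d x y : ℝ) + j * d y (g ^ k • y) := by
        intro j hj
        have hkj : k * j ≠ 0 := by positivity
        have h1 := hu.lim_le_div hb hkj
        have h2 : u (k * j) ≤ 2 * (d x y : ℝ) + j * d y (g ^ k • y) := by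
          have h3 := hd.tri x y (g ^ (k * j) • x)
          have h4 := hd.tri y (g ^ (k * j) • y) (g ^ (k * j) • x)
          rw [hG] at h4
          have h5 := dist_pow_le hd hG g y j k
          have h6 := hd.symm y x
          have h7 : d x (g ^ (k * j) • x) ≤ 2 * d x y + j * d y (g ^ k • y) := by omega
          show (d x (g ^ (k * j) • x) : ℝ) ≤ _
          exact_mod_cast h7
        have hpos : (0 : ℝ) < ((k * j : ℕ) : ℝ) := by
          exact_mod_cast Nat.pos_of_ne_zero hkj
        rw [le_div_iff₀ hpos] at h1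
        push_cast at h1
        linarith
      by_contra hc
      push Not at hc
      obtain ⟨j, hj⟩ := exists_nat_gt (2 * (d x y : ℝ) / (hu.lim * k - d y (g ^ k • y)))
      have hpos : 0 < hu.lim * k - d y (g ^ k • y) := by linarith
      rw [div_lt_iff₀ hpos] at hj
      have h1 : 1 ≤ j := by
        rcases Nat.eq_zero_or_pos j with h | h
        · subst h
          have : (0 : ℝ) ≤ 2 * (d x y : ℝ) := by positivity
          simp only [Nat.cast_zero, zero_mul] at hj
          linarith
        · exact h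
      have h2 := hkey j h1
      have h3 : hu.lim * k * j - j * d y (g ^ k • y) = j * (hu.lim * k - d y (g ^ k • y)) := by ring
      linarith
    · apply ge_of_tendsto ht
      filter_upwards [eventually_ge_atTop 1] with k hk
      exact sl_le g x hk
  rw [← he]
  exact ht

lemma sl_conj (hG : Isom G d) (g h : G) : sl d (h * g * h⁻¹) = sl d g := by
  unfold sl
  congr 1
  ext r
  constructor
  · rintro ⟨x, k, hk, rfl⟩
    refine ⟨h⁻¹ • x, k, hk, ?_⟩
    rw [conj_pow, mul_smul, mul_smul, ← hG h (h⁻¹ • x), smul_inv_smul]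
  · rintro ⟨x, k, hk, rfl⟩
    refine ⟨h • x, k, hk, ?_⟩
    rw [conj_pow, mul_smul, mul_smul, inv_smul_smul, hG]

lemma sl_inv (hd : IsGeod d) (hG : Isom G d) (g : G) : sl d g⁻¹ = sl d g := by
  have key : ∀ (x : X) (k : ℕ), d x (g⁻¹ ^ k • x) = d x (g ^ k • x) := by
    intro x k
    rw [← hG (g ^ k) x, inv_pow, smul_inv_smul, hd.symm]
  unfold sl
  simp only [key]

lemma sl_one (hd : IsGeod d) [Nonempty X] : sl d (1 : G) = 0 := by
  obtain ⟨x⟩ := ‹Nonempty X›
  apply le_antisymm _ (sl_nonneg _)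
  have := sl_le_dist (d := d) (1 : G) x
  simpa [hd.self] using this

lemma sl_pow (hd : IsGeod d) (hG : Isom G d) [Nonempty X] (g : G) (m : ℕ) :
    sl d (g ^ m) = m * sl d g := by
  rcases Nat.eq_zero_or_pos m with h | h
  · subst h
    rw [pow_zero, sl_one hd]
    simp
  · obtain ⟨x⟩ := ‹Nonempty X›
    have h1 := sl_tendsto hd hG (g ^ m) x
    have h2 := sl_tendsto hd hG g x
    have h3 : Tendsto (fun k : ℕ => m * k) atTop atTop := by
      apply tendsto_atTop_mono (fun k => ?_) tendsto_id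
      exact Nat.le_mul_of_pos_left k h
    have h4 := (h2.comp h3).const_mul (m : ℝ)
    refine tendsto_nhds_unique h1 (h4.congr ?_)
    intro k
    simp only [Function.comp_apply]
    rw [← pow_mul]
    have hm : (m : ℝ) ≠ 0 := by
      exact_mod_cast h.ne'
    push_cast
    rcases Nat.eq_zero_or_pos k with hk | hk
    · subst hk
      simp
    · have hk' : (k : ℝ) ≠ 0 := by exact_mod_cast hk.ne'
      field_simp

lemma sl_of_torsion (hd : IsGeod d) (hG : Isom G d) [Nonempty X] {g : G} {m : ℕ} (hm : 1 ≤ m)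
    (h : g ^ m = 1) : sl d g = 0 := by
  have h1 := sl_pow hd hG (d := d) g m
  rw [h, sl_one hd] at h1
  have hm' : (m : ℝ) ≠ 0 := by
    have : 0 < m := hm
    exact_mod_cast this.ne'
  have := h1.symm
  rcases mul_eq_zero.1 this with h2 | h2
  · exact absurd h2 hm'
  · exact h2

/-- growth of the orbit -/
lemma growth (hd : IsGeod d) (hs : Slim d δ) (hG : Isom G d) (g : G) (x : X) {e : ℕ} (he : 1 ≤ e)
    (h : d x (g • x) + (4 * δ + 2) + e ≤ d x (g ^ 2 • x)) :
    ∀ k, 1 ≤ k → d x (g ^ k • x) + e ≤ d x (g ^ (k + 1) • x) := by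
  have ha : ∀ i j : ℕ, d (g ^ i • x) (g ^ (i + j) • x) = d x (g ^ j • x) := by
    intro i j
    rw [pow_add, mul_smul, hG]
  intro k hk
  induction k, hk using Nat.le_induction with
  | base =>
    rw [pow_one]
    show _ ≤ d x (g ^ 2 • x)
    omega
  | succ k hk ih =>
    have h4 := four_point hd hs x (g • x) (g ^ 2 • x) (g ^ (k + 2) • x)
    have e1 : d (g • x) (g ^ (k + 2) • x) = d x (g ^ (k + 1) • x) := by
      have := ha 1 (k + 1)
      rw [pow_one] at this
      rw [← this]
      ring_nf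
    have e2 : d (g ^ 2 • x) (g ^ (k + 2) • x) = d x (g ^ k • x) := by
      have := ha 2 k
      rw [← this]
      ring_nf
    have e3 : d (g • x) (g ^ 2 • x) = d x (g • x) := by
      have := ha 1 1
      rw [pow_one] at this
      rw [← this]
    rw [e1, e2, e3] at h4
    show _ ≤ d x (g ^ (k + 2) • x)
    omega

lemma growth_le (hd : IsGeod d) (hs : Slim d δ) (hG : Isom G d) (g : G) (x : X) {e : ℕ}
    (he : 1 ≤ e) (h : d x (g • x) + (4 * δ + 2) + e ≤ d x (g ^ 2 • x)) :
    ∀ k, k * e ≤ d x (g ^ k • x) := by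
  intro k
  rcases Nat.eq_zero_or_pos k with hk | hk
  · subst hk
    simp
  · induction k, hk using Nat.le_induction with
    | base =>
      have h1 := hd.tri x (g • x) (g ^ 2 • x)
      have h2 : d (g • x) (g ^ 2 • x) = d x (g • x) := by
        rw [pow_two, mul_smul, hG]
      rw [pow_one]
      omega
    | succ k hk ih =>
      have := growth hd hs hG g x he h k hk
      have h3 : (k + 1) * e = k * e + e := by ring
      omega

/-- the stable length is at least the second difference of the displacement -/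
lemma sl_growth (hd : IsGeod d) (hs : Slim d δ) (hG : Isom G d) (g : G) (x : X) :
    (d x (g ^ 2 • x) : ℝ) - d x (g • x) - (4 * δ + 2) ≤ sl d g := by
  by_cases h : d x (g • x) + (4 * δ + 2) + 1 ≤ d x (g ^ 2 • x)
  · obtain ⟨e, he⟩ : ∃ e, d x (g ^ 2 • x) = d x (g • x) + (4 * δ + 2) + e :=
      ⟨d x (g ^ 2 • x) - (d x (g • x) + (4 * δ + 2)), by omega⟩
    have h1 := growth_le hd hs hG g x (e := e) (by omega) (by omega)
    have h2 := sl_tendsto hd hG g x
    have h3 : (e : ℝ) ≤ sl d g := by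
      apply ge_of_tendsto h2
      filter_upwards [eventually_ge_atTop 1] with k hk
      rw [le_div_iff₀ (by exact_mod_cast hk)]
      have := h1 k
      rw [mul_comm]
      exact_mod_cast this
    rw [he]
    push_cast
    linarith
  · have h1 : (d x (g ^ 2 • x) : ℝ) ≤ d x (g • x) + (4 * δ + 2) := by
      have : d x (g ^ 2 • x) ≤ d x (g • x) + (4 * δ + 2) := by omega
      exact_mod_cast this
    have h2 := sl_nonneg (d := d) g
    linarith

lemma sl_mul_add (hd : IsGeod d) (hs : Slim d δ) (hG : Isom G d) [Nonempty X] {g h : G}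
    (hc : g * h = h * g) : sl d (g * h) + sl d (g * h⁻¹) ≤ 2 * max (sl d g) (sl d h) := by
  obtain ⟨x⟩ := ‹Nonempty X›
  have hcomm : Commute g h := hc
  have key : ∀ k : ℕ, (d x ((g * h) ^ k • x) : ℝ) + d x ((g * h⁻¹) ^ k • x) ≤
      2 * max (d x (g ^ k • x) : ℝ) (d x (h ^ k • x)) + (4 * δ + 2) := by
    intro k
    have e1 : d x ((g * h) ^ k • x) = d (h ^ k • x) (h ^ k • (g * h) ^ k • x) := by rw [hG]
    have h4 := four_point hd hs x (h ^ k • x) (g ^ k • h ^ k • x) (g ^ k • x)
    have e2 : d x (g ^ k • h ^ k • x) = d x ((g * h) ^ k • x) := by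
      rw [smul_smul, hcomm.mul_pow]
    have e3 : d (h ^ k • x) (g ^ k • x) = d x ((g * h⁻¹) ^ k • x) := by
      rw [(hcomm.inv_right).mul_pow, ((hcomm.inv_right).pow_pow k k).eq, mul_smul, ← hG (h ^ k) x,
        smul_smul (h ^ k) (h⁻¹ ^ k), ← (Commute.refl h).inv_right.mul_pow, mul_inv_cancel, one_pow,
        one_smul]
    have e4 : d (g ^ k • h ^ k • x) (g ^ k • x) = d x (h ^ k • x) := by
      rw [hG, hd.symm]
    have e5 : d (h ^ k • x) (g ^ k • h ^ k • x) = d x (g ^ k • x) := by
      rw [smul_smul, (hcomm.pow_pow k k).eq, mul_smul, hG]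
    rw [e2, e3, e4, e5] at h4
    have e6 : d (g ^ k • h ^ k • x) (g ^ k • x) = d x (h ^ k • x) := e4
    rcases h4 with h4 | h4
    · have h5 : (d x ((g * h) ^ k • x) : ℝ) + d x ((g * h⁻¹) ^ k • x) ≤
          d x (h ^ k • x) + d x (h ^ k • x) + (4 * δ + 2) := by exact_mod_cast h4
      have h6 := le_max_right (d x (g ^ k • x) : ℝ) (d x (h ^ k • x))
      linarith
    · have h5 : (d x ((g * h) ^ k • x) : ℝ) + d x ((g * h⁻¹) ^ k • x) ≤
          d x (g ^ k • x) + d x (g ^ k • x) + (4 * δ + 2) := by exact_mod_cast h4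
      have h6 := le_max_left (d x (g ^ k • x) : ℝ) (d x (h ^ k • x))
      linarith
  have t1 := (sl_tendsto hd hG (g * h) x).add (sl_tendsto hd hG (g * h⁻¹) x)
  have t2 := (((sl_tendsto hd hG g x).max (sl_tendsto hd hG h x)).const_mul 2).add
    (tendsto_const_div_atTop_nhds_zero_nat (4 * (δ : ℝ) + 2))
  rw [add_zero] at t2
  refine le_of_tendsto_of_tendsto t1 t2 ?_
  filter_upwards [eventually_ge_atTop 1] with k hk
  have hk' : (0 : ℝ) < k := by exact_mod_cast hk
  have h1 := key k
  rw [max_div_div_right hk'.le, ← add_div, ← mul_div_assoc, ← add_div]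
  exact div_le_div_of_nonneg_right h1 hk'.le

/-- the rank one inequality -/
lemma rank_one (hd : IsGeod d) (hs : Slim d δ) (hG : Isom G d) [Nonempty X] {g h : G}
    (hc : g * h = h * g) :
    min (sl d (g * h)) (sl d (g * h⁻¹)) ≤ |sl d g - sl d h| := by
  have hcomm : Commute g h := hc
  have h1 := sl_mul_add hd hs hG hc
  have hc2 : g * h * (g * h⁻¹) = g * h⁻¹ * (g * h) := by
    have c1 : Commute (g * h) (g * h⁻¹) :=
      ((Commute.refl g).mul_left hcomm.symm).mul_right
        ((hcomm.inv_right).mul_left (Commute.refl h).inv_right)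
    exact c1
  have h2 := sl_mul_add hd hs hG hc2
  have e1 : g * h * (g * h⁻¹) = g ^ 2 := by
    rw [hc2, pow_two]
    rw [hcomm.eq]
    group
  have e2 : g * h * (g * h⁻¹)⁻¹ = h ^ 2 := by
    rw [mul_inv_rev, inv_inv, hcomm.eq, pow_two]
    have : h * g * (h * g⁻¹) = h * (g * h) * g⁻¹ := by group
    rw [this, hcomm.eq]
    group
  rw [e1, e2, sl_pow hd hG, sl_pow hd hG] at h2
  push_cast at h2
  rcases le_total (sl d g) (sl d h) with ha | ha
  · rw [max_eq_right ha] at h1
    rw [abs_of_nonpos (by linarith)]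
    rcases le_total (sl d (g * h)) (sl d (g * h⁻¹)) with hb | hb
    · rw [max_eq_right hb] at h2
      rw [min_eq_left hb]
      linarith
    · rw [max_eq_left hb] at h2
      rw [min_eq_right hb]
      linarith
  · rw [max_eq_left ha] at h1
    rw [abs_of_nonneg (by linarith)]
    rcases le_total (sl d (g * h)) (sl d (g * h⁻¹)) with hb | hb
    · rw [max_eq_right hb] at h2
      rw [min_eq_left hb]
      linarith
    · rw [max_eq_left hb] at h2
      rw [min_eq_right hb]
      linarith

end Pool.Agent.Burnside
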