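import Pool.Agent.Burnside.Axis
import Pool.Agent.Burnside.Inst
import Pool.Agent.Burnside.Quot
import Pool.Agent.Burnside.Limit

/-!
From a stage to its quotient: the cone-off along the axes, the rotation groups and the quotient;
reduction of the existence of infinite two generated groups of exponent `n` to the statement that
the quotient of a stage is a stage.
-/

set_option autoImplicit false

namespace Pool.Agent.Burnside

open Cone

/-- steps of length `M` -/
lemma coneDist_inl_le {X ι : Type*} {d : X → X → ℕ} {Y : ι → Set X} {δ κ M : ℕ}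
    (C : Cone d Y δ κ M) : ∀ (j : ℕ) (x y : X), d x y ≤ j * M →
    coneDist d Y M (Sum.inl x) (Sum.inl y) ≤ j := by
  intro j
  induction j with
  | zero =>
    intro x y h
    have h1 : x = y := C.geod.eq x y (by omega)
    rw [h1, C.isGeod.self]
  | succ j ih =>
    intro x y h
    have e : (j + 1) * M = j * M + M := by ring
    rcases le_or_gt (d x y) M with h1 | h1
    · have := C.dist_inl h1
      omega
    · obtain ⟨z, hz1, hz2⟩ := C.geod.geod x y M h1.le
      have h2 := C.dist_inl (x := x) (y := z) (by omega)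
      have h3 := ih z y (by omega)
      have h4 := C.isGeod.tri (Sum.inl x) (Sum.inl z) (Sum.inl y)
      omega

/-- two apexes of a cone-off are not adjacent -/
lemma noAdj_cone {X ι : Type*} {d : X → X → ℕ} {Y : ι → Set X} {δ κ M : ℕ}
    (C : Cone d Y δ κ M) : Rot.NoAdj (coneDist d Y M) (Sum.inr : ι → X ⊕ ι) := by
  intro i j h
  by_cases hij : i = j
  · rw [hij, C.isGeod.self] at h
    omega
  · have := one_lt_apex C hij
    omega

/-- **From a stage to its quotient.** -/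
theorem stage_quo {G X : Type} [Group G] [MulAction G X] {d : X → X → ℕ} {δ C A T n M Λ : ℕ}
    (S : Stage (G := G) d δ C A T n) (hn : Odd n) (hC : 48 * δ + 2 ≤ C)
    (hM : 4 * δ + cκ δ + 1 ≤ M) (hT : 0 < T)
    (hΛ : 16 * BB δ (cκ δ) M (cΘ δ A) < Λ) (hnΛ : T * Λ ≤ n) :
    ∃ (ι : Type) (_ : MulAction G ι) (Y : ι → Set X) (R : ι → Subgroup G),
      Pack d Y R (cκ δ) (cΘ δ A) A T n (cD1 δ) (cD2 δ) (cE δ T) (cc0 δ) ∧
      Cone d Y δ (cκ δ) M ∧
      Rot (coneDist d Y M) (Sum.inr : ι → X ⊕ ι) (dPr d Y) R (BB δ (cκ δ) M (cΘ δ A)) Λ ∧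
      ∃ (_ : (Rot.KK R).Normal) (V' ι' : Type) (_ : MulAction (G ⧸ Rot.KK R) V')
        (_ : MulAction (G ⧸ Rot.KK R) ι') (D' : V' → V' → ℕ) (apex' : ι' → V')
        (ang' : ι' → V' → V' → ℕ) (p : X ⊕ ι → V') (q : ι → ι'),
        Quo (coneDist d Y M) (Sum.inr : ι → X ⊕ ι) (dPr d Y) R (BB δ (cκ δ) M (cΘ δ A)) Λ D'
          apex' ang' (QuotientGroup.mk' (Rot.KK R)) p q := by
  have S1 := Stage.act S hn hC
  have hP := S1.pack
  have hCone : Cone d (AxY (12 * cH δ) : AxI S1.inv n (cD1 δ) → Set X) δ (cκ δ) M :=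
    { geod := S.geod
      slim := S.slim
      ne := hP.ne
      qc := hP.qc
      hM := hM }
  have hRot := rot_of_pack hCone S.inv hP hnΛ hT hΛ
  refine ⟨AxI S1.inv n (cD1 δ), inferInstance, AxY (12 * cH δ), AxR, hP, hCone, hRot,
    hRot.normal, ?_⟩
  let _ := hRot.normal
  exact ⟨_, _, inferInstance, inferInstance, hRot.qD, hRot.qapex, hRot.qAng, _, _,
    hRot.quo (noAdj_cone hCone)⟩

/-- **Reduction of the Burnside theorem** to the statement that the quotient of a stage is a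
stage. -/
theorem exists_burnside_of_quo {δ C A T n M Λ : ℕ} (hn : Odd n) (hC : 48 * δ + 2 ≤ C)
    (hA : 4 * C + 2 ≤ A) (hM2 : 2 ≤ M) (hM : 4 * δ + cκ δ + 1 ≤ M) (hT : 0 < T)
    (hΛ : 16 * BB δ (cκ δ) M (cΘ δ A) < Λ) (hnΛ : T * Λ ≤ n)
    (hkey : ∀ (G X ι G' V' ι' : Type) [Group G] [MulAction G X] [MulAction G ι] [Group G']
      [MulAction G' V'] [MulAction G' ι'] (d : X → X → ℕ) (Y : ι → Set X) (R : ι → Subgroup G)
      (D' : V' → V' → ℕ) (apex' : ι' → V') (ang' : ι' → V' → V' → ℕ) (π : G →* G')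
      (p : X ⊕ ι → V') (q : ι → ι'),
      Stage (G := G) d δ C A T n →
      Pack d Y R (cκ δ) (cΘ δ A) A T n (cD1 δ) (cD2 δ) (cE δ T) (cc0 δ) →
      Cone d Y δ (cκ δ) M →
      Rot (coneDist d Y M) (Sum.inr : ι → X ⊕ ι) (dPr d Y) R (BB δ (cκ δ) M (cΘ δ A)) Λ →
      Quo (coneDist d Y M) (Sum.inr : ι → X ⊕ ι) (dPr d Y) R (BB δ (cκ δ) M (cΘ δ A)) Λ D'
        apex' ang' π p q →
      Stage (G := G') D' δ C A T n) :
    ∃ (G : Type) (_ : Group G) (t x : G), Infinite G ∧ Subgroup.closure {t, x} = ⊤ ∧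
      ∀ g : G, g ^ n = 1 := by
  refine exists_burnside (δ := δ) (C := C) (A := A) (T := T) (n := n) (M := M) hn.pos hT hA hM2 ?_
  intro G X _ _ d S
  obtain ⟨ι, _, Y, R, hP, hCone, hRot, hnorm, V', ι', _, _, D', apex', ang', p, q, hQ⟩ :=
    stage_quo (M := M) (Λ := Λ) S hn hC hM hT hΛ hnΛ
  refine ⟨Rot.KK R, hnorm, V', inferInstance, D', fun x => p (Sum.inl x), ?_, ?_, ?_, ?_⟩
  · exact hkey G X ι (G ⧸ Rot.KK R) V' ι' d Y R D' apex' ang' _ p q S hP hCone hRot hQ
  · intro g x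
    exact hQ.p_smul g (Sum.inl x)
  · intro x y j h
    exact (hQ.le _ _).trans (coneDist_inl_le hCone j x y h)
  · intro g x h
    by_cases hg : g ^ n = 1
    · rw [hg]
      exact one_mem _
    · obtain ⟨i, hi⟩ := hP.ex g hg ⟨x, h.trans (by unfold cD1; omega)⟩
      exact Subgroup.subset_closure ⟨i, hP.pow_mem g i hi⟩

end Pool.Agent.Burnside
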