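import Pool.Agent.Burnside.S2q
import Pool.Agent.Burnside.S3q
import Pool.Agent.Burnside.S4q
import Pool.Agent.Burnside.Fix2
import Pool.Agent.Burnside.Quot
import Pool.Agent.Burnside.Axis
import Pool.Agent.Burnside.Limit

/-!
The step of the construction and the existence of infinite two generated groups of odd exponent.
-/

set_option autoImplicit false
set_option linter.unusedVariables false

namespace Pool.Agent.Burnside

open Cone

lemma coneDist_le_of_mul {X ι : Type*} {d : X → X → ℕ} {Y : ι → Set X} {δ κ M : ℕ}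
    (C : Cone d Y δ κ M) : ∀ (j : ℕ) (x y : X), d x y ≤ j * M →
      coneDist d Y M (Sum.inl x) (Sum.inl y) ≤ j := by
  intro j
  induction j with
  | zero =>
    intro x y h
    have : x = y := C.geod.eq x y (by omega)
    rw [this, C.isGeod.self]
  | succ j ih =>
    intro x y h
    by_cases h1 : d x y ≤ M
    · have := C.dist_inl h1
      omega
    · obtain ⟨z, hz1, hz2⟩ := C.geod.geod x y M (by omega)
      have h2 : (j + 1) * M = j * M + M := by ring
      have h3 := ih z y (by omega)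
      have h4 := C.dist_inl (x := x) (y := z) (by omega)
      have h5 := C.isGeod.tri (Sum.inl x) (Sum.inl z) (Sum.inl y)
      omega

/-- the numerical conditions -/
structure Num (C A T n M Λ L0 ρ2 ρ3 B : ℕ) : Prop where
  odd : Odd n
  hC : 1490 ≤ C
  hT : 1 ≤ T
  hB : B = BB 31 (cκ 31) M (cΘ 31 A)
  hM : 4 * 31 + cκ 31 + 1 ≤ M
  hΛ1 : 212 * B < Λ
  hn1 : T * Λ ≤ n
  hρ2 : ρ2 = (4 * 126 + 1) * (M + 24 * B)
  hρ3 : ρ3 = (C + 3 * 126 + 3 * 126) * (M + (2 * (36 * B + 14 * B) + 3 * B) + 2 * B)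
  hT2 : M + (A + cc0 31 * (ρ2 + 1)) + 2 * B ≤ T
  hΛ2 : A + cc0 31 * (ρ2 + 1) + 13 * B < Λ
  hΛ3 : A + cc0 31 * (ρ3 + 1) + 13 * B < Λ
  hL0 : 4 * (C + 3 * 126) + 6 * 126 + 6 ≤ L0
  hA : 2 * L0 + 16 * C + 2 ≤ A
  hM1 : A + cc0 31 * (ρ3 + 1) + M * (4 * (C + 3 * 126) + 6 * 126 + 5) ≤ M * L0
  hM2 : ρ3 + cE 31 T + M * (4 * (C + 3 * 126) + 6 * 126 + 9) ≤ M * L0
  hn2 : T * (2 * (15 * B + 1) + cD2 31) ≤ n

theorem stage_step {C A T n M Λ L0 ρ2 ρ3 B : ℕ} (N : Num C A T n M Λ L0 ρ2 ρ3 B)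
    (G X : Type) [Group G] [MulAction G X] (d : X → X → ℕ) (S : Stage (G := G) d 31 C A T n) :
    ∃ (K : Subgroup G) (_ : K.Normal) (X' : Type) (_ : MulAction (G ⧸ K) X')
      (d' : X' → X' → ℕ) (f : X → X'), Stage (G := G ⧸ K) d' 31 C A T n ∧
      (∀ (g : G) x, f (g • x) = (g : G ⧸ K) • f x) ∧
      (∀ x y j, d x y ≤ j * M → d' (f x) (f y) ≤ j) ∧
      (∀ (g : G) x, d x (g • x) ≤ 1 → g ^ n ∈ K) := by
  have hn0 : 0 < n := N.odd.pos
  have hc := N.hC
  have hT1 := N.hT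
  have SA : Act G d 31 C A T n := S.act N.odd (by omega)
  have P := SA.pack
  set Y : AxI SA.inv n (cD1 31) → Set X := AxY (12 * cH 31) with hY
  have CC : Cone d Y 31 (cκ 31) M :=
    { geod := S.geod
      slim := S.slim
      ne := P.ne
      qc := P.qc
      hM := N.hM }
  have hBdef := N.hB
  have hR : Rot (coneDist d Y M) (Sum.inr : AxI SA.inv n (cD1 31) → X ⊕ AxI SA.inv n (cD1 31))
      (dPr d Y) AxR (BB 31 (cκ 31) M (cΘ 31 A)) Λ := by
    refine rot_of_pack CC S.inv P N.hn1 (by omega) ?_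
    have := N.hΛ1
    rw [← hBdef]
    omega
  have hna : Rot.NoAdj (coneDist d Y M)
      (Sum.inr : AxI SA.inv n (cD1 31) → X ⊕ AxI SA.inv n (cD1 31)) := by
    intro i j h
    by_cases hij : i = j
    · rw [hij, CC.isGeod.self] at h
      omega
    · have := one_lt_apex CC hij
      omega
  haveI := hR.normal
  have hQ := hR.quo hna
  have hfix : ∀ (g' : G ⧸ Rot.KK (AxR : AxI SA.inv n (cD1 31) → Subgroup G))
      (i' j' : Orb (Rot.KK (AxR : AxI SA.inv n (cD1 31) → Subgroup G)) (AxI SA.inv n (cD1 31))),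
      i' ≠ j' → g' • i' = i' → g' • j' = j' → g' = 1 := by
    intro g' i' j' hij h1 h2
    refine fix2 closingStmt hR hQ (fun g i j a b c => P.two g i j a b c) ?_ g' _ i' j' rfl hij h1 h2
    have := N.hΛ1
    rw [← hBdef]
    omega
  have hF : FPt (coneDist d Y M) 126 := fp_of_slim CC.isGeod CC.slim31
  have hslim' := hQ.slim 31 CC.slim31
  have hF' := fp_of_slim hQ.sys.geod hslim'
  have hF'' : FPt hR.qD 126 := hF'
  have hD1 : cD1 31 = 506 := rfl
  refine ⟨Rot.KK AxR, hR.normal, Orb (Rot.KK AxR) (X ⊕ AxI SA.inv n (cD1 31)), inferInstance,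
    hR.qD, fun x => Orb.mk _ (Sum.inl x), ?_, ?_, ?_, ?_⟩
  · refine
      { geod := hQ.sys.geod
        inv := hQ.sys.inv
        slim := hslim'
        ne := ?_
        s2 := ?_
        s3a := ?_
        s3b := ?_
        s4 := ?_ }
    · obtain ⟨x, -⟩ := S.ne
      exact ⟨Orb.mk _ (Sum.inl x), trivial⟩
    · intro g
      have a1 := N.hT2
      have a2 := N.hΛ2
      rw [hBdef] at a1 a2
      exact s2q S CC P hR hQ hF'' (by have := N.hρ2; rw [hBdef] at this; exact this) N.hT a1 a2 g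
    · intro g x y hxy hgx hgy hgn
      have a1 := N.hΛ1
      have a2 := N.hΛ3
      have a3 := N.hρ3
      rw [hBdef] at a1 a2 a3
      exact s3aq closingStmt CC P hR hQ (fun g' i' j' h1 h2 h3 => hfix g' i' j' h3 h1 h2) hF hF''
        (by omega) (by omega) a3 N.hL0 N.hA N.hM1 N.hM2 a2 hn0 g x y hxy hgx hgy hgn
    · intro g h x y hxy hgx hgy hhx hhy
      have a1 := N.hΛ1
      have a3 := N.hρ3
      rw [hBdef] at a1 a3
      exact s3bq closingStmt CC P hR hQ (fun g' i' j' h1 h2 h3 => hfix g' i' j' h3 h1 h2) hF hF''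
        (by omega) (by omega) a3 N.hL0 N.hA N.hM1 g h x y hxy hgx hgy hhx hhy
    · have a1 := N.hT2
      rw [hBdef] at a1
      have a2 := N.hn2
      rw [hBdef] at a2
      exact s4_quot S P CC hR hQ hfix (by omega) hn0 (by omega) (by rw [hD1]; norm_num) le_rfl a2
  · intro g x
    exact hQ.p_smul g (Sum.inl x)
  · intro x y j h
    exact le_trans (hQ.le _ _) (coneDist_le_of_mul CC j x y h)
  · intro g x h
    by_cases hg : g ^ n = 1
    · rw [hg]
      exact one_mem _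
    · obtain ⟨i, hi⟩ := P.ex g hg ⟨x, by rw [hD1]; omega⟩
      exact Subgroup.subset_closure ⟨i, P.pow_mem g i hi⟩

end Pool.Agent.Burnside
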